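import Pool.Agent.Lib.MP_a688ad_al.HW3

/-!
# The action of `gl_r` on `Sym^n(V ⊗ Sym^k V)`, for every `k`
-/

set_option autoImplicit false

open MvPolynomial Finset

namespace Pool.Agent.Lib.MP_a688ad_al

namespace T2

variable {r k : ℕ}

/-- Index set of the basis `x_u ⊗ x^t` of `V ⊗ Sym^k V`. -/
abbrev Ib (r k : ℕ) := Fin r × Sym (Fin r) k

/-- The unordered tuple. -/
def sy (t : Fin k → Fin r) : Sym (Fin r) k := ⟨univ.val.map t, by simp⟩

theorem sy_val (t : Fin k → Fin r) : (sy t).1 = univ.val.map t := rfl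

theorem sy_surj (s : Sym (Fin r) k) : ∃ t : Fin k → Fin r, sy t = s := by
  obtain ⟨s, hs⟩ := s
  induction s using Quot.inductionOn with
  | _ l =>
    have hl : l.length = k := hs
    subst hl
    refine ⟨l.get, ?_⟩
    apply Subtype.ext
    show univ.val.map l.get = (l : Multiset (Fin r))
    exact Fin.univ_val_map l.get |>.trans (by rw [List.ofFn_get])

/-- One `j` is replaced by `i`. -/
def rp (s : Sym (Fin r) k) (j i : Fin r) : Sym (Fin r) k :=
  if h : j ∈ s.1 then ⟨i ::ₘ s.1.erase j, by
    rw [Multiset.card_cons, Multiset.card_erase_of_mem h, s.2]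
    have : 0 < k := by
      rw [← s.2]
      exact Multiset.card_pos_iff_exists_mem.2 ⟨j, h⟩
    exact Nat.succ_pred_eq_of_pos this⟩ else s

theorem rp_sy (t : Fin k → Fin r) (a : Fin k) (i : Fin r) :
    rp (sy t) (t a) i = sy (Function.update t a i) := by
  have h : t a ∈ (sy t).1 := Multiset.mem_map_of_mem t (Finset.mem_univ_val a)
  refine (dif_pos h).trans ?_
  apply Subtype.ext
  show i ::ₘ (univ.val.map t).erase (t a) = univ.val.map (Function.update t a i)
  have h1 : (univ : Finset (Fin k)).val = a ::ₘ (univ.erase a).val := by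
    rw [Finset.erase_val]
    exact (Multiset.cons_erase (Finset.mem_univ_val a)).symm
  rw [h1, Multiset.map_cons, Multiset.map_cons, Multiset.erase_cons_head, Function.update_self]
  congr 1
  apply Multiset.map_congr rfl
  intro b hb
  have hb' : b ∈ univ.erase a := hb
  rw [Function.update_of_ne (Finset.ne_of_mem_erase hb')]

/-- The operator `x_i ∂/∂x_j`. -/
noncomputable def DE (i j : Fin r) :
    Derivation ℂ (MvPolynomial (Ib r k) ℂ) (MvPolynomial (Ib r k) ℂ) :=
  mkDerivation ℂ (fun p => (if p.1 = j then X (i, p.2) else 0)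
    + ((p.2.1.count j : ℕ) : ℂ) • X (p.1, rp p.2 j i))

/-- The variable of a tuple of letters; the first letter is the factor `V`. -/
noncomputable def Xt (τ : Fin (k + 1) → Fin r) : MvPolynomial (Ib r k) ℂ :=
  X (τ 0, sy fun a => τ a.succ)

theorem Xt_surj (p : Ib r k) : ∃ τ : Fin (k + 1) → Fin r, Xt τ = X p := by
  obtain ⟨u, s⟩ := p
  obtain ⟨t, rfl⟩ := sy_surj s
  refine ⟨Fin.cons u t, ?_⟩
  unfold Xt
  rw [Fin.cons_zero]
  congr 2

theorem DE_Xt (i j : Fin r) (τ : Fin (k + 1) → Fin r) : DE i j (Xt τ)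
    = ∑ a, if τ a = j then Xt (Function.update τ a i) else 0 := by
  have e0 : DE i j (Xt τ) = (if τ 0 = j then X (i, sy fun a => τ a.succ) else 0)
      + (((univ.val.map fun a : Fin k => τ a.succ).count j : ℕ) : ℂ) •
        X (τ 0, rp (sy fun a => τ a.succ) j i) := mkDerivation_X _ _ _
  have e1 : (Xt (Function.update τ 0 i) : MvPolynomial (Ib r k) ℂ)
      = X (i, sy fun a => τ a.succ) := by
    unfold Xt
    rw [Function.update_self]
    congr 3
  have h : ∀ a : Fin k, (if τ a.succ = j then
      (Xt (Function.update τ a.succ i) : MvPolynomial (Ib r k) ℂ) else 0)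
        = if τ a.succ = j then X (τ 0, rp (sy fun a => τ a.succ) j i) else 0 := by
    intro a
    split_ifs with ha
    · have h1 := rp_sy (fun a : Fin k => τ a.succ) a i
      rw [ha] at h1
      rw [h1]
      unfold Xt
      rw [Function.update_of_ne (Fin.succ_ne_zero a).symm]
      congr 3
      funext b
      by_cases hb : b = a
      · subst hb
        rw [Function.update_self, Function.update_self]
      · rw [Function.update_of_ne hb, Function.update_of_ne (fun h => hb (Fin.succ_injective _ h))]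
    · rfl
  rw [e0, Fin.sum_univ_succ, e1, Finset.sum_congr rfl fun a _ => h a, ← Finset.sum_filter,
    Finset.sum_const, ← Nat.cast_smul_eq_nsmul ℂ, Multiset.count_map, ← Finset.filter_val,
    Finset.card_val]
  congr 3
  simp only [eq_comm]

theorem DE_comm (i j k' l : Fin r) :
    ⁅(DE i j : Derivation ℂ (MvPolynomial (Ib r k) ℂ) (MvPolynomial (Ib r k) ℂ)),
      (DE k' l : Derivation ℂ (MvPolynomial (Ib r k) ℂ) (MvPolynomial (Ib r k) ℂ))⁆
      = (if j = k' then (1 : ℂ) else 0) • DE i l - (if i = l then (1 : ℂ) else 0) • DE k' j := by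
  apply derivation_ext
  intro p
  obtain ⟨τ, hτ⟩ := Xt_surj p
  rw [← hτ, Derivation.commutator_apply, Derivation.sub_apply, Derivation.smul_apply,
    Derivation.smul_apply]
  have key : ∀ i j k' l : Fin r, DE i j (DE k' l (Xt τ))
      = (if j = k' then (1 : ℂ) else 0) • DE i l (Xt τ)
        + ∑ a, ∑ b, if a ≠ b ∧ τ a = l ∧ τ b = j then
          Xt (Function.update (Function.update τ a k') b i) else 0 := by
    intro i j k' l
    rw [DE_Xt, map_sum]
    have h1 : ∀ a, DE i j (if τ a = l then Xt (Function.update τ a k') else 0)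
        = (if j = k' then (1 : ℂ) else 0) • (if τ a = l then Xt (Function.update τ a i) else 0)
          + ∑ b, if a ≠ b ∧ τ a = l ∧ τ b = j then
            Xt (Function.update (Function.update τ a k') b i) else 0 := by
      intro a
      by_cases ha : τ a = l
      · rw [if_pos ha, if_pos ha, DE_Xt]
        rw [← Finset.add_sum_erase univ _ (Finset.mem_univ a),
          ← Finset.add_sum_erase univ (fun b => if a ≠ b ∧ τ a = l ∧ τ b = j then
            Xt (Function.update (Function.update τ a k') b i) else 0) (Finset.mem_univ a)]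
        rw [if_neg (by simp : ¬(a ≠ a ∧ τ a = l ∧ τ a = j)), zero_add, Function.update_self,
          Function.update_idem]
        congr 1
        · by_cases hjk : j = k'
          · rw [if_pos hjk, if_pos hjk.symm, one_smul]
          · rw [if_neg hjk, if_neg (fun h => hjk h.symm), zero_smul]
        · refine Finset.sum_congr rfl fun b hb => ?_
          have hb' : b ≠ a := Finset.ne_of_mem_erase hb
          rw [Function.update_of_ne hb']
          by_cases hbj : τ b = j
          · rw [if_pos hbj, if_pos ⟨hb'.symm, ha, hbj⟩]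
          · rw [if_neg hbj, if_neg (fun h => hbj h.2.2)]
      · rw [if_neg ha, if_neg ha, map_zero, smul_zero, zero_add]
        symm
        apply Finset.sum_eq_zero
        intro b _
        rw [if_neg (fun h => ha h.2.1)]
    rw [Finset.sum_congr rfl fun a _ => h1 a, Finset.sum_add_distrib, ← Finset.smul_sum, ← DE_Xt]
  rw [key i j k' l, key k' l i j]
  have h2 : (∑ a, ∑ b, if a ≠ b ∧ τ a = l ∧ τ b = j then
        Xt (Function.update (Function.update τ a k') b i) else 0)
      = ∑ a, ∑ b, if a ≠ b ∧ τ a = j ∧ τ b = l then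
        Xt (Function.update (Function.update τ a i) b k') else 0 := by
    rw [Finset.sum_comm]
    refine Finset.sum_congr rfl fun b _ => Finset.sum_congr rfl fun a _ => ?_
    by_cases h : a ≠ b ∧ τ a = l ∧ τ b = j
    · rw [if_pos h, if_pos ⟨h.1.symm, h.2.2, h.2.1⟩, Function.update_comm h.1]
    · rw [if_neg h, if_neg (fun h' => h ⟨h'.1.symm, h'.2.2, h'.2.1⟩)]
  rw [h2]
  have h3 : (if l = i then (1 : ℂ) else 0) = if i = l then 1 else 0 := by simp only [eq_comm]
  rw [h3]
  abel

/-- The weight of a basis vector. -/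
def wt (p : Ib r k) : Fin r → ℤ := sg p.1 + (p.2.1.map sg).sum

theorem wt_tuple (τ : Fin (k + 1) → Fin r) :
    wt ((τ 0, sy fun a => τ a.succ) : Ib r k) = ∑ a, sg (τ a) := by
  rw [Fin.sum_univ_succ]
  unfold wt
  rw [sy_val, Multiset.map_map]
  rfl

/-- The weight together with the degree. -/
def WT (p : Ib r k) : (Fin r → ℤ) × ℤ := (wt p, 1)

theorem sg_nonneg (i k : Fin r) : 0 ≤ sg i k := by
  unfold sg
  rw [Pi.single_apply]
  split_ifs <;> simp

theorem wt_nonneg (p : Ib r k) (l : Fin r) : 0 ≤ wt p l := by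
  obtain ⟨u, s⟩ := p
  obtain ⟨t, rfl⟩ := sy_surj s
  have h := wt_tuple (k := k) (Fin.cons u t : Fin (k + 1) → Fin r)
  simp only [Fin.cons_zero, Fin.cons_succ] at h
  rw [h, Finset.sum_apply]
  exact Finset.sum_nonneg fun a _ => sg_nonneg _ _

theorem sum_wt (p : Ib r k) : ∑ l, wt p l = (k : ℤ) + 1 := by
  obtain ⟨u, s⟩ := p
  obtain ⟨t, rfl⟩ := sy_surj s
  have h := wt_tuple (k := k) (Fin.cons u t : Fin (k + 1) → Fin r)
  simp only [Fin.cons_zero, Fin.cons_succ] at h
  rw [h]
  simp only [Finset.sum_apply]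
  rw [Finset.sum_comm]
  simp only [GlFam.sum_sg]
  simp

theorem isW_Xt (τ : Fin (k + 1) → Fin r) :
    IsWeightedHomogeneous WT (Xt τ : MvPolynomial (Ib r k) ℂ) (∑ a, sg (τ a), 1) := by
  have h := isWeightedHomogeneous_X ℂ (WT : Ib r k → _) (τ 0, sy fun a => τ a.succ)
  have e : WT ((τ 0, sy fun a => τ a.succ) : Ib r k) = (∑ a, sg (τ a), 1) := by
    unfold WT
    rw [wt_tuple]
  rw [e] at h
  exact h

theorem DE_X_hom (i j : Fin r) (p : Ib r k) :
    IsWeightedHomogeneous WT (DE i j (X p : MvPolynomial (Ib r k) ℂ)) (WT p + (sg i - sg j, 0)) := by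
  obtain ⟨τ, hτ⟩ := Xt_surj p
  have hw : WT p = (∑ a, sg (τ a), 1) := by
    have h1 := isW_Xt τ
    rw [hτ] at h1
    exact (isWeightedHomogeneous_X ℂ WT p).inj_right (X_ne_zero p) h1
  rw [← hτ, DE_Xt]
  apply IsWeightedHomogeneous.sum
  intro a _
  split_ifs with ha
  · have h2 := isW_Xt (Function.update τ a i)
    have e : (∑ b, sg (Function.update τ a i b), (1 : ℤ)) = WT p + (sg i - sg j, 0) := by
      rw [hw, Prod.mk_add_mk, add_zero]
      congr 1
      rw [← Finset.add_sum_erase univ _ (Finset.mem_univ a),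
        ← Finset.add_sum_erase univ (fun b => sg (τ b)) (Finset.mem_univ a), Function.update_self, ha]
      have h3 : ∑ b ∈ univ.erase a, sg (Function.update τ a i b) = ∑ b ∈ univ.erase a, sg (τ b) :=
        Finset.sum_congr rfl fun b hb => by rw [Function.update_of_ne (Finset.ne_of_mem_erase hb)]
      rw [h3]
      abel
    rw [e] at h2
    exact h2
  · exact isWeightedHomogeneous_zero _ _ _

theorem DE_monomial (i j : Fin r) (d : Ib r k →₀ ℕ) (c : ℂ) :
    DE i j (monomial d c)
      = c • d.sum fun p n => monomial (d - Finsupp.single p 1) (n : ℂ) • DE i j (X p) := by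
  unfold DE
  rw [mkDerivation_monomial]
  simp only [mkDerivation_X]

theorem DE_hom (i j : Fin r) {F : MvPolynomial (Ib r k) ℂ} {m : (Fin r → ℤ) × ℤ}
    (hF : IsWeightedHomogeneous WT F m) :
    IsWeightedHomogeneous WT (DE i j F) (m + (sg i - sg j, 0)) := by
  rw [← support_sum_monomial_coeff F, map_sum]
  apply IsWeightedHomogeneous.sum
  intro d hd
  have hw : Finsupp.weight WT d = m := hF (mem_support_iff.1 hd)
  rw [DE_monomial]
  rw [← mem_weightedHomogeneousSubmodule ℂ]
  apply Submodule.smul_mem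
  rw [Finsupp.sum]
  apply Submodule.sum_mem
  intro p hp
  rw [mem_weightedHomogeneousSubmodule, smul_eq_mul]
  have hp0 : d p ≠ 0 := Finsupp.mem_support_iff.1 hp
  have h1 := isWeightedHomogeneous_monomial WT (d - Finsupp.single p 1) ((d p : ℕ) : ℂ) rfl
  have h2 := h1.mul (DE_X_hom i j p)
  have e : Finsupp.weight WT (d - Finsupp.single p 1) + (WT p + (sg i - sg j, 0))
      = m + (sg i - sg j, 0) := by
    rw [← add_assoc, Finsupp.weight_sub_single_add hp0, hw]
  rw [e] at h2
  exact h2

theorem DE_diag_X (i : Fin r) (p : Ib r k) :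
    DE i i (X p : MvPolynomial (Ib r k) ℂ) = (wt p i : ℂ) • X p := by
  obtain ⟨τ, hτ⟩ := Xt_surj p
  have hw : wt p = ∑ a, sg (τ a) := by
    have h1 := isW_Xt τ
    rw [hτ] at h1
    exact congrArg Prod.fst ((isWeightedHomogeneous_X ℂ WT p).inj_right (X_ne_zero p) h1)
  rw [hw, ← hτ, DE_Xt, Finset.sum_apply]
  push_cast
  rw [Finset.sum_smul]
  refine Finset.sum_congr rfl fun a _ => ?_
  by_cases ha : τ a = i
  · rw [if_pos ha, ← ha, Function.update_eq_self]
    unfold sg
    simp
  · rw [if_neg ha]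
    unfold sg
    rw [Pi.single_apply, if_neg (fun h => ha h.symm)]
    simp

theorem DE_diag (i : Fin r) {F : MvPolynomial (Ib r k) ℂ} {m : (Fin r → ℤ) × ℤ}
    (hF : IsWeightedHomogeneous WT F m) : DE i i F = (m.1 i : ℂ) • F := by
  conv_lhs => rw [← support_sum_monomial_coeff F]
  conv_rhs => rw [← support_sum_monomial_coeff F]
  rw [map_sum, Finset.smul_sum]
  apply Finset.sum_congr rfl
  intro d hd
  have hw : Finsupp.weight WT d = m := hF (mem_support_iff.1 hd)
  rw [DE_monomial]
  have h1 : (d.sum fun p n => monomial (d - Finsupp.single p 1) (n : ℂ) • DE i i (X p))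
      = ∑ p ∈ d.support, (((d p : ℕ) : ℂ) * (wt p i : ℂ)) • monomial d (1 : ℂ) := by
    rw [Finsupp.sum]
    refine Finset.sum_congr rfl fun p hp => ?_
    have hp0 : d p ≠ 0 := Finsupp.mem_support_iff.1 hp
    rw [DE_diag_X, smul_eq_mul, mul_smul_comm, X, monomial_mul, Finsupp.sub_add_single_one_cancel hp0,
      mul_one, smul_monomial, smul_monomial]
    congr 1
    simp only [smul_eq_mul]
    ring
  rw [h1, ← Finset.sum_smul, ← hw, Finsupp.weight_apply, Finsupp.sum]
  rw [smul_monomial, smul_monomial, smul_monomial]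
  congr 1
  simp only [smul_eq_mul, mul_one]
  rw [mul_comm]
  congr 1
  rw [Prod.fst_sum, Finset.sum_apply]
  push_cast
  refine Finset.sum_congr rfl fun p _ => ?_
  simp [WT]

theorem weight_fst (d : Ib r k →₀ ℕ) (i : Fin r) :
    (Finsupp.weight WT d).1 i = ∑ p ∈ d.support, (d p : ℤ) * wt p i := by
  rw [Finsupp.weight_apply, Finsupp.sum, Prod.fst_sum, Finset.sum_apply]
  refine Finset.sum_congr rfl fun p _ => ?_
  simp [WT]

theorem weight_snd (d : Ib r k →₀ ℕ) : (Finsupp.weight WT d).2 = (d.degree : ℤ) := by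
  rw [Finsupp.weight_apply, Finsupp.sum, Prod.snd_sum, Finsupp.degree_apply]
  push_cast
  refine Finset.sum_congr rfl fun p _ => ?_
  simp [WT]

theorem finite_WT (m : (Fin r → ℤ) × ℤ) : {d : Ib r k →₀ ℕ | Finsupp.weight WT d = m}.Finite := by
  apply (Finsupp.finite_of_degree_eq (σ := Ib r k) m.2.toNat).subset
  intro d hd
  have h1 : Finsupp.weight WT d = m := hd
  have h2 := weight_snd d
  rw [h1] at h2
  show d.degree = m.2.toNat
  omega

/-- The weight spaces of `Sym^n(V ⊗ Sym^k V)`. -/
noncomputable def Gl (r k n : ℕ) : GlFam r (MvPolynomial (Ib r k) ℂ) where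
  E := fun i j => (DE i j).toLinearMap
  comm := by
    intro i j a l v
    have h := congrArg (fun D => D v) (DE_comm (k := k) i j a l)
    rw [Derivation.commutator_apply, Derivation.sub_apply, Derivation.smul_apply,
      Derivation.smul_apply] at h
    show DE i j (DE a l v) - DE a l (DE i j v) = (if j = a then DE i l v else 0)
      - (if i = l then DE a j v else 0)
    rw [h]
    congr 1 <;> split_ifs <;> simp
  G := fun ν => weightedHomogeneousSubmodule ℂ WT (ν, (n : ℤ))
  fin := by
    intro ν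
    rw [weightedHomogeneousSubmodule_eq_finsupp_supported]
    have := (finite_WT (r := r) (k := k) (ν, (n : ℤ))).to_subtype
    exact Module.Finite.of_basis
      (basisRestrictSupport ℂ {d : Ib r k →₀ ℕ | Finsupp.weight WT d = (ν, (n : ℤ))})
  map := by
    intro ν i j v hv
    have h := DE_hom i j ((mem_weightedHomogeneousSubmodule _ _ _ _).1 hv)
    have e : ((ν, (n : ℤ)) : (Fin r → ℤ) × ℤ) + (sg i - sg j, 0) = (ν + sg i - sg j, (n : ℤ)) := by
      rw [Prod.mk_add_mk, add_zero, add_sub_assoc]
    rw [e] at h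
    exact h
  diag := by
    intro ν i v hv
    exact DE_diag i ((mem_weightedHomogeneousSubmodule _ _ _ _).1 hv)
  d0 := (k + 1) * n
  nonneg := by
    intro ν i hi
    rw [Submodule.eq_bot_iff]
    intro F hF
    by_contra h0
    obtain ⟨d, hd⟩ := MvPolynomial.ne_zero_iff.1 h0
    have h1 : Finsupp.weight WT d = (ν, (n : ℤ)) := hF hd
    have h2 := weight_fst d i
    rw [h1] at h2
    have h3 : 0 ≤ ∑ p ∈ d.support, (d p : ℤ) * wt p i :=
      Finset.sum_nonneg fun p _ => mul_nonneg (Int.natCast_nonneg _) (wt_nonneg p i)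
    simp only at h2
    omega
  deg := by
    intro ν hν
    rw [Submodule.eq_bot_iff]
    intro F hF
    by_contra h0
    obtain ⟨d, hd⟩ := MvPolynomial.ne_zero_iff.1 h0
    have h1 : Finsupp.weight WT d = (ν, (n : ℤ)) := hF hd
    apply hν
    have h2 : ∀ i, ν i = ∑ p ∈ d.support, (d p : ℤ) * wt p i := by
      intro i
      rw [← weight_fst, h1]
    have h3 := weight_snd d
    rw [h1] at h3
    have h4 : (n : ℤ) = d.degree := h3
    simp only [h2]
    rw [Finset.sum_comm]
    simp only [← Finset.mul_sum, sum_wt]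
    rw [← Finset.sum_mul]
    have h5 : (d.degree : ℤ) = ∑ p ∈ d.support, (d p : ℤ) := by
      rw [Finsupp.degree_apply]; push_cast; rfl
    push_cast
    rw [h4, h5]
    ring

theorem Gl_E (r k n : ℕ) (i j : Fin r) (F : MvPolynomial (Ib r k) ℂ) :
    (Gl r k n).E i j F = DE i j F := rfl

theorem mem_Gl (r k n : ℕ) (ν : Fin r → ℤ) (F : MvPolynomial (Ib r k) ℂ) :
    F ∈ (Gl r k n).G ν ↔ IsWeightedHomogeneous WT F (ν, (n : ℤ)) := Iff.rfl

end T2

end Pool.Agent.Lib.MP_a688ad_al
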