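import Pool.Agent.Lib.MP_a688ad_al.T2.Spec

/-!
# MP_a688ad_al, module AmP: power sums are in `A'`
-/

set_option autoImplicit false

open MvPolynomial Finset

namespace Pool.Agent.Lib.MP_a688ad_al

namespace T2

variable {m s : ℕ} {T : Type} [CommRing T] [Algebra ℂ T]

private theorem amp_cast {P : PS m s T} {q q' : ℕ} {ν ν' : Fin s → ℤ} {z z' : T}
    (h : z ∈ P.Am q ν) (hq : q = q') (hν : ν = ν') (hz : z = z') : z' ∈ P.Am q' ν' := by
  subst hq hν hz
  exact h

/-- power sums of at most `m` letters -/
private theorem amp_small (P : PS m s T) (M : Multiset (Fin s)) (h1 : 1 ≤ Multiset.card M)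
    (h2 : Multiset.card M ≤ m) : P.p M ∈ P.Am 0 (wtM M) := by
  rcases Nat.lt_or_ge 1 (Multiset.card M) with h | h
  · exact P.Am_p h h2
  · obtain ⟨w, rfl⟩ := Multiset.card_eq_one.1 (le_antisymm h h1)
    have h3 : P.p {w} = 0 := by
      unfold PS.p PS.mon
      simp only [Multiset.map_singleton, Multiset.prod_singleton]
      exact P.xsum w
    rw [h3]
    exact Submodule.zero_mem _

/-- elementary functions -/
private theorem amp_e (h2 : RelEStmt) (P : PS m s T) (u : ℕ → Fin s) : ∀ (n : ℕ) (S : Finset ℕ),
    S.card = n → P.e S u ∈ P.Am 0 (wtS S u) := by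
  intro n
  induction n using Nat.strong_induction_on with
  | _ n ih =>
    intro S hS
    rcases Nat.lt_or_ge m S.card with h | h
    · rw [P.e_zero h]
      exact Submodule.zero_mem _
    rcases S.eq_empty_or_nonempty with rfl | ⟨j0, hj0⟩
    · rw [P.e_empty]
      exact P.Am_one
    obtain ⟨S', hj, rfl⟩ : ∃ S', j0 ∉ S' ∧ insert j0 S' = S :=
      ⟨S.erase j0, Finset.notMem_erase _ _, Finset.insert_erase hj0⟩
    rw [Finset.card_insert_of_notMem hj] at hS h
    rw [h2 m s T P S' j0 u hj]
    refine Submodule.sum_mem _ fun R hR => Submodule.smul_mem _ _ ?_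
    have hR' : R ⊆ S' := Finset.mem_powerset.1 hR
    have hjR : j0 ∉ R := fun h => hj (hR' h)
    have hcR : R.card ≤ S'.card := Finset.card_le_card hR'
    have e1 := amp_small P (xs (insert j0 R) u)
      (by rw [card_xs, Finset.card_insert_of_notMem hjR]; omega)
      (by rw [card_xs, Finset.card_insert_of_notMem hjR]; omega)
    have e2 := ih (S' \ R).card (by
      have := Finset.card_le_card (Finset.sdiff_subset (s := S') (t := R))
      omega) (S' \ R) rfl
    refine amp_cast (P.Am_mul e1 e2) rfl ?_ rfl
    rw [wtM_xs, ← wtS_union]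
    · congr 1
      ext x
      simp only [Finset.mem_union, Finset.mem_insert, Finset.mem_sdiff]
      constructor
      · rintro ((h | h) | h)
        · exact Or.inl h
        · exact Or.inr (hR' h)
        · exact Or.inr h.1
      · rintro (h | h)
        · exact Or.inl (Or.inl h)
        · by_cases hx : x ∈ R
          · exact Or.inl (Or.inr hx)
          · exact Or.inr ⟨h, hx⟩
    · rw [Finset.disjoint_left]
      intro x hx hx'
      rw [Finset.mem_sdiff] at hx'
      rcases Finset.mem_insert.1 hx with rfl | hx
      · exact hj hx'.1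
      · exact hx'.2 hx

/-- all power sums -/
private theorem amp_p (h1 : RelPStmt) (h2 : RelEStmt) (P : PS m s T) : ∀ (n : ℕ)
    (M : Multiset (Fin s)), Multiset.card M = n → M ≠ 0 → P.p M ∈ P.Am 0 (wtM M) := by
  intro n
  induction n using Nat.strong_induction_on with
  | _ n ih =>
    intro M hM hM0
    have hpos : 1 ≤ Multiset.card M := Multiset.card_pos.2 hM0
    rcases Nat.lt_or_ge m (Multiset.card M) with h | h
    swap
    · exact amp_small P M hpos h
    obtain ⟨w, hw⟩ := Multiset.exists_mem_of_ne_zero hM0
    obtain ⟨u, hu, -⟩ := exists_xs M (fun _ => w) (Finset.range (Multiset.card M))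
      (Finset.card_range _)
    set B := Finset.range (Multiset.card M) with hB
    obtain ⟨I, hI1, hI2⟩ := Finset.exists_subset_card_eq
      (show m ≤ B.card by rw [hB, Finset.card_range]; omega)
    have hBc : B.card = Multiset.card M := by rw [hB, Finset.card_range]
    have hrel := h1 m s T P B I u hI1 hI2
    rw [← Finset.add_sum_erase _ _ (Finset.mem_powerset_self I), Finset.sdiff_self, P.e_empty,
      one_mul, Finset.sdiff_union_of_subset hI1, hu, add_eq_zero_iff_eq_neg] at hrel
    have hc : ((-1 : ℂ) ^ I.card * (I.card.factorial : ℂ)) ≠ 0 :=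
      mul_ne_zero (pow_ne_zero _ (by norm_num)) (Nat.cast_ne_zero.2 (Nat.factorial_ne_zero _))
    have hmem : ((-1 : ℂ) ^ I.card * (I.card.factorial : ℂ)) • P.p M ∈ P.Am 0 (wtM M) := by
      rw [hrel]
      refine Submodule.neg_mem _ (Submodule.sum_mem _ fun R hR => Submodule.smul_mem _ _ ?_)
      obtain ⟨hRI, hR⟩ := Finset.mem_erase.1 hR
      have hR' : R ⊆ I := Finset.mem_powerset.1 hR
      have hcR : R.card < I.card := Finset.card_lt_card
        (Finset.ssubset_iff_subset_ne.2 ⟨hR', hRI⟩)
      have hdis : Disjoint (B \ I) R := by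
        rw [Finset.disjoint_left]
        intro x hx hx'
        exact (Finset.mem_sdiff.1 hx).2 (hR' hx')
      have hBI : (B \ I).card + I.card = B.card := Finset.card_sdiff_add_card_eq_card hI1
      have hcard : Multiset.card (xs ((B \ I) ∪ R) u) = (B \ I).card + R.card := by
        rw [card_xs, Finset.card_union_of_disjoint hdis]
      have e1 := ih _ (by omega) (xs ((B \ I) ∪ R) u) hcard (by
        rw [← Multiset.card_pos, hcard]
        omega)
      have e2 := amp_e h2 P u (I \ R).card (I \ R) rfl
      refine amp_cast (P.Am_mul e2 e1) rfl ?_ rfl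
      have hu' : wtM M = wtS B u := by rw [← wtM_xs, hu]
      rw [hu', wtM_xs, ← wtS_union]
      · congr 1
        ext x
        simp only [Finset.mem_union, Finset.mem_sdiff]
        constructor
        · rintro (h | h | h)
          · exact hI1 h.1
          · exact h.1
          · exact hI1 (hR' h)
        · intro h
          by_cases hxI : x ∈ I
          · by_cases hxR : x ∈ R
            · exact Or.inr (Or.inr hxR)
            · exact Or.inl ⟨hxI, hxR⟩
          · exact Or.inr (Or.inl ⟨h, hxI⟩)
      · rw [Finset.disjoint_left]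
        intro x hx hx'
        rw [Finset.mem_sdiff] at hx
        rcases Finset.mem_union.1 hx' with h | h
        · exact (Finset.mem_sdiff.1 h).2 hx.1
        · exact hx.2 h
    have h3 := Submodule.smul_mem _ ((-1 : ℂ) ^ I.card * (I.card.factorial : ℂ))⁻¹ hmem
    rwa [smul_smul, inv_mul_cancel₀ hc, one_smul] at h3

theorem kAmP (h1 : RelPStmt) (h2 : RelEStmt) : AmPStmt := by
  intro m s T _ _ P _
  exact ⟨fun M hM => amp_p h1 h2 P _ M rfl hM, fun S u => amp_e h2 P u _ S rfl⟩

end T2

end Pool.Agent.Lib.MP_a688ad_al
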