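import Pool.Agent.Lib.MP_a688ad_al.T2.Spec

/-!
# MP_a688ad_al, G1: the Casimir operator on invariants of the translations
-/

set_option autoImplicit false

open MvPolynomial Finset

namespace Pool.Agent.Lib.MP_a688ad_al

namespace T2

theorem kCW : CWStmt := by
  intro s V _ _ S ν X₀ hX h0
  rw [GlFam.Cas_apply, Fin.sum_univ_succ, Fin.sum_univ_succ]
  have e00 : S.E 0 0 (S.E 0 0 X₀) = ((ν 0 : ℂ) ^ 2) • X₀ := by
    rw [S.diag ν 0 X₀ hX, map_smul, S.diag ν 0 X₀ hX, smul_smul, pow_two]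
  have e0v : ∀ v : Fin s, S.E 0 v.succ (S.E v.succ 0 X₀) = ((ν 0 : ℂ) - ν v.succ) • X₀ := by
    intro v
    have h1 := S.comm 0 v.succ v.succ 0 X₀
    rw [if_pos rfl, if_pos rfl, h0 v, map_zero, sub_zero, S.diag ν 0 X₀ hX,
      S.diag ν v.succ X₀ hX] at h1
    rw [h1, sub_smul]
  have ev : ∀ i : Fin s, ∑ j, S.E i.succ j (S.E j i.succ X₀) =
      ∑ j : Fin s, S.E i.succ j.succ (S.E j.succ i.succ X₀) := by
    intro i
    rw [Fin.sum_univ_succ, h0 i, map_zero, zero_add]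
  rw [e00, Finset.sum_congr rfl fun v _ => e0v v, Finset.sum_congr rfl fun i _ => ev i,
    ← Finset.sum_smul, ← add_smul, add_comm]
  congr 2
  unfold c0
  push_cast
  ring

end T2

end Pool.Agent.Lib.MP_a688ad_al
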