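import Pool.Agent.Lib.MP_a688ad_al.T2.Spec

/-!
# The character of `Sym^n(V ⊗ Sym^k V)` is `h_n[h_1 h_k]`
-/

set_option autoImplicit false

open MvPolynomial Finset

namespace Pool.Agent.Lib.MP_a688ad_al

namespace T2

variable {r : ℕ}

theorem ch_prod_monomial {ι σ R : Type*} [CommRing R] (f : ι → σ →₀ ℕ) (s : Multiset ι) :
    (s.map (fun p => (monomial (f p) (1 : R)))).prod = monomial (s.map f).sum 1 := by
  induction s using Multiset.induction_on with
  | empty => simp
  | cons a s ih =>
    rw [Multiset.map_cons, Multiset.prod_cons, ih, Multiset.map_cons, Multiset.sum_cons,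
      monomial_mul, one_mul]

/-- The exponent of `mono`. -/
noncomputable def chMw {k : ℕ} (p : Fin r × Sym (Fin r) k) : Fin r →₀ ℕ :=
  Finsupp.single p.1 1 + (p.2.1.map (fun i => Finsupp.single i 1)).sum

theorem ch_mono_eq (k : ℕ) (p : Fin r × Sym (Fin r) k) : mono r k p = monomial (chMw p) 1 := by
  unfold mono chMw
  have h : (p.2.1.map (X : Fin r → MvPolynomial (Fin r) ℤ)).prod
      = monomial (p.2.1.map (fun i => Finsupp.single i 1)).sum 1 :=
    ch_prod_monomial (fun i => Finsupp.single i 1) p.2.1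
  rw [h, X, monomial_mul, one_mul]

theorem ch_pleth_eq (a k : ℕ) : pleth r a (k + 1)
    = ∑ s : Sym (Fin r × Sym (Fin r) k) a, monomial (s.1.map chMw).sum 1 := by
  unfold pleth hsymm
  rw [map_sum]
  refine Finset.sum_congr rfl fun s _ => ?_
  rw [map_multiset_prod, Multiset.map_map]
  have h : (s.1.map ((aeval (mono r (k + 1 - 1)) : MvPolynomial _ ℤ →ₐ[ℤ] _) ∘ X))
      = s.1.map (fun p => monomial (chMw p) (1 : ℤ)) := by
    apply Multiset.map_congr rfl
    intro p _
    rw [Function.comp_apply, aeval_X]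
    exact ch_mono_eq k p
  rw [h, ch_prod_monomial]

theorem ch_coeff_pleth (a k : ℕ) (m : Fin r →₀ ℕ) : coeff m (pleth r a (k + 1))
    = (Nat.card {s : Sym (Fin r × Sym (Fin r) k) a // (s.1.map chMw).sum = m} : ℤ) := by
  classical
  rw [ch_pleth_eq, coeff_sum]
  simp only [coeff_monomial]
  rw [Nat.card_eq_fintype_card, Fintype.card_subtype, Finset.card_filter]
  push_cast
  rfl

theorem ch_finrank_Gl (k n : ℕ) (ν : Fin r → ℤ) : Module.finrank ℂ ((Gl r k n).G ν)
    = Nat.card {d : Ib r k →₀ ℕ // Finsupp.weight WT d = (ν, (n : ℤ))} := by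
  have e : (Gl r k n).G ν
      = restrictSupport ℂ {d : Ib r k →₀ ℕ | Finsupp.weight WT d = (ν, (n : ℤ))} :=
    weightedHomogeneousSubmodule_eq_finsupp_supported _ _ _
  rw [e]
  exact Module.finrank_eq_nat_card_basis (basisRestrictSupport ℂ
    {d : Ib r k →₀ ℕ | Finsupp.weight WT d = (ν, (n : ℤ))})

theorem ch_wt {k : ℕ} (p : Fin r × Sym (Fin r) k) (i : Fin r) : wt p i = (chMw p i : ℤ) := by
  obtain ⟨u, s⟩ := p
  obtain ⟨s, hs⟩ := s
  have key : ∀ t : Multiset (Fin r), (t.map sg).sum i
      = (((t.map (fun i => Finsupp.single i 1)).sum i : ℕ) : ℤ) := by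
    intro t
    induction t using Multiset.induction_on with
    | empty => simp
    | cons a t ih =>
      rw [Multiset.map_cons, Multiset.sum_cons, Multiset.map_cons, Multiset.sum_cons, Pi.add_apply,
        Finsupp.add_apply, ih]
      push_cast
      congr 1
      simp [sg, Pi.single_apply, Finsupp.single_apply, eq_comm]
  show (sg u + (s.map sg).sum) i = _
  unfold chMw
  rw [Pi.add_apply, key, Finsupp.add_apply]
  push_cast
  congr 1
  simp [sg, Pi.single_apply, Finsupp.single_apply, eq_comm]

theorem ch_weight_toFinsupp {ι M : Type*} [AddCommMonoid M] [DecidableEq ι] (w : ι → M)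
    (s : Multiset ι) : Finsupp.weight w (Multiset.toFinsupp s) = (s.map w).sum := by
  induction s using Multiset.induction_on with
  | empty => simp
  | cons a s ih =>
    rw [← Multiset.singleton_add, map_add, map_add, ih, Multiset.map_add, Multiset.sum_add,
      Multiset.toFinsupp_singleton, Finsupp.weight_single]
    simp

theorem ch_card_eq (k n : ℕ) (m : Fin r →₀ ℕ) :
    Nat.card {s : Sym (Fin r × Sym (Fin r) k) n // (s.1.map chMw).sum = m}
      = Nat.card {d : Ib r k →₀ ℕ // Finsupp.weight WT d = ((fun i => (m i : ℤ)), (n : ℤ))} := by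
  classical
  have key : ∀ s : Multiset (Fin r × Sym (Fin r) k),
      Finsupp.weight WT (Multiset.toFinsupp s)
        = ((fun i => (((s.map chMw).sum i : ℕ) : ℤ)), (Multiset.card s : ℤ)) := by
    intro s
    rw [ch_weight_toFinsupp]
    induction s using Multiset.induction_on with
    | empty => simp; rfl
    | cons a s ih =>
      rw [Multiset.map_cons, Multiset.sum_cons, ih, Multiset.map_cons, Multiset.sum_cons,
        Multiset.card_cons]
      refine Prod.ext ?_ ?_
      · ext i
        show wt a i + _ = _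
        rw [ch_wt]
        push_cast [Finsupp.add_apply]
        rfl
      · show (1 : ℤ) + _ = _
        push_cast
        ring
  let f : {s : Sym (Fin r × Sym (Fin r) k) n // (s.1.map chMw).sum = m} →
      {d : Ib r k →₀ ℕ // Finsupp.weight WT d = ((fun i => (m i : ℤ)), (n : ℤ))} := fun s =>
    ⟨Multiset.toFinsupp s.1.1, by rw [key, s.2, s.1.2]⟩
  apply Nat.card_eq_of_bijective f
  constructor
  · intro s t hst
    have h1 : Multiset.toFinsupp s.1.1 = Multiset.toFinsupp t.1.1 := congrArg Subtype.val hst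
    have h2 := Multiset.toFinsupp.injective h1
    exact Subtype.ext (Subtype.ext h2)
  · intro d
    have h0 : Multiset.toFinsupp (Finsupp.toMultiset d.1) = d.1 := by simp
    have h1 := key (Finsupp.toMultiset d.1)
    rw [h0, d.2] at h1
    have h2 : (n : ℤ) = (Multiset.card (Finsupp.toMultiset d.1) : ℤ) := congrArg Prod.snd h1
    have h3 : (fun i => (m i : ℤ)) = (fun i => (((((Finsupp.toMultiset d.1)).map
      chMw).sum i : ℕ) : ℤ)) := congrArg Prod.fst h1
    refine ⟨⟨⟨Finsupp.toMultiset d.1, ?_⟩, ?_⟩, ?_⟩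
    · exact_mod_cast h2.symm
    · ext i
      have := congrFun h3 i
      exact_mod_cast this.symm
    · apply Subtype.ext
      exact h0

/-- The weight multiplicities are the coefficients of `h_n[h_1 h_k]`. -/
theorem ch_dd_Gl (k n : ℕ) (ν : Fin r → ℤ) :
    (Gl r k n).dd ν = ((cf (pleth r n (k + 1)) ν : ℤ) : ℂ) := by
  unfold cf
  split_ifs with h
  · unfold GlFam.dd
    rw [ch_finrank_Gl, ch_coeff_pleth n k, ch_card_eq]
    have e : (fun i => ((toF ν i : ℕ) : ℤ)) = ν := by
      ext i
      rw [toF_apply]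
      exact Int.toNat_of_nonneg (h i)
    rw [e]
    push_cast
    rfl
  · push Not at h
    obtain ⟨i, hi⟩ := h
    rw [(Gl r k n).dd_neg hi]
    simp

theorem ch_altc_Gl (k n : ℕ) (κ : Fin r → ℤ) :
    altc (Gl r k n).ch κ = ((altc (pleth r n (k + 1)) κ : ℤ) : ℂ) := by
  unfold altc
  push_cast
  refine Finset.sum_congr rfl fun σ _ => ?_
  rw [GlFam.cf_ch, ch_dd_Gl]

theorem kCh : ChStmt := by
  intro r k n lam hl hd
  have h1 := (Gl r k n).finrank_HW (lam := fun i => (lam i : ℤ))
    (fun i j h => by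
      show (lam j : ℤ) ≤ lam i
      exact_mod_cast hl h) (fun i => Int.natCast_nonneg _)
    (by show ∑ i, (lam i : ℤ) = (((k + 1) * n : ℕ) : ℤ); exact_mod_cast hd)
  rw [ch_altc_Gl, ← schurCoeff_eq] at h1
  exact_mod_cast h1.symm

end T2

end Pool.Agent.Lib.MP_a688ad_al
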