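import Pool.Agent.Lib.MP_a688ad_al.T2.Spec

/-!
# Projection to the highest weight vectors
-/

set_option autoImplicit false

open MvPolynomial Finset

namespace Pool.Agent.Lib.MP_a688ad_al

namespace T2

/-- An eigenvector in the image of an equivariant map is the image of a generalized eigenvector. -/
theorem cs_lift {N T : Type} [AddCommGroup N] [Module ℂ N] [FiniteDimensional ℂ N]
    [AddCommGroup T] [Module ℂ T] (f : N →ₗ[ℂ] N) (g : T →ₗ[ℂ] T) (φ : N →ₗ[ℂ] T)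
    (hφ : ∀ x, φ (f x) = g (φ x)) (c : ℂ) (x₀ : N) (h : g (φ x₀) = c • φ x₀) :
    ∃ x ∈ Module.End.maxGenEigenspace f c, φ x = φ x₀ := by
  have hmap : ∀ μ : ℂ, ∀ x ∈ Module.End.maxGenEigenspace f μ,
      φ x ∈ Module.End.maxGenEigenspace g μ := by
    intro μ x hx
    rw [Module.End.mem_maxGenEigenspace] at hx ⊢
    obtain ⟨k, hk⟩ := hx
    refine ⟨k, ?_⟩
    have h1 : ∀ (k : ℕ) (y : N), ((g - μ • (1 : Module.End ℂ T)) ^ k) (φ y)
        = φ (((f - μ • (1 : Module.End ℂ N)) ^ k) y) := by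
      intro k
      induction k with
      | zero => intro y; simp
      | succ k ih =>
        intro y
        rw [pow_succ, pow_succ, Module.End.mul_apply, Module.End.mul_apply, ← ih]
        congr 1
        rw [LinearMap.sub_apply, LinearMap.sub_apply, map_sub, hφ, LinearMap.smul_apply,
          LinearMap.smul_apply, Module.End.one_apply, Module.End.one_apply, map_smul]
    rw [h1, hk, map_zero]
  have htop := Module.End.iSup_maxGenEigenspace_eq_top f
  rw [iSup_split_single _ c] at htop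
  have hx₀ : x₀ ∈ (⊤ : Submodule ℂ N) := Submodule.mem_top
  rw [← htop, Submodule.mem_sup] at hx₀
  obtain ⟨x, hx, z, hz, hxz⟩ := hx₀
  refine ⟨x, hx, ?_⟩
  have h2 : φ z ∈ ⨆ (μ : ℂ) (_ : μ ≠ c), Module.End.maxGenEigenspace g μ := by
    have h3 : Submodule.map φ (⨆ (μ : ℂ) (_ : μ ≠ c), Module.End.maxGenEigenspace f μ)
        ≤ ⨆ (μ : ℂ) (_ : μ ≠ c), Module.End.maxGenEigenspace g μ := by
      rw [Submodule.map_iSup]
      refine iSup_mono fun μ => ?_
      rw [Submodule.map_iSup]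
      refine iSup_mono fun hμ => ?_
      rintro _ ⟨y, hy, rfl⟩
      exact hmap μ y hy
    exact h3 (Submodule.mem_map_of_mem hz)
  have h4 : φ z ∈ Module.End.maxGenEigenspace g c := by
    have h5 : φ x₀ ∈ Module.End.maxGenEigenspace g c := by
      rw [Module.End.mem_maxGenEigenspace]
      refine ⟨1, ?_⟩
      rw [pow_one, LinearMap.sub_apply, h]
      simp
    have h6 : φ z = φ x₀ - φ x := by
      rw [← hxz, map_add]
      abel
    rw [h6]
    exact Submodule.sub_mem _ h5 (hmap c x hx)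
  have h7 := (Module.End.independent_maxGenEigenspace g) c
  have h8 : φ z = 0 := by
    have := Submodule.disjoint_def.1 h7 (φ z) h4 h2
    exact this
  rw [← hxz, map_add, h8, add_zero]

theorem kCs (h1 : CWStmt) (h2 : PhEStmt) : CsStmt := by
  intro s k T _ _ P G n ν X₀ hanti hsum hX₀ hX₀' hF
  let S : GlFam (s + 1) (MvPolynomial (Ib (s + 1) k) ℂ) := Gl (s + 1) k n
  let N : Submodule ℂ (MvPolynomial (Ib (s + 1) k) ℂ) :=
    S.G ν ⊓ ⨅ v : Fin s, LinearMap.ker (S.E 0 v.succ)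
  have hNmem : ∀ X, X ∈ N ↔ X ∈ S.G ν ∧ ∀ v : Fin s, S.E 0 v.succ X = 0 := by
    intro X
    show X ∈ S.G ν ⊓ ⨅ v : Fin s, LinearMap.ker (S.E 0 v.succ) ↔ _
    rw [Submodule.mem_inf, Submodule.mem_iInf]
    rfl
  have hN : ∀ X ∈ N, S.Cas X ∈ N := by
    intro X hX
    rw [hNmem] at hX ⊢
    refine ⟨S.Cas_mem hX.1, fun v => ?_⟩
    rw [← S.Cas_comm, hX.2 v, map_zero]
  have : FiniteDimensional ℂ N := Submodule.finiteDimensional_of_le (inf_le_left : N ≤ S.G ν)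
  let f : N →ₗ[ℂ] N := S.Cas.restrict hN
  let g : T →ₗ[ℂ] T := ∑ i, ∑ j, (G.D i j).toLinearMap ∘ₗ (G.D j i).toLinearMap
    + (c0 ν : ℂ) • LinearMap.id
  let φ : N →ₗ[ℂ] T := (P.Ph k).toLinearMap.domRestrict N
  have hg : ∀ z, g z = ∑ i, ∑ j, G.D i j (G.D j i z) + (c0 ν : ℂ) • z := by
    intro z
    show (∑ i, ∑ j, (G.D i j).toLinearMap ∘ₗ (G.D j i).toLinearMap
      + (c0 ν : ℂ) • LinearMap.id : T →ₗ[ℂ] T) z = _
    simp [LinearMap.sum_apply]
  have hφ : ∀ x, φ (f x) = g (φ x) := by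
    intro x
    have hx := (hNmem x.1).1 x.2
    rw [hg]
    show P.Ph k (S.Cas x.1) = ∑ i, ∑ j, G.D i j (G.D j i (P.Ph k x.1)) + (c0 ν : ℂ) • P.Ph k x.1
    rw [h1 s _ S ν x.1 hx.1 hx.2, map_add, map_smul, map_sum]
    congr 1
    refine Finset.sum_congr rfl fun i _ => ?_
    rw [map_sum]
    refine Finset.sum_congr rfl fun j _ => ?_
    rw [h2 s k T P G, h2 s k T P G]
    rfl
  obtain ⟨x, hx, hx'⟩ := cs_lift f g φ hφ ((GlFam.cval ν : ℤ) : ℂ) ⟨X₀, (hNmem X₀).2 ⟨hX₀, hX₀'⟩⟩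
    (by
      rw [hg]
      show ∑ i, ∑ j, G.D i j (G.D j i (P.Ph k X₀)) + (c0 ν : ℂ) • P.Ph k X₀
        = ((GlFam.cval ν : ℤ) : ℂ) • P.Ph k X₀
      rw [hF, ← add_smul]
      push_cast
      rw [sub_add_cancel])
  refine ⟨x.1, ?_, hx'⟩
  have e := Module.End.genEigenspace_restrict S.Cas N ⊤ ((GlFam.cval ν : ℤ) : ℂ) hN
  have hx2 : x ∈ Submodule.comap N.subtype
      (Module.End.maxGenEigenspace S.Cas ((GlFam.cval ν : ℤ) : ℂ)) := by
    rw [← show Module.End.maxGenEigenspace f ((GlFam.cval ν : ℤ) : ℂ) = _ from e]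
    exact hx
  have hgoal : x.1 ∈ S.HW ν := by
    rw [S.HW_eq hanti hsum]
    exact ⟨((hNmem x.1).1 x.2).1, hx2⟩
  exact hgoal

end T2

end Pool.Agent.Lib.MP_a688ad_al
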