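import Pool.Agent.Lib.MP_a688ad_al.T2.Spec

/-!
# MP_a688ad_al, stable range: the derivations preserve `A'`
-/

set_option autoImplicit false

open MvPolynomial Finset

namespace Pool.Agent.Lib.MP_a688ad_al

namespace T2

section

variable {m s : ℕ} {T : Type} [CommRing T] [Algebra ℂ T] (P : PS m s T)

theorem dam_mon_cons (a : Fin s) (M : Multiset (Fin s)) (k : Fin m) :
    P.mon (a ::ₘ M) k = P.x k a * P.mon M k := by
  unfold PS.mon
  rw [Multiset.map_cons, Multiset.prod_cons]

variable {P} (G : P.GD)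

theorem dam_D_cons (i j u : Fin s) (M : Multiset (Fin s)) (k : Fin m)
    (h : G.D i j (P.mon M k) = (M.count j : T) * P.mon (i ::ₘ M.erase j) k) :
    G.D i j (P.mon (u ::ₘ M) k) = (M.count j : T) * P.mon (u ::ₘ i ::ₘ M.erase j) k +
      (if u = j then P.mon (i ::ₘ M) k else 0) := by
  rw [dam_mon_cons, Derivation.leibniz, h, G.Dx, dam_mon_cons P u, dam_mon_cons P i M]
  simp only [smul_eq_mul]
  split_ifs <;> ring

theorem dam_D_mon (i j : Fin s) (M : Multiset (Fin s)) (k : Fin m) :
    G.D i j (P.mon M k) = (M.count j : T) * P.mon (i ::ₘ M.erase j) k := by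
  induction M using Multiset.induction_on with
  | empty =>
    have h1 : P.mon 0 k = 1 := by
      simp [PS.mon]
    rw [h1, Derivation.map_one_eq_zero]
    simp
  | cons a M ih =>
    rw [dam_D_cons G i j a M k ih]
    by_cases ha : a = j
    · subst ha
      rw [if_pos rfl, Multiset.count_cons_self, Multiset.erase_cons_head]
      by_cases hc : a ∈ M
      · have h2 : P.mon (a ::ₘ i ::ₘ M.erase a) k = P.mon (i ::ₘ M) k := by
          rw [Multiset.cons_swap, Multiset.cons_erase hc]
        rw [h2]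
        push_cast
        ring
      · rw [Multiset.count_eq_zero_of_notMem hc]
        simp
    · rw [if_neg ha, Multiset.count_cons_of_ne (Ne.symm ha), Multiset.erase_cons_tail _ ha,
        add_zero, Multiset.cons_swap]

theorem dam_D_p (i j : Fin s) (M : Multiset (Fin s)) :
    G.D i j (P.p M) = (M.count j : T) * P.p (i ::ₘ M.erase j) := by
  unfold PS.p
  rw [map_sum, Finset.mul_sum]
  exact Finset.sum_congr rfl fun k _ => dam_D_mon G i j M k

theorem dam_D_pe (i j : Fin s) (M : Multiset (Fin s)) (v : Fin s) :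
    G.D i j (P.pe M v) = (M.count j : T) * P.pe (i ::ₘ M.erase j) v +
      (if v = j then P.pe M i else 0) := by
  have h1 : (if v = j then P.pe M i else 0) =
      ∑ k, P.mon M k * (if v = j then P.y k i else 0) := by
    split_ifs
    · rfl
    · simp
  rw [h1]
  unfold PS.pe
  rw [map_sum, Finset.mul_sum, ← Finset.sum_add_distrib]
  refine Finset.sum_congr rfl fun k _ => ?_
  rw [Derivation.leibniz, dam_D_mon, G.Dy]
  simp only [smul_eq_mul]
  ring

theorem dam_D_pe_cons (i j : Fin s) (M : Multiset (Fin s)) (u v : Fin s) :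
    G.D i j (P.pe (u ::ₘ M) v) = (M.count j : T) * P.pe (u ::ₘ i ::ₘ M.erase j) v +
      (if u = j then P.pe (i ::ₘ M) v else 0) + (if v = j then P.pe (u ::ₘ M) i else 0) := by
  have h1 : (if v = j then P.pe (u ::ₘ M) i else 0) =
      ∑ k, P.mon (u ::ₘ M) k * (if v = j then P.y k i else 0) := by
    split_ifs
    · rfl
    · simp
  have h2 : (if u = j then P.pe (i ::ₘ M) v else 0) =
      ∑ k, (if u = j then P.mon (i ::ₘ M) k else 0) * P.y k v := by
    split_ifs
    · rfl
    · simp
  rw [h1, h2]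
  unfold PS.pe
  rw [map_sum, Finset.mul_sum, ← Finset.sum_add_distrib, ← Finset.sum_add_distrib]
  refine Finset.sum_congr rfl fun k _ => ?_
  rw [Derivation.leibniz, dam_D_cons G i j u M k (dam_D_mon G i j M k), G.Dy]
  simp only [smul_eq_mul]
  ring

theorem dam_wt {i j : Fin s} {M : Multiset (Fin s)} (h : j ∈ M) :
    wtM (i ::ₘ M.erase j) = wtM M + sg i - sg j := by
  have h1 : wtM M = sg j + wtM (M.erase j) := by
    rw [← wtM_cons, Multiset.cons_erase h]
  rw [wtM_cons, h1]
  abel

theorem dam_card {i j : Fin s} {M : Multiset (Fin s)} (h : j ∈ M) :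
    Multiset.card (i ::ₘ M.erase j) = Multiset.card M := by
  rw [Multiset.card_cons, Multiset.card_erase_of_mem h]
  have h1 : 0 < Multiset.card M := Multiset.card_pos_iff_exists_mem.2 ⟨j, h⟩
  exact Nat.succ_pred_eq_of_pos h1

theorem dam_count {q : ℕ} {ν : Fin s → ℤ} {z : T} {j : Fin s} {M : Multiset (Fin s)}
    (h : j ∈ M → z ∈ P.Am q ν) : (M.count j : T) * z ∈ P.Am q ν := by
  by_cases hj : j ∈ M
  · rw [← nsmul_eq_mul, ← Nat.cast_smul_eq_nsmul ℂ]
    exact Submodule.smul_mem _ _ (h hj)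
  · rw [Multiset.count_eq_zero_of_notMem hj, Nat.cast_zero, zero_mul]
    exact Submodule.zero_mem _

theorem dam_cast {q : ℕ} {ν ν' : Fin s → ℤ} {z : T} (h : z ∈ P.Am q ν) (e : ν = ν') :
    z ∈ P.Am q ν' := e ▸ h

theorem dam_leib {i j : Fin s} {q q0 : ℕ} {μ ν : Fin s → ℤ} {g z : T} (hg : g ∈ P.Am q0 μ)
    (hDg : G.D i j g ∈ P.Am q0 (μ + sg i - sg j)) (hz : z ∈ P.Am q ν)
    (hDz : G.D i j z ∈ P.Am q (ν + sg i - sg j)) :
    G.D i j (g * z) ∈ P.Am (q0 + q) (μ + ν + sg i - sg j) := by
  rw [Derivation.leibniz]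
  simp only [smul_eq_mul]
  refine Submodule.add_mem _ ?_ ?_
  · exact dam_cast (P.Am_mul hg hDz) (by abel)
  · rw [mul_comm]
    exact dam_cast (P.Am_mul hDg hz) (by abel)

theorem dam_p {M : Multiset (Fin s)} (i j : Fin s) (h1 : 2 ≤ Multiset.card M)
    (h2 : Multiset.card M ≤ m) : G.D i j (P.p M) ∈ P.Am 0 (wtM M + sg i - sg j) := by
  rw [dam_D_p]
  refine dam_count fun hj => ?_
  refine dam_cast (P.Am_p ?_ ?_) (dam_wt hj)
  · rw [dam_card hj]
    exact h1
  · rw [dam_card hj]
    exact h2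

theorem dam_pe {M : Multiset (Fin s)} {v : Fin s} (i j : Fin s)
    (h1 : Multiset.card M + 2 ≤ m) :
    G.D i j (P.pe M v) ∈ P.Am 1 (wtM M + sg v + sg i - sg j) := by
  rw [dam_D_pe]
  refine Submodule.add_mem _ (dam_count fun hj => ?_) ?_
  · refine dam_cast (P.Am_pe ?_) ?_
    · rw [dam_card hj]
      exact h1
    · rw [dam_wt hj]
      abel
  · split_ifs with hv
    · subst hv
      refine dam_cast (P.Am_pe h1) ?_
      abel
    · exact Submodule.zero_mem _

theorem dam_an {M : Multiset (Fin s)} {u v : Fin s} (i j : Fin s)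
    (h1 : Multiset.card M + 2 = m) :
    G.D i j (P.pe (u ::ₘ M) v - P.pe (v ::ₘ M) u) ∈
      P.Am 1 (wtM M + sg u + sg v + sg i - sg j) := by
  rw [map_sub, dam_D_pe_cons, dam_D_pe_cons]
  have h2 : (M.count j : T) * P.pe (u ::ₘ i ::ₘ M.erase j) v +
      (if u = j then P.pe (i ::ₘ M) v else 0) + (if v = j then P.pe (u ::ₘ M) i else 0) -
      ((M.count j : T) * P.pe (v ::ₘ i ::ₘ M.erase j) u +
      (if v = j then P.pe (i ::ₘ M) u else 0) + (if u = j then P.pe (v ::ₘ M) i else 0)) =
      (M.count j : T) * (P.pe (u ::ₘ i ::ₘ M.erase j) v - P.pe (v ::ₘ i ::ₘ M.erase j) u) +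
      (if u = j then P.pe (i ::ₘ M) v - P.pe (v ::ₘ M) i else 0) +
      (if v = j then P.pe (u ::ₘ M) i - P.pe (i ::ₘ M) u else 0) := by
    split_ifs <;> ring
  rw [h2]
  refine Submodule.add_mem _ (Submodule.add_mem _ (dam_count fun hj => ?_) ?_) ?_
  · refine dam_cast (P.Am_an ?_) ?_
    · rw [dam_card hj]
      exact h1
    · rw [dam_wt hj]
      abel
  · split_ifs with hu
    · subst hu
      refine dam_cast (P.Am_an h1) ?_
      abel
    · exact Submodule.zero_mem _
  · split_ifs with hv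
    · subst hv
      refine dam_cast (P.Am_an h1) ?_
      abel
    · exact Submodule.zero_mem _

theorem dam_Mn (i j : Fin s) {q : ℕ} {ν : Fin s → ℤ} {z : T} (h : P.Mn q ν z) :
    G.D i j z ∈ P.Am q (ν + sg i - sg j) := by
  induction h with
  | one =>
    rw [Derivation.map_one_eq_zero]
    exact Submodule.zero_mem _
  | p q ν z M h1 h2 hz ih =>
    have h3 := dam_leib G (P.Am_p h1 h2) (dam_p G i j h1 h2) (Submodule.subset_span hz) ih
    rw [Nat.zero_add] at h3
    exact h3
  | pe q ν z M v h1 hz ih =>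
    have h3 := dam_leib G (P.Am_pe (v := v) h1) (dam_pe G i j h1) (Submodule.subset_span hz) ih
    rw [Nat.add_comm] at h3
    exact h3
  | an q ν z M u v h1 hz ih =>
    have h3 := dam_leib G (P.Am_an (u := u) (v := v) h1) (dam_an G i j h1) (Submodule.subset_span hz) ih
    rw [Nat.add_comm] at h3
    exact h3

end

theorem kDAm : DAmStmt := by
  intro m s T _ _ P G q ν i j z hz
  unfold PS.Am at hz
  induction hz using Submodule.span_induction with
  | mem a ha => exact dam_Mn G i j ha
  | zero => rw [map_zero]; exact Submodule.zero_mem _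
  | add b c _ _ hb hc => rw [map_add]; exact Submodule.add_mem _ hb hc
  | smul c b _ hb => rw [Derivation.map_smul]; exact Submodule.smul_mem _ _ hb

end T2

end Pool.Agent.Lib.MP_a688ad_al
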