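import Pool.Agent.Lib.MP_a688ad_al.T2.Spec

/-!
# MP_a688ad_al, stable range: derivations of multilinear functions
-/

set_option autoImplicit false

open MvPolynomial Finset

namespace Pool.Agent.Lib.MP_a688ad_al

namespace T2

section

variable {m s : ℕ} {T : Type} [CommRing T] [Algebra ℂ T]

/-- `F` is a multilinear function of the letters at the positions `S` -/
private def dhM (D : Fin s → Fin s → Derivation ℂ T T) (S : Finset ℕ)
    (F : (ℕ → Fin s) → T) : Prop :=
  (∀ u i j, D i j (F u) = ∑ ω ∈ S, if u ω = j then F (Function.update u ω i) else 0) ∧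
    ∀ u u' : ℕ → Fin s, (∀ ω ∈ S, u ω = u' ω) → F u = F u'

private theorem dhM_one (D : Fin s → Fin s → Derivation ℂ T T) : dhM D ∅ (fun _ => 1) := by
  constructor
  · intro u i j
    rw [Derivation.map_one_eq_zero, Finset.sum_empty]
  · intro u u' _
    rfl

private theorem dhM_single (D : Fin s → Fin s → Derivation ℂ T T) (X : Fin s → T)
    (hX : ∀ i j w, D i j (X w) = if w = j then X i else 0) (c : ℕ) :
    dhM D {c} (fun u => X (u c)) := by
  constructor
  · intro u i j
    beta_reduce
    rw [Finset.sum_singleton, hX, Function.update_self]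
  · intro u u' h
    simp only
    rw [h c (Finset.mem_singleton_self c)]

private theorem dhM_mul (D : Fin s → Fin s → Derivation ℂ T T) {S S' : Finset ℕ}
    {F F' : (ℕ → Fin s) → T} (hF : dhM D S F) (hF' : dhM D S' F') (hd : Disjoint S S') :
    dhM D (S ∪ S') (fun u => F u * F' u) := by
  constructor
  · intro u i j
    rw [Derivation.leibniz, hF.1, hF'.1, Finset.sum_union hd, smul_eq_mul, smul_eq_mul,
      Finset.mul_sum, Finset.mul_sum, add_comm]
    congr 1
    · refine Finset.sum_congr rfl fun ω hω => ?_
      have h : F' (Function.update u ω i) = F' u := by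
        apply hF'.2
        intro ω' hω'
        have hne : ω' ≠ ω := by
          rintro rfl
          exact Finset.disjoint_left.1 hd hω hω'
        exact Function.update_of_ne hne _ _
      beta_reduce
      rw [h]
      split_ifs
      · rw [mul_comm]
      · rw [mul_zero]
    · refine Finset.sum_congr rfl fun ω hω => ?_
      have h : F (Function.update u ω i) = F u := by
        apply hF.2
        intro ω' hω'
        have hne : ω' ≠ ω := by
          rintro rfl
          exact Finset.disjoint_left.1 hd hω' hω
        exact Function.update_of_ne hne _ _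
      beta_reduce
      rw [h]
      split_ifs
      · rfl
      · rw [mul_zero]
  · intro u u' h
    simp only
    rw [hF.2 u u' fun ω hω => h ω (Finset.mem_union_left _ hω),
      hF'.2 u u' fun ω hω => h ω (Finset.mem_union_right _ hω)]

private theorem dhM_sum (D : Fin s → Fin s → Derivation ℂ T T) {S : Finset ℕ} {ι : Type}
    (A : Finset ι) (F : ι → (ℕ → Fin s) → T) (hF : ∀ k ∈ A, dhM D S (F k)) :
    dhM D S (fun u => ∑ k ∈ A, F k u) := by
  constructor
  · intro u i j
    rw [map_sum]
    have h : ∑ ω ∈ S, (if u ω = j then ∑ k ∈ A, F k (Function.update u ω i) else 0) =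
        ∑ ω ∈ S, ∑ k ∈ A, (if u ω = j then F k (Function.update u ω i) else 0) := by
      refine Finset.sum_congr rfl fun ω _ => ?_
      split_ifs
      · rfl
      · rw [Finset.sum_const_zero]
    rw [h, Finset.sum_comm]
    exact Finset.sum_congr rfl fun k hk => (hF k hk).1 u i j
  · intro u u' h
    exact Finset.sum_congr rfl fun k hk => (hF k hk).2 u u' h

private theorem dhM_prod (D : Fin s → Fin s → Derivation ℂ T T) (X : ℕ → Fin s → T)
    (hX : ∀ ω i j w, D i j (X ω w) = if w = j then X ω i else 0) (S : Finset ℕ) :
    dhM D S (fun u => ∏ ω ∈ S, X ω (u ω)) := by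
  induction S using Finset.induction_on with
  | empty => exact dhM_one D
  | insert c S hc ih =>
    have h := dhM_mul D (dhM_single D (X c) (hX c) c) ih (Finset.disjoint_singleton_left.2 hc)
    rw [← Finset.insert_eq] at h
    have e : (fun u : ℕ → Fin s => ∏ ω ∈ insert c S, X ω (u ω)) =
        fun u => X c (u c) * ∏ ω ∈ S, X ω (u ω) := by
      funext u
      exact Finset.prod_insert hc
    rw [e]
    exact h

variable (P : PS m s T) (G : P.GD)

private theorem dh_mon (k : Fin m) (S : Finset ℕ) :
    dhM G.D S (fun u => P.mon (xs S u) k) := by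
  have h := dhM_prod G.D (fun _ w => P.x k w) (fun _ i j w => G.Dx i j k w) S
  have e : (fun u : ℕ → Fin s => P.mon (xs S u) k) = fun u => ∏ ω ∈ S, P.x k (u ω) := by
    funext u
    unfold PS.mon xs
    rw [Multiset.map_map]
    rfl
  rw [e]
  exact h

private theorem dh_e (S : Finset ℕ) : dhM G.D S (fun u => P.e S u) := by
  classical
  unfold PS.e Ef
  apply dhM_sum
  intro f _
  let X : ℕ → Fin s → T := fun ω w => if h : ω ∈ S then P.x (f ⟨ω, h⟩) w else 0
  have hX : ∀ ω i j w, G.D i j (X ω w) = if w = j then X ω i else 0 := by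
    intro ω i j w
    by_cases h : ω ∈ S
    · simp only [X, dif_pos h]
      exact G.Dx i j _ w
    · simp only [X, dif_neg h, map_zero, ite_self]
  have h := dhM_prod G.D X hX S
  have e : (fun u : ℕ → Fin s => ∏ j : {x // x ∈ S}, P.x (f j) (u j.1)) =
      fun u => ∏ ω ∈ S, X ω (u ω) := by
    funext u
    rw [← Finset.prod_coe_sort S (fun ω => X ω (u ω))]
    refine Finset.prod_congr rfl fun j _ => ?_
    simp only [X, dif_pos j.2]
  rw [e]
  exact h

private theorem dh_all {B : Finset ℕ} {H : (ℕ → Fin s) → T} (h : P.HH B H) :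
    dhM G.D B H := by
  induction h with
  | base B c hc =>
    unfold PS.pe
    apply dhM_sum
    intro k _
    have h1 := dhM_mul G.D (dhM_single G.D (P.y k) (fun i j w => G.Dy i j k w) c)
      (dh_mon P G k B) (Finset.disjoint_singleton_left.2 hc)
    rw [← Finset.insert_eq] at h1
    have e : (fun u : ℕ → Fin s => P.mon (xs B u) k * P.y k (u c)) =
        fun u => P.y k (u c) * P.mon (xs B u) k := by
      funext u
      exact mul_comm _ _
    rw [e]
    exact h1
  | mul S B H hd hS hH ih => exact dhM_mul G.D (dh_e P G S) ih hd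

end

theorem kDH : DHStmt := by
  intro m s T _ _ P G B H hH u i j
  exact (dh_all P G hH).1 u i j

end T2

end Pool.Agent.Lib.MP_a688ad_al
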