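import Pool.Agent.Lib.MP_a688ad_al.T2.Act

/-!
# MP_a688ad_al, stable range: definitions

`Ef`, `PS`: particles.  `m` particles with centred coordinates `x i w` and square-zero marks
`y i w` in a commutative algebra `T`.  Letters are elements of `Fin s`; positions are natural
numbers, `u : ℕ → Fin s` gives the letter at each position.
-/

set_option autoImplicit false

open MvPolynomial Finset

namespace Pool.Agent.Lib.MP_a688ad_al

namespace T2

/-- The sum over all injective placements of the letters of `S` on the particles. -/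
noncomputable def Ef {m : ℕ} {T L : Type} [CommRing T] [DecidableEq L] (a : L → Fin m → T)
    (S : Finset L) : T :=
  ∑ f : S ↪ Fin m, ∏ j : S, a j.1 (f j)

/-- The weight of a multiset of letters. -/
def wtM {s : ℕ} (M : Multiset (Fin s)) : Fin s → ℤ := (M.map sg).sum

/-- The letters at the positions in `S`. -/
def xs {s : ℕ} (S : Finset ℕ) (u : ℕ → Fin s) : Multiset (Fin s) := S.val.map u

/-- The weight of the letters at the positions in `S`. -/
def wtS {s : ℕ} (S : Finset ℕ) (u : ℕ → Fin s) : Fin s → ℤ := ∑ ω ∈ S, sg (u ω)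

/-- `m` particles in a commutative algebra, with centred coordinates and square-zero marks. -/
structure PS (m s : ℕ) (T : Type) [CommRing T] [Algebra ℂ T] where
  x : Fin m → Fin s → T
  y : Fin m → Fin s → T
  xsum : ∀ w, ∑ i, x i w = 0
  yy : ∀ i u v, y i u * y i v = 0

/-- A letter of `Sym(W) ⊕ Sym(W) ⊗ W`. -/
abbrev Le (s : ℕ) := Multiset (Fin s) × Option (Fin s)

/-- The weight of `a : Le s`. -/
def wtA {s : ℕ} (a : Le s) : Fin s → ℤ := wtM a.1 + a.2.elim 0 sg

variable {m s : ℕ} {T : Type} [CommRing T] [Algebra ℂ T]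

namespace PS

variable (P : PS m s T)

/-- The monomial `M` in the coordinates of the particle `i`. -/
def mon (M : Multiset (Fin s)) (i : Fin m) : T := (M.map (P.x i)).prod

/-- The power sum. -/
def p (M : Multiset (Fin s)) : T := ∑ i, P.mon M i

/-- The marked power sum. -/
def pe (M : Multiset (Fin s)) (v : Fin s) : T := ∑ i, P.mon M i * P.y i v

/-- The elementary function of the letters at the positions `S`. -/
noncomputable def e (S : Finset ℕ) (u : ℕ → Fin s) : T := Ef (fun ω i => P.x i (u ω)) S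

/-- Monomials in the generators of `A'`: `p M` with `2 ≤ |M| ≤ m`, `pe M v` with `|M| + 2 ≤ m`, and
the differences `pe (u M) v - pe (v M) u` with `|M| + 2 = m`.  The first index is the number of
marks, the second the weight. -/
inductive Mn : ℕ → (Fin s → ℤ) → T → Prop
  | one : Mn 0 0 1
  | p (q : ℕ) (ν : Fin s → ℤ) (z : T) (M : Multiset (Fin s)) : 2 ≤ Multiset.card M →
      Multiset.card M ≤ m → Mn q ν z → Mn q (wtM M + ν) (P.p M * z)
  | pe (q : ℕ) (ν : Fin s → ℤ) (z : T) (M : Multiset (Fin s)) (v : Fin s) :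
      Multiset.card M + 2 ≤ m → Mn q ν z → Mn (q + 1) (wtM M + sg v + ν) (P.pe M v * z)
  | an (q : ℕ) (ν : Fin s → ℤ) (z : T) (M : Multiset (Fin s)) (u v : Fin s) :
      Multiset.card M + 2 = m → Mn q ν z →
      Mn (q + 1) (wtM M + sg u + sg v + ν) ((P.pe (u ::ₘ M) v - P.pe (v ::ₘ M) u) * z)

/-- The part of `A'` with `q` marks and weight `ν`. -/
def Am (q : ℕ) (ν : Fin s → ℤ) : Submodule ℂ T := Submodule.span ℂ {z | P.Mn q ν z}

/-- The part of `A'` of weight `ν`. -/
def AmAll (ν : Fin s → ℤ) : Submodule ℂ T := ⨆ q, P.Am q ν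

/-- Monomials in all power sums and marked power sums. -/
inductive Pm : ℕ → (Fin s → ℤ) → T → Prop
  | one : Pm 0 0 1
  | p (q : ℕ) (ν : Fin s → ℤ) (z : T) (M : Multiset (Fin s)) : Pm q ν z →
      Pm q (wtM M + ν) (P.p M * z)
  | pe (q : ℕ) (ν : Fin s → ℤ) (z : T) (M : Multiset (Fin s)) (v : Fin s) : Pm q ν z →
      Pm (q + 1) (wtM M + sg v + ν) (P.pe M v * z)

/-- The span of the products of `q` marked power sums and power sums, of weight `ν`. -/
def Pr (q : ℕ) (ν : Fin s → ℤ) : Submodule ℂ T := Submodule.span ℂ {z | P.Pm q ν z}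

/-- Products of elementary functions with one marked power sum, every position of `B` is used
exactly once. -/
inductive HH : Finset ℕ → ((ℕ → Fin s) → T) → Prop
  | base (B : Finset ℕ) (c : ℕ) : c ∉ B → HH (insert c B) (fun u => P.pe (xs B u) (u c))
  | mul (S B : Finset ℕ) (H : (ℕ → Fin s) → T) : Disjoint S B → S.Nonempty → HH B H →
      HH (S ∪ B) (fun u => P.e S u * H u)

/-- The span of these products, of weight `ν`. -/
def R1 (ν : Fin s → ℤ) : Submodule ℂ T :=
  Submodule.span ℂ {z | ∃ (B : Finset ℕ) (H : (ℕ → Fin s) → T) (u : ℕ → Fin s),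
    P.HH B H ∧ wtS B u = ν ∧ z = H u}

/-- The value of the letter `a` at the particle `i`. -/
def am (a : Le s) (i : Fin m) : T := P.mon a.1 i * a.2.elim 1 (P.y i)

/-- The orbit sum. -/
def orb (a : Fin m → Le s) : T := ∑ σ : Equiv.Perm (Fin m), ∏ t, P.am (a t) (σ t)

/-- The span of the orbit sums of weight `ν`. -/
def Orb (ν : Fin s → ℤ) : Submodule ℂ T :=
  Submodule.span ℂ {z | ∃ a : Fin m → Le s, ∑ t, wtA (a t) = ν ∧ z = P.orb a}

/-- The derivations `w_i ∂/∂w_j` of `T`. -/
structure GD where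
  D : Fin s → Fin s → Derivation ℂ T T
  Dx : ∀ i j k w, D i j (P.x k w) = if w = j then P.x k i else 0
  Dy : ∀ i j k w, D i j (P.y k w) = if w = j then P.y k i else 0

end PS

/-! ## The map `Θ` -/

/-- The value of the basis vector `a` at the particle `i`; the coordinates with index `0` are `1`. -/
noncomputable def ab {m s l : ℕ} {T : Type} [CommRing T] (x y : Fin m → Fin s → T)
    (a : Ib (s + 1) l) (i : Fin m) : T :=
  (Fin.cons 1 (fun w => x i w + y i w) : Fin (s + 1) → T) a.1
    * (a.2.1.map (Fin.cons 1 (x i) : Fin (s + 1) → T)).prod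

/-- The full polarization: the monomial `a_1 ... a_m` goes to `∑_σ ∏_t a_t(σ t)`. -/
noncomputable def Th {m s : ℕ} {T : Type} [CommRing T] [Algebra ℂ T] (x y : Fin m → Fin s → T)
    (l : ℕ) : MvPolynomial (Ib (s + 1) l) ℂ →ₗ[ℂ] T :=
  ∑ A : Finset (Fin m), ((-1 : ℂ) ^ (m - A.card)) •
    (aeval (fun a => ∑ i ∈ A, ab x y a i) : MvPolynomial (Ib (s + 1) l) ℂ →ₐ[ℂ] T).toLinearMap

/-! ## The map `Φ` -/

namespace PS

variable (P : PS m s T)

/-- The coordinates of the particle `i`, the coordinate with index `0` is `1`. -/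
def xx (i : Fin m) : Fin (s + 1) → T := Fin.cons 1 (P.x i)

/-- `∑_{c ∈ M} pe (M - c) c`. -/
def Sm (M : Multiset (Fin (s + 1))) : T :=
  (M.map fun c => ∑ i, ((M.erase c).map (P.xx i)).prod * (Fin.cons 0 (P.y i) : Fin (s + 1) → T) c).sum

/-- The value of `Φ` on the basis vector `a = (v, t)`, where `|t| = k` and `m = k + 1`. -/
noncomputable def ph {k : ℕ} (a : Ib (s + 1) k) : T :=
  (Fin.cons (if ∀ c ∈ a.2.1, c = 0 then 1 else ∑ i, (a.2.1.map (P.xx i)).prod)
    (fun w => if (0 : Fin (s + 1)) ∈ a.2.1 then ∑ i, (a.2.1.map (P.xx i)).prod * P.y i w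
      else ∑ i, (a.2.1.map (P.xx i)).prod * P.y i w - (1 / (m : ℂ)) • P.Sm (w.succ ::ₘ a.2.1)
        + ∑ i, ((w.succ ::ₘ a.2.1).map (P.xx i)).prod) : Fin (s + 1) → T) a.1

/-- `Φ`. -/
noncomputable def Ph (k : ℕ) : MvPolynomial (Ib (s + 1) k) ℂ →ₐ[ℂ] T := aeval P.ph

end PS

/-! ## Basic facts -/

theorem wtM_zero {s : ℕ} : wtM (0 : Multiset (Fin s)) = 0 := by
  unfold wtM
  simp

theorem wtM_cons {s : ℕ} (a : Fin s) (M : Multiset (Fin s)) : wtM (a ::ₘ M) = sg a + wtM M := by
  unfold wtM
  simp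

theorem wtM_add {s : ℕ} (M N : Multiset (Fin s)) : wtM (M + N) = wtM M + wtM N := by
  unfold wtM
  simp

theorem wtM_xs {s : ℕ} (S : Finset ℕ) (u : ℕ → Fin s) : wtM (xs S u) = wtS S u := by
  unfold wtM xs wtS
  rw [Multiset.map_map]
  rfl

theorem card_xs {s : ℕ} (S : Finset ℕ) (u : ℕ → Fin s) : Multiset.card (xs S u) = S.card := by
  unfold xs
  simp

theorem xs_insert {s : ℕ} {c : ℕ} {S : Finset ℕ} (h : c ∉ S) (u : ℕ → Fin s) :
    xs (insert c S) u = u c ::ₘ xs S u := by
  unfold xs
  rw [Finset.insert_val_of_notMem h, Multiset.map_cons]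

theorem xs_union {s : ℕ} {S B : Finset ℕ} (h : Disjoint S B) (u : ℕ → Fin s) :
    xs (S ∪ B) u = xs S u + xs B u := by
  have e : (S ∪ B).val = S.val + B.val := by
    rw [← Finset.disjUnion_eq_union S B h]
    rfl
  unfold xs
  rw [e, Multiset.map_add]

theorem wtS_union {s : ℕ} {S B : Finset ℕ} (h : Disjoint S B) (u : ℕ → Fin s) :
    wtS (S ∪ B) u = wtS S u + wtS B u := Finset.sum_union h

theorem wtS_insert {s : ℕ} {c : ℕ} {S : Finset ℕ} (h : c ∉ S) (u : ℕ → Fin s) :
    wtS (insert c S) u = sg (u c) + wtS S u := Finset.sum_insert h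

theorem xs_congr {s : ℕ} {S : Finset ℕ} {u u' : ℕ → Fin s} (h : ∀ ω ∈ S, u ω = u' ω) :
    xs S u = xs S u' := Multiset.map_congr rfl fun ω hω => h ω hω

/-- Every multiset of letters is the multiset of the letters at given positions. -/
theorem exists_xs {s : ℕ} (M : Multiset (Fin s)) (u : ℕ → Fin s) (S : Finset ℕ)
    (hS : S.card = Multiset.card M) :
    ∃ u' : ℕ → Fin s, xs S u' = M ∧ ∀ ω, ω ∉ S → u' ω = u ω := by
  induction M using Multiset.induction_on generalizing S with
  | empty =>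
    rw [Multiset.card_zero, Finset.card_eq_zero] at hS
    subst hS
    exact ⟨u, rfl, fun _ _ => rfl⟩
  | cons a M ih =>
    rw [Multiset.card_cons] at hS
    obtain ⟨c, hc⟩ : S.Nonempty := Finset.card_pos.1 (by omega)
    obtain ⟨u', h1, h2⟩ := ih (S.erase c) (by rw [Finset.card_erase_of_mem hc]; omega)
    refine ⟨Function.update u' c a, ?_, ?_⟩
    · rw [← Finset.insert_erase hc, xs_insert (Finset.notMem_erase c S), Function.update_self]
      congr 1
      rw [← h1]
      apply xs_congr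
      intro ω hω
      rw [Function.update_of_ne (Finset.ne_of_mem_erase hω)]
    · intro ω hω
      have hωc : ω ≠ c := by
        rintro rfl
        exact hω hc
      rw [Function.update_of_ne hωc]
      exact h2 ω (fun h => hω (Finset.mem_of_mem_erase h))

namespace PS

variable (P : PS m s T)

theorem Mn.mul {q q' : ℕ} {ν ν' : Fin s → ℤ} {z z' : T} (h : P.Mn q ν z) (h' : P.Mn q' ν' z') :
    P.Mn (q + q') (ν + ν') (z * z') := by
  induction h with
  | one => rw [Nat.zero_add, zero_add, one_mul]; exact h'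
  | p q ν z M h1 h2 _ ih =>
    rw [add_assoc (wtM M), mul_assoc]
    exact Mn.p _ _ _ _ h1 h2 ih
  | pe q ν z M v h1 _ ih =>
    rw [add_assoc (wtM M + sg v), mul_assoc, Nat.add_right_comm]
    exact Mn.pe _ _ _ _ _ h1 ih
  | an q ν z M u v h1 _ ih =>
    rw [add_assoc (wtM M + sg u + sg v), mul_assoc, Nat.add_right_comm]
    exact Mn.an _ _ _ _ _ _ h1 ih

theorem Pm.mul {q q' : ℕ} {ν ν' : Fin s → ℤ} {z z' : T} (h : P.Pm q ν z) (h' : P.Pm q' ν' z') :
    P.Pm (q + q') (ν + ν') (z * z') := by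
  induction h with
  | one => rw [Nat.zero_add, zero_add, one_mul]; exact h'
  | p q ν z M _ ih =>
    rw [add_assoc (wtM M), mul_assoc]
    exact Pm.p _ _ _ _ ih
  | pe q ν z M v _ ih =>
    rw [add_assoc (wtM M + sg v), mul_assoc, Nat.add_right_comm]
    exact Pm.pe _ _ _ _ _ ih

theorem Am_one : (1 : T) ∈ P.Am 0 0 := Submodule.subset_span Mn.one

theorem Am_mul {q q' : ℕ} {ν ν' : Fin s → ℤ} {z z' : T} (h : z ∈ P.Am q ν) (h' : z' ∈ P.Am q' ν') :
    z * z' ∈ P.Am (q + q') (ν + ν') := by
  unfold Am at h h'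
  induction h using Submodule.span_induction with
  | mem a ha =>
    induction h' using Submodule.span_induction with
    | mem b hb => exact Submodule.subset_span (Mn.mul P ha hb)
    | zero => rw [mul_zero]; exact Submodule.zero_mem _
    | add b c _ _ hb hc => rw [mul_add]; exact Submodule.add_mem _ hb hc
    | smul c b _ hb => rw [mul_smul_comm]; exact Submodule.smul_mem _ _ hb
  | zero => rw [zero_mul]; exact Submodule.zero_mem _
  | add b c _ _ hb hc => rw [add_mul]; exact Submodule.add_mem _ hb hc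
  | smul c b _ hb => rw [smul_mul_assoc]; exact Submodule.smul_mem _ _ hb

theorem Pr_mul {q q' : ℕ} {ν ν' : Fin s → ℤ} {z z' : T} (h : z ∈ P.Pr q ν) (h' : z' ∈ P.Pr q' ν') :
    z * z' ∈ P.Pr (q + q') (ν + ν') := by
  unfold Pr at h h'
  induction h using Submodule.span_induction with
  | mem a ha =>
    induction h' using Submodule.span_induction with
    | mem b hb => exact Submodule.subset_span (Pm.mul P ha hb)
    | zero => rw [mul_zero]; exact Submodule.zero_mem _
    | add b c _ _ hb hc => rw [mul_add]; exact Submodule.add_mem _ hb hc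
    | smul c b _ hb => rw [mul_smul_comm]; exact Submodule.smul_mem _ _ hb
  | zero => rw [zero_mul]; exact Submodule.zero_mem _
  | add b c _ _ hb hc => rw [add_mul]; exact Submodule.add_mem _ hb hc
  | smul c b _ hb => rw [smul_mul_assoc]; exact Submodule.smul_mem _ _ hb

theorem Am_p {M : Multiset (Fin s)} (h1 : 2 ≤ Multiset.card M) (h2 : Multiset.card M ≤ m) :
    P.p M ∈ P.Am 0 (wtM M) := by
  have h := Mn.p (P := P) 0 0 1 M h1 h2 Mn.one
  rw [add_zero, mul_one] at h
  exact Submodule.subset_span h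

theorem Am_pe {M : Multiset (Fin s)} {v : Fin s} (h1 : Multiset.card M + 2 ≤ m) :
    P.pe M v ∈ P.Am 1 (wtM M + sg v) := by
  have h := Mn.pe (P := P) 0 0 1 M v h1 Mn.one
  rw [add_zero, mul_one] at h
  exact Submodule.subset_span h

theorem Am_an {M : Multiset (Fin s)} {u v : Fin s} (h1 : Multiset.card M + 2 = m) :
    P.pe (u ::ₘ M) v - P.pe (v ::ₘ M) u ∈ P.Am 1 (wtM M + sg u + sg v) := by
  have h := Mn.an (P := P) 0 0 1 M u v h1 Mn.one
  rw [add_zero, mul_one] at h
  exact Submodule.subset_span h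

theorem e_congr {S : Finset ℕ} {u u' : ℕ → Fin s} (h : ∀ ω ∈ S, u ω = u' ω) :
    P.e S u = P.e S u' := by
  unfold e Ef
  refine Finset.sum_congr rfl fun f _ => Finset.prod_congr rfl fun j _ => ?_
  show P.x (f j) (u j.1) = P.x (f j) (u' j.1)
  rw [h j.1 j.2]

theorem e_empty (u : ℕ → Fin s) : P.e ∅ u = 1 := by
  unfold e Ef
  simp

theorem e_zero {S : Finset ℕ} (h : m < S.card) (u : ℕ → Fin s) : P.e S u = 0 := by
  unfold e Ef
  have : IsEmpty (S ↪ Fin m) := by
    constructor
    intro f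
    have h1 := Fintype.card_le_of_embedding f
    rw [Fintype.card_coe, Fintype.card_fin] at h1
    omega
  exact Finset.sum_eq_zero fun f _ => (this.false f).elim

theorem HH_congr {B : Finset ℕ} {H : (ℕ → Fin s) → T} (hH : P.HH B H) {u u' : ℕ → Fin s}
    (h : ∀ ω ∈ B, u ω = u' ω) : H u = H u' := by
  induction hH with
  | base B c hc =>
    simp only
    rw [h c (Finset.mem_insert_self _ _),
      xs_congr (fun ω hω => h ω (Finset.mem_insert_of_mem hω))]
  | mul S B H hd hS hH ih =>
    simp only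
    rw [P.e_congr fun ω hω => h ω (Finset.mem_union_left _ hω),
      ih fun ω hω => h ω (Finset.mem_union_right _ hω)]

end PS

end T2

end Pool.Agent.Lib.MP_a688ad_al
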