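import Pool.Agent.Lib.MP_a688ad_al.T2.Spec

/-!
# MP_a688ad_al, stable range: highest weight vectors are in `A'`
-/

set_option autoImplicit false

open MvPolynomial Finset

namespace Pool.Agent.Lib.MP_a688ad_al

namespace T2

private theorem end_count {s : ℕ} (B : Finset ℕ) (u : ℕ → Fin s) (i : Fin s) :
    wtS B u i = ((B.filter fun ω => u ω = i).card : ℤ) := by
  unfold wtS
  rw [Finset.sum_apply, Finset.card_filter]
  push_cast
  refine Finset.sum_congr rfl fun ω _ => ?_
  unfold sg
  rw [Pi.single_apply]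
  by_cases h : u ω = i
  · rw [if_pos h, if_pos h.symm]
  · rw [if_neg h, if_neg fun h' => h h'.symm]

private theorem end_upd {s : ℕ} (u : ℕ → Fin s) {ω ω' : ℕ} {i0 i1 : Fin s} (h : ω' ≠ ω)
    (h1 : u ω = i1) (h0 : u ω' = i0) :
    Function.update (Function.update u ω i0) ω' i1 = fun x => u (Equiv.swap ω ω' x) := by
  funext x
  by_cases hx' : x = ω'
  · subst hx'
    rw [Function.update_self, Equiv.swap_apply_right, h1]
  · rw [Function.update_of_ne hx']
    by_cases hx : x = ω
    · subst hx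
      rw [Function.update_self, Equiv.swap_apply_left, h0]
    · rw [Function.update_of_ne hx, Equiv.swap_apply_of_ne_of_ne hx hx']

/-- the main congruence for a product with one mark -/
private theorem end_key (h3 : SwStmt) (h5 : DHStmt) {m s : ℕ} {T : Type} [CommRing T] [Algebra ℂ T]
    {P : PS m s T} (G : P.GD) (hm : 3 ≤ m) {i0 i1 : Fin s} (hi : i0 ≠ i1) {B : Finset ℕ}
    {H : (ℕ → Fin s) → T} (hH : P.HH B H) (u : ℕ → Fin s) :
    G.D i1 i0 (G.D i0 i1 (H u)) -
      ((wtS B u i1 : ℂ) * ((wtS B u i0 : ℂ) + 1)) • H u ∈ P.Am 1 (wtS B u) := by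
  classical
  have e1 : G.D i1 i0 (G.D i0 i1 (H u)) = ∑ ω ∈ B.filter (fun ω => u ω = i1),
      (H u + ∑ ω' ∈ B.filter (fun ω' => u ω' = i0), H (fun x => u (Equiv.swap ω ω' x))) := by
    rw [h5 m s T P G B H hH u i0 i1, map_sum, Finset.sum_filter]
    refine Finset.sum_congr rfl fun ω hω => ?_
    by_cases h1 : u ω = i1
    · rw [if_pos h1, if_pos h1, h5 m s T P G B H hH _ i1 i0, ← Finset.add_sum_erase B _ hω]
      congr 1
      · rw [Function.update_self, if_pos rfl, Function.update_idem, ← h1, Function.update_eq_self]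
      · rw [← Finset.sum_filter]
        have e2 : (B.erase ω).filter (fun ω' => Function.update u ω i0 ω' = i0) =
            B.filter (fun ω' => u ω' = i0) := by
          ext ω'
          rw [Finset.mem_filter, Finset.mem_filter, Finset.mem_erase]
          constructor
          · rintro ⟨⟨h2, h3⟩, h4⟩
            rw [Function.update_of_ne h2] at h4
            exact ⟨h3, h4⟩
          · rintro ⟨h2, h4⟩
            have h6 : ω' ≠ ω := by
              rintro rfl
              exact hi (h4.symm.trans h1)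
            refine ⟨⟨h6, h2⟩, ?_⟩
            rw [Function.update_of_ne h6]
            exact h4
        rw [e2]
        refine Finset.sum_congr rfl fun ω' hω' => ?_
        have h4 := (Finset.mem_filter.mp hω').2
        have h6 : ω' ≠ ω := by
          rintro rfl
          exact hi (h4.symm.trans h1)
        rw [end_upd u h6 h1 h4]
    · rw [if_neg h1, if_neg h1, map_zero]
  have e3 : ((wtS B u i1 : ℂ) * ((wtS B u i0 : ℂ) + 1)) • H u =
      ∑ ω ∈ B.filter (fun ω => u ω = i1), (H u + ∑ ω' ∈ B.filter (fun ω' => u ω' = i0), H u) := by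
    rw [end_count, end_count, Finset.sum_const, Finset.sum_const, ← Nat.cast_smul_eq_nsmul ℂ,
      ← Nat.cast_smul_eq_nsmul ℂ, mul_smul]
    push_cast
    rw [add_smul, one_smul, add_comm (H u)]
  rw [e1, e3, ← Finset.sum_sub_distrib]
  refine Submodule.sum_mem _ fun ω hω => ?_
  rw [add_sub_add_left_eq_sub, ← Finset.sum_sub_distrib]
  refine Submodule.sum_mem _ fun ω' hω' => ?_
  exact h3 m s T P hm B H hH u ω ω' (Finset.mem_filter.mp hω).1 (Finset.mem_filter.mp hω').1

theorem kEnd (h1 : Or1Stmt) (h2 : Or2Stmt) (h3 : SwStmt) (h4 : DAmStmt) (h5 : DHStmt) : EndStmt := by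
  classical
  intro m s T _ _ P G hm i0 i1 ν F hi hν hF hD
  have hle : ∀ q ν, P.Am q ν ≤ P.AmAll ν := fun q ν => le_iSup (fun q => P.Am q ν) q
  have hDall : ∀ (ν : Fin s → ℤ) (i j : Fin s) (z : T), z ∈ P.AmAll ν →
      G.D i j z ∈ P.AmAll (ν + sg i - sg j) := by
    intro ν i j z hz
    have h6 : P.AmAll ν ≤ (P.AmAll (ν + sg i - sg j)).comap (G.D i j).toLinearMap := by
      refine iSup_le fun q z hz => ?_
      exact hle q _ (h4 m s T P G q ν i j z hz)
    exact h6 hz
  have hF2 : F ∈ P.AmAll ν ⊔ P.R1 ν := by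
    have h6 : (⨆ q, P.Pr q ν) ≤ P.AmAll ν ⊔ P.R1 ν := by
      obtain ⟨h7, h8, h9⟩ := h2 m s T P hm ν
      refine iSup_le fun q => ?_
      match q with
      | 0 => exact (h7.trans (hle 0 ν)).trans le_sup_left
      | 1 => exact h8.trans le_sup_right
      | q + 2 => exact ((h9 q).trans (hle (q + 2) ν)).trans le_sup_left
    exact h6 (h1 m s T P ν hF)
  obtain ⟨a, ha, g, hg, hag⟩ := Submodule.mem_sup.mp hF2
  -- the congruence for `R1`
  have hkey : ∀ g ∈ P.R1 ν, G.D i1 i0 (G.D i0 i1 g) - ((ν i1 : ℂ) * ((ν i0 : ℂ) + 1)) • g ∈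
      P.Am 1 ν := by
    intro g hg
    unfold PS.R1 at hg
    induction hg using Submodule.span_induction with
    | mem z hz =>
      obtain ⟨B, H, u, hH, hw, rfl⟩ := hz
      have h6 := end_key h3 h5 G hm hi hH u
      rw [hw] at h6
      exact h6
    | zero =>
      rw [map_zero, map_zero, smul_zero, sub_zero]
      exact Submodule.zero_mem _
    | add x y _ _ hx hy =>
      have h6 := Submodule.add_mem _ hx hy
      rw [map_add, map_add, smul_add]
      convert h6 using 1
      abel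
    | smul c x _ hx =>
      have h6 := Submodule.smul_mem _ c hx
      rw [Derivation.map_smul, Derivation.map_smul, smul_comm _ c, ← smul_sub]
      exact h6
  have h6 : G.D i1 i0 (G.D i0 i1 a) ∈ P.AmAll ν := by
    have h7 := hDall _ i1 i0 _ (hDall ν i0 i1 a ha)
    have h8 : ν + sg i0 - sg i1 + sg i1 - sg i0 = ν := by abel
    rwa [h8] at h7
  have h7 : G.D i1 i0 (G.D i0 i1 a) + G.D i1 i0 (G.D i0 i1 g) = 0 := by
    rw [← map_add, ← map_add, hag, hD, map_zero]
  have h8 : G.D i1 i0 (G.D i0 i1 g) ∈ P.AmAll ν := by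
    have h9 : G.D i1 i0 (G.D i0 i1 g) = -G.D i1 i0 (G.D i0 i1 a) := by
      rw [eq_neg_iff_add_eq_zero, add_comm]
      exact h7
    rw [h9]
    exact Submodule.neg_mem _ h6
  have h9 : ((ν i1 : ℂ) * ((ν i0 : ℂ) + 1)) • g ∈ P.AmAll ν := by
    have h10 := Submodule.sub_mem _ h8 (hle 1 ν (hkey g hg))
    rwa [sub_sub_cancel] at h10
  rw [← hag]
  refine Submodule.add_mem _ ha ?_
  by_cases hex : ∃ (B : Finset ℕ) (H : (ℕ → Fin s) → T) (u : ℕ → Fin s), P.HH B H ∧ wtS B u = ν
  · obtain ⟨B, H, u, -, hw⟩ := hex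
    have h10 : 0 ≤ ν i0 := by
      rw [← hw, end_count]
      exact Int.natCast_nonneg _
    have h11 : ((ν i1 : ℂ) * ((ν i0 : ℂ) + 1)) ≠ 0 := by
      have h12 : (ν i1) * (ν i0 + 1) ≠ 0 := by
        have h13 : 0 < ν i1 * (ν i0 + 1) := mul_pos (by omega) (by omega)
        exact h13.ne'
      exact_mod_cast h12
    have h12 := Submodule.smul_mem _ (((ν i1 : ℂ) * ((ν i0 : ℂ) + 1)))⁻¹ h9
    rwa [smul_smul, inv_mul_cancel₀ h11, one_smul] at h12
  · have h10 : P.R1 ν = ⊥ := by
      unfold PS.R1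
      rw [Submodule.span_eq_bot]
      rintro z ⟨B, H, u, hH, hw, -⟩
      exact absurd ⟨B, H, u, hH, hw⟩ hex
    rw [h10, Submodule.mem_bot] at hg
    rw [hg]
    exact Submodule.zero_mem _

end T2

end Pool.Agent.Lib.MP_a688ad_al
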