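import Pool.Agent.Lib.MP_a688ad_al.T2.Spec

/-!
# MP_a688ad_al, module In: injectivity of the inclusion matrix

Proof by differences: for `a ≠ b` the function `S ↦ f (S + a) - f (S + b)` on the subsets of
`W - a - b` satisfies the same condition with smaller parameters.
-/

set_option autoImplicit false

open MvPolynomial Finset

namespace Pool.Agent.Lib.MP_a688ad_al

namespace T2

/-- the difference of two sums over subsets -/
private theorem in_diff {V : Type} [AddCommGroup V] (f : Finset ℕ → V) (k a b : ℕ) (J : Finset ℕ)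
    (ha : a ∉ J) (hb : b ∉ J) :
    ∑ S ∈ J.powersetCard k, (f (insert a S) - f (insert b S)) =
      ∑ T ∈ (insert a J).powersetCard (k + 1), f T - ∑ T ∈ (insert b J).powersetCard (k + 1), f T := by
  have key : ∀ c, c ∉ J → ∑ T ∈ (insert c J).powersetCard (k + 1), f T =
      ∑ T ∈ J.powersetCard (k + 1), f T + ∑ S ∈ J.powersetCard k, f (insert c S) := by
    intro c hc
    rw [Finset.powersetCard_succ_insert hc, Finset.sum_union]
    · congr 1
      rw [Finset.sum_image]
      intro x hx y hy hxy
      have hx' := (Finset.mem_powersetCard.1 hx).1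
      have hy' := (Finset.mem_powersetCard.1 hy).1
      have h1 : c ∉ x := fun h => hc (hx' h)
      have h2 : c ∉ y := fun h => hc (hy' h)
      rw [← Finset.erase_insert h1, ← Finset.erase_insert h2]
      exact congrArg (fun z => Finset.erase z c) hxy
    · rw [Finset.disjoint_left]
      intro x hx hx'
      obtain ⟨y, _, rfl⟩ := Finset.mem_image.1 hx'
      exact hc ((Finset.mem_powersetCard.1 hx).1 (Finset.mem_insert_self c y))
  rw [key a ha, key b hb, Finset.sum_sub_distrib]
  abel

/-- exchange invariance implies constancy -/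
private theorem in_const {V : Type} (f : Finset ℕ → V) (k : ℕ) (W : Finset ℕ)
    (h : ∀ a ∈ W, ∀ b ∈ W, a ≠ b → ∀ S ⊆ (W.erase a).erase b, S.card = k →
      f (insert a S) = f (insert b S)) :
    ∀ n : ℕ, ∀ S ⊆ W, S.card = k + 1 → ∀ S' ⊆ W, S'.card = k + 1 → (S \ S').card = n →
      f S = f S' := by
  intro n
  induction n with
  | zero =>
    intro S hS hk S' hS' hk' hn
    have h1 : S ⊆ S' := Finset.sdiff_eq_empty_iff_subset.1 (Finset.card_eq_zero.1 hn)
    rw [Finset.eq_of_subset_of_card_le h1 (by omega)]
  | succ n ih =>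
    intro S hS hk S' hS' hk' hn
    obtain ⟨a, ha⟩ : (S \ S').Nonempty := Finset.card_pos.1 (by omega)
    have hc : (S' \ S).card = (S \ S').card := by
      have e1 := Finset.card_sdiff_add_card_inter S S'
      have e2 := Finset.card_sdiff_add_card_inter S' S
      rw [Finset.inter_comm] at e2
      omega
    obtain ⟨b, hb⟩ : (S' \ S).Nonempty := Finset.card_pos.1 (by omega)
    rw [Finset.mem_sdiff] at ha hb
    have hab : a ≠ b := by
      rintro rfl
      exact hb.2 ha.1
    have h1 : f (insert a (S.erase a)) = f (insert b (S.erase a)) := by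
      refine h a (hS ha.1) b (hS' hb.1) hab _ ?_ (by rw [Finset.card_erase_of_mem ha.1]; omega)
      intro x hx
      rw [Finset.mem_erase] at hx
      refine Finset.mem_erase.2 ⟨?_, Finset.mem_erase.2 ⟨hx.1, hS hx.2⟩⟩
      rintro rfl
      exact hb.2 hx.2
    rw [Finset.insert_erase ha.1] at h1
    rw [h1]
    have hbn : b ∉ S.erase a := fun h => hb.2 (Finset.mem_of_mem_erase h)
    refine ih _ ?_ ?_ S' hS' hk' ?_
    · intro x hx
      rcases Finset.mem_insert.1 hx with rfl | hx
      · exact hS' hb.1
      · exact hS (Finset.mem_of_mem_erase hx)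
    · rw [Finset.card_insert_of_notMem hbn, Finset.card_erase_of_mem ha.1]
      omega
    · have h2 : insert b (S.erase a) \ S' = (S \ S').erase a := by
        ext x
        simp only [Finset.mem_sdiff, Finset.mem_insert, Finset.mem_erase]
        constructor
        · rintro ⟨rfl | ⟨h3, h4⟩, h5⟩
          · exact absurd hb.1 h5
          · exact ⟨h3, h4, h5⟩
        · rintro ⟨h3, h4, h5⟩
          exact ⟨Or.inr ⟨h3, h4⟩, h5⟩
      rw [h2, Finset.card_erase_of_mem (Finset.mem_sdiff.2 ha)]
      omega

/-- if all sums are zero then the function is zero -/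
private theorem in_zero {V : Type} [AddCommGroup V] [Module ℂ V] : ∀ (k m : ℕ) (W : Finset ℕ)
    (f : Finset ℕ → V), k ≤ m → W.card = m + k →
    (∀ I ⊆ W, I.card = m → ∑ S ∈ I.powersetCard k, f S = 0) → ∀ S ⊆ W, S.card = k → f S = 0 := by
  intro k
  induction k with
  | zero =>
    intro m W f _ hW hI S hS hk
    obtain ⟨I, hI1, hI2⟩ := Finset.exists_subset_card_eq (show m ≤ W.card by omega)
    have h1 := hI I hI1 hI2
    rw [Finset.powersetCard_zero, Finset.sum_singleton] at h1
    rw [Finset.card_eq_zero.1 hk, h1]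
  | succ k ih =>
    intro m W f hkm hW hI S hS hk
    obtain ⟨m', rfl⟩ : ∃ m', m = m' + 1 := ⟨m - 1, by omega⟩
    have hdiff : ∀ a ∈ W, ∀ b ∈ W, a ≠ b → ∀ S ⊆ (W.erase a).erase b, S.card = k →
        f (insert a S) = f (insert b S) := by
      intro a ha b hb hab T hT hTk
      have hbW : b ∈ W.erase a := Finset.mem_erase.2 ⟨hab.symm, hb⟩
      have h1 := ih m' ((W.erase a).erase b) (fun S => f (insert a S) - f (insert b S)) (by omega)
        (by rw [Finset.card_erase_of_mem hbW, Finset.card_erase_of_mem ha]; omega) ?_ T hT hTk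
      · exact sub_eq_zero.1 h1
      · intro J hJ hJm
        have haJ : a ∉ J := fun h => by
          have := hJ h
          simp at this
        have hbJ : b ∉ J := fun h => by
          have := hJ h
          simp at this
        have hJW : J ⊆ W := fun x hx => Finset.mem_of_mem_erase (Finset.mem_of_mem_erase (hJ hx))
        rw [in_diff f k a b J haJ hbJ,
          hI (insert a J) (Finset.insert_subset ha hJW)
            (by rw [Finset.card_insert_of_notMem haJ, hJm]),
          hI (insert b J) (Finset.insert_subset hb hJW)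
            (by rw [Finset.card_insert_of_notMem hbJ, hJm]), sub_zero]
    have hconst := in_const f k W hdiff
    obtain ⟨I, hI1, hI2⟩ := Finset.exists_subset_card_eq (show m' + 1 ≤ W.card by omega)
    have h1 := hI I hI1 hI2
    have h2 : ∀ T ∈ I.powersetCard (k + 1), f T = f S := by
      intro T hT
      obtain ⟨hT1, hT2⟩ := Finset.mem_powersetCard.1 hT
      exact hconst _ T (hT1.trans hI1) hT2 S hS hk rfl
    rw [Finset.sum_congr rfl h2, Finset.sum_const, Finset.card_powersetCard, hI2,
      ← Nat.cast_smul_eq_nsmul ℂ] at h1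
    rcases smul_eq_zero.1 h1 with h3 | h3
    · exfalso
      rw [Nat.cast_eq_zero] at h3
      exact (Nat.choose_pos hkm).ne' h3
    · exact h3

theorem kIn : InStmt := by
  intro V _ _ m k W f hk hkm hW hI S hS hSk S' hS' hSk'
  obtain ⟨k', rfl⟩ : ∃ k', k = k' + 1 := ⟨k - 1, by omega⟩
  obtain ⟨m', rfl⟩ : ∃ m', m = m' + 1 := ⟨m - 1, by omega⟩
  refine in_const f k' W ?_ _ S hS hSk S' hS' hSk' rfl
  intro a ha b hb hab T hT hTk
  have hbW : b ∈ W.erase a := Finset.mem_erase.2 ⟨hab.symm, hb⟩
  have h1 := in_zero k' m' ((W.erase a).erase b) (fun S => f (insert a S) - f (insert b S))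
    (by omega) (by rw [Finset.card_erase_of_mem hbW, Finset.card_erase_of_mem ha]; omega) ?_ T hT hTk
  · exact sub_eq_zero.1 h1
  · intro J hJ hJm
    have haJ : a ∉ J := fun h => by
      have := hJ h
      simp at this
    have hbJ : b ∉ J := fun h => by
      have := hJ h
      simp at this
    have hJW : J ⊆ W := fun x hx => Finset.mem_of_mem_erase (Finset.mem_of_mem_erase (hJ hx))
    rw [in_diff f k' a b J haJ hbJ, sub_eq_zero]
    exact hI (insert a J) (Finset.insert_subset ha hJW)
        (by rw [Finset.card_insert_of_notMem haJ, hJm]) (insert b J)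
        (Finset.insert_subset hb hJW) (by rw [Finset.card_insert_of_notMem hbJ, hJm])

end T2

end Pool.Agent.Lib.MP_a688ad_al
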