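import Pool.Agent.Lib.MP_a688ad_al.T2.Spec

/-!
# MP_a688ad_al, B1: injectivity of `Θ` on polynomials
-/

set_option autoImplicit false

open MvPolynomial Finset

namespace Pool.Agent.Lib.MP_a688ad_al

namespace T2

/-- index set of the variables -/
abbrev InjV (m s : ℕ) := Fin m × Fin s ⊕ Fin m × Fin s

/-- the exponent of the letter `c` at the particle `i` -/
noncomputable def inj_x {m s : ℕ} (i : Fin m) : Fin (s + 1) → (InjV m s →₀ ℕ) :=
  Fin.cons 0 fun w => Finsupp.single (Sum.inl (i, w)) 1

/-- the exponent of the marked letter `c` at the particle `i` -/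
noncomputable def inj_y {m s : ℕ} (i : Fin m) : Fin (s + 1) → (InjV m s →₀ ℕ) :=
  Fin.cons 0 fun w => Finsupp.single (Sum.inr (i, w)) 1

/-- the exponent of the basis vector `a` at the particle `i` -/
noncomputable def inj_mo {m s l : ℕ} (a : Ib (s + 1) l) (i : Fin m) : InjV m s →₀ ℕ :=
  inj_y i a.1 + (a.2.1.map (inj_x i)).sum

/-- the shear -/
noncomputable def inj_th (m s : ℕ) : BB m s →ₐ[ℂ] BB m s :=
  aeval (Sum.elim (fun p => bx p.1 p.2) (fun p => by' p.1 p.2 - bx p.1 p.2))

theorem inj_th_bx {m s : ℕ} (i : Fin m) (w : Fin s) : inj_th m s (bx i w) = bx i w := by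
  unfold inj_th bx
  rw [aeval_X]
  rfl

theorem inj_th_by {m s : ℕ} (i : Fin m) (w : Fin s) :
    inj_th m s (by' i w) = by' i w - bx i w := by
  unfold inj_th by'
  rw [aeval_X]
  rfl

theorem inj_prod {m s : ℕ} (M : Multiset (InjV m s →₀ ℕ)) :
    (M.map fun d => (monomial d (1 : ℂ) : BB m s)).prod = monomial M.sum 1 := by
  induction M using Multiset.induction_on with
  | empty => simp
  | cons a M ih => rw [Multiset.map_cons, Multiset.prod_cons, ih, monomial_mul, one_mul,
      Multiset.sum_cons]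

theorem inj_th_ab {m s l : ℕ} (a : Ib (s + 1) l) (i : Fin m) :
    inj_th m s (ab bx by' a i) = monomial (inj_mo a i) 1 := by
  unfold ab inj_mo
  rw [map_mul, map_multiset_prod, Multiset.map_map]
  have e1 : inj_th m s ((Fin.cons 1 (fun w => bx i w + by' i w) : Fin (s + 1) → BB m s) a.1) =
      monomial (inj_y i a.1) 1 := by
    refine Fin.cases ?_ (fun w => ?_) a.1
    · simp [inj_y]
    · rw [Fin.cons_succ, map_add, inj_th_bx, inj_th_by]
      unfold inj_y
      rw [Fin.cons_succ, add_sub_cancel]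
      rfl
  have e2 : (a.2.1.map (inj_th m s ∘ (Fin.cons 1 (bx i) : Fin (s + 1) → BB m s))).prod =
      monomial (a.2.1.map (inj_x i)).sum 1 := by
    rw [← inj_prod, Multiset.map_map]
    congr 1
    refine Multiset.map_congr rfl fun c _ => ?_
    refine Fin.cases ?_ (fun w => ?_) c
    · simp [inj_x]
    · simp only [Function.comp_apply, Fin.cons_succ, inj_th_bx, inj_x]
      rfl
  rw [e1]
  exact (congrArg (fun z => monomial (inj_y i a.1) 1 * z) e2).trans (by
    rw [monomial_mul, one_mul])

/-! ### the exponents determine the basis vectors -/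

theorem inj_x_inl {m s : ℕ} (i j : Fin m) (w : Fin s) (c : Fin (s + 1)) :
    inj_x j c (Sum.inl (i, w)) = if j = i ∧ c = w.succ then 1 else 0 := by
  unfold inj_x
  refine Fin.cases ?_ (fun v => ?_) c
  · rw [Fin.cons_zero, if_neg]
    · rfl
    · exact fun h => (Fin.succ_ne_zero w) h.2.symm
  · rw [Fin.cons_succ, Finsupp.single_apply]
    by_cases h : j = i ∧ v = w
    · rw [if_pos (by rw [h.1, h.2]), if_pos ⟨h.1, by rw [h.2]⟩]
    · rw [if_neg, if_neg]
      · exact fun h' => h ⟨h'.1, Fin.succ_injective _ h'.2⟩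
      · intro h'
        have := Sum.inl.inj h'
        exact h ⟨(Prod.mk.inj this).1, (Prod.mk.inj this).2⟩

theorem inj_x_inr {m s : ℕ} (i j : Fin m) (w : Fin s) (c : Fin (s + 1)) :
    inj_x j c (Sum.inr (i, w)) = 0 := by
  unfold inj_x
  refine Fin.cases ?_ (fun v => ?_) c
  · rfl
  · rw [Fin.cons_succ, Finsupp.single_apply, if_neg]
    exact fun h => Sum.inl_ne_inr h

theorem inj_y_inl {m s : ℕ} (i j : Fin m) (w : Fin s) (c : Fin (s + 1)) :
    inj_y j c (Sum.inl (i, w)) = 0 := by
  unfold inj_y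
  refine Fin.cases ?_ (fun v => ?_) c
  · rfl
  · rw [Fin.cons_succ, Finsupp.single_apply, if_neg]
    exact fun h => Sum.inr_ne_inl h

theorem inj_y_inr {m s : ℕ} (i j : Fin m) (w : Fin s) (c : Fin (s + 1)) :
    inj_y j c (Sum.inr (i, w)) = if j = i ∧ c = w.succ then 1 else 0 := by
  unfold inj_y
  refine Fin.cases ?_ (fun v => ?_) c
  · rw [Fin.cons_zero, if_neg]
    · rfl
    · exact fun h => (Fin.succ_ne_zero w) h.2.symm
  · rw [Fin.cons_succ, Finsupp.single_apply]
    by_cases h : j = i ∧ v = w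
    · rw [if_pos (by rw [h.1, h.2]), if_pos ⟨h.1, by rw [h.2]⟩]
    · rw [if_neg, if_neg]
      · exact fun h' => h ⟨h'.1, Fin.succ_injective _ h'.2⟩
      · intro h'
        have := Sum.inr.inj h'
        exact h ⟨(Prod.mk.inj this).1, (Prod.mk.inj this).2⟩

theorem inj_sum_apply {m s : ℕ} (M : Multiset (Fin (s + 1))) (f : Fin (s + 1) → (InjV m s →₀ ℕ))
    (z : InjV m s) : (M.map f).sum z = (M.map fun c => f c z).sum := by
  induction M using Multiset.induction_on with
  | empty => simp
  | cons a M ih => simp only [Multiset.map_cons, Multiset.sum_cons, Finsupp.add_apply, ih]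

theorem inj_count {s : ℕ} (M : Multiset (Fin (s + 1))) (a : Fin (s + 1)) :
    (M.map fun c => if c = a then 1 else 0).sum = M.count a := by
  induction M using Multiset.induction_on with
  | empty => simp
  | cons b M ih =>
    rw [Multiset.map_cons, Multiset.sum_cons, ih, Multiset.count_cons]
    by_cases h : b = a
    · rw [if_pos h, if_pos h.symm, add_comm]
    · rw [if_neg h, if_neg (Ne.symm h), zero_add, add_zero]

theorem inj_mo_inl {m s l : ℕ} (a : Ib (s + 1) l) (i j : Fin m) (w : Fin s) :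
    inj_mo a j (Sum.inl (i, w)) = if j = i then a.2.1.count w.succ else 0 := by
  unfold inj_mo
  rw [Finsupp.add_apply, inj_y_inl, zero_add, inj_sum_apply]
  simp only [inj_x_inl]
  by_cases h : j = i
  · rw [if_pos h]
    simp only [h, true_and]
    exact inj_count _ _
  · rw [if_neg h]
    simp [h]

theorem inj_mo_inr {m s l : ℕ} (a : Ib (s + 1) l) (i j : Fin m) (w : Fin s) :
    inj_mo a j (Sum.inr (i, w)) = if j = i ∧ a.1 = w.succ then 1 else 0 := by
  unfold inj_mo
  rw [Finsupp.add_apply, inj_y_inr, inj_sum_apply]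
  simp only [inj_x_inr]
  simp

/-- the exponent of a function -/
noncomputable def inj_e {m s l : ℕ} (b : Fin m → Ib (s + 1) l) : InjV m s →₀ ℕ :=
  ∑ i, inj_mo (b i) i

theorem inj_e_inl {m s l : ℕ} (b : Fin m → Ib (s + 1) l) (i : Fin m) (w : Fin s) :
    inj_e b (Sum.inl (i, w)) = (b i).2.1.count w.succ := by
  unfold inj_e
  rw [Finsupp.finset_sum_apply, Finset.sum_eq_single i]
  · rw [inj_mo_inl, if_pos rfl]
  · intro j _ hj
    rw [inj_mo_inl, if_neg hj]
  · intro h
    exact absurd (Finset.mem_univ i) h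

theorem inj_e_inr {m s l : ℕ} (b : Fin m → Ib (s + 1) l) (i : Fin m) (w : Fin s) :
    inj_e b (Sum.inr (i, w)) = if (b i).1 = w.succ then 1 else 0 := by
  unfold inj_e
  rw [Finsupp.finset_sum_apply, Finset.sum_eq_single i]
  · rw [inj_mo_inr]
    simp
  · intro j _ hj
    rw [inj_mo_inr, if_neg (fun h => hj h.1)]
  · intro h
    exact absurd (Finset.mem_univ i) h

theorem inj_e_inj {m s l : ℕ} {b b' : Fin m → Ib (s + 1) l} (h : inj_e b = inj_e b') : b = b' := by
  funext i
  have h1 : ∀ w : Fin s, ((b i).1 = w.succ ↔ (b' i).1 = w.succ) := by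
    intro w
    have := congrArg (fun f => f (Sum.inr (i, w))) h
    simp only [inj_e_inr] at this
    by_cases h1 : (b i).1 = w.succ <;> by_cases h2 : (b' i).1 = w.succ
    · exact ⟨fun _ => h2, fun _ => h1⟩
    · rw [if_pos h1, if_neg h2] at this
      exact absurd this one_ne_zero
    · rw [if_neg h1, if_pos h2] at this
      exact absurd this.symm one_ne_zero
    · exact ⟨fun h => absurd h h1, fun h => absurd h h2⟩
  have h2 : ∀ w : Fin s, (b i).2.1.count w.succ = (b' i).2.1.count w.succ := by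
    intro w
    have := congrArg (fun f => f (Sum.inl (i, w))) h
    simpa only [inj_e_inl] using this
  refine Prod.ext ?_ ?_
  · rcases Fin.eq_zero_or_eq_succ (b i).1 with h3 | ⟨w, h3⟩
    · rcases Fin.eq_zero_or_eq_succ (b' i).1 with h4 | ⟨w, h4⟩
      · rw [h3, h4]
      · rw [(h1 w).mpr h4, h4]
    · rw [h3, (h1 w).mp h3]
  · apply Subtype.ext
    have hc : ∀ z : Sym (Fin (s + 1)) l, z.1.count 0 + ∑ w : Fin s, z.1.count w.succ = l := by
      intro z
      rw [← Fin.sum_univ_succ (fun c => z.1.count c), Multiset.sum_count_eq_card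
        (fun a _ => Finset.mem_univ a)]
      exact z.2
    apply Multiset.ext.mpr
    intro c
    rcases Fin.eq_zero_or_eq_succ c with h3 | ⟨w, h3⟩
    · rw [h3]
      have h4 := hc (b i).2
      have h5 := hc (b' i).2
      have h6 : ∑ w : Fin s, (b i).2.1.count w.succ = ∑ w : Fin s, (b' i).2.1.count w.succ :=
        Finset.sum_congr rfl fun w _ => h2 w
      omega
    · rw [h3]
      exact h2 w

/-! ### monomials as products -/

theorem inj_tuple {I : Type} {m : ℕ} (d : I →₀ ℕ) (hd : d.degree = m) :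
    ∃ a : Fin m → I, ∑ t, Finsupp.single (a t) 1 = d := by
  classical
  have hM : ∀ M : Multiset I, Multiset.card M = m → ∃ a : Fin m → I, univ.val.map a = M := by
    intro M hM
    induction M using Quot.inductionOn with
    | _ L =>
      have hl : L.length = m := hM
      subst hl
      refine ⟨L.get, ?_⟩
      show univ.val.map L.get = (L : Multiset I)
      exact Fin.univ_val_map L.get |>.trans (by rw [List.ofFn_get])
  obtain ⟨a, ha⟩ := hM (Finsupp.toMultiset d) (by
    rw [Finsupp.card_toMultiset, ← hd, Finsupp.degree_apply]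
    rfl)
  refine ⟨a, ?_⟩
  rw [← Finsupp.toMultiset_toFinsupp d, ← ha]
  have e1 : univ.val.map a = ∑ t, ({a t} : Multiset I) := by
    have e2 := Multiset.sum_map_singleton (univ.val.map a)
    rw [Multiset.map_map] at e2
    exact e2.symm
  rw [e1, map_sum]
  exact Finset.sum_congr rfl fun t _ => (Multiset.toFinsupp_singleton (a t)).symm

theorem inj_mono {I : Type} {m : ℕ} (a : Fin m → I) :
    (monomial (∑ t, Finsupp.single (a t) 1) (1 : ℂ) : MvPolynomial I ℂ) = ∏ t, X (a t) := by
  rw [monomial_sum_one]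
  rfl

theorem inj_Th (hPol : PolStmt) {m s l : ℕ} (a : Fin m → Ib (s + 1) l) :
    Th (bx (m := m) (s := s)) by' l (∏ t, X (a t)) =
      ∑ σ : Equiv.Perm (Fin m), ∏ t, ab bx by' (a t) (σ t) := by
  have h := hPol m (BB m s) (Ib (s + 1) l) (fun b i => ab bx by' b i) a
  rw [← h]
  unfold Th
  simp only [LinearMap.sum_apply, LinearMap.smul_apply, AlgHom.toLinearMap_apply, map_prod,
    aeval_X]

theorem inj_coeff (hPol : PolStmt) {m s l : ℕ} (a : Fin m → Ib (s + 1) l)
    (b : Fin m → Ib (s + 1) l) :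
    coeff (inj_e b) (inj_th m s (Th (bx (m := m) (s := s)) by' l (∏ t, X (a t)))) =
      ((univ.filter fun σ : Equiv.Perm (Fin m) => (fun i => a (σ.symm i)) = b).card : ℂ) := by
  rw [inj_Th hPol, map_sum, coeff_sum, Finset.card_filter]
  push_cast
  refine Finset.sum_congr rfl fun σ _ => ?_
  have e1 : inj_th m s (∏ t, ab bx by' (a t) (σ t)) =
      monomial (inj_e fun i => a (σ.symm i)) 1 := by
    rw [map_prod]
    simp only [inj_th_ab]
    rw [← monomial_sum_one]
    unfold inj_e
    rw [← Equiv.sum_comp σ (fun x => inj_mo (a (σ.symm x)) x)]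
    simp only [Equiv.symm_apply_apply]
  rw [e1, coeff_monomial]
  by_cases h : (fun i => a (σ.symm i)) = b
  · rw [if_pos h, if_pos (by rw [h])]
  · rw [if_neg h, if_neg fun h' => h (inj_e_inj h')]

theorem kInj (hPol : PolStmt) : InjStmt := by
  intro m s l ν F hF hTh
  have hdeg : ∀ d ∈ F.support, d.degree = m := by
    intro d hd
    have h1 : Finsupp.weight WT d = (ν, (m : ℤ)) := hF (mem_support_iff.1 hd)
    have h2 := weight_snd d
    rw [h1] at h2
    have h3 : (m : ℤ) = (d.degree : ℤ) := h2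
    exact_mod_cast h3.symm
  have hch : ∀ d : Ib (s + 1) l →₀ ℕ, ∃ a : Fin m → Ib (s + 1) l, d ∈ F.support →
      ∑ t, Finsupp.single (a t) 1 = d := by
    intro d
    by_cases hd : d ∈ F.support
    · obtain ⟨a, ha⟩ := inj_tuple d (hdeg d hd)
      exact ⟨a, fun _ => ha⟩
    · exact ⟨fun _ => (0, ⟨Multiset.replicate l 0, Multiset.card_replicate l 0⟩),
        fun h => absurd h hd⟩
  choose a ha using hch
  have hFs : F = ∑ d ∈ F.support, coeff d F • ∏ t, X (a d t) := by
    conv_lhs => rw [← support_sum_monomial_coeff F]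
    refine Finset.sum_congr rfl fun d hd => ?_
    rw [← inj_mono, ha d hd, smul_monomial, smul_eq_mul, mul_one]
  by_contra hne
  obtain ⟨d₀, hd₀⟩ := MvPolynomial.ne_zero_iff.1 hne
  have hd₀' : d₀ ∈ F.support := mem_support_iff.2 hd₀
  have h1 : coeff (inj_e (a d₀)) (inj_th m s (Th (bx (m := m) (s := s)) by' l F)) = 0 := by
    rw [hTh, map_zero, coeff_zero]
  rw [hFs] at h1
  rw [map_sum, map_sum, coeff_sum] at h1
  simp only [map_smul, coeff_smul, inj_coeff hPol, smul_eq_mul] at h1
  rw [Finset.sum_eq_single d₀] at h1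
  · have h2 : 0 < (univ.filter fun σ : Equiv.Perm (Fin m) =>
        (fun i => a d₀ (σ.symm i)) = a d₀).card := by
      rw [Finset.card_pos]
      exact ⟨1, Finset.mem_filter.mpr ⟨Finset.mem_univ _, rfl⟩⟩
    rcases mul_eq_zero.mp h1 with h3 | h3
    · exact hd₀ h3
    · have h4 : (univ.filter fun σ : Equiv.Perm (Fin m) =>
        (fun i => a d₀ (σ.symm i)) = a d₀).card = 0 := by exact_mod_cast h3
      omega
  · intro d hd hdd
    have h2 : (univ.filter fun σ : Equiv.Perm (Fin m) =>
        (fun i => a d (σ.symm i)) = a d₀) = ∅ := by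
      rw [Finset.filter_eq_empty_iff]
      intro σ _ hσ
      apply hdd
      rw [← ha d hd, ← ha d₀ hd₀', ← hσ]
      exact (Equiv.sum_comp σ.symm fun t => Finsupp.single (a d t) 1).symm
    rw [h2, Finset.card_empty, Nat.cast_zero, mul_zero]
  · intro h
    exact absurd hd₀' h

end T2

end Pool.Agent.Lib.MP_a688ad_al
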