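import Pool.Agent.Lib.MP_a688ad_al.T2.Spec

/-!
# MP_a688ad_al, stable range, module K2: products of two marked power sums
-/

set_option autoImplicit false

open MvPolynomial Finset

namespace Pool.Agent.Lib.MP_a688ad_al

namespace T2

variable {m s : ℕ} {T : Type} [CommRing T] [Algebra ℂ T]

/-- The marked power sum of the letters of `C`, the letter at `c` is the mark. -/
private def k2q (P : PS m s T) (u : ℕ → Fin s) (C : Finset ℕ) (c : ℕ) : T :=
  P.pe (xs (C.erase c) u) (u c)

private theorem k2_wt (u : ℕ → Fin s) {C : Finset ℕ} {c : ℕ} (hc : c ∈ C) :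
    wtM (xs (C.erase c) u) + sg (u c) = wtS C u := by
  rw [wtM_xs, add_comm, ← wtS_insert (Finset.notMem_erase c C), Finset.insert_erase hc]

private theorem k2_i (P : PS m s T) (u : ℕ → Fin s) {C : Finset ℕ} {c : ℕ} (hc : c ∈ C)
    (h : C.card < m) : k2q P u C c ∈ P.Am 1 (wtS C u) := by
  rw [← k2_wt u hc]
  apply P.Am_pe
  rw [card_xs, Finset.card_erase_of_mem hc]
  have := Finset.card_pos.2 ⟨c, hc⟩
  omega

private theorem k2_ii (P : PS m s T) (u : ℕ → Fin s) {C : Finset ℕ} {c c' : ℕ} (hc : c ∈ C)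
    (hc' : c' ∈ C) (h : C.card = m) : k2q P u C c - k2q P u C c' ∈ P.Am 1 (wtS C u) := by
  by_cases hcc : c = c'
  · subst hcc
    rw [sub_self]
    exact Submodule.zero_mem _
  have hm1 : c' ∈ C.erase c := Finset.mem_erase.2 ⟨Ne.symm hcc, hc'⟩
  have h1 : C.erase c = insert c' ((C.erase c).erase c') := (Finset.insert_erase hm1).symm
  have h2 : C.erase c' = insert c ((C.erase c).erase c') := by
    rw [Finset.erase_right_comm]
    exact (Finset.insert_erase (Finset.mem_erase.2 ⟨hcc, hc⟩)).symm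
  have h3 : c' ∉ (C.erase c).erase c' := Finset.notMem_erase _ _
  have h4 : c ∉ (C.erase c).erase c' := fun h =>
    Finset.notMem_erase c C (Finset.mem_of_mem_erase h)
  have h5 : wtS C u = wtM (xs ((C.erase c).erase c') u) + sg (u c') + sg (u c) := by
    rw [← k2_wt u hc, h1, xs_insert h3, wtM_cons]
    rw [← h1]
    abel
  unfold k2q
  rw [h5, h2, xs_insert h4]
  have h6 : xs (C.erase c) u = u c' ::ₘ xs ((C.erase c).erase c') u := by
    rw [← xs_insert h3, ← h1]
  rw [h6]
  apply P.Am_an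
  rw [card_xs, Finset.card_erase_of_mem hm1, Finset.card_erase_of_mem hc]
  have := Finset.card_pos.2 ⟨c', hm1⟩
  rw [Finset.card_erase_of_mem hc] at this
  omega

/-- The smaller products imply the product with a long factor. -/
private theorem k2_red (h1 : RelMStmt) (h3 : AmPStmt) (P : PS m s T) (hm : 3 ≤ m)
    (u : ℕ → Fin s) (q : ℕ) (w : Fin s → ℤ) (X : T) (c : ℕ) : ∀ (N : ℕ) (C : Finset ℕ),
    C.card = N → c ∈ C →
    (∀ C' ⊆ C, c ∈ C' → C'.card ≤ m → k2q P u C' c * X ∈ P.Am q (wtS C' u + w)) →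
    k2q P u C c * X ∈ P.Am q (wtS C u + w) := by
  intro N
  induction N using Nat.strong_induction_on with
  | _ N ih =>
  intro C hN hc h
  rcases Nat.lt_or_ge m C.card with hlt | hle
  swap
  · exact h C (Finset.Subset.refl _) hc hle
  obtain ⟨I, hI1, hI2⟩ : ∃ I ⊆ C.erase c, I.card = m :=
    Finset.exists_subset_card_eq (by rw [Finset.card_erase_of_mem hc]; omega)
  have hcI : c ∉ I := fun hh => Finset.notMem_erase c C (hI1 hh)
  have hIC : I ⊆ C := fun x hx => Finset.mem_of_mem_erase (hI1 hx)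
  have hrel := h1 m s T P (C.erase c) I u (u c) hI1 hI2
  have hI : I ∈ I.powerset := Finset.mem_powerset_self I
  rw [← Finset.add_sum_erase _ _ hI] at hrel
  have hterm : ∀ R ∈ I.powerset.erase I, (((-1 : ℂ) ^ R.card * (R.card.factorial : ℂ)) •
      (P.e (I \ R) u * P.pe (xs ((C.erase c \ I) ∪ R) u) (u c))) * X
        ∈ P.Am q (wtS C u + w) := by
    intro R hR
    have hRI : R ⊆ I := Finset.mem_powerset.1 (Finset.mem_of_mem_erase hR)
    have hRne : R ≠ I := Finset.ne_of_mem_erase hR
    have hlt : R.card < I.card := Finset.card_lt_card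
      (Finset.ssubset_iff_subset_ne.2 ⟨hRI, hRne⟩)
    have hsub : I \ R ⊆ C := fun x hx => hIC (Finset.mem_sdiff.1 hx).1
    have hset : (C.erase c \ I) ∪ R = (C \ (I \ R)).erase c := by
      ext x
      simp only [Finset.mem_union, Finset.mem_sdiff, Finset.mem_erase]
      constructor
      · rintro (⟨⟨hx1, hx2⟩, hx3⟩ | hx)
        · exact ⟨hx1, hx2, fun hh => hx3 hh.1⟩
        · exact ⟨fun hh => hcI (hh ▸ hRI hx), hIC (hRI hx), fun hh => hh.2 hx⟩
      · rintro ⟨hx1, hx2, hx3⟩
        by_cases hxI : x ∈ I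
        · right
          by_contra hxR
          exact hx3 ⟨hxI, hxR⟩
        · left
          exact ⟨⟨hx1, hx2⟩, hxI⟩
    have hcC' : c ∈ C \ (I \ R) :=
      Finset.mem_sdiff.2 ⟨hc, fun hh => hcI (Finset.mem_sdiff.1 hh).1⟩
    have hcard : (C \ (I \ R)).card < N := by
      rw [Finset.card_sdiff_of_subset hsub, Finset.card_sdiff_of_subset hRI]
      have := Finset.card_le_card hIC
      omega
    have h4 := ih _ hcard (C \ (I \ R)) rfl hcC'
      (fun C' hC' hcC'' hle => h C' (hC'.trans Finset.sdiff_subset) hcC'' hle)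
    have h5 := P.Am_mul ((h3 m s T P hm).2 (I \ R) u) h4
    rw [smul_mul_assoc, hset]
    apply Submodule.smul_mem
    have hw : wtS (I \ R) u + (wtS (C \ (I \ R)) u + w) = wtS C u + w := by
      rw [← add_assoc, ← wtS_union Finset.disjoint_sdiff, Finset.union_sdiff_of_subset hsub]
    rw [Nat.zero_add, hw] at h5
    rw [mul_assoc]
    exact h5
  have hmain : (((-1 : ℂ) ^ I.card * (I.card.factorial : ℂ)) • (k2q P u C c * X))
      ∈ P.Am q (wtS C u + w) := by
    have h6 : (((-1 : ℂ) ^ I.card * (I.card.factorial : ℂ)) • (k2q P u C c * X))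
        = - ∑ R ∈ I.powerset.erase I, (((-1 : ℂ) ^ R.card * (R.card.factorial : ℂ)) •
      (P.e (I \ R) u * P.pe (xs ((C.erase c \ I) ∪ R) u) (u c))) * X := by
      rw [← Finset.sum_mul, eq_neg_iff_add_eq_zero]
      have h7 := congrArg (fun z => z * X) hrel
      simp only [zero_mul, add_mul] at h7
      rw [Finset.sdiff_self, P.e_empty, one_mul, Finset.sdiff_union_of_subset hI1,
        smul_mul_assoc] at h7
      exact h7
    rw [h6]
    exact Submodule.neg_mem _ (Submodule.sum_mem _ hterm)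
  have hne : ((-1 : ℂ) ^ I.card * (I.card.factorial : ℂ)) ≠ 0 :=
    mul_ne_zero (pow_ne_zero _ (by norm_num)) (Nat.cast_ne_zero.2 (Nat.factorial_ne_zero _))
  exact (Submodule.smul_mem_iff _ hne).1 hmain

/-- The coefficient of a term of RelKStmt. -/
private noncomputable def k2c (R Q : Finset ℕ) : ℂ :=
  (-1 : ℂ) ^ (R.card + Q.card) * (R.card.factorial : ℂ) * (Q.card.factorial : ℂ)

/-- A term of RelKStmt. -/
private noncomputable def k2f (P : PS m s T) (u : ℕ → Fin s) (C B : Finset ℕ) (c b : ℕ)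
    (R Q : Finset ℕ) : T :=
  k2c R Q • (P.e ((B.erase b \ R) \ Q) u *
    (P.pe (xs (C.erase c ∪ R) u) (u c) * P.pe (xs Q u) (u b)))

private theorem k2f_eq (P : PS m s T) (u : ℕ → Fin s) {C B : Finset ℕ} {c b : ℕ}
    (hd : Disjoint C B) (hc : c ∈ C) {R Q : Finset ℕ} (hR : R ⊆ B.erase b)
    (hQ : Q ⊆ B.erase b) : k2f P u C B c b R Q = k2c R Q • (P.e ((B.erase b \ R) \ Q) u *
      (k2q P u (C ∪ R) c * k2q P u (insert b Q) b)) := by
  have hcR : c ∉ R := fun h => Finset.disjoint_left.1 hd hc (Finset.mem_of_mem_erase (hR h))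
  have hbQ : b ∉ Q := fun h => Finset.notMem_erase b B (hQ h)
  unfold k2f k2q
  rw [Finset.erase_insert hbQ, Finset.erase_union_distrib, Finset.erase_eq_of_notMem hcR]

private theorem k2f_mem (h3 : AmPStmt) (P : PS m s T) (hm : 3 ≤ m) (u : ℕ → Fin s)
    {C B : Finset ℕ} {c b : ℕ} (hd : Disjoint C B) (hc : c ∈ C) (hb : b ∈ B) {R Q : Finset ℕ}
    (hR : R ⊆ B.erase b) (hQ : Q ⊆ B.erase b \ R)
    (h : k2q P u (C ∪ R) c * k2q P u (insert b Q) b
      ∈ P.Am 2 (wtS (C ∪ R) u + wtS (insert b Q) u)) :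
    k2f P u C B c b R Q ∈ P.Am 2 (wtS C u + wtS B u) := by
  have hQ' : Q ⊆ B.erase b := hQ.trans Finset.sdiff_subset
  have hbQ : b ∉ Q := fun h => Finset.notMem_erase b B (hQ' h)
  rw [k2f_eq P u hd hc hR hQ']
  apply Submodule.smul_mem
  have h5 := P.Am_mul ((h3 m s T P hm).2 ((B.erase b \ R) \ Q) u) h
  have hdC : Disjoint C R := Finset.disjoint_left.2 fun x hx hx' =>
    Finset.disjoint_left.1 hd hx (Finset.mem_of_mem_erase (hR hx'))
  have hw1 : wtS ((B.erase b \ R) \ Q) u + wtS Q u = wtS (B.erase b \ R) u := by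
    rw [← wtS_union Finset.sdiff_disjoint, Finset.sdiff_union_of_subset hQ]
  have hw2 : wtS (B.erase b \ R) u + wtS R u = wtS (B.erase b) u := by
    rw [← wtS_union Finset.sdiff_disjoint, Finset.sdiff_union_of_subset hR]
  have hw3 : sg (u b) + wtS (B.erase b) u = wtS B u := by
    rw [← wtS_insert (Finset.notMem_erase b B), Finset.insert_erase hb]
  have hw : wtS ((B.erase b \ R) \ Q) u + (wtS (C ∪ R) u + wtS (insert b Q) u)
      = wtS C u + wtS B u := by
    rw [wtS_union hdC, wtS_insert hbQ, ← hw3, ← hw2, ← hw1]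
    abel
  rw [Nat.zero_add, hw] at h5
  exact h5

/-- The sum of the terms which are not known to be in `A'`. -/
private theorem k2_sum (h2 : RelKStmt) (P : PS m s T) (u : ℕ → Fin s) {C B : Finset ℕ} {c b : ℕ}
    (hd : Disjoint C B) (hb : b ∈ B) (hB : B.card = m)
    (S' : Finset ((_ : Finset ℕ) × Finset ℕ))
    (hS' : ∀ x ∈ S', x.1 ⊆ B.erase b ∧ x.2 ⊆ B.erase b \ x.1) (w : Submodule ℂ T)
    (hw : ∀ R Q, R ⊆ B.erase b → Q ⊆ B.erase b \ R → (⟨R, Q⟩ : (_ : Finset ℕ) × Finset ℕ) ∉ S' →
      k2f P u C B c b R Q ∈ w) :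
    ∑ x ∈ S', k2f P u C B c b x.1 x.2 ∈ w := by
  have hcard : (B.erase b).card + 1 = m := by
    rw [Finset.card_erase_of_mem hb]
    have := Finset.card_pos.2 ⟨b, hb⟩
    omega
  have hdis : Disjoint (B.erase b) (C.erase c) := Finset.disjoint_left.2 fun x hx hx' =>
    Finset.disjoint_left.1 hd (Finset.mem_of_mem_erase hx') (Finset.mem_of_mem_erase hx)
  have hrel := h2 m s T P (B.erase b) (C.erase c) u (u c) (u b) hdis hcard
  have hrel2 : ∑ R ∈ (B.erase b).powerset, ∑ Q ∈ (B.erase b \ R).powerset,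
      k2f P u C B c b R Q = 0 := hrel
  rw [Finset.sum_sigma'] at hrel2
  have hsub : S' ⊆ (B.erase b).powerset.sigma (fun R => (B.erase b \ R).powerset) := by
    intro x hx
    rw [Finset.mem_sigma]
    exact ⟨Finset.mem_powerset.2 (hS' x hx).1, Finset.mem_powerset.2 (hS' x hx).2⟩
  rw [← Finset.sum_sdiff hsub, add_comm, ← eq_neg_iff_add_eq_zero] at hrel2
  rw [hrel2]
  apply Submodule.neg_mem
  apply Submodule.sum_mem
  intro x hx
  obtain ⟨hx1, hx2⟩ := Finset.mem_sdiff.1 hx
  rw [Finset.mem_sigma] at hx1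
  exact hw x.1 x.2 (Finset.mem_powerset.1 hx1.1) (Finset.mem_powerset.1 hx1.2) hx2

private theorem k2c_ne (R Q : Finset ℕ) : k2c R Q ≠ 0 :=
  mul_ne_zero (mul_ne_zero (pow_ne_zero _ (by norm_num))
    (Nat.cast_ne_zero.2 (Nat.factorial_ne_zero _))) (Nat.cast_ne_zero.2 (Nat.factorial_ne_zero _))

/-- The relation (*). -/
private theorem k2_star (h2 : RelKStmt) (h3 : AmPStmt) (P : PS m s T) (hm : 3 ≤ m)
    (u : ℕ → Fin s) (k : ℕ) (hk1 : 1 ≤ k) (hkm : k < m)
    (ih : ∀ j < k, 1 ≤ j → ∀ C B : Finset ℕ, Disjoint C B → C.card = j → ∀ c ∈ C, ∀ b ∈ B,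
      k2q P u C c * k2q P u B b ∈ P.Am 2 (wtS C u + wtS B u))
    {C B : Finset ℕ} {c b : ℕ} (hd : Disjoint C B) (hc : c ∈ C) (hb : b ∈ B) (hC : C.card = k)
    (hB : B.card = m) :
    (((m - 1).choose (k - 1) : ℕ) : ℂ) • (k2q P u C c * k2q P u B b)
      + ∑ Q ∈ (B.erase b).powersetCard (k - 1), k2q P u (insert b Q) b
        * k2q P u ((C ∪ B) \ insert b Q) c ∈ P.Am 2 (wtS C u + wtS B u) := by
  have hD : (B.erase b).card = m - 1 := by rw [Finset.card_erase_of_mem hb, hB]
  have hnotin : (⟨∅, B.erase b⟩ : (_ : Finset ℕ) × Finset ℕ) ∉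
      ((B.erase b).powersetCard (k - 1)).image
        (fun Q => (⟨B.erase b \ Q, Q⟩ : (_ : Finset ℕ) × Finset ℕ)) := by
    intro h
    obtain ⟨Q, hQ, hQ'⟩ := Finset.mem_image.1 h
    have h5 : Q = B.erase b := by
      have := congrArg (fun x : (_ : Finset ℕ) × Finset ℕ => x.2) hQ'
      exact this
    have h6 := (Finset.mem_powersetCard.1 hQ).2
    rw [h5, hD] at h6
    omega
  have hsum := k2_sum h2 P u (C := C) (B := B) (c := c) (b := b) hd hb hB
    (insert ⟨∅, B.erase b⟩ (((B.erase b).powersetCard (k - 1)).image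
      (fun Q => (⟨B.erase b \ Q, Q⟩ : (_ : Finset ℕ) × Finset ℕ))))
    (by
      intro x hx
      rcases Finset.mem_insert.1 hx with hx | hx
      · subst hx
        exact ⟨Finset.empty_subset _, by rw [Finset.sdiff_empty]⟩
      · obtain ⟨Q, hQ, rfl⟩ := Finset.mem_image.1 hx
        have hQ1 := (Finset.mem_powersetCard.1 hQ).1
        refine ⟨Finset.sdiff_subset, ?_⟩
        show Q ⊆ B.erase b \ (B.erase b \ Q)
        rw [Finset.sdiff_sdiff_eq_self hQ1])
    (P.Am 2 (wtS C u + wtS B u))
    (by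
      intro R Q hR hQ hx
      apply k2f_mem h3 P hm u hd hc hb hR hQ
      have hQ' : Q ⊆ B.erase b := hQ.trans Finset.sdiff_subset
      have hbQ : b ∉ Q := fun h => Finset.notMem_erase b B (hQ' h)
      have hRB : ∀ x ∈ R, x ∈ B := fun x hx => Finset.mem_of_mem_erase (hR hx)
      have hdR : Disjoint C R := Finset.disjoint_left.2 fun x hx hx' =>
        Finset.disjoint_left.1 hd hx (hRB x hx')
      have hcQ : Q.card ≤ m - 1 - R.card := by
        have := Finset.card_le_card hQ
        rwa [Finset.card_sdiff_of_subset hR, hD] at this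
      have hcR : R.card ≤ m - 1 := by
        rw [← hD]
        exact Finset.card_le_card hR
      have hcu : (C ∪ R).card = k + R.card := by
        rw [Finset.card_union_of_disjoint hdR, hC]
      have hcb : (insert b Q).card = Q.card + 1 := Finset.card_insert_of_notMem hbQ
      have hcC : c ∈ C ∪ R := Finset.mem_union_left _ hc
      have hdis : Disjoint (insert b Q) (C ∪ R) := by
        rw [Finset.disjoint_left]
        intro x hx hx'
        rcases Finset.mem_insert.1 hx with hx | hx
        · subst hx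
          rcases Finset.mem_union.1 hx' with hx' | hx'
          · exact Finset.disjoint_left.1 hd hx' hb
          · exact Finset.notMem_erase _ B (hR hx')
        · rcases Finset.mem_union.1 hx' with hx' | hx'
          · exact Finset.disjoint_left.1 hd hx' (Finset.mem_of_mem_erase (hQ' hx))
          · exact (Finset.mem_sdiff.1 (hQ hx)).2 hx'
      by_cases hcase : Q.card + 1 < k
      · have h5 := ih (Q.card + 1) hcase (by omega) (insert b Q) (C ∪ R) hdis hcb b
          (Finset.mem_insert_self _ _) c hcC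
        rw [mul_comm, add_comm]
        exact h5
      · by_cases hcase2 : k + R.card < m ∧ Q.card + 1 < m
        · have h5 := k2_i P u hcC (by rw [hcu]; exact hcase2.1)
          have h6 := k2_i P u (Finset.mem_insert_self b Q) (by rw [hcb]; exact hcase2.2)
          have h7 := P.Am_mul h5 h6
          exact h7
        · exfalso
          apply hx
          rw [Finset.mem_insert]
          by_cases hR0 : R = ∅
          · left
            subst hR0
            rw [Finset.sdiff_empty] at hQ
            have : Q = B.erase b := by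
              apply Finset.eq_of_subset_of_card_le hQ
              rw [hD]
              rw [Finset.card_empty] at hcase2
              omega
            rw [this]
          · right
            have hRpos : 0 < R.card := Finset.card_pos.2 (Finset.nonempty_iff_ne_empty.2 hR0)
            have hQk : Q.card = k - 1 := by omega
            have hRk : R.card = m - k := by omega
            refine Finset.mem_image.2 ⟨Q, Finset.mem_powersetCard.2 ⟨hQ', hQk⟩, ?_⟩
            have : R = B.erase b \ Q := by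
              apply Finset.eq_of_subset_of_card_le
              · intro x hx
                exact Finset.mem_sdiff.2 ⟨hR hx, fun h => (Finset.mem_sdiff.1 (hQ h)).2 hx⟩
              · rw [Finset.card_sdiff_of_subset hQ', hD]
                omega
            rw [this])
  rw [Finset.sum_insert hnotin, Finset.sum_image (by
    intro Q _ Q' _ h
    exact congrArg (fun x : (_ : Finset ℕ) × Finset ℕ => x.2) h)] at hsum
  simp only at hsum
  have hk2 : (((m - 1).choose (k - 1) : ℕ) : ℂ)
      * (((k - 1).factorial : ℂ) * ((m - k).factorial : ℂ)) = ((m - 1).factorial : ℂ) := by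
    have := Nat.choose_mul_factorial_mul_factorial (n := m - 1) (k := k - 1) (by omega)
    have h7 : m - 1 - (k - 1) = m - k := by omega
    rw [h7] at this
    rw [← this]
    push_cast
    ring
  have e1 : k2f P u C B c b ∅ (B.erase b)
      = ((-1 : ℂ) ^ (m - 1) * (((k - 1).factorial : ℂ) * ((m - k).factorial : ℂ))) •
        ((((m - 1).choose (k - 1) : ℕ) : ℂ) • (k2q P u C c * k2q P u B b)) := by
    rw [k2f_eq P u hd hc (Finset.empty_subset _) (Finset.Subset.refl _), smul_smul,
      Finset.sdiff_empty, Finset.sdiff_self, P.e_empty, one_mul, Finset.union_empty,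
      Finset.insert_erase hb]
    congr 1
    unfold k2c
    rw [Finset.card_empty, hD, Nat.factorial_zero, zero_add, ← hk2]
    push_cast
    ring
  have e2 : ∀ Q ∈ (B.erase b).powersetCard (k - 1), k2f P u C B c b (B.erase b \ Q) Q
      = ((-1 : ℂ) ^ (m - 1) * (((k - 1).factorial : ℂ) * ((m - k).factorial : ℂ))) •
        (k2q P u (insert b Q) b * k2q P u ((C ∪ B) \ insert b Q) c) := by
    intro Q hQ
    obtain ⟨hQ1, hQ2⟩ := Finset.mem_powersetCard.1 hQ
    have hset : C ∪ (B.erase b \ Q) = (C ∪ B) \ insert b Q := by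
      ext x
      simp only [Finset.mem_union, Finset.mem_sdiff, Finset.mem_erase, Finset.mem_insert]
      constructor
      · rintro (hx | ⟨⟨hx1, hx2⟩, hx3⟩)
        · refine ⟨Or.inl hx, ?_⟩
          rintro (rfl | hx')
          · exact Finset.disjoint_left.1 hd hx hb
          · exact Finset.disjoint_left.1 hd hx (Finset.mem_of_mem_erase (hQ1 hx'))
        · exact ⟨Or.inr hx2, fun h => h.elim hx1 hx3⟩
      · rintro ⟨hx | hx, hx'⟩
        · exact Or.inl hx
        · exact Or.inr ⟨⟨fun h => hx' (Or.inl h), hx⟩, fun h => hx' (Or.inr h)⟩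
    rw [k2f_eq P u hd hc Finset.sdiff_subset hQ1, Finset.sdiff_sdiff_eq_self hQ1,
      Finset.sdiff_self, P.e_empty, one_mul, hset, mul_comm (k2q P u ((C ∪ B) \ insert b Q) c)]
    congr 1
    unfold k2c
    rw [Finset.card_sdiff_of_subset hQ1, hD, hQ2]
    have h8 : m - 1 - (k - 1) = m - k := by omega
    have h9 : m - k + (k - 1) = m - 1 := by omega
    rw [h8, h9]
    ring
  rw [e1, Finset.sum_congr rfl e2, ← Finset.smul_sum, ← smul_add] at hsum
  refine (Submodule.smul_mem_iff _ ?_).1 hsum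
  exact mul_ne_zero (pow_ne_zero _ (by norm_num)) (mul_ne_zero
    (Nat.cast_ne_zero.2 (Nat.factorial_ne_zero _)) (Nat.cast_ne_zero.2 (Nat.factorial_ne_zero _)))

/-- The product does not depend on the marks. -/
private theorem k2_ind (h2 : RelKStmt) (h3 : AmPStmt) (P : PS m s T) (hm : 3 ≤ m)
    (u : ℕ → Fin s) (k : ℕ) (hk1 : 1 ≤ k) (hkm : k < m)
    (ih : ∀ j < k, 1 ≤ j → ∀ C B : Finset ℕ, Disjoint C B → C.card = j → ∀ c ∈ C, ∀ b ∈ B,
      k2q P u C c * k2q P u B b ∈ P.Am 2 (wtS C u + wtS B u))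
    {C B : Finset ℕ} {c b c' b' : ℕ} (hd : Disjoint C B) (hc : c ∈ C) (hb : b ∈ B) (hc' : c' ∈ C)
    (hb' : b' ∈ B) (hC : C.card = k) (hB : B.card = m) :
    k2q P u C c * k2q P u B b - k2q P u C c' * k2q P u B b' ∈ P.Am 2 (wtS C u + wtS B u) := by
  have e1 : k2q P u C c * k2q P u B b - k2q P u C c * k2q P u B b'
      ∈ P.Am 2 (wtS C u + wtS B u) := by
    rw [← mul_sub]
    have h5 := k2_i P u hc (by rw [hC]; exact hkm)
    have h6 := k2_ii P u hb hb' hB
    have h7 := P.Am_mul h5 h6
    exact h7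
  have e2 : k2q P u C c * k2q P u B b' - k2q P u C c' * k2q P u B b'
      ∈ P.Am 2 (wtS C u + wtS B u) := by
    have s1 := k2_star h2 h3 P hm u k hk1 hkm ih hd hc hb' hC hB
    have s2 := k2_star h2 h3 P hm u k hk1 hkm ih hd hc' hb' hC hB
    have s3 := Submodule.sub_mem _ s1 s2
    rw [add_sub_add_comm, ← smul_sub, ← Finset.sum_sub_distrib] at s3
    have s4 : ∑ Q ∈ (B.erase b').powersetCard (k - 1),
        (k2q P u (insert b' Q) b' * k2q P u ((C ∪ B) \ insert b' Q) c
          - k2q P u (insert b' Q) b' * k2q P u ((C ∪ B) \ insert b' Q) c')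
        ∈ P.Am 2 (wtS C u + wtS B u) := by
      apply Submodule.sum_mem
      intro Q hQ
      obtain ⟨hQ1, hQ2⟩ := Finset.mem_powersetCard.1 hQ
      have hbQ : b' ∉ Q := fun h => Finset.notMem_erase b' B (hQ1 h)
      have hcard : (insert b' Q).card = k := by
        rw [Finset.card_insert_of_notMem hbQ, hQ2]
        omega
      have hsubB : insert b' Q ⊆ B := by
        intro x hx
        rcases Finset.mem_insert.1 hx with hx | hx
        · subst hx
          exact hb'
        · exact Finset.mem_of_mem_erase (hQ1 hx)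
      have hsub : insert b' Q ⊆ C ∪ B := hsubB.trans Finset.subset_union_right
      have hmem : ∀ c ∈ C, c ∈ (C ∪ B) \ insert b' Q := fun c hc =>
        Finset.mem_sdiff.2 ⟨Finset.mem_union_left _ hc, fun h =>
          Finset.disjoint_left.1 hd hc (hsubB h)⟩
      have hcard2 : ((C ∪ B) \ insert b' Q).card = m := by
        rw [Finset.card_sdiff_of_subset hsub, Finset.card_union_of_disjoint hd, hC, hB, hcard]
        omega
      rw [← mul_sub]
      have h5 := k2_i P u (Finset.mem_insert_self b' Q) (by rw [hcard]; exact hkm)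
      have h6 := k2_ii P u (hmem c hc) (hmem c' hc') hcard2
      have h7 := P.Am_mul h5 h6
      rw [← wtS_union Finset.disjoint_sdiff, Finset.union_sdiff_of_subset hsub,
        wtS_union hd] at h7
      exact h7
    have s5 := (Submodule.add_mem_iff_left _ s4).1 s3
    refine (Submodule.smul_mem_iff _ ?_).1 s5
    have : 0 < (m - 1).choose (k - 1) := Nat.choose_pos (by omega)
    exact Nat.cast_ne_zero.2 this.ne'
  have e3 := Submodule.add_mem _ e1 e2
  rw [sub_add_sub_cancel] at e3
  exact e3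

private theorem k2_sInf {C : Finset ℕ} (h : C.Nonempty) : sInf (C : Set ℕ) ∈ C := by
  have h1 : (C : Set ℕ).Nonempty := h
  exact Finset.mem_coe.1 (Nat.sInf_mem h1)

/-- The case `k < m`. -/
private theorem k2_lt (h2 : RelKStmt) (h3 : AmPStmt) (h4 : KnStmt) (P : PS m s T) (hm : 3 ≤ m)
    (u : ℕ → Fin s) (k : ℕ) (hk1 : 1 ≤ k) (hkm : k < m)
    (ih : ∀ j < k, 1 ≤ j → ∀ C B : Finset ℕ, Disjoint C B → C.card = j → ∀ c ∈ C, ∀ b ∈ B,
      k2q P u C c * k2q P u B b ∈ P.Am 2 (wtS C u + wtS B u))
    {C B : Finset ℕ} {c b : ℕ} (hd : Disjoint C B) (hc : c ∈ C) (hb : b ∈ B) (hC : C.card = k)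
    (hB : B.card = m) : k2q P u C c * k2q P u B b ∈ P.Am 2 (wtS C u + wtS B u) := by
  have hW : (C ∪ B).card = m + k := by
    rw [Finset.card_union_of_disjoint hd, hC, hB, add_comm]
  have hwt : ∀ C' ⊆ C ∪ B, wtS C' u + wtS ((C ∪ B) \ C') u = wtS C u + wtS B u := by
    intro C' hC'
    rw [← wtS_union Finset.disjoint_sdiff, Finset.union_sdiff_of_subset hC', wtS_union hd]
  have hcd : ∀ C' ⊆ C ∪ B, C'.card = k → ((C ∪ B) \ C').card = m := by
    intro C' hC' hk'
    rw [Finset.card_sdiff_of_subset hC', hW, hk']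
    omega
  set F : Finset ℕ → T ⧸ P.Am 2 (wtS C u + wtS B u) := fun C' =>
    (P.Am 2 (wtS C u + wtS B u)).mkQ (k2q P u C' (sInf (C' : Set ℕ))
      * k2q P u ((C ∪ B) \ C') (sInf (((C ∪ B) \ C' : Finset ℕ) : Set ℕ))) with hF
  have hind : ∀ C' ⊆ C ∪ B, C'.card = k → ∀ c' ∈ C', ∀ b' ∈ (C ∪ B) \ C',
      (P.Am 2 (wtS C u + wtS B u)).mkQ (k2q P u C' c' * k2q P u ((C ∪ B) \ C') b') = F C' := by
    intro C' hC' hk' c' hc' b' hb'
    rw [hF]
    show (P.Am 2 (wtS C u + wtS B u)).mkQ (k2q P u C' c' * k2q P u ((C ∪ B) \ C') b')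
      = (P.Am 2 (wtS C u + wtS B u)).mkQ (k2q P u C' (sInf (C' : Set ℕ))
      * k2q P u ((C ∪ B) \ C') (sInf (((C ∪ B) \ C' : Finset ℕ) : Set ℕ)))
    rw [← sub_eq_zero, ← map_sub, Submodule.mkQ_apply, Submodule.Quotient.mk_eq_zero,
      ← hwt C' hC']
    exact k2_ind h2 h3 P hm u k hk1 hkm ih Finset.disjoint_sdiff hc' hb'
      (k2_sInf ⟨c', hc'⟩) (k2_sInf ⟨b', hb'⟩) hk' (hcd C' hC' hk')
  have hmain := h4 (T ⧸ P.Am 2 (wtS C u + wtS B u)) m k (C ∪ B) F hk1 hkm hW (by
    intro C' hC' hk' b' hb'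
    have hne : C'.Nonempty := Finset.card_pos.1 (by omega)
    have hc' := k2_sInf hne
    have s1 := k2_star h2 h3 P hm u k hk1 hkm ih (C := C') (B := (C ∪ B) \ C')
      Finset.disjoint_sdiff hc' hb' hk' (hcd C' hC' hk')
    rw [hwt C' hC', Finset.union_sdiff_of_subset hC'] at s1
    have s2 := (Submodule.Quotient.mk_eq_zero _).2 s1
    rw [← Submodule.mkQ_apply, map_add, map_smul, map_sum, hind C' hC' hk' _ hc' b' hb'] at s2
    rw [← s2]
    congr 1
    refine Finset.sum_nbij' (fun S => S.erase b') (fun Q => insert b' Q) ?_ ?_ ?_ ?_ ?_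
    · intro S hS
      obtain ⟨hS1, hS2⟩ := Finset.mem_filter.1 hS
      obtain ⟨hS3, hS4⟩ := Finset.mem_powersetCard.1 hS1
      refine Finset.mem_powersetCard.2 ⟨Finset.erase_subset_erase _ hS3, ?_⟩
      rw [Finset.card_erase_of_mem hS2, hS4]
    · intro Q hQ
      obtain ⟨hQ1, hQ2⟩ := Finset.mem_powersetCard.1 hQ
      have hbQ : b' ∉ Q := fun h => Finset.notMem_erase b' _ (hQ1 h)
      refine Finset.mem_filter.2 ⟨Finset.mem_powersetCard.2 ⟨?_, ?_⟩, Finset.mem_insert_self _ _⟩
      · intro x hx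
        rcases Finset.mem_insert.1 hx with hx | hx
        · subst hx
          exact hb'
        · exact Finset.mem_of_mem_erase (hQ1 hx)
      · rw [Finset.card_insert_of_notMem hbQ, hQ2]
        omega
    · intro S hS
      exact Finset.insert_erase (Finset.mem_filter.1 hS).2
    · intro Q hQ
      obtain ⟨hQ1, hQ2⟩ := Finset.mem_powersetCard.1 hQ
      exact Finset.erase_insert fun h => Finset.notMem_erase b' _ (hQ1 h)
    · intro S hS
      obtain ⟨hS1, hS2⟩ := Finset.mem_filter.1 hS
      obtain ⟨hS3, hS4⟩ := Finset.mem_powersetCard.1 hS1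
      have hSsub : S ⊆ C ∪ B := hS3.trans Finset.sdiff_subset
      show F S = (P.Am 2 (wtS C u + wtS B u)).mkQ (k2q P u (insert b' (S.erase b')) b'
        * k2q P u ((C ∪ B) \ insert b' (S.erase b')) (sInf (C' : Set ℕ)))
      rw [Finset.insert_erase hS2]
      refine (hind S hSsub hS4 b' hS2 _ ?_).symm
      refine Finset.mem_sdiff.2 ⟨hC' hc', fun h => ?_⟩
      exact (Finset.mem_sdiff.1 (hS3 h)).2 hc') C Finset.subset_union_left hC
  have hsd : (C ∪ B) \ C = B := Finset.union_sdiff_cancel_left hd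
  have h5 := hind C Finset.subset_union_left hC c hc b (by rw [hsd]; exact hb)
  rw [hmain, hsd, Submodule.mkQ_apply, Submodule.Quotient.mk_eq_zero] at h5
  exact h5

/-- The case `k = m`. -/
private theorem k2_eq (h2 : RelKStmt) (h3 : AmPStmt) (P : PS m s T) (hm : 3 ≤ m)
    (u : ℕ → Fin s)
    (ih : ∀ j < m, 1 ≤ j → ∀ C B : Finset ℕ, Disjoint C B → C.card = j → ∀ c ∈ C, ∀ b ∈ B,
      k2q P u C c * k2q P u B b ∈ P.Am 2 (wtS C u + wtS B u))
    {C B : Finset ℕ} {c b : ℕ} (hd : Disjoint C B) (hc : c ∈ C) (hb : b ∈ B)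
    (hB : B.card = m) : k2q P u C c * k2q P u B b ∈ P.Am 2 (wtS C u + wtS B u) := by
  have hD : (B.erase b).card = m - 1 := by rw [Finset.card_erase_of_mem hb, hB]
  have hsum := k2_sum h2 P u (C := C) (B := B) (c := c) (b := b) hd hb hB {⟨∅, B.erase b⟩}
    (by
      intro x hx
      rw [Finset.mem_singleton] at hx
      subst hx
      exact ⟨Finset.empty_subset _, by rw [Finset.sdiff_empty]⟩)
    (P.Am 2 (wtS C u + wtS B u))
    (by
      intro R Q hR hQ hx
      apply k2f_mem h3 P hm u hd hc hb hR hQ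
      have hQ' : Q ⊆ B.erase b := hQ.trans Finset.sdiff_subset
      have hbQ : b ∉ Q := fun h => Finset.notMem_erase b B (hQ' h)
      have hcQ : Q.card ≤ m - 1 - R.card := by
        have := Finset.card_le_card hQ
        rwa [Finset.card_sdiff_of_subset hR, hD] at this
      have hcb : (insert b Q).card = Q.card + 1 := Finset.card_insert_of_notMem hbQ
      have hcC : c ∈ C ∪ R := Finset.mem_union_left _ hc
      have hdis : Disjoint (insert b Q) (C ∪ R) := by
        rw [Finset.disjoint_left]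
        intro x hx hx'
        rcases Finset.mem_insert.1 hx with hx | hx
        · subst hx
          rcases Finset.mem_union.1 hx' with hx' | hx'
          · exact Finset.disjoint_left.1 hd hx' hb
          · exact Finset.notMem_erase _ B (hR hx')
        · rcases Finset.mem_union.1 hx' with hx' | hx'
          · exact Finset.disjoint_left.1 hd hx' (Finset.mem_of_mem_erase (hQ' hx))
          · exact (Finset.mem_sdiff.1 (hQ hx)).2 hx'
      by_cases hcase : Q.card + 1 < m
      · have h5 := ih (Q.card + 1) hcase (by omega) (insert b Q) (C ∪ R) hdis hcb b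
          (Finset.mem_insert_self _ _) c hcC
        rw [mul_comm, add_comm]
        exact h5
      · exfalso
        apply hx
        rw [Finset.mem_singleton]
        have hR0 : R = ∅ := by
          rw [← Finset.card_eq_zero]
          omega
        subst hR0
        rw [Finset.sdiff_empty] at hQ
        have : Q = B.erase b := by
          apply Finset.eq_of_subset_of_card_le hQ
          rw [hD]
          omega
        rw [this])
  rw [Finset.sum_singleton] at hsum
  have e1 : k2f P u C B c b ∅ (B.erase b)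
      = k2c ∅ (B.erase b) • (k2q P u C c * k2q P u B b) := by
    rw [k2f_eq P u hd hc (Finset.empty_subset _) (Finset.Subset.refl _),
      Finset.sdiff_empty, Finset.sdiff_self, P.e_empty, one_mul, Finset.union_empty,
      Finset.insert_erase hb]
  have hsum2 : k2f P u C B c b ∅ (B.erase b) ∈ P.Am 2 (wtS C u + wtS B u) := hsum
  rw [e1] at hsum2
  exact (Submodule.smul_mem_iff _ (k2c_ne _ _)).1 hsum2

/-- The claim K(k). -/
private theorem k2_K (h1 : RelMStmt) (h2 : RelKStmt) (h3 : AmPStmt) (h4 : KnStmt) (P : PS m s T)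
    (hm : 3 ≤ m) (u : ℕ → Fin s) : ∀ k : ℕ, k ≤ m → 1 ≤ k → ∀ C B : Finset ℕ, Disjoint C B →
    C.card = k → ∀ c ∈ C, ∀ b ∈ B, k2q P u C c * k2q P u B b ∈ P.Am 2 (wtS C u + wtS B u) := by
  intro k
  induction k using Nat.strong_induction_on with
  | _ k ih =>
  intro hkm hk1 C B hd hC c hc b hb
  have h5 := k2_red h1 h3 P hm u 2 (wtS C u) (k2q P u C c) b _ B rfl hb (by
    intro B' hB' hb' hle
    have hd' : Disjoint C B' := Finset.disjoint_of_subset_right hB' hd
    rcases Nat.lt_or_ge B'.card m with hBlt | hBge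
    · rcases Nat.lt_or_ge k m with hklt | hkge
      · have h5 := k2_i P u hb' hBlt
        have h6 := k2_i P u hc (by rw [hC]; exact hklt)
        have h7 := P.Am_mul h5 h6
        exact h7
      · exact ih B'.card (by omega) hBlt.le (Finset.card_pos.2 ⟨b, hb'⟩) B' C hd'.symm rfl b hb' c hc
    · have hBm : B'.card = m := le_antisymm hle hBge
      rw [mul_comm, add_comm]
      rcases Nat.lt_or_ge k m with hklt | hkge
      · exact k2_lt h2 h3 h4 P hm u k hk1 hklt
          (fun j hj hj1 => ih j hj (by omega) hj1) hd' hc hb' hC hBm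
      · exact k2_eq h2 h3 P hm u
          (fun j hj hj1 => ih j (by omega) (by omega) hj1) hd' hc hb' hBm)
  rw [mul_comm, add_comm]
  exact h5

theorem kK2 (h1 : RelMStmt) (h2 : RelKStmt) (h3 : AmPStmt) (h4 : KnStmt) : K2Stmt := by
  intro m s T _ _ P hm M v M' v'
  set a := Multiset.card M with ha
  set a' := Multiset.card M' with ha'
  obtain ⟨u1, hu1, -⟩ := exists_xs M (fun _ => v) (Finset.range a) (Finset.card_range a)
  obtain ⟨u3, hu3, hu3'⟩ := exists_xs M' (Function.update u1 a v) (Finset.Ico (a + 2) (a + 2 + a'))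
    (by rw [Nat.card_Ico]; omega)
  set u : ℕ → Fin s := Function.update u3 (a + 1) v' with hu
  have hua : u a = v := by
    rw [hu, Function.update_of_ne (by omega), hu3' a (by rw [Finset.mem_Ico]; omega),
      Function.update_self]
  have hua1 : u (a + 1) = v' := by rw [hu, Function.update_self]
  have hxM : xs (Finset.range a) u = M := by
    rw [← hu1]
    apply xs_congr
    intro ω hω
    rw [Finset.mem_range] at hω
    rw [hu, Function.update_of_ne (by omega), hu3' ω (by rw [Finset.mem_Ico]; omega),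
      Function.update_of_ne (by omega)]
  have hxM' : xs (Finset.Ico (a + 2) (a + 2 + a')) u = M' := by
    rw [← hu3]
    apply xs_congr
    intro ω hω
    rw [Finset.mem_Ico] at hω
    rw [hu, Function.update_of_ne (by omega)]
  have haC : a ∉ Finset.range a := Finset.notMem_range_self
  have haB : a + 1 ∉ Finset.Ico (a + 2) (a + 2 + a') := by
    rw [Finset.mem_Ico]
    omega
  have hd : Disjoint (insert a (Finset.range a)) (insert (a + 1) (Finset.Ico (a + 2) (a + 2 + a'))) := by
    rw [Finset.disjoint_left]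
    intro x hx hx'
    rw [Finset.mem_insert, Finset.mem_range] at hx
    rw [Finset.mem_insert, Finset.mem_Ico] at hx'
    omega
  have hall := k2_red h1 h3 P hm u 2 (wtS (insert (a + 1) (Finset.Ico (a + 2) (a + 2 + a'))) u)
    (k2q P u (insert (a + 1) (Finset.Ico (a + 2) (a + 2 + a'))) (a + 1)) a _
    (insert a (Finset.range a)) rfl (Finset.mem_insert_self _ _) (by
      intro C' hC' hc' hle
      exact k2_K h1 h2 h3 h4 P hm u C'.card hle (Finset.card_pos.2 ⟨a, hc'⟩) C' _
        (Finset.disjoint_of_subset_left hC' hd) rfl a hc' (a + 1) (Finset.mem_insert_self _ _))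
  have hq1 : k2q P u (insert a (Finset.range a)) a = P.pe M v := by
    unfold k2q
    rw [Finset.erase_insert haC, hxM, hua]
  have hq2 : k2q P u (insert (a + 1) (Finset.Ico (a + 2) (a + 2 + a'))) (a + 1) = P.pe M' v' := by
    unfold k2q
    rw [Finset.erase_insert haB, hxM', hua1]
  have hw1 : wtS (insert a (Finset.range a)) u = wtM M + sg v := by
    rw [wtS_insert haC, hua, ← wtM_xs, hxM, add_comm]
  have hw2 : wtS (insert (a + 1) (Finset.Ico (a + 2) (a + 2 + a'))) u = wtM M' + sg v' := by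
    rw [wtS_insert haB, hua1, ← wtM_xs, hxM', add_comm]
  rw [hq1, hq2, hw1, hw2] at hall
  exact hall

end T2

end Pool.Agent.Lib.MP_a688ad_al
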