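import Pool.Agent.Lib.MP_a688ad_al.T2.Spec

/-!
# MP_a688ad_al, stable range, module Key: sums over injective placements
-/

set_option autoImplicit false

open MvPolynomial Finset

namespace Pool.Agent.Lib.MP_a688ad_al

namespace T2

/-- the placements avoiding the particle `i` -/
noncomputable def keyI {m : ℕ} {T L : Type} [CommRing T] [DecidableEq L] (a : L → Fin m → T)
    (i : Fin m) (S : Finset L) : T :=
  ∑ f : S ↪ Fin m, if ∀ j, f j ≠ i then ∏ j : S, a j.1 (f j) else 0

/-- a placement of `insert j0 S` -/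
noncomputable def keyEq {m : ℕ} {L : Type} [DecidableEq L] {j0 : L} {S : Finset L}
    (h : j0 ∉ S) : (↥(insert j0 S) ↪ Fin m) ≃ Σ f : S ↪ Fin m, ↥(Set.range f)ᶜ :=
  (Equiv.embeddingCongr (Finset.subtypeInsertEquivOption h) (Equiv.refl _)).trans
    (Function.Embedding.optionEmbeddingEquiv S (Fin m))

theorem key_app {m : ℕ} {L : Type} [DecidableEq L] {j0 : L} {S : Finset L} (h : j0 ∉ S)
    (x : Σ f : S ↪ Fin m, ↥(Set.range f)ᶜ) (o : Option S) :
    (keyEq h).symm x ((Finset.subtypeInsertEquivOption h).symm o) =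
      (Function.Embedding.optionEmbeddingEquiv S (Fin m)).symm x o := by
  show (Function.Embedding.optionEmbeddingEquiv S (Fin m)).symm x
    ((Finset.subtypeInsertEquivOption h) ((Finset.subtypeInsertEquivOption h).symm o)) = _
  rw [Equiv.apply_symm_apply]

theorem key_split {m : ℕ} {T L : Type} [CommRing T] [DecidableEq L] {j0 : L} {S : Finset L}
    (h : j0 ∉ S) (a : L → Fin m → T) (c : Fin m → T) :
    ∑ f : ↥(insert j0 S) ↪ Fin m, c (f ⟨j0, mem_insert_self _ _⟩) *
      ∏ j : ↥(insert j0 S), a j.1 (f j) = ∑ i, c i * a j0 i * keyI a i S := by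
  classical
  have h1 : ∀ x : Σ f : S ↪ Fin m, ↥(Set.range f)ᶜ,
      c ((keyEq h).symm x ⟨j0, mem_insert_self _ _⟩) *
        ∏ j : ↥(insert j0 S), a j.1 ((keyEq h).symm x j) =
      c x.2.1 * a j0 x.2.1 * ∏ j : S, a j.1 (x.1 j) := by
    intro x
    rw [← (Finset.subtypeInsertEquivOption h).symm.prod_comp, Fintype.prod_option]
    simp only [key_app]
    have h2 := key_app h x none
    have h3 : (Finset.subtypeInsertEquivOption h).symm none =
      (⟨j0, mem_insert_self _ _⟩ : ↥(insert j0 S)) := rfl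
    rw [h3] at h2 ⊢
    rw [h2, ← mul_assoc]
    rfl
  rw [← (keyEq h).symm.sum_comp, Fintype.sum_sigma]
  have h4 : ∀ f : S ↪ Fin m, ∑ y : ↥(Set.range f)ᶜ,
      c ((keyEq h).symm ⟨f, y⟩ ⟨j0, mem_insert_self _ _⟩) *
        ∏ j : ↥(insert j0 S), a j.1 ((keyEq h).symm ⟨f, y⟩ j) =
      ∑ i, if ∀ j, f j ≠ i then c i * a j0 i * ∏ j : S, a j.1 (f j) else 0 := by
    intro f
    rw [← Finset.sum_filter]
    rw [Finset.sum_subtype (p := fun i => i ∈ (Set.range f)ᶜ)
      (univ.filter fun i => ∀ j, f j ≠ i) (by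
        intro i
        simp)]
    exact Finset.sum_congr rfl fun y _ => h1 ⟨f, y⟩
  rw [Finset.sum_congr rfl fun f _ => h4 f, Finset.sum_comm]
  refine Finset.sum_congr rfl fun i _ => ?_
  unfold keyI
  rw [Finset.mul_sum]
  refine Finset.sum_congr rfl fun f _ => ?_
  split_ifs
  · rfl
  · rw [mul_zero]

theorem key_three {m : ℕ} {T L : Type} [CommRing T] [DecidableEq L] {j0 : L} {S : Finset L}
    (h : j0 ∉ S) (a : L → Fin m → T) : Ef a (insert j0 S) = ∑ i, a j0 i * keyI a i S := by
  have h1 := key_split h a (fun _ => (1 : T))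
  simp only [one_mul] at h1
  exact h1

theorem key_two {m : ℕ} {T L : Type} [CommRing T] [DecidableEq L] {j0 : L} {S : Finset L}
    (h : j0 ∉ S) (a : L → Fin m → T) (i : Fin m) :
    ∑ f : ↥(insert j0 S) ↪ Fin m, (if f ⟨j0, mem_insert_self _ _⟩ = i then
      ∏ j : ↥(insert j0 S), a j.1 (f j) else 0) = a j0 i * keyI a i S := by
  have h1 := key_split h a (fun i' => if i' = i then (1 : T) else 0)
  simp only [ite_mul, one_mul, zero_mul, Finset.sum_ite_eq', Finset.mem_univ, if_true] at h1
  exact h1

theorem key_one {m : ℕ} {T L : Type} [CommRing T] [DecidableEq L] (a : L → Fin m → T)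
    (i : Fin m) (S : Finset L) :
    Ef a S = keyI a i S + ∑ j ∈ S, a j i * keyI a i (S.erase j) := by
  classical
  have h1 : ∀ j : S, ∑ f : S ↪ Fin m, (if f j = i then ∏ j : S, a j.1 (f j) else 0) =
      a j.1 i * keyI a i (S.erase j.1) := by
    rintro ⟨j, hj⟩
    obtain ⟨S', hS', rfl⟩ : ∃ S', j ∉ S' ∧ insert j S' = S :=
      ⟨S.erase j, Finset.notMem_erase j S, Finset.insert_erase hj⟩
    rw [Finset.erase_insert hS']
    exact key_two hS' a i
  rw [← Finset.sum_coe_sort S (fun j => a j i * keyI a i (S.erase j)),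
    ← Finset.sum_congr rfl fun j _ => h1 j, Finset.sum_comm]
  unfold keyI Ef
  rw [← Finset.sum_add_distrib]
  refine Finset.sum_congr rfl fun f _ => ?_
  by_cases h : ∀ j, f j ≠ i
  · rw [if_pos h, Finset.sum_eq_zero, add_zero]
    intro j _
    rw [if_neg (h j)]
  · rw [if_neg h, zero_add]
    push Not at h
    obtain ⟨j, hj⟩ := h
    rw [Finset.sum_eq_single j, if_pos hj]
    · intro j' _ hne
      rw [if_neg]
      intro h'
      exact hne (f.injective (h'.trans hj.symm))
    · intro h'
      exact absurd (Finset.mem_univ _) h'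

theorem key_sol {m : ℕ} {T L : Type} [CommRing T] [DecidableEq L] (a : L → Fin m → T)
    (i : Fin m) (S : Finset L) : keyI a i S = ∑ R ∈ S.powerset,
      ((-1) ^ R.card * (R.card.factorial : T)) * (∏ j ∈ R, a j i) * Ef a (S \ R) := by
  classical
  induction hn : S.card using Nat.strong_induction_on generalizing S with
  | _ n ih =>
    have h1 := key_one a i S
    have h2 : ∀ j ∈ S, a j i * keyI a i (S.erase j) = ∑ R ∈ (S.erase j).powerset,
        -(((-1) ^ (insert j R).card * ((R.card.factorial : ℕ) : T)) * (∏ j ∈ insert j R, a j i) *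
          Ef a (S \ insert j R)) := by
      intro j hj
      rw [ih (S.erase j).card (by rw [← hn]; exact Finset.card_erase_lt_of_mem hj) _ rfl,
        Finset.mul_sum]
      refine Finset.sum_congr rfl fun R hR => ?_
      have hjR : j ∉ R := fun h => Finset.notMem_erase j S (Finset.mem_powerset.mp hR h)
      rw [Finset.prod_insert hjR, Finset.card_insert_of_notMem hjR, pow_succ,
        show S.erase j \ R = S \ insert j R by
          ext x
          simp only [Finset.mem_sdiff, Finset.mem_erase, Finset.mem_insert]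
          tauto]
      ring
    have h3 : ∑ j ∈ S, a j i * keyI a i (S.erase j) = ∑ R ∈ S.powerset,
        -(((-1) ^ R.card * ((R.card * (R.card - 1).factorial : ℕ) : T)) * (∏ j ∈ R, a j i) *
          Ef a (S \ R)) := by
      rw [Finset.sum_congr rfl h2]
      have h4 : ∀ R ∈ S.powerset, -(((-1) ^ R.card * ((R.card * (R.card - 1).factorial : ℕ) : T)) *
          (∏ j ∈ R, a j i) * Ef a (S \ R)) = ∑ _j ∈ R, -(((-1) ^ R.card *
          (((R.card - 1).factorial : ℕ) : T)) * (∏ j ∈ R, a j i) * Ef a (S \ R)) := by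
        intro R _
        rw [Finset.sum_const, nsmul_eq_mul]
        push_cast
        ring
      rw [Finset.sum_congr rfl h4, Finset.sum_sigma', Finset.sum_sigma']
      refine Finset.sum_bij' (fun x _ => ⟨insert x.1 x.2, x.1⟩) (fun x _ => ⟨x.2, x.1.erase x.2⟩)
        ?_ ?_ ?_ ?_ ?_
      · rintro ⟨j, R⟩ hx
        rw [Finset.mem_sigma, Finset.mem_powerset] at hx
        rw [Finset.mem_sigma, Finset.mem_powerset]
        refine ⟨Finset.insert_subset hx.1 (hx.2.trans (Finset.erase_subset _ _)),
          Finset.mem_insert_self _ _⟩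
      · rintro ⟨R, j⟩ hx
        rw [Finset.mem_sigma, Finset.mem_powerset] at hx
        rw [Finset.mem_sigma, Finset.mem_powerset]
        exact ⟨hx.1 hx.2, Finset.erase_subset_erase _ hx.1⟩
      · rintro ⟨j, R⟩ hx
        rw [Finset.mem_sigma, Finset.mem_powerset] at hx
        have hjR : j ∉ R := fun h => Finset.notMem_erase j S (hx.2 h)
        simp only [Finset.erase_insert hjR]
      · rintro ⟨R, j⟩ hx
        rw [Finset.mem_sigma, Finset.mem_powerset] at hx
        simp only [Finset.insert_erase hx.2]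
      · rintro ⟨j, R⟩ hx
        rw [Finset.mem_sigma, Finset.mem_powerset] at hx
        have hjR : j ∉ R := fun h => Finset.notMem_erase j S (hx.2 h)
        simp only [Finset.card_insert_of_notMem hjR, Nat.add_sub_cancel]
    have h5 : keyI a i S = Ef a S - ∑ j ∈ S, a j i * keyI a i (S.erase j) := by
      rw [h1]; ring
    rw [h5, h3, ← Finset.sum_erase_add S.powerset _ (Finset.empty_mem_powerset S),
      ← Finset.sum_erase_add S.powerset _ (Finset.empty_mem_powerset S)]
    have h6 : ∀ R ∈ S.powerset.erase ∅, -(((-1) ^ R.card *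
        ((R.card * (R.card - 1).factorial : ℕ) : T)) * (∏ j ∈ R, a j i) * Ef a (S \ R)) =
        -(((-1) ^ R.card * (R.card.factorial : T)) * (∏ j ∈ R, a j i) * Ef a (S \ R)) := by
      intro R hR
      have hne : R ≠ ∅ := Finset.ne_of_mem_erase hR
      have hpos : 0 < R.card := Finset.card_pos.mpr (Finset.nonempty_iff_ne_empty.mpr hne)
      rw [Nat.mul_factorial_pred (by omega)]
    rw [Finset.sum_congr rfl h6, Finset.sum_neg_distrib]
    simp

theorem kE2 : E2Stmt := by
  intro m T L _ _ a j0 S h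
  rw [key_three h]
  simp_rw [key_sol, Finset.mul_sum]
  rw [Finset.sum_comm]
  refine Finset.sum_congr rfl fun R _ => ?_
  rw [Finset.sum_mul]
  refine Finset.sum_congr rfl fun i _ => ?_
  ring

theorem kCH : CHStmt := by
  intro m T L _ _ a i S hS
  rw [← key_sol]
  unfold keyI
  refine Finset.sum_eq_zero fun f _ => ?_
  rw [if_neg]
  have hbij : Function.Bijective f := by
    rw [Fintype.bijective_iff_injective_and_card]
    exact ⟨f.injective, by rw [Fintype.card_coe, Fintype.card_fin, hS]⟩
  obtain ⟨j, hj⟩ := hbij.2 i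
  exact fun h => h j hj

end T2

end Pool.Agent.Lib.MP_a688ad_al
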