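import Pool.Agent.Lib.MP_a688ad_al.T2.Spec

/-!
# MP_a688ad_al, stable range, module Kn: a Kneser graph lemma
-/

set_option autoImplicit false

open MvPolynomial Finset

namespace Pool.Agent.Lib.MP_a688ad_al

namespace T2

theorem kn_card (U : Finset ℕ) (k b : ℕ) (hb : b ∈ U) :
    ((U.powersetCard (k + 1)).filter (fun C' => b ∈ C')).card = (U.card - 1).choose k := by
  have h1 : (U.powersetCard (k + 1)).filter (fun C' => b ∈ C') =
      ((U.erase b).powersetCard k).image (insert b) := by
    ext X
    simp only [mem_filter, mem_powersetCard, mem_image]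
    constructor
    · rintro ⟨⟨h1, h2⟩, h3⟩
      exact ⟨X.erase b, ⟨erase_subset_erase b h1, by rw [card_erase_of_mem h3]; omega⟩,
        insert_erase h3⟩
    · rintro ⟨Y, ⟨h1, h2⟩, rfl⟩
      have hbY : b ∉ Y := fun h => notMem_erase b U (h1 h)
      exact ⟨⟨insert_subset hb (h1.trans (erase_subset _ _)),
        by rw [card_insert_of_notMem hbY, h2]⟩, mem_insert_self _ _⟩
  rw [h1, card_image_of_injOn, card_powersetCard, card_erase_of_mem hb]
  intro Y hY Z hZ h
  rw [mem_coe, mem_powersetCard] at hY hZ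
  have hbY : b ∉ Y := fun h => notMem_erase b U (hY.1 h)
  have hbZ : b ∉ Z := fun h => notMem_erase b U (hZ.1 h)
  rw [← erase_insert hbY, ← erase_insert hbZ]
  exact congrArg (fun X => X.erase b) h

theorem kn_real (m k : ℕ) (W : Finset ℕ) (f : Finset ℕ → ℝ) (hkm : k + 1 < m)
    (hW : W.card = m + (k + 1))
    (H : ∀ C ⊆ W, C.card = k + 1 → ∀ b ∈ W \ C, (((m - 1).choose k : ℕ) : ℝ) * f C
      + ∑ C' ∈ ((W \ C).powersetCard (k + 1)).filter (fun C' => b ∈ C'), f C' = 0) :
    ∀ C ⊆ W, C.card = k + 1 → f C = 0 := by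
  have hne : (W.powersetCard (k + 1)).Nonempty := by
    rw [powersetCard_nonempty]; omega
  obtain ⟨C0, hC0, hmax⟩ := exists_max_image (W.powersetCard (k + 1)) (fun C => |f C|) hne
  rw [mem_powersetCard] at hC0
  by_contra hcon
  push Not at hcon
  obtain ⟨D, hD, hDc, hDf⟩ := hcon
  have hpos : f C0 ≠ 0 := by
    intro h
    have h1 := hmax D (mem_powersetCard.mpr ⟨hD, hDc⟩)
    rw [h, abs_zero] at h1
    exact hDf (abs_nonpos_iff.mp h1)
  have key : ∀ C ⊆ W, C.card = k + 1 → |f C| = |f C0| → ∀ C' ⊆ W, C'.card = k + 1 →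
      Disjoint C C' → f C' = - f C := by
    intro C hC hc habs C' hC' hc' hd
    obtain ⟨b, hb⟩ : C'.Nonempty := by rw [← card_pos]; omega
    have hbW : b ∈ W \ C := mem_sdiff.mpr ⟨hC' hb, fun h => disjoint_left.mp hd h hb⟩
    have h1 := H C hC hc b hbW
    have hcard : (W \ C).card - 1 = m - 1 := by
      rw [card_sdiff_of_subset hC, hW, hc]; omega
    have h2 : ∑ X ∈ ((W \ C).powersetCard (k + 1)).filter (fun C' => b ∈ C'),
        (f C * f X + f C * f C) = 0 := by
      rw [sum_add_distrib, ← mul_sum, sum_const, kn_card _ _ _ hbW, nsmul_eq_mul, hcard]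
      linear_combination f C * h1
    have h3 : ∀ X ∈ ((W \ C).powersetCard (k + 1)).filter (fun C' => b ∈ C'),
        0 ≤ f C * f X + f C * f C := by
      intro X hX
      rw [mem_filter, mem_powersetCard] at hX
      have h4 : |f X| ≤ |f C| := by
        rw [habs]
        exact hmax X (mem_powersetCard.mpr ⟨hX.1.1.trans sdiff_subset, hX.1.2⟩)
      have h5 : -(|f C| * |f X|) ≤ f C * f X := by
        rw [← abs_mul]; exact neg_abs_le _
      have h6 : |f C| * |f X| ≤ |f C| * |f C| := mul_le_mul_of_nonneg_left h4 (abs_nonneg _)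
      rw [abs_mul_abs_self] at h6
      linarith
    have h4 := (sum_eq_zero_iff_of_nonneg h3).mp h2 C' (by
      rw [mem_filter, mem_powersetCard]
      refine ⟨⟨fun x hx => mem_sdiff.mpr ⟨hC' hx, fun h => disjoint_left.mp hd h hx⟩, hc'⟩, hb⟩)
    have h5 : f C ≠ 0 := by
      intro h
      rw [h, abs_zero] at habs
      exact hpos (abs_eq_zero.mp habs.symm)
    have h6 : f C * (f C' + f C) = 0 := by linarith
    rcases mul_eq_zero.mp h6 with h7 | h7
    · exact absurd h7 h5
    · linarith
  have exch : ∀ C ⊆ W, C.card = k + 1 → |f C| = |f C0| → ∀ a ∈ C, ∀ b ∈ W, b ∉ C →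
      f (insert b (C.erase a)) = f C := by
    intro C hC hc habs a ha b hb hbC
    have hcard : (W \ insert b C).card = m - 1 := by
      rw [card_sdiff_of_subset (insert_subset hb hC), card_insert_of_notMem hbC, hW, hc]; omega
    obtain ⟨C', hC', hc'⟩ := exists_subset_card_eq (s := W \ insert b C) (n := k + 1)
      (by rw [hcard]; omega)
    have hC'W : C' ⊆ W := hC'.trans sdiff_subset
    have hd : ∀ x ∈ C', x ≠ b ∧ x ∉ C := by
      intro x hx
      have h1 := (mem_sdiff.mp (hC' hx)).2
      rw [mem_insert, not_or] at h1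
      exact h1
    have h1 := key C hC hc habs C' hC'W hc' (by
      rw [disjoint_left]
      exact fun x hx hx' => (hd x hx').2 hx)
    have h2 := key C' hC'W hc' (by rw [h1, abs_neg, habs]) (insert b (C.erase a))
      (insert_subset hb ((erase_subset _ _).trans hC))
      (by
        rw [card_insert_of_notMem (fun h => hbC (mem_of_mem_erase h)), card_erase_of_mem ha, hc]
        omega)
      (by
        rw [disjoint_left]
        intro x hx hx'
        rcases mem_insert.mp hx' with h | h
        · exact (hd x hx).1 h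
        · exact (hd x hx).2 (mem_of_mem_erase h))
    rw [h2, h1, neg_neg]
  have conn : ∀ (n : ℕ) (C C1 : Finset ℕ), C ⊆ W → C.card = k + 1 → C1 ⊆ W → C1.card = k + 1 →
      |f C| = |f C0| → (C1 \ C).card = n → f C1 = f C := by
    intro n
    induction n with
    | zero =>
      intro C C1 hC hc hC1 hc1 _ h0
      rw [card_eq_zero, sdiff_eq_empty_iff_subset] at h0
      rw [eq_of_subset_of_card_le h0 (by omega)]
    | succ n ih =>
      intro C C1 hC hc hC1 hc1 habs hn
      obtain ⟨b, hb⟩ : (C1 \ C).Nonempty := by rw [← card_pos]; omega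
      rw [mem_sdiff] at hb
      obtain ⟨a, ha⟩ : (C \ C1).Nonempty := by
        rw [← card_pos]
        have h1 := card_sdiff_add_card_inter C C1
        have h2 := card_sdiff_add_card_inter C1 C
        rw [inter_comm] at h2
        omega
      rw [mem_sdiff] at ha
      have h1 := exch C hC hc habs a ha.1 b (hC1 hb.1) hb.2
      have hcc : (insert b (C.erase a)).card = k + 1 := by
        rw [card_insert_of_notMem (fun h => hb.2 (mem_of_mem_erase h)), card_erase_of_mem ha.1,
          hc]
        omega
      rw [← h1]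
      apply ih (insert b (C.erase a)) C1
        (insert_subset (hC1 hb.1) ((erase_subset _ _).trans hC)) hcc hC1 hc1 (by rw [h1, habs])
      have h2 : C1 \ insert b (C.erase a) = (C1 \ C).erase b := by
        ext x
        simp only [mem_sdiff, mem_insert, mem_erase]
        constructor
        · rintro ⟨hx, hx'⟩
          push Not at hx'
          refine ⟨hx'.1, hx, fun hxC => ?_⟩
          exact hx'.2 (fun h => ha.2 (h ▸ hx)) hxC
        · rintro ⟨hx, hx', hx''⟩
          refine ⟨hx', ?_⟩
          rintro (h | h)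
          · exact hx h
          · exact hx'' h.2
      rw [h2, card_erase_of_mem (mem_sdiff.mpr hb), hn]
      omega
  obtain ⟨C1, hC1, hc1⟩ := exists_subset_card_eq (s := W \ C0) (n := k + 1)
    (by rw [card_sdiff_of_subset hC0.1]; omega)
  have h1 := key C0 hC0.1 hC0.2 rfl C1 (hC1.trans sdiff_subset) hc1 (by
    rw [disjoint_left]
    exact fun x hx hx' => (mem_sdiff.mp (hC1 hx')).2 hx)
  have h2 := conn _ C0 C1 hC0.1 hC0.2 (hC1.trans sdiff_subset) hc1 rfl rfl
  apply hpos
  linarith

theorem kKn : KnStmt := by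
  intro V _ _ m k W F hk hkm hW H C hC hc
  obtain ⟨k, rfl⟩ : ∃ k', k = k' + 1 := ⟨k - 1, by omega⟩
  rw [← Module.forall_dual_apply_eq_zero_iff ℂ]
  intro φ
  rw [Nat.add_sub_cancel] at H
  have hφ : ∀ C ⊆ W, C.card = k + 1 → ∀ b ∈ W \ C, (((m - 1).choose k : ℕ) : ℂ) * φ (F C)
      + ∑ C' ∈ ((W \ C).powersetCard (k + 1)).filter (fun C' => b ∈ C'), φ (F C') = 0 := by
    intro C hC hc b hb
    have h1 := congrArg φ (H C hC hc b hb)
    rw [map_add, map_smul, map_sum, map_zero, smul_eq_mul] at h1
    exact h1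
  have hre := kn_real m k W (fun C => (φ (F C)).re) hkm hW (by
    intro C hC hc b hb
    have h1 := congrArg Complex.re (hφ C hC hc b hb)
    rw [Complex.add_re, Complex.re_sum, Complex.zero_re, Complex.mul_re,
      Complex.natCast_re, Complex.natCast_im, zero_mul, sub_zero] at h1
    exact h1) C hC hc
  have him := kn_real m k W (fun C => (φ (F C)).im) hkm hW (by
    intro C hC hc b hb
    have h1 := congrArg Complex.im (hφ C hC hc b hb)
    rw [Complex.add_im, Complex.im_sum, Complex.zero_im, Complex.mul_im,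
      Complex.natCast_re, Complex.natCast_im, zero_mul, add_zero] at h1
    exact h1) C hC hc
  exact Complex.ext hre him

end T2

end Pool.Agent.Lib.MP_a688ad_al
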