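import Pool.Agent.Lib.MP_a688ad_al.T2.Spec

/-!
# MP_a688ad_al, stable range: invariants of the translations
-/

set_option autoImplicit false

open MvPolynomial Finset

namespace Pool.Agent.Lib.MP_a688ad_al

namespace T2

variable {s k : ℕ}

/-- the variable of all zero letters -/
private noncomputable def lgU (s k : ℕ) : MvPolynomial (Ib (s + 1) k) ℂ := Xt (fun _ => 0)

/-- the variable with the letter `c` at the last position -/
private noncomputable def lgZ (s k : ℕ) (c : Fin (s + 1)) : MvPolynomial (Ib (s + 1) k) ℂ :=
  Xt (Function.update (fun _ => 0) (Fin.last k) c)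

private theorem lg_DU (v : Fin s) : DE 0 v.succ (lgU s k) = 0 := by
  unfold lgU
  rw [DE_Xt]
  apply Finset.sum_eq_zero
  intro a _
  rw [if_neg (Fin.succ_ne_zero v).symm]

private theorem lg_DZ (v : Fin s) (c : Fin (s + 1)) :
    DE 0 v.succ (lgZ s k c) = if c = v.succ then lgU s k else 0 := by
  unfold lgZ
  rw [DE_Xt, Finset.sum_eq_single (Fin.last k)]
  · rw [Function.update_self, Function.update_idem]
    have e : Function.update (fun _ : Fin (k + 1) => (0 : Fin (s + 1))) (Fin.last k) 0
        = fun _ => 0 := Function.update_eq_self _ _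
    rw [e]
    rfl
  · intro b _ hb
    rw [Function.update_of_ne hb, if_neg (Fin.succ_ne_zero v).symm]
  · intro h
    exact absurd (Finset.mem_univ _) h

private theorem lg_sum (σ : Fin (k + 1) → Fin (s + 1)) (a : Fin (k + 1)) :
    ∑ b, sg (Function.update σ a 0 b) + sg (σ a) = ∑ b, sg (σ b) + sg (0 : Fin (s + 1)) := by
  rw [← Finset.add_sum_erase univ _ (Finset.mem_univ a),
    ← Finset.add_sum_erase univ (fun b => sg (σ b)) (Finset.mem_univ a), Function.update_self]
  have h3 : ∑ b ∈ univ.erase a, sg (Function.update σ a 0 b) = ∑ b ∈ univ.erase a, sg (σ b) :=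
    Finset.sum_congr rfl fun b hb => by rw [Function.update_of_ne (Finset.ne_of_mem_erase hb)]
  rw [h3]
  abel

private theorem lg_wU : IsWeightedHomogeneous WT (lgU s k) (((k : ℤ) + 1) • sg 0, 1) := by
  have h := isW_Xt (k := k) (fun _ => (0 : Fin (s + 1)))
  have e : ∑ _a : Fin (k + 1), sg (0 : Fin (s + 1)) = ((k : ℤ) + 1) • sg 0 := by
    rw [Finset.sum_const, Finset.card_univ, Fintype.card_fin]
    funext x
    simp
  rw [e] at h
  exact h

private theorem lg_wZ (c : Fin (s + 1)) :
    IsWeightedHomogeneous WT (lgZ s k c) ((k : ℤ) • sg 0 + sg c, 1) := by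
  have h := isW_Xt (k := k) (Function.update (fun _ => (0 : Fin (s + 1))) (Fin.last k) c)
  have e : ∑ a : Fin (k + 1), sg (Function.update (fun _ => (0 : Fin (s + 1))) (Fin.last k) c a)
      = (k : ℤ) • sg 0 + sg c := by
    rw [← Finset.add_sum_erase univ _ (Finset.mem_univ (Fin.last k)), Function.update_self]
    have h3 : ∑ b ∈ univ.erase (Fin.last k),
        sg (Function.update (fun _ => (0 : Fin (s + 1))) (Fin.last k) c b)
        = ∑ b ∈ (univ : Finset (Fin (k + 1))).erase (Fin.last k), sg 0 :=
      Finset.sum_congr rfl fun b hb => by rw [Function.update_of_ne (Finset.ne_of_mem_erase hb)]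
    rw [h3, Finset.sum_const, Finset.card_erase_of_mem (Finset.mem_univ _), Finset.card_univ,
      Fintype.card_fin]
    funext x
    simp
    ring
  rw [e] at h
  exact h

private theorem lg_PhU {T : Type} [CommRing T] [Algebra ℂ T] (P : PS (k + 1) s T) :
    P.Ph k (lgU s k) = 1 := by
  unfold lgU Xt PS.Ph
  rw [aeval_X]
  unfold PS.ph
  show (if ∀ c ∈ (sy fun _ : Fin k => (0 : Fin (s + 1))).1, c = 0 then (1 : T) else _) = 1
  rw [if_pos]
  intro c hc
  rw [sy_val, Multiset.mem_map] at hc
  obtain ⟨_, _, h⟩ := hc
  exact h.symm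

private theorem lg_PhZ {T : Type} [CommRing T] [Algebra ℂ T] (P : PS (k + 1) s T) (hk : 1 ≤ k)
    (c : Fin (s + 1)) (hc : c ≠ 0) : P.Ph k (lgZ s k c) = 0 := by
  obtain ⟨w, rfl⟩ := Fin.exists_succ_eq.2 hc
  obtain ⟨k, rfl⟩ := Nat.exists_eq_add_of_le' hk
  unfold lgZ Xt PS.Ph
  rw [aeval_X]
  have e0 : Function.update (fun _ => (0 : Fin (s + 1))) (Fin.last (k + 1)) w.succ 0 = 0 :=
    Function.update_of_ne (Fin.last_pos).ne _ _
  rw [e0]
  have e1 : (fun a : Fin (k + 1) =>
      Function.update (fun _ => (0 : Fin (s + 1))) (Fin.last (k + 1)) w.succ a.succ)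
      = Function.update (fun _ => (0 : Fin (s + 1))) (Fin.last k) w.succ := by
    funext a
    by_cases ha : a = Fin.last k
    · subst ha
      rw [Function.update_self, Fin.succ_last, Function.update_self]
    · rw [Function.update_of_ne ha, Function.update_of_ne]
      intro h
      apply ha
      rw [← Fin.succ_last] at h
      exact Fin.succ_injective _ h
  rw [e1]
  unfold PS.ph
  show (if ∀ c ∈ (sy (Function.update (fun _ : Fin (k + 1) => (0 : Fin (s + 1)))
    (Fin.last k) w.succ)).1, c = 0 then (1 : T) else
      ∑ i, ((sy (Function.update (fun _ : Fin (k + 1) => (0 : Fin (s + 1)))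
    (Fin.last k) w.succ)).1.map (P.xx i)).prod) = 0
  rw [if_neg]
  · rw [← P.xsum w]
    refine Finset.sum_congr rfl fun i _ => ?_
    rw [sy_val, Multiset.map_map]
    show ∏ a, P.xx i (Function.update (fun _ : Fin (k + 1) => (0 : Fin (s + 1)))
      (Fin.last k) w.succ a) = P.x i w
    rw [Finset.prod_eq_single (Fin.last k)]
    · rw [Function.update_self]
      rfl
    · intro b _ hb
      rw [Function.update_of_ne hb]
      rfl
    · intro h
      exact absurd (Finset.mem_univ _) h
  · intro h
    have h1 := h w.succ (by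
      rw [sy_val, Multiset.mem_map]
      exact ⟨Fin.last k, Finset.mem_univ_val _, Function.update_self _ _ _⟩)
    exact Fin.succ_ne_zero w h1

/-- the inductive construction -/
private theorem lg_G {T : Type} [CommRing T] [Algebra ℂ T] (P : PS (k + 1) s T) (hk : 1 ≤ k)
    (A : Finset (Fin (k + 1))) :
    ∃ G : (Fin (k + 1) → Fin (s + 1)) → MvPolynomial (Ib (s + 1) k) ℂ,
      (∀ σ (v : Fin s), DE 0 v.succ (G σ)
        = ∑ b, if b ∉ A ∧ σ b = v.succ then G (Function.update σ b 0) else 0) ∧
      (∀ σ, (∀ a ∈ A, σ a ≠ 0) → P.Ph k (G σ) = P.Ph k (Xt σ)) ∧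
      (∀ σ, IsWeightedHomogeneous WT (G σ)
        ((((k : ℤ) + 1) * (A.card : ℤ)) • sg 0 + ∑ a, sg (σ a), (A.card : ℤ) + 1)) ∧
      (∀ σ, (∀ b, b ∉ A → σ b = 0) → ∃ U, G σ = lgU s k * U ∧ IsWeightedHomogeneous WT U
        ((((k : ℤ) + 1) * ((A.card : ℤ) - 1)) • sg 0 + ∑ a, sg (σ a), (A.card : ℤ))) := by
  induction A using Finset.induction_on with
  | empty =>
    refine ⟨Xt, ?_, ?_, ?_, ?_⟩
    · intro σ v
      rw [DE_Xt]
      refine Finset.sum_congr rfl fun b _ => ?_
      simp only [Finset.notMem_empty, not_false_eq_true, true_and]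
    · intro σ _
      rfl
    · intro σ
      have h := isW_Xt (k := k) σ
      simp only [Finset.card_empty, Nat.cast_zero, mul_zero, zero_smul, zero_add]
      exact h
    · intro σ hσ
      have e : σ = fun _ => 0 := by
        funext b
        exact hσ b (Finset.notMem_empty b)
      subst e
      refine ⟨1, (mul_one _).symm, ?_⟩
      have h := isWeightedHomogeneous_one (σ := Ib (s + 1) k) ℂ (WT : Ib (s + 1) k → _)
      have e2 : ((((k : ℤ) + 1) * (((∅ : Finset (Fin (k + 1))).card : ℤ) - 1)) • sg 0
          + ∑ _a : Fin (k + 1), sg (0 : Fin (s + 1)), ((∅ : Finset (Fin (k + 1))).card : ℤ))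
          = (0 : (Fin (s + 1) → ℤ) × ℤ) := by
        rw [Finset.sum_const, Finset.card_univ, Fintype.card_fin, Finset.card_empty]
        apply Prod.ext
        · funext x
          simp
          ring
        · simp
      rw [e2]
      exact h
  | insert a B ha ih =>
    obtain ⟨G, h1, h2, h3, h4⟩ := ih
    refine ⟨fun σ => lgU s k * G σ - lgZ s k (σ a) * G (Function.update σ a 0), ?_, ?_, ?_, ?_⟩
    · intro σ v
      show DE 0 v.succ (lgU s k * G σ - lgZ s k (σ a) * G (Function.update σ a 0)) = _
      rw [map_sub, Derivation.leibniz, Derivation.leibniz, lg_DU, lg_DZ, smul_zero, add_zero,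
        h1, h1, smul_eq_mul, smul_eq_mul, smul_eq_mul, Finset.mul_sum, Finset.mul_sum]
      rw [← Finset.add_sum_erase univ _ (Finset.mem_univ a),
        ← Finset.add_sum_erase univ (fun b => lgZ s k (σ a) *
          (if b ∉ B ∧ Function.update σ a 0 b = v.succ then
            G (Function.update (Function.update σ a 0) b 0) else 0)) (Finset.mem_univ a),
        ← Finset.add_sum_erase univ (fun b => if b ∉ insert a B ∧ σ b = v.succ then
          lgU s k * G (Function.update σ b 0) - lgZ s k (Function.update σ b 0 a) *
            G (Function.update (Function.update σ b 0) a 0) else 0) (Finset.mem_univ a)]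
      have e1 : ¬(a ∉ insert a B ∧ σ a = v.succ) := fun h => h.1 (Finset.mem_insert_self _ _)
      have e2 : ¬(a ∉ B ∧ Function.update σ a 0 a = v.succ) := by
        rintro ⟨_, h⟩
        rw [Function.update_self] at h
        exact Fin.succ_ne_zero v h.symm
      rw [if_neg e1, if_neg e2, mul_zero, zero_add, zero_add]
      have e4 : ∑ b ∈ univ.erase a, (if b ∉ insert a B ∧ σ b = v.succ then
          lgU s k * G (Function.update σ b 0) - lgZ s k (Function.update σ b 0 a) *
            G (Function.update (Function.update σ b 0) a 0) else 0)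
          = ∑ b ∈ univ.erase a, lgU s k * (if b ∉ B ∧ σ b = v.succ then
              G (Function.update σ b 0) else 0)
            - ∑ b ∈ univ.erase a, lgZ s k (σ a) *
          (if b ∉ B ∧ Function.update σ a 0 b = v.succ then
            G (Function.update (Function.update σ a 0) b 0) else 0) := by
        rw [← Finset.sum_sub_distrib]
        refine Finset.sum_congr rfl fun b hb => ?_
        have hb' : b ≠ a := Finset.ne_of_mem_erase hb
        rw [Function.update_of_ne hb'.symm, Function.update_of_ne hb',
          Function.update_comm hb']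
        by_cases h : b ∉ B ∧ σ b = v.succ
        · rw [if_pos h, if_pos ⟨fun h' => (Finset.mem_insert.1 h').elim hb' h.1, h.2⟩, if_pos h]
        · rw [if_neg h, if_neg (fun h' => h ⟨fun h'' => h'.1 (Finset.mem_insert_of_mem h''), h'.2⟩),
            if_neg h, mul_zero, mul_zero, sub_zero]
      rw [e4]
      by_cases hv : σ a = v.succ
      · rw [if_pos hv, if_pos ⟨ha, hv⟩]
        ring
      · rw [if_neg hv, if_neg (fun h => hv h.2)]
        ring
    · intro σ hσ
      show P.Ph k (lgU s k * G σ - lgZ s k (σ a) * G (Function.update σ a 0)) = _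
      rw [map_sub, map_mul, map_mul, lg_PhU, lg_PhZ P hk (σ a) (hσ a (Finset.mem_insert_self _ _)),
        one_mul, zero_mul, sub_zero]
      exact h2 σ fun b hb => hσ b (Finset.mem_insert_of_mem hb)
    · intro σ
      apply IsWeightedHomogeneous.sub
      · have h := (lg_wU (s := s) (k := k)).mul (h3 σ)
        have e : ((((k : ℤ) + 1) • sg 0, (1 : ℤ)) : (Fin (s + 1) → ℤ) × ℤ)
            + ((((k : ℤ) + 1) * (B.card : ℤ)) • sg 0 + ∑ a, sg (σ a), (B.card : ℤ) + 1)
            = ((((k : ℤ) + 1) * ((insert a B).card : ℤ)) • sg 0 + ∑ a, sg (σ a),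
              ((insert a B).card : ℤ) + 1) := by
          rw [Finset.card_insert_of_notMem ha]
          apply Prod.ext
          · funext x
            simp
            ring
          · simp
            ring
        rw [e] at h
        exact h
      · have h := (lg_wZ (s := s) (k := k) (σ a)).mul (h3 (Function.update σ a 0))
        have e : (((k : ℤ) • sg 0 + sg (σ a), (1 : ℤ)) : (Fin (s + 1) → ℤ) × ℤ)
            + ((((k : ℤ) + 1) * (B.card : ℤ)) • sg 0 + ∑ b, sg (Function.update σ a 0 b),
              (B.card : ℤ) + 1)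
            = ((((k : ℤ) + 1) * ((insert a B).card : ℤ)) • sg 0 + ∑ a, sg (σ a),
              ((insert a B).card : ℤ) + 1) := by
          rw [Finset.card_insert_of_notMem ha]
          have h5 := lg_sum σ a
          apply Prod.ext
          · funext x
            have h6 := congrFun h5 x
            simp only [Pi.add_apply] at h6
            simp only [Prod.fst_add, Pi.add_apply, Pi.smul_apply, smul_eq_mul, Nat.cast_add,
              Nat.cast_one]
            linear_combination h6
          · simp
            ring
        rw [e] at h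
        exact h
    · intro σ hσ
      obtain ⟨U, hU, hw⟩ := h4 (Function.update σ a 0) (by
        intro b hb
        by_cases hba : b = a
        · subst hba
          exact Function.update_self _ _ _
        · rw [Function.update_of_ne hba]
          exact hσ b fun h => (Finset.mem_insert.1 h).elim hba hb)
      refine ⟨G σ - lgZ s k (σ a) * U, ?_, ?_⟩
      · show lgU s k * G σ - lgZ s k (σ a) * G (Function.update σ a 0) = _
        rw [hU]
        ring
      · apply IsWeightedHomogeneous.sub
        · have h := h3 σ
          have e : (((((k : ℤ) + 1) * (B.card : ℤ)) • sg 0 + ∑ a, sg (σ a), (B.card : ℤ) + 1)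
              : (Fin (s + 1) → ℤ) × ℤ)
              = ((((k : ℤ) + 1) * (((insert a B).card : ℤ) - 1)) • sg 0 + ∑ a, sg (σ a),
              ((insert a B).card : ℤ)) := by
            rw [Finset.card_insert_of_notMem ha]
            simp
          rw [e] at h
          exact h
        · have h := (lg_wZ (s := s) (k := k) (σ a)).mul hw
          have e : (((k : ℤ) • sg 0 + sg (σ a), (1 : ℤ)) : (Fin (s + 1) → ℤ) × ℤ)
              + ((((k : ℤ) + 1) * ((B.card : ℤ) - 1)) • sg 0 + ∑ b, sg (Function.update σ a 0 b),
                (B.card : ℤ))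
              = ((((k : ℤ) + 1) * (((insert a B).card : ℤ) - 1)) • sg 0 + ∑ a, sg (σ a),
                ((insert a B).card : ℤ)) := by
            rw [Finset.card_insert_of_notMem ha]
            have h5 := lg_sum σ a
            apply Prod.ext
            · funext x
              have h6 := congrFun h5 x
              simp only [Pi.add_apply] at h6
              simp only [Prod.fst_add, Pi.add_apply, Pi.smul_apply, smul_eq_mul, Nat.cast_add,
                Nat.cast_one]
              linear_combination h6
            · simp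
              ring
          rw [e] at h
          exact h

theorem kLG : LGStmt := by
  intro s k T _ _ P τ d hk hd hd1
  obtain ⟨G, h1, h2, _, h4⟩ := lg_G P hk (univ.filter fun a => τ a ≠ 0)
  obtain ⟨U, hU, hw⟩ := h4 τ (by
    intro b hb
    by_contra h
    exact hb (Finset.mem_filter.2 ⟨Finset.mem_univ b, h⟩))
  rw [← hd] at hw
  refine ⟨U, ?_, ?_, ?_⟩
  · have e : ((((k : ℤ) + 1) * ((d : ℤ) - 1)) • sg 0 + ∑ a, sg (τ a) : Fin (s + 1) → ℤ)
        = Fin.cons (((k : ℤ) + 1) * d - d) (fun w : Fin s => ∑ a, sg (τ a) w.succ) := by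
      funext x
      refine Fin.cases ?_ ?_ x
      · rw [Fin.cons_zero, Pi.add_apply, Pi.smul_apply, Finset.sum_apply]
        have e1 : ∀ a, sg (τ a) 0 = 1 - if τ a ≠ 0 then 1 else 0 := by
          intro a
          unfold sg
          rw [Pi.single_apply]
          by_cases h : τ a = 0
          · rw [if_pos h.symm, if_neg (not_not.2 h), sub_zero]
          · rw [if_neg (fun h' => h h'.symm), if_pos h, sub_self]
        rw [Finset.sum_congr rfl fun a _ => e1 a, Finset.sum_sub_distrib, Finset.sum_const,
          ← Finset.sum_filter, Finset.sum_const, ← hd, Finset.card_univ, Fintype.card_fin]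
        unfold sg
        simp
        ring
      · intro w
        rw [Fin.cons_succ, Pi.add_apply, Pi.smul_apply, Finset.sum_apply]
        have e1 : sg (0 : Fin (s + 1)) w.succ = 0 := by
          unfold sg
          rw [Pi.single_apply, if_neg (Fin.succ_ne_zero w)]
        rw [e1, smul_zero, zero_add]
    rw [e] at hw
    exact hw
  · intro v
    have h5 := h1 τ v
    rw [hU, Derivation.leibniz, lg_DU, smul_zero, add_zero, smul_eq_mul, Finset.sum_eq_zero] at h5
    · have hU0 : lgU s k ≠ 0 := X_ne_zero _
      exact (mul_eq_zero.1 h5).resolve_left hU0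
    · intro b _
      rw [if_neg]
      rintro ⟨hb, hb2⟩
      apply hb
      rw [Finset.mem_filter]
      exact ⟨Finset.mem_univ b, by rw [hb2]; exact Fin.succ_ne_zero v⟩
  · rw [← h2 τ (fun a ha => (Finset.mem_filter.1 ha).2), hU, map_mul, lg_PhU, one_mul]

end T2

end Pool.Agent.Lib.MP_a688ad_al
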