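import Pool.Agent.Lib.MP_a688ad_al.T2.Spec

/-!
# MP_a688ad_al, stable range, module Li: every element of `A'` is the image of an invariant
-/

set_option autoImplicit false

open MvPolynomial Finset

namespace Pool.Agent.Lib.MP_a688ad_al

namespace T2

variable {k s : ℕ} {T : Type} [CommRing T] [Algebra ℂ T]

/-- The images of the invariants of degree `n` and weight `ν`. -/
private noncomputable def LiS (P : PS (k + 1) s T) (n : ℕ) (ν : Fin s → ℤ) : Submodule ℂ T :=
  ((Gl (s + 1) k n).G (Fin.cons (((k : ℤ) + 1) * n - ∑ w, ν w) ν)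
    ⊓ ⨅ v : Fin s, LinearMap.ker ((DE 0 v.succ : Derivation ℂ (MvPolynomial (Ib (s + 1) k) ℂ)
      (MvPolynomial (Ib (s + 1) k) ℂ)).toLinearMap)).map (P.Ph k).toLinearMap

private theorem li_mem (P : PS (k + 1) s T) (n : ℕ) (ν : Fin s → ℤ) (F : T) :
    F ∈ LiS P n ν ↔ ∃ X₀ ∈ (Gl (s + 1) k n).G (Fin.cons (((k : ℤ) + 1) * n - ∑ w, ν w) ν),
      (∀ v : Fin s, DE 0 v.succ X₀ = 0) ∧ P.Ph k X₀ = F := by
  unfold LiS
  rw [Submodule.mem_map]
  constructor
  · rintro ⟨X, hX, hF⟩
    obtain ⟨h1, h2⟩ := Submodule.mem_inf.1 hX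
    refine ⟨X, h1, fun v => ?_, hF⟩
    have h3 := (Submodule.mem_iInf _).1 h2 v
    exact LinearMap.mem_ker.1 h3
  · rintro ⟨X, h1, h2, hF⟩
    refine ⟨X, Submodule.mem_inf.2 ⟨h1, (Submodule.mem_iInf _).2 fun v => ?_⟩, hF⟩
    exact LinearMap.mem_ker.2 (h2 v)

private theorem li_mul (P : PS (k + 1) s T) {n n' : ℕ} {ν ν' : Fin s → ℤ} {z z' : T}
    (h : z ∈ LiS P n ν) (h' : z' ∈ LiS P n' ν') : z * z' ∈ LiS P (n + n') (ν + ν') := by
  rw [li_mem] at h h' ⊢
  obtain ⟨X, h1, h2, h3⟩ := h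
  obtain ⟨X', h1', h2', h3'⟩ := h'
  refine ⟨X * X', ?_, fun v => ?_, by rw [map_mul, h3, h3']⟩
  · rw [mem_Gl] at h1 h1' ⊢
    have h5 := h1.mul h1'
    have e : ((Fin.cons (((k : ℤ) + 1) * n - ∑ w, ν w) ν : Fin (s + 1) → ℤ), (n : ℤ))
        + ((Fin.cons (((k : ℤ) + 1) * n' - ∑ w, ν' w) ν' : Fin (s + 1) → ℤ), (n' : ℤ))
        = ((Fin.cons (((k : ℤ) + 1) * ((n + n' : ℕ) : ℤ) - ∑ w, (ν + ν') w) (ν + ν') :
          Fin (s + 1) → ℤ), ((n + n' : ℕ) : ℤ)) := by
      rw [Prod.mk_add_mk]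
      congr 1
      · funext i
        refine Fin.cases ?_ (fun w => ?_) i
        · rw [Pi.add_apply, Fin.cons_zero, Fin.cons_zero, Fin.cons_zero]
          have : ∑ w, (ν + ν') w = ∑ w, ν w + ∑ w, ν' w := by
            rw [← Finset.sum_add_distrib]
            rfl
          rw [this]
          push_cast
          ring
        · rw [Pi.add_apply, Fin.cons_succ, Fin.cons_succ, Fin.cons_succ, Pi.add_apply]
    rw [e] at h5
    exact h5
  · rw [Derivation.leibniz, h2 v, h2' v, smul_zero, smul_zero, add_zero]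

private theorem li_sum_sg (a : Fin (s + 1)) : ∑ w : Fin s, (sg a : Fin (s + 1) → ℤ) w.succ
    = if a ≠ 0 then 1 else 0 := by
  refine Fin.cases ?_ (fun v => ?_) a
  · rw [if_neg (by simp)]
    refine Finset.sum_eq_zero fun w _ => ?_
    unfold sg
    rw [Pi.single_eq_of_ne (Fin.succ_ne_zero w)]
  · rw [if_pos (Fin.succ_ne_zero v)]
    rw [Finset.sum_eq_single v]
    · unfold sg
      rw [Pi.single_eq_same]
    · intro w _ hw
      unfold sg
      rw [Pi.single_eq_of_ne (fun h => hw (Fin.succ_injective _ h))]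
    · intro h
      exact absurd (Finset.mem_univ v) h

private theorem li_one (P : PS (k + 1) s T) : (1 : T) ∈ LiS P 0 0 := by
  rw [li_mem]
  refine ⟨1, ?_, fun v => by rw [Derivation.map_one_eq_zero], map_one _⟩
  rw [mem_Gl]
  have h := isWeightedHomogeneous_one ℂ (WT : Ib (s + 1) k → _)
  have e : ((Fin.cons (((k : ℤ) + 1) * ((0 : ℕ) : ℤ) - ∑ w : Fin s, (0 : Fin s → ℤ) w) (0 : Fin s → ℤ) :
      Fin (s + 1) → ℤ), ((0 : ℕ) : ℤ)) = 0 := by
    refine Prod.ext ?_ (by simp)
    funext i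
    refine Fin.cases ?_ (fun w => ?_) i
    · simp
    · simp
  rw [e]
  exact h

/-- The unit `u₀`. -/
private theorem li_u0 (P : PS (k + 1) s T) : (1 : T) ∈ LiS P 1 0 := by
  rw [li_mem]
  refine ⟨Xt (fun _ => 0), ?_, fun v => ?_, ?_⟩
  · rw [mem_Gl]
    have h := isW_Xt (k := k) (fun _ : Fin (k + 1) => (0 : Fin (s + 1)))
    have e : ((∑ _a : Fin (k + 1), sg (0 : Fin (s + 1)), 1) : (Fin (s + 1) → ℤ) × ℤ)
        = ((Fin.cons (((k : ℤ) + 1) * ((1 : ℕ) : ℤ) - ∑ w : Fin s, (0 : Fin s → ℤ) w) (0 : Fin s → ℤ) :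
      Fin (s + 1) → ℤ), ((1 : ℕ) : ℤ)) := by
      refine Prod.ext ?_ (by simp)
      funext i
      rw [Finset.sum_const, Finset.card_univ, Fintype.card_fin]
      refine Fin.cases ?_ (fun w => ?_) i
      · simp [sg]
      · have : (sg (0 : Fin (s + 1)) : Fin (s + 1) → ℤ) w.succ = 0 := by
          unfold sg
          rw [Pi.single_eq_of_ne (Fin.succ_ne_zero w)]
        simp [this]
    rw [e] at h
    exact h
  · rw [DE_Xt]
    exact Finset.sum_eq_zero fun a _ => if_neg (Fin.succ_ne_zero v).symm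
  · unfold Xt PS.Ph
    rw [aeval_X]
    unfold PS.ph
    rw [Fin.cons_zero, if_pos]
    intro c hc
    rw [sy_val] at hc
    obtain ⟨_, _, rfl⟩ := Multiset.mem_map.1 hc
    rfl

private theorem li_mono (P : PS (k + 1) s T) {n n' : ℕ} {ν : Fin s → ℤ} {z : T}
    (h : z ∈ LiS P n ν) (hn : n ≤ n') : z ∈ LiS P n' ν := by
  induction n', hn using Nat.le_induction with
  | base => exact h
  | succ n' _ ih =>
    have h5 := li_mul P ih (li_u0 P)
    rw [mul_one, add_zero] at h5
    exact h5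

/-- The values of `Φ` on the variables. -/
private theorem li_gen (h : LGStmt) (P : PS (k + 1) s T) (hk : 1 ≤ k) (a : Ib (s + 1) k)
    (ν : Fin s → ℤ) (hν : ∀ w, ν w = wt a w.succ) (hd : 1 ≤ ∑ w, ν w) (d : ℕ)
    (hdd : (d : ℤ) = ∑ w, ν w) : P.ph a ∈ LiS P d ν := by
  obtain ⟨τ, hτ⟩ := Xt_surj a
  have ha : ((τ 0, sy fun b => τ b.succ) : Ib (s + 1) k) = a := by
    have h5 : (X (τ 0, sy fun b => τ b.succ) : MvPolynomial (Ib (s + 1) k) ℂ) = X a := hτ
    exact X_injective h5
  have hwt : wt a = ∑ b, sg (τ b) := by rw [← ha, wt_tuple]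
  have hν2 : (fun w : Fin s => ∑ b, (sg (τ b) : Fin (s + 1) → ℤ) w.succ) = ν := by
    funext w
    rw [hν, hwt, Finset.sum_apply]
  have hcard : (((univ.filter fun b => τ b ≠ 0).card : ℕ) : ℤ) = ∑ w, ν w := by
    rw [← hν2]
    rw [Finset.sum_comm, Finset.sum_congr rfl fun b _ => li_sum_sg (τ b), Finset.sum_boole]
  have hd2 : d = (univ.filter fun b => τ b ≠ 0).card := by
    have := hdd.trans hcard.symm
    exact_mod_cast this
  obtain ⟨U, hU1, hU2, hU3⟩ := h s k T P τ d hk hd2 (by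
    have : (1 : ℤ) ≤ (d : ℤ) := by rw [hdd]; exact hd
    exact_mod_cast this)
  rw [li_mem]
  refine ⟨U, ?_, hU2, ?_⟩
  · rw [mem_Gl]
    rw [hν2] at hU1
    rw [← hdd]
    exact hU1
  · rw [hU3, hτ]
    unfold PS.Ph
    rw [aeval_X]

/-- The tuple `(M, 0, ..., 0)`. -/
private def lit (k : ℕ) (M : Multiset (Fin s)) : Sym (Fin (s + 1)) k :=
  if h : Multiset.card M ≤ k then
    ⟨M.map Fin.succ + Multiset.replicate (k - Multiset.card M) 0, by
      rw [Multiset.card_add, Multiset.card_map, Multiset.card_replicate]; omega⟩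
  else ⟨Multiset.replicate k 0, Multiset.card_replicate _ _⟩

private theorem lit_val {M : Multiset (Fin s)} (h : Multiset.card M ≤ k) :
    (lit k M).1 = M.map Fin.succ + Multiset.replicate (k - Multiset.card M) 0 := by
  have e : lit k M = ⟨M.map Fin.succ + Multiset.replicate (k - Multiset.card M) 0, by
      rw [Multiset.card_add, Multiset.card_map, Multiset.card_replicate]; omega⟩ := dif_pos h
  rw [e]

private theorem li_wtm (M : Multiset (Fin s)) (w : Fin s) :
    (((M.map Fin.succ).map sg).sum : Fin (s + 1) → ℤ) w.succ = wtM M w := by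
  induction M using Multiset.induction_on with
  | empty => rw [wtM_zero]; rfl
  | cons a M ih =>
    rw [Multiset.map_cons, Multiset.map_cons, Multiset.sum_cons, Pi.add_apply, ih, wtM_cons,
      Pi.add_apply]
    congr 1
    unfold sg
    by_cases hw : w = a
    · rw [hw, Pi.single_eq_same, Pi.single_eq_same]
    · rw [Pi.single_eq_of_ne (fun h => hw (Fin.succ_injective _ h)), Pi.single_eq_of_ne hw]

private theorem li_wt {M : Multiset (Fin s)} (h : Multiset.card M ≤ k) (c : Fin (s + 1))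
    (w : Fin s) : wt ((c, lit k M) : Ib (s + 1) k) w.succ
      = (sg c : Fin (s + 1) → ℤ) w.succ + wtM M w := by
  unfold wt
  rw [Pi.add_apply]
  congr 1
  show ((lit k M).1.map sg).sum w.succ = _
  rw [lit_val h, Multiset.map_add, Multiset.sum_add, Pi.add_apply, li_wtm,
    Multiset.map_replicate, Multiset.sum_replicate, Pi.smul_apply]
  have : (sg (0 : Fin (s + 1)) : Fin (s + 1) → ℤ) w.succ = 0 := by
    unfold sg
    rw [Pi.single_eq_of_ne (Fin.succ_ne_zero w)]
  rw [this, smul_zero, add_zero]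

private theorem li_sg_succ (v w : Fin s) : (sg v.succ : Fin (s + 1) → ℤ) w.succ = sg v w := by
  unfold sg
  by_cases hw : w = v
  · rw [hw, Pi.single_eq_same, Pi.single_eq_same]
  · rw [Pi.single_eq_of_ne (fun h => hw (Fin.succ_injective _ h)), Pi.single_eq_of_ne hw]

private theorem li_sg_zero (w : Fin s) : (sg (0 : Fin (s + 1)) : Fin (s + 1) → ℤ) w.succ = 0 := by
  unfold sg
  rw [Pi.single_eq_of_ne (Fin.succ_ne_zero w)]

private theorem li_sumsg (v : Fin s) : ∑ w, (sg v : Fin s → ℤ) w = 1 := by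
  have h := li_sum_sg (s := s) v.succ
  rw [if_pos (Fin.succ_ne_zero v)] at h
  rw [← h]
  exact Finset.sum_congr rfl fun w _ => (li_sg_succ v w).symm

private theorem li_sumw (M : Multiset (Fin s)) : ∑ w, wtM M w = (Multiset.card M : ℤ) := by
  induction M using Multiset.induction_on with
  | empty => rw [wtM_zero]; simp
  | cons a M ih =>
    rw [wtM_cons, Multiset.card_cons]
    simp only [Pi.add_apply]
    rw [Finset.sum_add_distrib, li_sumsg, ih]
    push_cast
    ring

private theorem li_prod0 (P : PS (k + 1) s T) (M : Multiset (Fin s)) (i : Fin (k + 1)) :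
    ((M.map Fin.succ).map (P.xx i)).prod = P.mon M i := by
  unfold PS.mon
  rw [Multiset.map_map]
  congr 1

private theorem li_prod (P : PS (k + 1) s T) {M : Multiset (Fin s)} (h : Multiset.card M ≤ k)
    (i : Fin (k + 1)) : ((lit k M).1.map (P.xx i)).prod = P.mon M i := by
  rw [lit_val h, Multiset.map_add, Multiset.prod_add, li_prod0, Multiset.map_replicate,
    Multiset.prod_replicate]
  have : P.xx i 0 = 1 := rfl
  rw [this, one_pow, mul_one]

private theorem li_ph0 (P : PS (k + 1) s T) {M : Multiset (Fin s)} (h : Multiset.card M ≤ k)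
    (hM : M ≠ 0) : P.ph ((0, lit k M) : Ib (s + 1) k) = P.p M := by
  unfold PS.ph
  rw [Fin.cons_zero, if_neg]
  · exact Finset.sum_congr rfl fun i _ => li_prod P h i
  · intro hall
    obtain ⟨c, hc⟩ := Multiset.exists_mem_of_ne_zero hM
    have h5 := hall c.succ (by
      show c.succ ∈ (lit k M).1
      rw [lit_val h]
      exact Multiset.mem_add.2 (Or.inl (Multiset.mem_map_of_mem _ hc)))
    exact Fin.succ_ne_zero c h5

private theorem li_ph1 (P : PS (k + 1) s T) {M : Multiset (Fin s)} (h : Multiset.card M < k)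
    (v : Fin s) : P.ph ((v.succ, lit k M) : Ib (s + 1) k) = P.pe M v := by
  unfold PS.ph
  rw [Fin.cons_succ, if_pos]
  · exact Finset.sum_congr rfl fun i _ => by rw [li_prod P h.le i]
  · show (0 : Fin (s + 1)) ∈ (lit k M).1
    rw [lit_val h.le]
    exact Multiset.mem_add.2 (Or.inr (Multiset.mem_replicate.2 ⟨by omega, rfl⟩))

private theorem li_ph2 (P : PS (k + 1) s T) {M : Multiset (Fin s)} (h : Multiset.card M = k)
    (v : Fin s) : P.ph ((v.succ, lit k M) : Ib (s + 1) k) = P.pe M v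
      - (1 / ((k + 1 : ℕ) : ℂ)) • P.Sm ((v ::ₘ M).map Fin.succ) + P.p (v ::ₘ M) := by
  have hv : (lit k M).1 = M.map Fin.succ := by
    rw [lit_val h.le, h, Nat.sub_self, Multiset.replicate_zero, add_zero]
  unfold PS.ph
  rw [Fin.cons_succ, if_neg]
  · show ∑ i, ((lit k M).1.map (P.xx i)).prod * P.y i v
      - (1 / ((k + 1 : ℕ) : ℂ)) • P.Sm (v.succ ::ₘ (lit k M).1)
      + ∑ i, ((v.succ ::ₘ (lit k M).1).map (P.xx i)).prod = _
    rw [hv, ← Multiset.map_cons]
    congr 1
    · congr 1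
      exact Finset.sum_congr rfl fun i _ => by rw [li_prod0]
    · exact Finset.sum_congr rfl fun i _ => by rw [li_prod0]
  · intro h0
    have h0' : (0 : Fin (s + 1)) ∈ (lit k M).1 := h0
    rw [hv] at h0'
    obtain ⟨c, _, hc⟩ := Multiset.mem_map.1 h0'
    exact Fin.succ_ne_zero c hc

private theorem li_Sm (P : PS (k + 1) s T) (M : Multiset (Fin s)) :
    P.Sm (M.map Fin.succ) = (M.map fun c => P.pe (M.erase c) c).sum := by
  unfold PS.Sm
  rw [Multiset.map_map]
  congr 1
  apply Multiset.map_congr rfl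
  intro c _
  show ∑ i, (((M.map Fin.succ).erase c.succ).map (P.xx i)).prod
    * (Fin.cons 0 (P.y i) : Fin (s + 1) → T) c.succ = P.pe (M.erase c) c
  rw [← Multiset.map_erase _ (Fin.succ_injective s)]
  exact Finset.sum_congr rfl fun i _ => by rw [li_prod0, Fin.cons_succ]

/-- The generator `p M`. -/
private theorem li_p (h : LGStmt) (P : PS (k + 1) s T) (hk : 2 ≤ k) {M : Multiset (Fin s)}
    (h1 : 2 ≤ Multiset.card M) (h2 : Multiset.card M ≤ k + 1) :
    P.p M ∈ LiS P (Multiset.card M) (wtM M) := by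
  rcases Nat.lt_or_ge k (Multiset.card M) with hlt | hle
  · have hM : Multiset.card M = k + 1 := by omega
    have hgen : ∀ c ∈ M, P.ph ((c.succ, lit k (M.erase c)) : Ib (s + 1) k)
        ∈ LiS P (Multiset.card M) (wtM M) := by
      intro c hc
      have hce : Multiset.card (M.erase c) ≤ k := by
        rw [Multiset.card_erase_of_mem hc, hM]
        exact le_of_eq rfl
      refine li_gen h P (by omega) _ (wtM M) (fun w => ?_) ?_ _ (li_sumw M).symm
      · rw [li_wt hce, li_sg_succ, ← Pi.add_apply, ← wtM_cons, Multiset.cons_erase hc]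
      · rw [li_sumw]
        have : 1 ≤ Multiset.card M := by omega
        exact_mod_cast this
    have hsum : (M.map fun c => P.ph ((c.succ, lit k (M.erase c)) : Ib (s + 1) k)).sum
        ∈ LiS P (Multiset.card M) (wtM M) := by
      apply multiset_sum_mem
      intro z hz
      obtain ⟨c, hc, rfl⟩ := Multiset.mem_map.1 hz
      exact hgen c hc
    have hval : (M.map fun c => P.ph ((c.succ, lit k (M.erase c)) : Ib (s + 1) k)).sum
        = ((k + 1 : ℕ) : ℂ) • P.p M := by
      have e1 : (M.map fun c => P.ph ((c.succ, lit k (M.erase c)) : Ib (s + 1) k))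
          = M.map fun c => P.pe (M.erase c) c
            + (P.p M - (1 / ((k + 1 : ℕ) : ℂ)) • P.Sm (M.map Fin.succ)) := by
        apply Multiset.map_congr rfl
        intro c hc
        have hce : Multiset.card (M.erase c) = k := by
          rw [Multiset.card_erase_of_mem hc, hM]
          rfl
        rw [li_ph2 P hce, Multiset.cons_erase hc]
        abel
      rw [e1, Multiset.sum_map_add, ← li_Sm, Multiset.map_const', Multiset.sum_replicate, hM,
        ← Nat.cast_smul_eq_nsmul ℂ, smul_sub, smul_smul]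
      have hne : ((k + 1 : ℕ) : ℂ) ≠ 0 := Nat.cast_ne_zero.2 (Nat.succ_ne_zero k)
      rw [mul_one_div_cancel hne, one_smul]
      abel
    rw [hval] at hsum
    have hne : ((k + 1 : ℕ) : ℂ) ≠ 0 := Nat.cast_ne_zero.2 (Nat.succ_ne_zero k)
    exact (Submodule.smul_mem_iff _ hne).1 hsum
  · have hM : M ≠ 0 := by
      rintro rfl
      simp at h1
    rw [← li_ph0 P hle hM]
    refine li_gen h P (by omega) _ (wtM M) (fun w => ?_) ?_ _ (li_sumw M).symm
    · rw [li_wt hle, li_sg_zero, zero_add]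
    · rw [li_sumw]
      have : 1 ≤ Multiset.card M := by omega
      exact_mod_cast this

private theorem li_sumw2 (M : Multiset (Fin s)) (v : Fin s) :
    ∑ w, (wtM M + sg v) w = ((Multiset.card M + 1 : ℕ) : ℤ) := by
  simp only [Pi.add_apply]
  rw [Finset.sum_add_distrib, li_sumw, li_sumsg]
  push_cast
  ring

private theorem li_genpe (h : LGStmt) (P : PS (k + 1) s T) (hk : 2 ≤ k) {M : Multiset (Fin s)}
    (v : Fin s) (h1 : Multiset.card M ≤ k) :
    P.ph ((v.succ, lit k M) : Ib (s + 1) k) ∈ LiS P (Multiset.card M + 1) (wtM M + sg v) := by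
  refine li_gen h P (by omega) _ (wtM M + sg v) (fun w => ?_) ?_ _ (li_sumw2 M v).symm
  · rw [li_wt h1, li_sg_succ, Pi.add_apply, add_comm]
  · rw [li_sumw2]
    have : 1 ≤ Multiset.card M + 1 := by omega
    exact_mod_cast this

/-- The generator `pe M v`. -/
private theorem li_pe (h : LGStmt) (P : PS (k + 1) s T) (hk : 2 ≤ k) {M : Multiset (Fin s)}
    (v : Fin s) (h1 : Multiset.card M + 2 ≤ k + 1) :
    P.pe M v ∈ LiS P (Multiset.card M + 1) (wtM M + sg v) := by
  rw [← li_ph1 P (by omega) v]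
  exact li_genpe h P hk v (by omega)

/-- The antisymmetric generators. -/
private theorem li_an (h : LGStmt) (P : PS (k + 1) s T) (hk : 2 ≤ k) {M : Multiset (Fin s)}
    (u v : Fin s) (h1 : Multiset.card M + 2 = k + 1) :
    P.pe (u ::ₘ M) v - P.pe (v ::ₘ M) u ∈ LiS P (Multiset.card M + 2) (wtM M + sg u + sg v) := by
  have c1 : Multiset.card (u ::ₘ M) = k := by rw [Multiset.card_cons]; omega
  have c2 : Multiset.card (v ::ₘ M) = k := by rw [Multiset.card_cons]; omega
  have g1 := li_genpe h P hk v c1.le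
  have g2 := li_genpe h P hk u c2.le
  have w1 : wtM (u ::ₘ M) + sg v = wtM M + sg u + sg v := by
    rw [wtM_cons]
    abel
  have w2 : wtM (v ::ₘ M) + sg u = wtM M + sg u + sg v := by
    rw [wtM_cons]
    abel
  rw [w1, Multiset.card_cons] at g1
  rw [w2, Multiset.card_cons] at g2
  have g3 := Submodule.sub_mem _ g1 g2
  rw [li_ph2 P c1, li_ph2 P c2, Multiset.cons_swap u v M] at g3
  have e : P.pe (u ::ₘ M) v - P.pe (v ::ₘ M) u
      = P.pe (u ::ₘ M) v - (1 / ((k + 1 : ℕ) : ℂ)) • P.Sm ((v ::ₘ u ::ₘ M).map Fin.succ)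
          + P.p (v ::ₘ u ::ₘ M)
        - (P.pe (v ::ₘ M) u - (1 / ((k + 1 : ℕ) : ℂ)) • P.Sm ((v ::ₘ u ::ₘ M).map Fin.succ)
          + P.p (v ::ₘ u ::ₘ M)) := by abel
  rw [e]
  exact g3

private theorem li_Mn (h : LGStmt) (P : PS (k + 1) s T) (hk : 2 ≤ k) {q : ℕ} {ν : Fin s → ℤ}
    {z : T} (hz : P.Mn q ν z) : ∃ d : ℕ, (d : ℤ) = ∑ w, ν w ∧ z ∈ LiS P d ν := by
  induction hz with
  | one => exact ⟨0, by simp, li_one P⟩
  | p q ν z M h1 h2 _ ih =>
    obtain ⟨d, hd1, hd2⟩ := ih
    refine ⟨Multiset.card M + d, ?_, li_mul P (li_p h P hk h1 h2) hd2⟩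
    simp only [Pi.add_apply]
    rw [Finset.sum_add_distrib, li_sumw, ← hd1]
    push_cast
    rfl
  | pe q ν z M v h1 _ ih =>
    obtain ⟨d, hd1, hd2⟩ := ih
    refine ⟨Multiset.card M + 1 + d, ?_, li_mul P (li_pe h P hk v h1) hd2⟩
    simp only [Pi.add_apply]
    rw [Finset.sum_add_distrib, Finset.sum_add_distrib, li_sumw, li_sumsg, ← hd1]
    push_cast
    rfl
  | an q ν z M u v h1 _ ih =>
    obtain ⟨d, hd1, hd2⟩ := ih
    refine ⟨Multiset.card M + 2 + d, ?_, li_mul P (li_an h P hk u v h1) hd2⟩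
    simp only [Pi.add_apply]
    rw [Finset.sum_add_distrib, Finset.sum_add_distrib, Finset.sum_add_distrib, li_sumw,
      li_sumsg, li_sumsg, ← hd1]
    push_cast
    ring

theorem kLi (h : LGStmt) : LiStmt := by
  intro s k T _ _ P n ν F hk hF hn
  rw [← li_mem]
  have hle : P.AmAll ν ≤ LiS P n ν := by
    apply iSup_le
    intro q
    unfold PS.Am
    apply Submodule.span_le.2
    intro z hz
    obtain ⟨d, hd1, hd2⟩ := li_Mn h P hk hz
    refine li_mono P hd2 ?_
    rw [← hd1] at hn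
    exact_mod_cast hn
  exact hle hF

end T2

end Pool.Agent.Lib.MP_a688ad_al
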