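import Pool.Agent.Lib.MP_a688ad_al.T2.Spec

/-!
# The stable range: assembly
-/

set_option autoImplicit false

open MvPolynomial Finset

namespace Pool.Agent.Lib.MP_a688ad_al

namespace T2

/-- An antitone sequence with at least three nonzero entries has a nonzero third entry. -/
theorem main_third {s : ℕ} (lam : Fin (s + 1) → ℕ) (hl : Antitone lam)
    (h : 3 ≤ (univ.filter (fun i => lam i ≠ 0)).card) (h2 : 2 < s + 1) : lam ⟨2, h2⟩ ≠ 0 := by
  intro h0
  have hsub : univ.filter (fun i : Fin (s + 1) => lam i ≠ 0)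
      ⊆ univ.filter (fun i : Fin (s + 1) => (i : ℕ) < 2) := by
    intro i hi
    rw [Finset.mem_filter] at hi ⊢
    refine ⟨mem_univ _, ?_⟩
    by_contra hge
    apply hi.2
    have h4 : lam i ≤ lam ⟨2, h2⟩ := hl (by
      rw [Fin.le_def]
      show 2 ≤ (i : ℕ)
      omega)
    omega
  have h5 := Finset.card_le_card hsub
  have h6 : (univ.filter (fun i : Fin (s + 1) => (i : ℕ) < 2)).card ≤ 2 := by
    have h7 : ((univ.filter (fun i : Fin (s + 1) => (i : ℕ) < 2)).image (fun i : Fin (s + 1) => (i : ℕ)))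
        ⊆ Finset.range 2 := by
      intro j hj
      rw [Finset.mem_image] at hj
      obtain ⟨i, hi, rfl⟩ := hj
      rw [Finset.mem_filter] at hi
      exact Finset.mem_range.2 hi.2
    have h8 := Finset.card_le_card h7
    rw [Finset.card_image_of_injective _ Fin.val_injective, Finset.card_range] at h8
    exact h8
  omega

theorem kT2 (h1 : ChStmt) (h2 : TTStmt) (h3 : ThOStmt) (h4 : ThEStmt) (h5 : EndStmt)
    (h6 : LiStmt) (h7 : CWStmt) (h8 : CsStmt) : T2Stmt := by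
  intro m n hm hmn s lam hl hs h3p h0
  obtain ⟨k, rfl⟩ : ∃ k, m = k + 1 := ⟨m - 1, by omega⟩
  obtain ⟨l, rfl⟩ : ∃ l, n = l + 1 := ⟨n - 1, by omega⟩
  have hs2 : 2 < s + 1 := by
    have h := Finset.card_filter_le (univ : Finset (Fin (s + 1))) (fun i => lam i ≠ 0)
    rw [Finset.card_univ, Fintype.card_fin] at h
    omega
  have hth := main_third lam hl h3p hs2
  rw [h1 (s + 1) l (k + 1) lam hl (by rw [hs]), h1 (s + 1) k (l + 1) lam hl (by rw [hs]; ring)]
  obtain ⟨T, _, _, P, G, hinj⟩ := h2 (k + 1) s l (by omega)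
  set ν : Fin (s + 1) → ℤ := fun i => (lam i : ℤ) with hν
  have hanti : Antitone ν := fun i j hij => by
    show (lam j : ℤ) ≤ lam i
    exact_mod_cast hl hij
  have hsumν : ∑ i, ν i = (((k + 1) * (l + 1) : ℕ) : ℤ) := by
    show ∑ i, (lam i : ℤ) = _
    rw [← Nat.cast_sum, hs]
    push_cast
    ring
  have hsplit : ν 0 + ∑ w : Fin s, ν w.succ = ((k : ℤ) + 1) * ((l + 1 : ℕ) : ℤ) := by
    rw [← Fin.sum_univ_succ, hsumν]
    push_cast
    ring
  have hν0 : ((l + 1 : ℕ) : ℤ) * k ≤ ν 0 := by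
    show ((l + 1 : ℕ) : ℤ) * k ≤ (lam 0 : ℤ)
    have : (l + 1) * k ≤ lam 0 := h0
    exact_mod_cast this
  have key : ∀ X ∈ (Gl (s + 1) l (k + 1)).HW ν, ∃ X' ∈ (Gl (s + 1) k (l + 1)).HW ν,
      P.Ph k X' = Th P.x P.y l X := by
    intro X hX
    have hO := h3 (k + 1) s l T P ν X hX.1
    have hD : G.D ⟨0, by omega⟩ ⟨1, by omega⟩ (Th P.x P.y l X) = 0 := by
      rw [h4 (k + 1) s l T P G]
      have h9 : DE (Fin.succ ⟨0, by omega⟩) (Fin.succ ⟨1, by omega⟩) X = 0 :=
        hX.2 _ _ (by rw [Fin.lt_def]; simp)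
      rw [h9, map_zero]
    have hA := h5 (k + 1) s T P G hm ⟨0, by omega⟩ ⟨1, by omega⟩ (fun w => ν w.succ)
      (Th P.x P.y l X) (by simp) (by
        show (1 : ℤ) ≤ (lam (Fin.succ ⟨1, by omega⟩) : ℤ)
        have h10 : (Fin.succ ⟨1, by omega⟩ : Fin (s + 1)) = ⟨2, hs2⟩ := rfl
        rw [h10]
        have : 1 ≤ lam ⟨2, hs2⟩ := Nat.one_le_iff_ne_zero.2 hth
        exact_mod_cast this) hO hD
    obtain ⟨X₀, hX₀, hX₀', hP⟩ := h6 s k T P (l + 1) (fun w => ν w.succ) (Th P.x P.y l X)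
      (by omega) hA (by
        have : ∑ w : Fin s, ν w.succ = ((k : ℤ) + 1) * ((l + 1 : ℕ) : ℤ) - ν 0 := by
          rw [← hsplit]; ring
        rw [this]
        nlinarith)
    have hc : (Fin.cons (((k : ℤ) + 1) * ((l + 1 : ℕ) : ℤ) - ∑ w : Fin s, ν w.succ)
        (fun w => ν w.succ) : Fin (s + 1) → ℤ) = ν := by
      funext i
      refine Fin.cases ?_ (fun w => ?_) i
      · rw [Fin.cons_zero, ← hsplit]
        ring
      · rw [Fin.cons_succ]
    rw [hc] at hX₀
    have hC : ∑ i, ∑ j, G.D i j (G.D j i (Th P.x P.y l X))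
        = ((GlFam.cval ν - c0 ν : ℤ) : ℂ) • Th P.x P.y l X := by
      have a1 := h7 s _ (Gl (s + 1) l (k + 1)) ν X hX.1 (fun v => hX.2 0 v.succ (Fin.succ_pos v))
      have a2 := (Gl (s + 1) l (k + 1)).Cas_hw hX.1 hX.2
      have a3 : ∑ i : Fin s, ∑ j : Fin s, DE i.succ j.succ (DE j.succ i.succ X)
          = ((GlFam.cval ν - c0 ν : ℤ) : ℂ) • X := by
        rw [a2] at a1
        push_cast
        rw [sub_smul, a1, add_sub_cancel_right]
        rfl
      have a4 : ∀ i j : Fin s, G.D i j (G.D j i (Th P.x P.y l X))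
          = Th P.x P.y l (DE i.succ j.succ (DE j.succ i.succ X)) := by
        intro i j
        rw [h4 (k + 1) s l T P G, h4 (k + 1) s l T P G]
      simp only [a4, ← map_sum]
      rw [a3, map_smul]
    obtain ⟨X', hX', hP'⟩ := h8 s k T P G (l + 1) ν X₀ hanti hsumν hX₀ hX₀' (by rw [hP]; exact hC)
    exact ⟨X', hX', hP'.trans hP⟩
  have hfin : FiniteDimensional ℂ ((Gl (s + 1) k (l + 1)).HW ν) :=
    Submodule.finiteDimensional_of_le (fun v hv => hv.1 :
      (Gl (s + 1) k (l + 1)).HW ν ≤ (Gl (s + 1) k (l + 1)).G ν)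
  let f : (Gl (s + 1) l (k + 1)).HW ν →ₗ[ℂ] T := (Th P.x P.y l).domRestrict _
  let g : (Gl (s + 1) k (l + 1)).HW ν →ₗ[ℂ] T := (P.Ph k).toLinearMap.domRestrict _
  have hf : Function.Injective f := by
    rw [injective_iff_map_eq_zero]
    intro X hX
    apply Subtype.ext
    exact hinj ν X.1 X.2.1 (fun v => X.2.2 0 v.succ (Fin.succ_pos v)) hX
  have hr : LinearMap.range f ≤ LinearMap.range g := by
    rintro _ ⟨X, rfl⟩
    obtain ⟨X', hX', hP⟩ := key X.1 X.2
    exact ⟨⟨X', hX'⟩, hP⟩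
  have e1 : Module.finrank ℂ (LinearMap.range f)
      = Module.finrank ℂ ((Gl (s + 1) l (k + 1)).HW ν) := LinearMap.finrank_range_of_inj hf
  have e2 : Module.finrank ℂ (LinearMap.range f) ≤ Module.finrank ℂ (LinearMap.range g) :=
    Submodule.finrank_mono hr
  have e3 : Module.finrank ℂ (LinearMap.range g)
      ≤ Module.finrank ℂ ((Gl (s + 1) k (l + 1)).HW ν) := LinearMap.finrank_range_le g
  exact_mod_cast e1 ▸ e2.trans e3

end T2

end Pool.Agent.Lib.MP_a688ad_al
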