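import Pool.Agent.Lib.MP_a688ad_al.T2.Spec

/-!
# MP_a688ad_al, module Mu: products with several marks
-/

set_option autoImplicit false

open MvPolynomial Finset

namespace Pool.Agent.Lib.MP_a688ad_al

namespace T2

private theorem mu_cast {m s : ℕ} {T : Type} [CommRing T] [Algebra ℂ T] {P : PS m s T}
    {q q' : ℕ} {ν ν' : Fin s → ℤ} {z z' : T} (h : z ∈ P.Am q ν) (hq : q = q') (hν : ν = ν')
    (hz : z = z') : z' ∈ P.Am q' ν' := by
  subst hq hν hz
  exact h

private theorem mu_mn (h2 : K2Stmt) {m s : ℕ} {T : Type} [CommRing T] [Algebra ℂ T] (P : PS m s T)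
    (hm : 3 ≤ m) (M : Multiset (Fin s)) (v : Fin s) {q : ℕ} {ν : Fin s → ℤ} {z : T}
    (hz : P.Mn q ν z) : ∀ q', q = q' + 1 → P.pe M v * z ∈ P.Am (q' + 2) (wtM M + sg v + ν) := by
  induction hz with
  | one => intro q' h; omega
  | p q ν z M' h1 h3 _ ih =>
    rintro q' rfl
    refine mu_cast (P.Am_mul (P.Am_p h1 h3) (ih q' rfl)) (by omega) ?_ (by ring)
    abel
  | pe q ν z M' v' h1 hz ih =>
    intro q' hq
    have h4 : q' = q := by omega
    subst h4
    refine mu_cast (P.Am_mul (h2 m s T P hm M v M' v') (Submodule.subset_span hz))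
      (by omega) ?_ (by ring)
    abel
  | an q ν z M' u' v' h1 hz ih =>
    intro q' hq
    have h4 : q' = q := by omega
    subst h4
    have e1 := h2 m s T P hm M v (u' ::ₘ M') v'
    have e2 := h2 m s T P hm M v (v' ::ₘ M') u'
    have e2' : P.pe M v * P.pe (v' ::ₘ M') u' ∈
        P.Am 2 (wtM M + sg v + (wtM (u' ::ₘ M') + sg v')) := by
      refine mu_cast e2 rfl ?_ rfl
      rw [wtM_cons, wtM_cons]
      abel
    refine mu_cast (P.Am_mul (Submodule.sub_mem _ e1 e2') (Submodule.subset_span hz))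
      (by omega) ?_ (by ring)
    rw [wtM_cons]
    abel

theorem kMu (h2 : K2Stmt) : MuStmt := by
  intro m s T _ _ P hm q ν z M v hz
  unfold PS.Am at hz
  induction hz using Submodule.span_induction with
  | mem a ha => exact mu_mn h2 P hm M v ha q rfl
  | zero => rw [mul_zero]; exact Submodule.zero_mem _
  | add b c _ _ hb hc => rw [mul_add]; exact Submodule.add_mem _ hb hc
  | smul c b _ hb => rw [mul_smul_comm]; exact Submodule.smul_mem _ _ hb

end T2

end Pool.Agent.Lib.MP_a688ad_al
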