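import Pool.Agent.Lib.MP_a688ad_al.T2.Spec

/-!
# MP_a688ad_al, stable range, A6: orbit sums are sums of products of power sums
-/

set_option autoImplicit false

open MvPolynomial Finset

namespace Pool.Agent.Lib.MP_a688ad_al

namespace T2

variable {m s : ℕ} {T : Type} [CommRing T] [Algebra ℂ T] (P : PS m s T)

private def or1_PA (ν : Fin s → ℤ) : Submodule ℂ T := ⨆ q, P.Pr q ν

private theorem or1_le {q : ℕ} {ν : Fin s → ℤ} {z : T} (h : z ∈ P.Pr q ν) : z ∈ or1_PA P ν :=
  (le_iSup (fun q => P.Pr q ν) q) h

private theorem or1_mul {ν ν' : Fin s → ℤ} {z z' : T} (h : z ∈ or1_PA P ν)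
    (h' : z' ∈ or1_PA P ν') : z * z' ∈ or1_PA P (ν + ν') := by
  unfold or1_PA at h
  induction h using Submodule.iSup_induction' with
  | mem q x hx =>
    unfold or1_PA at h'
    induction h' using Submodule.iSup_induction' with
    | mem q' x' hx' => exact or1_le P (P.Pr_mul hx hx')
    | zero => rw [mul_zero]; exact Submodule.zero_mem _
    | add a b _ _ ha hb => rw [mul_add]; exact Submodule.add_mem _ ha hb
  | zero => rw [zero_mul]; exact Submodule.zero_mem _
  | add a b _ _ ha hb => rw [add_mul]; exact Submodule.add_mem _ ha hb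

private theorem or1_mon_add (M M' : Multiset (Fin s)) (i : Fin m) :
    P.mon (M + M') i = P.mon M i * P.mon M' i := by
  unfold PS.mon
  rw [Multiset.map_add, Multiset.prod_add]

/-- a product of letters is a letter or zero -/
private theorem or1_col {L : Type} [DecidableEq L] (a : L → Le s) (R : Finset L) :
    (∀ i, ∏ j ∈ R, P.am (a j) i = 0) ∨
      ∃ b : Le s, wtA b = ∑ j ∈ R, wtA (a j) ∧ ∀ i, ∏ j ∈ R, P.am (a j) i = P.am b i := by
  induction R using Finset.induction_on with
  | empty =>
    right
    refine ⟨(0, none), ?_, fun i => ?_⟩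
    · unfold wtA
      simp [wtM_zero]
    · unfold PS.am PS.mon
      simp
  | insert j R hj ih =>
    rcases ih with h | ⟨b, hb1, hb2⟩
    · left
      intro i
      rw [prod_insert hj, h i, mul_zero]
    · obtain ⟨M, o⟩ := b
      obtain ⟨M', o', hM'⟩ : ∃ M' o', a j = (M', o') := ⟨(a j).1, (a j).2, rfl⟩
      rcases o with _ | v
      · right
        refine ⟨(M' + M, o'), ?_, fun i => ?_⟩
        · rw [sum_insert hj, ← hb1, hM']
          unfold wtA
          simp only [wtM_add, Option.elim]
          abel
        · rw [prod_insert hj, hb2 i, hM']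
          unfold PS.am
          simp only [Option.elim, or1_mon_add]
          ring
      · rcases o' with _ | v'
        · right
          refine ⟨(M' + M, some v), ?_, fun i => ?_⟩
          · rw [sum_insert hj, ← hb1, hM']
            unfold wtA
            simp only [wtM_add, Option.elim]
            abel
          · rw [prod_insert hj, hb2 i, hM']
            unfold PS.am
            simp only [Option.elim, or1_mon_add]
            ring
        · left
          intro i
          rw [prod_insert hj, hb2 i, hM']
          unfold PS.am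
          simp only [Option.elim]
          have h := P.yy i v' v
          calc P.mon M' i * P.y i v' * (P.mon M i * P.y i v)
              = P.mon M' i * P.mon M i * (P.y i v' * P.y i v) := by ring
            _ = 0 := by rw [h, mul_zero]

private theorem or1_sum {L : Type} [DecidableEq L] (a : L → Le s) (R : Finset L) :
    ∑ i, ∏ j ∈ R, P.am (a j) i ∈ or1_PA P (∑ j ∈ R, wtA (a j)) := by
  rcases or1_col P a R with h | ⟨⟨M, o⟩, h1, h2⟩
  · rw [sum_congr rfl fun i _ => h i, sum_const_zero]
    exact Submodule.zero_mem _
  · rw [sum_congr rfl fun i _ => h2 i, ← h1]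
    rcases o with _ | v
    · have h3 := PS.Pm.p (P := P) 0 0 1 M PS.Pm.one
      have h4 : ∑ i, P.am (M, none) i = P.p M := by
        unfold PS.am PS.p
        simp
      have h5 : wtA ((M, none) : Le s) = wtM M := by
        unfold wtA
        simp
      rw [h4, h5]
      rw [add_zero, mul_one] at h3
      exact or1_le P (Submodule.subset_span h3)
    · have h3 := PS.Pm.pe (P := P) 0 0 1 M v PS.Pm.one
      have h4 : ∑ i, P.am (M, some v) i = P.pe M v := by
        unfold PS.am PS.pe
        simp
      have h5 : wtA ((M, some v) : Le s) = wtM M + sg v := by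
        unfold wtA
        simp
      rw [h4, h5]
      rw [add_zero, mul_one] at h3
      exact or1_le P (Submodule.subset_span h3)

private theorem or1_Ef (h : E2Stmt) {L : Type} [DecidableEq L] (a : L → Le s) :
    ∀ (n : ℕ) (S : Finset L), S.card ≤ n →
      Ef (fun t i => P.am (a t) i) S ∈ or1_PA P (∑ t ∈ S, wtA (a t)) := by
  intro n
  induction n with
  | zero =>
    intro S hS
    have h1 : S = ∅ := card_eq_zero.1 (Nat.le_zero.1 hS)
    rw [h1, sum_empty]
    have h2 : Ef (fun t i => P.am (a t) i) (∅ : Finset L) = 1 := by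
      unfold Ef
      simp
    rw [h2]
    exact or1_le P (Submodule.subset_span PS.Pm.one)
  | succ n ih =>
    intro S hS
    rcases S.eq_empty_or_nonempty with h1 | ⟨j0, hj0⟩
    · exact ih S (by rw [h1, card_empty]; exact Nat.zero_le _)
    · have hS' : S = insert j0 (S.erase j0) := (insert_erase hj0).symm
      have hnot : j0 ∉ S.erase j0 := notMem_erase j0 S
      rw [hS', h m T L _ j0 _ hnot]
      refine Submodule.sum_mem _ fun R hR => ?_
      have hR' := mem_powerset.1 hR
      have hnotR : j0 ∉ R := fun h => hnot (hR' h)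
      have h3 : ∑ i, P.am (a j0) i * ∏ j ∈ R, P.am (a j) i =
          ∑ i, ∏ j ∈ insert j0 R, P.am (a j) i := by
        refine sum_congr rfl fun i _ => ?_
        rw [prod_insert hnotR]
      have h4 : ((-1) ^ R.card * (R.card.factorial : T)) *
          (∑ i, P.am (a j0) i * ∏ j ∈ R, P.am (a j) i) *
            Ef (fun t i => P.am (a t) i) (S.erase j0 \ R) =
          ((-1 : ℂ) ^ R.card * (R.card.factorial : ℂ)) •
            ((∑ i, ∏ j ∈ insert j0 R, P.am (a j) i) *
              Ef (fun t i => P.am (a t) i) (S.erase j0 \ R)) := by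
        rw [Algebra.smul_def, map_mul, map_pow, map_neg, map_one, map_natCast, h3, mul_assoc]
      rw [h4]
      refine Submodule.smul_mem _ _ ?_
      have h5 : (S.erase j0 \ R).card ≤ n := by
        have h6 : (S.erase j0 \ R).card ≤ (S.erase j0).card := card_le_card sdiff_subset
        rw [card_erase_of_mem hj0] at h6
        omega
      have h6 : ∑ t ∈ insert j0 (S.erase j0), wtA (a t) =
          ∑ t ∈ insert j0 R, wtA (a t) + ∑ t ∈ S.erase j0 \ R, wtA (a t) := by
        rw [sum_insert hnot, sum_insert hnotR, ← sum_sdiff hR']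
        abel
      rw [h6]
      exact or1_mul P (or1_sum P a _) (ih _ h5)

private theorem or1_orb (a : Fin m → Le s) :
    P.orb a = Ef (fun t i => P.am (a t) i) (univ : Finset (Fin m)) := by
  unfold PS.orb Ef
  refine Fintype.sum_bijective
    (fun σ : Equiv.Perm (Fin m) => (⟨fun j => σ j.1, fun j k hjk => Subtype.ext (σ.injective hjk)⟩ :
      (univ : Finset (Fin m)) ↪ Fin m)) ⟨?_, ?_⟩ _ _ ?_
  · intro σ σ' hσ
    ext t
    have h1 := congrArg (fun f : (univ : Finset (Fin m)) ↪ Fin m => f ⟨t, mem_univ t⟩) hσ
    exact congrArg Fin.val h1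
  · intro f
    have h1 : Function.Injective fun t : Fin m => f ⟨t, mem_univ t⟩ := by
      intro t t' ht
      have h2 := f.injective ht
      exact congrArg Subtype.val h2
    refine ⟨Equiv.ofBijective _ (Finite.injective_iff_bijective.1 h1), ?_⟩
    ext j
    rfl
  · intro σ
    exact (prod_coe_sort univ fun t => P.am (a t) (σ t)).symm

theorem kOr1 (h : E2Stmt) : Or1Stmt := by
  intro m s T _ _ P ν
  unfold PS.Orb
  rw [Submodule.span_le]
  rintro z ⟨a, ha, rfl⟩
  have h1 := or1_Ef P h a _ (univ : Finset (Fin m)) le_rfl
  rw [← or1_orb, ha] at h1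
  exact h1

end T2

end Pool.Agent.Lib.MP_a688ad_al
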