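import Pool.Agent.Lib.MP_a688ad_al.T2.Spec

/-!
# Products of power sums: classification by the number of marks
-/

set_option autoImplicit false

open MvPolynomial Finset

namespace Pool.Agent.Lib.MP_a688ad_al

namespace T2

theorem or2_p_zero {m s : ℕ} {T : Type} [CommRing T] [Algebra ℂ T] (P : PS m s T) (z : T) :
    P.p 0 * z = (m : ℂ) • z := by
  have h : P.p 0 = (m : T) := by
    unfold PS.p PS.mon
    simp
  rw [h, Nat.cast_smul_eq_nsmul, nsmul_eq_mul]

theorem or2_all (h1 : AmPStmt) (h2 : K2Stmt) (h3 : MuStmt) (h4 : PRStmt) {m s : ℕ} {T : Type}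
    [CommRing T] [Algebra ℂ T] (P : PS m s T) (hm : 3 ≤ m) {q : ℕ} {ν : Fin s → ℤ} {z : T}
    (h : P.Pm q ν z) :
    (q = 0 → z ∈ P.Am 0 ν ∧ ∀ ν' z', z' ∈ P.R1 ν' → z * z' ∈ P.R1 (ν + ν')) ∧
    (q = 1 → z ∈ P.R1 ν ∧ ∀ M v, P.pe M v * z ∈ P.Am 2 (wtM M + sg v + ν)) ∧
    (∀ q', q = q' + 2 → z ∈ P.Am (q' + 2) ν) := by
  induction h with
  | one =>
    refine ⟨fun _ => ⟨P.Am_one, fun ν' z' hz' => ?_⟩, fun h => by omega, fun q' h => by omega⟩
    rw [one_mul, zero_add]
    exact hz'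
  | p q ν z M _ ih =>
    obtain ⟨i0, i1, i2⟩ := ih
    by_cases hM : M = 0
    · subst hM
      rw [wtM_zero, zero_add, or2_p_zero]
      refine ⟨fun h => ⟨Submodule.smul_mem _ _ (i0 h).1, fun ν' z' hz' => ?_⟩,
        fun h => ⟨Submodule.smul_mem _ _ (i1 h).1, fun M' v => ?_⟩, fun q' h =>
        Submodule.smul_mem _ _ (i2 q' h)⟩
      · rw [smul_mul_assoc]
        exact Submodule.smul_mem _ _ ((i0 h).2 ν' z' hz')
      · rw [mul_smul_comm]
        exact Submodule.smul_mem _ _ ((i1 h).2 M' v)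
    · have hp := (h1 m s T P hm).1 M hM
      refine ⟨fun h => ⟨?_, fun ν' z' hz' => ?_⟩, fun h => ⟨?_, fun M' v => ?_⟩, fun q' h => ?_⟩
      · have e1 := P.Am_mul hp (i0 h).1
        rw [Nat.add_zero] at e1
        exact e1
      · rw [mul_assoc, add_assoc]
        exact (h4 m s T P).2 M _ _ ((i0 h).2 ν' z' hz')
      · exact (h4 m s T P).2 M _ _ (i1 h).1
      · have e1 := P.Am_mul hp ((i1 h).2 M' v)
        rw [Nat.zero_add] at e1
        have e2 : P.pe M' v * (P.p M * z) = P.p M * (P.pe M' v * z) := by ring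
        have e3 : wtM M' + sg v + (wtM M + ν) = wtM M + (wtM M' + sg v + ν) := by abel
        rw [e2, e3]
        exact e1
      · have e1 := P.Am_mul hp (i2 q' h)
        rw [Nat.zero_add] at e1
        exact e1
  | pe q ν z M v _ ih =>
    obtain ⟨i0, i1, i2⟩ := ih
    refine ⟨fun h => by omega, fun h => ?_, fun q' h => ?_⟩
    · have hq : q = 0 := by omega
      refine ⟨?_, fun M' v' => ?_⟩
      · have e1 := (i0 hq).2 _ _ ((h4 m s T P).1 M v)
        rw [mul_comm, add_comm] at e1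
        exact e1
      · have e1 := P.Am_mul (h2 m s T P hm M' v' M v) (i0 hq).1
        rw [Nat.add_zero] at e1
        have e2 : P.pe M' v' * (P.pe M v * z) = P.pe M' v' * P.pe M v * z := by ring
        have e3 : wtM M' + sg v' + (wtM M + sg v + ν)
            = wtM M' + sg v' + (wtM M + sg v) + ν := by abel
        rw [e2, e3]
        exact e1
    · rcases Nat.eq_zero_or_pos q' with hq' | hq'
      · subst hq'
        exact (i1 (by omega)).2 M v
      · obtain ⟨q'', rfl⟩ : ∃ q'', q' = q'' + 1 := ⟨q' - 1, by omega⟩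
        exact h3 m s T P hm (q'' + 1) ν z M v (i2 q'' (by omega))

theorem kOr2 (h1 : AmPStmt) (h2 : K2Stmt) (h3 : MuStmt) (h4 : PRStmt) : Or2Stmt := by
  intro m s T _ _ P hm ν
  refine ⟨?_, ?_, fun q => ?_⟩
  · exact Submodule.span_le.2 fun z hz => ((or2_all h1 h2 h3 h4 P hm hz).1 rfl).1
  · exact Submodule.span_le.2 fun z hz => ((or2_all h1 h2 h3 h4 P hm hz).2.1 rfl).1
  · exact Submodule.span_le.2 fun z hz => (or2_all h1 h2 h3 h4 P hm hz).2.2 q rfl

end T2

end Pool.Agent.Lib.MP_a688ad_al
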