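import Pool.Agent.Lib.MP_a688ad_al.T2.Spec

/-!
# MP_a688ad_al, stable range: power sums times `R1`
-/

set_option autoImplicit false

open MvPolynomial Finset

namespace Pool.Agent.Lib.MP_a688ad_al

namespace T2

section

variable {m s : ℕ} {T : Type} [CommRing T] [Algebra ℂ T] (P : PS m s T)

/-- A product of an elementary function with an element of `HH` is in `R1`. -/
theorem pr_e {B : Finset ℕ} {H : (ℕ → Fin s) → T} (hH : P.HH B H) (u : ℕ → Fin s)
    {S : Finset ℕ} (hd : Disjoint S B) : P.e S u * H u ∈ P.R1 (wtS S u + wtS B u) := by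
  rcases S.eq_empty_or_nonempty with hS | hS
  · subst hS
    rw [P.e_empty, one_mul]
    refine Submodule.subset_span ⟨B, H, u, hH, ?_, rfl⟩
    simp [wtS]
  · exact Submodule.subset_span ⟨S ∪ B, _, u, PS.HH.mul S B H hd hS hH, wtS_union hd u, rfl⟩

theorem pr_base (M : Multiset (Fin s)) (v : Fin s) : P.pe M v ∈ P.R1 (wtM M + sg v) := by
  obtain ⟨u, h1, h2⟩ := exists_xs M (fun _ => v) (Finset.range (Multiset.card M))
    (Finset.card_range _)
  have hc : Multiset.card M ∉ Finset.range (Multiset.card M) := by simp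
  refine Submodule.subset_span ⟨insert (Multiset.card M) (Finset.range (Multiset.card M)), _, u,
    PS.HH.base _ _ hc, ?_, ?_⟩
  · rw [wtS_insert hc, h2 _ hc, ← wtM_xs, h1, add_comm]
  · show P.pe M v = P.pe (xs (Finset.range (Multiset.card M)) u) (u (Multiset.card M))
    rw [h1, h2 _ hc]

/-- The main step: the product of a power sum and an element of `HH`. -/
theorem pr_step (h : RelEStmt) (n : ℕ)
    (ih : ∀ M : Multiset (Fin s), Multiset.card M < n → ∀ ν z, z ∈ P.R1 ν →
      P.p M * z ∈ P.R1 (wtM M + ν))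
    (M : Multiset (Fin s)) (hM : Multiset.card M = n) (hn : 0 < n) {B : Finset ℕ}
    {H : (ℕ → Fin s) → T} (hH : P.HH B H) (u : ℕ → Fin s) :
    P.p M * H u ∈ P.R1 (wtM M + wtS B u) := by
  classical
  -- fresh positions
  obtain ⟨T0, hT0d, hT0c⟩ : ∃ T0 : Finset ℕ, Disjoint T0 B ∧ T0.card = n := by
    refine ⟨Finset.Ico (B.sup id + 1) (B.sup id + 1 + n), ?_, ?_⟩
    · rw [Finset.disjoint_left]
      intro x hx hxB
      have h1 : x ≤ B.sup id := Finset.le_sup (f := id) hxB
      have h2 := (Finset.mem_Ico.1 hx).1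
      omega
    · rw [Nat.card_Ico]
      omega
  obtain ⟨j0, hj0⟩ : T0.Nonempty := Finset.card_pos.1 (by omega)
  obtain ⟨u', hu1, hu2⟩ := exists_xs M u T0 (hT0c.trans hM.symm)
  have hB : ∀ ω ∈ B, u' ω = u ω := fun ω hω =>
    hu2 ω (fun hω' => Finset.disjoint_left.1 hT0d hω' hω)
  have hHu : H u = H u' := (P.HH_congr hH hB).symm
  have hwB : wtS B u = wtS B u' := by
    unfold wtS
    exact Finset.sum_congr rfl fun ω hω => by rw [hB ω hω]
  rw [hHu, hwB]
  set S : Finset ℕ := T0.erase j0 with hS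
  have hjS : j0 ∉ S := Finset.notMem_erase j0 T0
  have hins : insert j0 S = T0 := Finset.insert_erase hj0
  have hSd : Disjoint S B := Finset.disjoint_of_subset_left (Finset.erase_subset _ _) hT0d
  have hScard : S.card + 1 = n := by
    rw [hS, Finset.card_erase_of_mem hj0]
    omega
  have hwt : wtM M = wtS T0 u' := by rw [← hu1, wtM_xs]
  have hrel := h m s T P S j0 u' hjS
  rw [hins] at hrel
  have hrel2 : P.e T0 u' * H u' = ∑ R ∈ S.powerset,
      ((-1 : ℂ) ^ R.card * (R.card.factorial : ℂ)) •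
        (P.p (xs (insert j0 R) u') * (P.e (S \ R) u' * H u')) := by
    rw [hrel, Finset.sum_mul]
    refine Finset.sum_congr rfl fun R _ => ?_
    rw [smul_mul_assoc, mul_assoc]
  have hSmem : S ∈ S.powerset := Finset.mem_powerset_self S
  rw [← Finset.add_sum_erase _ _ hSmem] at hrel2
  have htop : P.p (xs (insert j0 S) u') * (P.e (S \ S) u' * H u') = P.p M * H u' := by
    rw [hins, hu1, Finset.sdiff_self, P.e_empty, one_mul]
  rw [htop] at hrel2
  have hL : P.e T0 u' * H u' ∈ P.R1 (wtM M + wtS B u') := by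
    rw [hwt]
    exact pr_e P hH u' hT0d
  have hrest : ∑ R ∈ S.powerset.erase S, ((-1 : ℂ) ^ R.card * (R.card.factorial : ℂ)) •
      (P.p (xs (insert j0 R) u') * (P.e (S \ R) u' * H u')) ∈ P.R1 (wtM M + wtS B u') := by
    refine Submodule.sum_mem _ fun R hR => Submodule.smul_mem _ _ ?_
    obtain ⟨hRne, hRS⟩ := Finset.mem_erase.1 hR
    rw [Finset.mem_powerset] at hRS
    have hjR : j0 ∉ R := fun hj => hjS (hRS hj)
    have hcard : R.card < S.card :=
      Finset.card_lt_card (Finset.ssubset_iff_subset_ne.2 ⟨hRS, hRne⟩)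
    have h1 : P.e (S \ R) u' * H u' ∈ P.R1 (wtS (S \ R) u' + wtS B u') :=
      pr_e P hH u' (Finset.disjoint_of_subset_left Finset.sdiff_subset hSd)
    have h2 := ih (xs (insert j0 R) u') (by
      rw [card_xs, Finset.card_insert_of_notMem hjR]
      omega) _ _ h1
    have h3 : wtM (xs (insert j0 R) u') + (wtS (S \ R) u' + wtS B u') =
        wtM M + wtS B u' := by
      rw [wtM_xs, hwt, ← add_assoc, ← wtS_union, ← hins]
      · congr 2
        rw [Finset.insert_union, Finset.union_sdiff_of_subset hRS]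
      · rw [Finset.disjoint_left]
        intro x hx hx'
        rcases Finset.mem_insert.1 hx with hx1 | hx1
        · rw [hx1] at hx'
          exact hjS (Finset.mem_sdiff.1 hx').1
        · exact (Finset.mem_sdiff.1 hx').2 hx1
    rw [h3] at h2
    exact h2
  have hmain : ((-1 : ℂ) ^ S.card * (S.card.factorial : ℂ)) • (P.p M * H u') ∈
      P.R1 (wtM M + wtS B u') := by
    have h4 : ((-1 : ℂ) ^ S.card * (S.card.factorial : ℂ)) • (P.p M * H u') =
        P.e T0 u' * H u' - ∑ R ∈ S.powerset.erase S,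
          ((-1 : ℂ) ^ R.card * (R.card.factorial : ℂ)) •
            (P.p (xs (insert j0 R) u') * (P.e (S \ R) u' * H u')) := by
      rw [hrel2, add_sub_cancel_right]
    rw [h4]
    exact Submodule.sub_mem _ hL hrest
  have hne : ((-1 : ℂ) ^ S.card * (S.card.factorial : ℂ)) ≠ 0 := by
    refine mul_ne_zero (pow_ne_zero _ (neg_ne_zero.2 one_ne_zero)) ?_
    exact_mod_cast Nat.factorial_ne_zero S.card
  have h5 := Submodule.smul_mem _ ((-1 : ℂ) ^ S.card * (S.card.factorial : ℂ))⁻¹ hmain
  rw [inv_smul_smul₀ hne] at h5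
  exact h5

theorem pr_all (h : RelEStmt) (n : ℕ) : ∀ M : Multiset (Fin s), Multiset.card M = n →
    ∀ ν z, z ∈ P.R1 ν → P.p M * z ∈ P.R1 (wtM M + ν) := by
  induction n using Nat.strong_induction_on with
  | _ n ih =>
    intro M hM ν z hz
    have ih' : ∀ M : Multiset (Fin s), Multiset.card M < n → ∀ ν z, z ∈ P.R1 ν →
        P.p M * z ∈ P.R1 (wtM M + ν) := fun M' hM' => ih _ hM' M' rfl
    rcases Nat.eq_zero_or_pos n with hn | hn
    · have hM0 : M = 0 := Multiset.card_eq_zero.1 (hM.trans hn)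
      subst hM0
      rw [wtM_zero, zero_add]
      have h1 : P.p 0 = (m : T) := by
        simp [PS.p, PS.mon]
      rw [h1, ← nsmul_eq_mul, ← Nat.cast_smul_eq_nsmul ℂ]
      exact Submodule.smul_mem _ _ hz
    · unfold PS.R1 at hz
      induction hz using Submodule.span_induction with
      | mem a ha =>
        obtain ⟨B, H, u, hH, hw, rfl⟩ := ha
        rw [← hw]
        exact pr_step P h n ih' M hM hn hH u
      | zero => rw [mul_zero]; exact Submodule.zero_mem _
      | add b c _ _ hb hc => rw [mul_add]; exact Submodule.add_mem _ hb hc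
      | smul c b _ hb => rw [mul_smul_comm]; exact Submodule.smul_mem _ _ hb

end

theorem kPR (h : RelEStmt) : PRStmt := by
  intro m s T _ _ P
  exact ⟨pr_base P, fun M => pr_all P h (Multiset.card M) M rfl⟩

end T2

end Pool.Agent.Lib.MP_a688ad_al
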