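import Pool.Agent.Lib.MP_a688ad_al.T2.Spec

/-!
# MP_a688ad_al, stable range: the map `Φ` is equivariant
-/

set_option autoImplicit false

open MvPolynomial Finset

namespace Pool.Agent.Lib.MP_a688ad_al

namespace T2

variable {s k : ℕ} {T : Type} [CommRing T] [Algebra ℂ T]

/-- the marks, the mark with index `0` is `0` -/
private def pheY (P : PS (k + 1) s T) (i : Fin (k + 1)) : Fin (s + 1) → T := Fin.cons 0 (P.y i)

private def pheG (P : PS (k + 1) s T) (i a b : Fin (k + 1)) : Fin (s + 1) → T :=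
  if b = a then pheY P i else P.xx i

private def pheA (P : PS (k + 1) s T) (τ : Fin (k + 1) → Fin (s + 1)) : T :=
  ∑ i, ∏ b, P.xx i (τ b)

private def pheB (P : PS (k + 1) s T) (a : Fin (k + 1)) (τ : Fin (k + 1) → Fin (s + 1)) : T :=
  ∑ i, ∏ b, pheG P i a b (τ b)

private theorem phe_Dx (P : PS (k + 1) s T) (G : P.GD) (i j : Fin s) (l : Fin (k + 1))
    (c : Fin (s + 1)) : G.D i j (P.xx l c) = if c = j.succ then P.xx l i.succ else 0 := by
  refine Fin.cases ?_ ?_ c
  · rw [if_neg (Fin.succ_ne_zero j).symm]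
    exact (G.D i j).map_one_eq_zero
  · intro w
    show G.D i j (P.x l w) = if w.succ = j.succ then P.x l i else 0
    rw [G.Dx]
    simp only [Fin.succ_inj]

private theorem phe_Dy (P : PS (k + 1) s T) (G : P.GD) (i j : Fin s) (l : Fin (k + 1))
    (c : Fin (s + 1)) : G.D i j (pheY P l c) = if c = j.succ then pheY P l i.succ else 0 := by
  refine Fin.cases ?_ ?_ c
  · rw [if_neg (Fin.succ_ne_zero j).symm]
    exact map_zero _
  · intro w
    show G.D i j (P.y l w) = if w.succ = j.succ then P.y l i else 0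
    rw [G.Dy]
    simp only [Fin.succ_inj]

private theorem phe_prod (D : Derivation ℂ T T) (i j : Fin s) (g : Fin (k + 1) → Fin (s + 1) → T)
    (hg : ∀ b c, D (g b c) = if c = j.succ then g b i.succ else 0)
    (τ : Fin (k + 1) → Fin (s + 1)) (S : Finset (Fin (k + 1))) :
    D (∏ b ∈ S, g b (τ b))
      = ∑ a ∈ S, if τ a = j.succ then ∏ b ∈ S, g b (Function.update τ a i.succ b) else 0 := by
  induction S using Finset.induction_on with
  | empty =>
    rw [Finset.prod_empty, Finset.sum_empty]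
    exact D.map_one_eq_zero
  | insert c S hc ih =>
    rw [Finset.prod_insert hc, Derivation.leibniz, ih, hg, Finset.sum_insert hc, smul_eq_mul,
      smul_eq_mul, add_comm, Finset.mul_sum]
    congr 1
    · by_cases h : τ c = j.succ
      · rw [if_pos h, if_pos h, Finset.prod_insert hc, Function.update_self, mul_comm]
        congr 1
        refine Finset.prod_congr rfl fun b hb => ?_
        rw [Function.update_of_ne (fun h' : b = c => hc (h' ▸ hb))]
      · rw [if_neg h, if_neg h, mul_zero]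
    · refine Finset.sum_congr rfl fun a ha => ?_
      by_cases h : τ a = j.succ
      · rw [if_pos h, if_pos h, Finset.prod_insert hc,
          Function.update_of_ne (fun h' : c = a => hc (h'.symm ▸ ha))]
      · rw [if_neg h, if_neg h, mul_zero]

/-- equivariance of a function of tuples -/
private def pheN (D : Derivation ℂ T T) (i j : Fin s) (f : (Fin (k + 1) → Fin (s + 1)) → T) :
    Prop :=
  ∀ τ, D (f τ) = ∑ a, if τ a = j.succ then f (Function.update τ a i.succ) else 0

private theorem phe_sum {ι : Type} (D : Derivation ℂ T T) (i j : Fin s) (S : Finset ι)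
    (f : ι → (Fin (k + 1) → Fin (s + 1)) → T) (h : ∀ c, pheN D i j (f c)) :
    pheN D i j (fun τ => ∑ c ∈ S, f c τ) := by
  intro τ
  rw [map_sum, Finset.sum_congr rfl fun c _ => h c τ, Finset.sum_comm]
  refine Finset.sum_congr rfl fun a _ => ?_
  by_cases h : τ a = j.succ
  · simp only [if_pos h]
  · simp only [if_neg h, Finset.sum_const_zero]

private theorem phe_NA (P : PS (k + 1) s T) (G : P.GD) (i j : Fin s) :
    pheN (G.D i j) i j (pheA P) := by
  apply phe_sum
  intro l τ
  exact phe_prod (G.D i j) i j (fun _ => P.xx l) (fun _ c => phe_Dx P G i j l c) τ univ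

private theorem phe_NB (P : PS (k + 1) s T) (G : P.GD) (i j : Fin s) (a : Fin (k + 1)) :
    pheN (G.D i j) i j (pheB P a) := by
  apply phe_sum
  intro l τ
  refine phe_prod (G.D i j) i j (fun b => pheG P l a b) (fun b c => ?_) τ univ
  show G.D i j (pheG P l a b c) = if c = j.succ then pheG P l a b i.succ else 0
  unfold pheG
  by_cases h : b = a
  · rw [if_pos h]
    exact phe_Dy P G i j l c
  · rw [if_neg h]
    exact phe_Dx P G i j l c

private theorem phe_cons (τ : Fin (k + 1) → Fin (s + 1)) :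
    τ 0 ::ₘ (sy fun a => τ a.succ).1 = univ.val.map τ := by
  rw [sy_val, Fin.univ_succ, Finset.cons_val, Multiset.map_cons, Finset.map_val, Multiset.map_map]
  rfl

private theorem phe_Sm (P : PS (k + 1) s T) (τ : Fin (k + 1) → Fin (s + 1)) :
    P.Sm (univ.val.map τ) = ∑ a, pheB P a τ := by
  unfold PS.Sm
  rw [Multiset.map_map]
  show ∑ a, ∑ i, (((univ.val.map τ).erase (τ a)).map (P.xx i)).prod * pheY P i (τ a) = _
  refine Finset.sum_congr rfl fun a _ => Finset.sum_congr rfl fun i _ => ?_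
  have h1 : (univ : Finset (Fin (k + 1))).val = a ::ₘ (univ.erase a).val := by
    rw [Finset.erase_val]
    exact (Multiset.cons_erase (Finset.mem_univ_val a)).symm
  rw [h1, Multiset.map_cons, Multiset.erase_cons_head, Multiset.map_map]
  show (∏ b ∈ univ.erase a, P.xx i (τ b)) * pheY P i (τ a) = ∏ b, pheG P i a b (τ b)
  rw [← Finset.mul_prod_erase univ _ (Finset.mem_univ a), mul_comm]
  congr 1
  · unfold pheG
    rw [if_pos rfl]
  · refine Finset.prod_congr rfl fun b hb => ?_
    unfold pheG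
    rw [if_neg (Finset.ne_of_mem_erase hb)]

private noncomputable def pheV (P : PS (k + 1) s T) (τ : Fin (k + 1) → Fin (s + 1)) : T :=
  P.ph ((τ 0, sy fun a => τ a.succ) : Ib (s + 1) k)

private theorem phe_v1 (P : PS (k + 1) s T) (τ : Fin (k + 1) → Fin (s + 1)) (h : ∀ a, τ a = 0) :
    pheV P τ = 1 := by
  unfold pheV PS.ph
  rw [h 0]
  show (if ∀ c ∈ (sy fun a : Fin k => τ a.succ).1, c = 0 then (1 : T) else _) = 1
  rw [if_pos]
  intro c hc
  rw [sy_val, Multiset.mem_map] at hc
  obtain ⟨a, _, rfl⟩ := hc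
  exact h _

private theorem phe_v2 (P : PS (k + 1) s T) (τ : Fin (k + 1) → Fin (s + 1)) (h0 : τ 0 = 0)
    (h : ¬∀ a, τ a = 0) : pheV P τ = pheA P τ := by
  unfold pheV PS.ph
  rw [h0]
  show (if ∀ c ∈ (sy fun a : Fin k => τ a.succ).1, c = 0 then (1 : T) else
    ∑ i, ((sy fun a : Fin k => τ a.succ).1.map (P.xx i)).prod) = _
  rw [if_neg]
  · unfold pheA
    refine Finset.sum_congr rfl fun i _ => ?_
    rw [sy_val, Multiset.map_map, Fin.prod_univ_succ, h0]
    show ∏ a : Fin k, P.xx i (τ a.succ) = 1 * _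
    rw [one_mul]
  · intro h'
    apply h
    intro a
    refine Fin.cases h0 (fun b => ?_) a
    exact h' _ (by
      rw [sy_val, Multiset.mem_map]
      exact ⟨b, Finset.mem_univ_val b, rfl⟩)

private theorem phe_mark (P : PS (k + 1) s T) (τ : Fin (k + 1) → Fin (s + 1)) (w : Fin s)
    (h0 : τ 0 = w.succ) :
    ∑ i, ((sy fun a : Fin k => τ a.succ).1.map (P.xx i)).prod * P.y i w = pheB P 0 τ := by
  unfold pheB
  refine Finset.sum_congr rfl fun i _ => ?_
  rw [sy_val, Multiset.map_map, Fin.prod_univ_succ, h0, mul_comm]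
  unfold pheG
  rw [if_pos rfl]
  rfl

private theorem phe_v3 (P : PS (k + 1) s T) (τ : Fin (k + 1) → Fin (s + 1)) (h0 : τ 0 ≠ 0)
    (h : ∃ a, τ a = 0) : pheV P τ = pheB P 0 τ := by
  obtain ⟨w, hw⟩ := Fin.exists_succ_eq.2 h0
  rw [← phe_mark P τ w hw.symm]
  unfold pheV PS.ph
  rw [← hw]
  show (if (0 : Fin (s + 1)) ∈ (sy fun a : Fin k => τ a.succ).1 then
    ∑ i, ((sy fun a : Fin k => τ a.succ).1.map (P.xx i)).prod * P.y i w else _) = _
  rw [if_pos]
  obtain ⟨a, ha⟩ := h
  have ha0 : a ≠ 0 := by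
    rintro rfl
    exact h0 ha
  obtain ⟨b, rfl⟩ := Fin.exists_succ_eq.2 ha0
  rw [sy_val, Multiset.mem_map]
  exact ⟨b, Finset.mem_univ_val b, ha⟩

private theorem phe_v4 (P : PS (k + 1) s T) (τ : Fin (k + 1) → Fin (s + 1))
    (h : ¬∃ a, τ a = 0) :
    pheV P τ = pheB P 0 τ - (1 / ((k + 1 : ℕ) : ℂ)) • ∑ a, pheB P a τ + pheA P τ := by
  have h0 : τ 0 ≠ 0 := fun h' => h ⟨0, h'⟩
  obtain ⟨w, hw⟩ := Fin.exists_succ_eq.2 h0
  have hc := phe_cons τ
  rw [← hw] at hc
  rw [← phe_mark P τ w hw.symm, ← phe_Sm, ← hc]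
  unfold pheV PS.ph
  rw [← hw]
  show (if (0 : Fin (s + 1)) ∈ (sy fun a : Fin k => τ a.succ).1 then _ else
    ∑ i, ((sy fun a : Fin k => τ a.succ).1.map (P.xx i)).prod * P.y i w
      - (1 / ((k + 1 : ℕ) : ℂ)) • P.Sm (w.succ ::ₘ (sy fun a : Fin k => τ a.succ).1)
        + ∑ i, ((w.succ ::ₘ (sy fun a : Fin k => τ a.succ).1).map (P.xx i)).prod) = _
  rw [if_neg]
  · congr 1
    rw [hc]
    unfold pheA
    refine Finset.sum_congr rfl fun i _ => ?_
    rw [Multiset.map_map]
    rfl
  · intro h'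
    rw [sy_val, Multiset.mem_map] at h'
    obtain ⟨a, _, ha⟩ := h'
    exact h ⟨_, ha⟩

private theorem phe_zero (i j : Fin s) (τ : Fin (k + 1) → Fin (s + 1)) (a : Fin (k + 1))
    (ha : τ a = j.succ) (b : Fin (k + 1)) : Function.update τ a i.succ b = 0 ↔ τ b = 0 := by
  by_cases hb : b = a
  · subst hb
    rw [Function.update_self, ha]
    exact ⟨fun h => absurd h (Fin.succ_ne_zero i), fun h => absurd h (Fin.succ_ne_zero j)⟩
  · rw [Function.update_of_ne hb]

private theorem phe_NV (P : PS (k + 1) s T) (G : P.GD) (i j : Fin s) :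
    pheN (G.D i j) i j (pheV P) := by
  intro τ
  by_cases h0 : τ 0 = 0
  · by_cases h1 : ∀ a, τ a = 0
    · rw [phe_v1 P τ h1, Finset.sum_eq_zero]
      · exact (G.D i j).map_one_eq_zero
      · intro a _
        rw [if_neg]
        rw [h1 a]
        exact (Fin.succ_ne_zero j).symm
    · rw [phe_v2 P τ h0 h1, phe_NA P G i j τ]
      refine Finset.sum_congr rfl fun a _ => ?_
      by_cases ha : τ a = j.succ
      · rw [if_pos ha, if_pos ha, phe_v2 P]
        · exact (phe_zero i j τ a ha 0).2 h0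
        · intro h
          exact h1 fun b => (phe_zero i j τ a ha b).1 (h b)
      · rw [if_neg ha, if_neg ha]
  · by_cases h1 : ∃ a, τ a = 0
    · rw [phe_v3 P τ h0 h1, phe_NB P G i j 0 τ]
      refine Finset.sum_congr rfl fun a _ => ?_
      by_cases ha : τ a = j.succ
      · rw [if_pos ha, if_pos ha, phe_v3 P]
        · exact fun h => h0 ((phe_zero i j τ a ha 0).1 h)
        · obtain ⟨b, hb⟩ := h1
          exact ⟨b, (phe_zero i j τ a ha b).2 hb⟩
      · rw [if_neg ha, if_neg ha]
    · rw [phe_v4 P τ h1, map_add, map_sub, Derivation.map_smul,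
        phe_sum (G.D i j) i j univ (pheB P) (fun a => phe_NB P G i j a) τ,
        phe_NB P G i j 0 τ, phe_NA P G i j τ, Finset.smul_sum, ← Finset.sum_sub_distrib,
        ← Finset.sum_add_distrib]
      refine Finset.sum_congr rfl fun a _ => ?_
      by_cases ha : τ a = j.succ
      · rw [if_pos ha, if_pos ha, if_pos ha, if_pos ha, phe_v4 P]
        rintro ⟨b, hb⟩
        exact h1 ⟨b, (phe_zero i j τ a ha b).1 hb⟩
      · rw [if_neg ha, if_neg ha, if_neg ha, if_neg ha, smul_zero, sub_zero, add_zero]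

theorem kPhE : PhEStmt := by
  intro s k T _ _ P G i j F
  have hX : ∀ p, G.D i j (P.Ph k (X p)) = P.Ph k (DE i.succ j.succ (X p)) := by
    intro p
    obtain ⟨τ, hτ⟩ := Xt_surj p
    rw [← hτ, DE_Xt, map_sum]
    have e : ∀ σ : Fin (k + 1) → Fin (s + 1), P.Ph k (Xt σ) = pheV P σ := by
      intro σ
      unfold Xt PS.Ph
      rw [aeval_X]
      rfl
    rw [e, phe_NV P G i j τ]
    refine Finset.sum_congr rfl fun a _ => ?_
    by_cases ha : τ a = j.succ
    · rw [if_pos ha, if_pos ha, e]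
    · rw [if_neg ha, if_neg ha, map_zero]
  induction F using MvPolynomial.induction_on with
  | C a =>
    have h1 : P.Ph k (C a) = algebraMap ℂ T a := by
      unfold PS.Ph
      rw [aeval_C]
    have h2 : DE i.succ j.succ (C a : MvPolynomial (Ib (s + 1) k) ℂ) = 0 := by
      exact MvPolynomial.derivation_C _ _
    rw [h1, h2, map_zero, Derivation.map_algebraMap]
  | add p q hp hq => rw [map_add, map_add, map_add, map_add, hp, hq]
  | mul_X p a hp =>
    rw [map_mul, Derivation.leibniz, Derivation.leibniz, map_add, hp, hX, smul_eq_mul,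
      smul_eq_mul, smul_eq_mul, smul_eq_mul, map_mul, map_mul]

end T2

end Pool.Agent.Lib.MP_a688ad_al
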