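import Pool.Agent.Lib.MP_a688ad_al.T2.Spec

/-!
# MP_a688ad_al, stable range, module Rel: relations of power sums
-/

set_option autoImplicit false

open MvPolynomial Finset

namespace Pool.Agent.Lib.MP_a688ad_al

namespace T2

theorem rel_smul {T : Type} [CommRing T] [Algebra ℂ T] (k l : ℕ) (z : T) :
    ((-1 : ℂ) ^ k * (l.factorial : ℂ)) • z = ((-1) ^ k * (l.factorial : T)) * z := by
  rw [Algebra.smul_def, map_mul, map_pow, map_neg, map_one, map_natCast]

theorem rel_mon {m s : ℕ} {T : Type} [CommRing T] [Algebra ℂ T] (P : PS m s T) (S : Finset ℕ)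
    (u : ℕ → Fin s) (i : Fin m) : P.mon (xs S u) i = ∏ ω ∈ S, P.x i (u ω) := by
  unfold PS.mon xs
  rw [Multiset.map_map]
  rfl

theorem rel_mon_union {m s : ℕ} {T : Type} [CommRing T] [Algebra ℂ T] (P : PS m s T)
    {S B : Finset ℕ} (h : Disjoint S B) (u : ℕ → Fin s) (i : Fin m) :
    P.mon (xs (S ∪ B) u) i = P.mon (xs S u) i * ∏ ω ∈ B, P.x i (u ω) := by
  rw [rel_mon, rel_mon, Finset.prod_union h]

theorem rel_gen {m s : ℕ} {T : Type} [CommRing T] [Algebra ℂ T] (h : CHStmt) (P : PS m s T)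
    (B I : Finset ℕ) (u : ℕ → Fin s) (c : Fin m → T) (hI : I.card = m) :
    ∑ R ∈ I.powerset, ((-1 : ℂ) ^ R.card * (R.card.factorial : ℂ)) • (P.e (I \ R) u *
      ∑ i, P.mon (xs ((B \ I) ∪ R) u) i * c i) = 0 := by
  have h1 : ∀ R ∈ I.powerset, ((-1 : ℂ) ^ R.card * (R.card.factorial : ℂ)) • (P.e (I \ R) u *
      ∑ i, P.mon (xs ((B \ I) ∪ R) u) i * c i) = ∑ i, P.mon (xs (B \ I) u) i * c i *
        (((-1) ^ R.card * (R.card.factorial : T)) * (∏ j ∈ R, P.x i (u j)) *
          Ef (fun ω i => P.x i (u ω)) (I \ R)) := by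
    intro R hR
    rw [rel_smul, Finset.mul_sum, Finset.mul_sum]
    refine Finset.sum_congr rfl fun i _ => ?_
    rw [rel_mon_union P (Finset.disjoint_of_subset_right (Finset.mem_powerset.mp hR)
      Finset.sdiff_disjoint)]
    unfold PS.e
    ring
  rw [Finset.sum_congr rfl h1, Finset.sum_comm]
  refine Finset.sum_eq_zero fun i _ => ?_
  rw [← Finset.mul_sum, h m T ℕ (fun ω i => P.x i (u ω)) i I hI, mul_zero]

theorem kRelP (h : CHStmt) : RelPStmt := by
  intro m s T _ _ P B I u _ hI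
  have h1 := rel_gen h P B I u (fun _ => 1) hI
  simp only [mul_one] at h1
  exact h1

theorem kRelM (h : CHStmt) : RelMStmt := by
  intro m s T _ _ P B I u v _ hI
  exact rel_gen h P B I u (fun i => P.y i v) hI

theorem kRelE (h : E2Stmt) : RelEStmt := by
  intro m s T _ _ P S j0 u hj
  unfold PS.e
  rw [h m T ℕ (fun ω i => P.x i (u ω)) j0 S hj]
  refine Finset.sum_congr rfl fun R hR => ?_
  have hjR : j0 ∉ R := fun h' => hj (Finset.mem_powerset.mp hR h')
  rw [rel_smul, mul_assoc]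
  congr 2
  unfold PS.p
  refine Finset.sum_congr rfl fun i _ => ?_
  rw [rel_mon, Finset.prod_insert hjR]

end T2

end Pool.Agent.Lib.MP_a688ad_al
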