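import Pool.Agent.Lib.MP_a688ad_al.T2.Spec

/-!
# MP_a688ad_al, stable range: relation with two marks
-/

set_option autoImplicit false

open MvPolynomial Finset

namespace Pool.Agent.Lib.MP_a688ad_al

namespace T2

/-- the equivalence of `E` with its image in `Option` -/
private noncomputable def relkEq (E : Finset ℕ) :
    {x // x ∈ E} ≃ {x // x ∈ E.map Function.Embedding.some} :=
  Equiv.ofBijective (fun x => ⟨some x.1, Finset.mem_map.2 ⟨x.1, x.2, rfl⟩⟩) (by
    constructor
    · intro x y h
      have h1 := congrArg Subtype.val h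
      exact Subtype.ext (Option.some_injective _ h1)
    · rintro ⟨y, hy⟩
      obtain ⟨x, hx, rfl⟩ := Finset.mem_map.1 hy
      exact ⟨⟨x, hx⟩, rfl⟩)

private theorem relk_ef {m : ℕ} {T : Type} [CommRing T] (a : Option ℕ → Fin m → T)
    (E : Finset ℕ) : Ef a (E.map Function.Embedding.some) = Ef (fun ω i => a (some ω) i) E := by
  unfold Ef
  refine (Fintype.sum_equiv ((relkEq E).embeddingCongr (Equiv.refl (Fin m))) _ _ ?_).symm
  intro f
  refine Fintype.prod_equiv (relkEq E) _ _ ?_
  intro j
  have h : ((relkEq E).embeddingCongr (Equiv.refl (Fin m)) f) (relkEq E j) = f j := by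
    show f ((relkEq E).symm (relkEq E j)) = f j
    rw [Equiv.symm_apply_apply]
  rw [h]
  rfl

private theorem relk_pow {β : Type} [AddCommMonoid β] (E : Finset ℕ)
    (f : Finset (Option ℕ) → β) :
    ∑ R ∈ (E.map Function.Embedding.some).powerset, f R =
      ∑ R ∈ E.powerset, f (R.map Function.Embedding.some) := by
  symm
  refine Finset.sum_bij (fun R _ => R.map Function.Embedding.some) ?_ ?_ ?_ ?_
  · intro R hR
    rw [Finset.mem_powerset] at hR ⊢
    exact Finset.map_subset_map.2 hR
  · intro R _ R' _ h
    exact Finset.map_injective _ h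
  · intro R hR
    rw [Finset.mem_powerset] at hR
    obtain ⟨R', hR', rfl⟩ := Finset.subset_map_iff.1 hR
    exact ⟨R', Finset.mem_powerset.2 hR', rfl⟩
  · intro R _
    rfl

private theorem relk_sdiff (D R : Finset ℕ) :
    D.map Function.Embedding.some \ R.map Function.Embedding.some
      = (D \ R).map Function.Embedding.some := by
  ext x
  cases x with
  | none => simp
  | some x => simp

private theorem relk_none (D : Finset ℕ) :
    (none : Option ℕ) ∉ D.map Function.Embedding.some := by
  simp

private theorem relk_prod {m : ℕ} {T : Type} [CommRing T] (a : Option ℕ → Fin m → T) (i : Fin m)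
    (R : Finset ℕ) : ∏ j ∈ R.map Function.Embedding.some, a j i = ∏ j ∈ R, a (some j) i := by
  rw [Finset.prod_map]
  rfl

private theorem relk_mon {m s : ℕ} {T : Type} [CommRing T] [Algebra ℂ T] (P : PS m s T)
    (R : Finset ℕ) (u : ℕ → Fin s) (i : Fin m) :
    P.mon (xs R u) i = ∏ j ∈ R, P.x i (u j) := by
  unfold PS.mon xs
  rw [Multiset.map_map]
  rfl

private theorem relk_mon_add {m s : ℕ} {T : Type} [CommRing T] [Algebra ℂ T] (P : PS m s T)
    (M N : Multiset (Fin s)) (i : Fin m) :
    P.mon (M + N) i = P.mon M i * P.mon N i := by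
  unfold PS.mon
  rw [Multiset.map_add, Multiset.prod_add]

theorem kRelK (h1 : E2Stmt) (h2 : CHStmt) : RelKStmt := by
  intro m s T _ _ P D N u v w hDN hcard
  -- the letters
  let a : Option ℕ → Fin m → T := fun o i => o.elim (P.y i w) (fun ω => P.x i (u ω))
  have ha0 : ∀ i, a none i = P.y i w := fun _ => rfl
  have ha1 : ∀ ω i, a (some ω) i = P.x i (u ω) := fun _ _ => rfl
  let S : Finset (Option ℕ) := insert none (D.map Function.Embedding.some)
  have hS : S.card = m := by
    show (insert none (D.map Function.Embedding.some)).card = m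
    rw [Finset.card_insert_of_notMem (relk_none D), Finset.card_map, hcard]
  -- the first expansion
  have e1 : ∀ i : Fin m, P.mon (xs N u) i * P.y i v * ∑ R ∈ D.powerset,
      ((-1) ^ R.card * (R.card.factorial : T)) * (∏ j ∈ R, P.x i (u j)) *
        Ef a (insert none ((D \ R).map Function.Embedding.some)) = 0 := by
    intro i
    have h := h2 m T (Option ℕ) a i S hS
    have h' : ∑ R ∈ S.powerset, ((-1) ^ R.card * (R.card.factorial : T)) * (∏ j ∈ R, a j i) *
        Ef a (S \ R) = ∑ R ∈ D.powerset, ((-1) ^ R.card * (R.card.factorial : T)) *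
          (∏ j ∈ R, P.x i (u j)) * Ef a (insert none ((D \ R).map Function.Embedding.some)) +
        P.y i w * ∑ R ∈ D.powerset, ((-1) ^ (R.card + 1) * ((R.card + 1).factorial : T)) *
          (∏ j ∈ R, P.x i (u j)) * Ef a (S \ insert none (R.map Function.Embedding.some)) := by
      show ∑ R ∈ (insert none (D.map Function.Embedding.some)).powerset, _ = _
      rw [Finset.sum_powerset_insert (relk_none D), relk_pow, relk_pow, Finset.mul_sum]
      congr 1
      · refine Finset.sum_congr rfl fun R _ => ?_
        rw [Finset.card_map, relk_prod]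
        have h3 : S \ R.map Function.Embedding.some =
            insert none ((D \ R).map Function.Embedding.some) := by
          show insert none (D.map Function.Embedding.some) \ R.map Function.Embedding.some = _
          rw [Finset.insert_sdiff_of_notMem _ (relk_none R), relk_sdiff]
        rw [h3]
        simp only [ha1]
      · refine Finset.sum_congr rfl fun R _ => ?_
        rw [Finset.card_insert_of_notMem (relk_none R), Finset.card_map,
          Finset.prod_insert (relk_none R), relk_prod, ha0]
        simp only [ha1]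
        ring
    rw [h'] at h
    have h4 : P.mon (xs N u) i * P.y i v * (∑ R ∈ D.powerset,
        ((-1) ^ R.card * (R.card.factorial : T)) * (∏ j ∈ R, P.x i (u j)) *
          Ef a (insert none ((D \ R).map Function.Embedding.some)) +
        P.y i w * ∑ R ∈ D.powerset, ((-1) ^ (R.card + 1) * ((R.card + 1).factorial : T)) *
          (∏ j ∈ R, P.x i (u j)) * Ef a (S \ insert none (R.map Function.Embedding.some))) = 0 := by
      rw [h, mul_zero]
    rw [mul_add, ← mul_assoc (P.mon (xs N u) i * P.y i v) (P.y i w),
      mul_assoc (P.mon (xs N u) i) (P.y i v) (P.y i w), P.yy, mul_zero, zero_mul, add_zero] at h4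
    exact h4
  -- sum over the particles
  have e2 : ∑ R ∈ D.powerset, ((-1) ^ R.card * (R.card.factorial : T)) *
      (P.pe (xs (N ∪ R) u) v * Ef a (insert none ((D \ R).map Function.Embedding.some))) = 0 := by
    have h : ∑ i : Fin m, P.mon (xs N u) i * P.y i v * ∑ R ∈ D.powerset,
      ((-1) ^ R.card * (R.card.factorial : T)) * (∏ j ∈ R, P.x i (u j)) *
        Ef a (insert none ((D \ R).map Function.Embedding.some)) = 0 :=
      Finset.sum_eq_zero fun i _ => e1 i
    rw [← h]
    simp only [Finset.mul_sum]
    rw [Finset.sum_comm]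
    refine Finset.sum_congr rfl fun R hR => ?_
    have hNR : Disjoint N R := (hDN.mono_left (Finset.mem_powerset.1 hR)).symm
    unfold PS.pe
    rw [Finset.sum_mul, Finset.mul_sum]
    refine Finset.sum_congr rfl fun i _ => ?_
    rw [xs_union hNR, relk_mon_add, relk_mon P R]
    ring
  -- the second expansion
  have e3 : ∀ R ∈ D.powerset, Ef a (insert none ((D \ R).map Function.Embedding.some)) =
      ∑ Q ∈ (D \ R).powerset, ((-1) ^ Q.card * (Q.card.factorial : T)) * P.pe (xs Q u) w *
        P.e ((D \ R) \ Q) u := by
    intro R _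
    rw [h1 m T (Option ℕ) a none _ (relk_none _), relk_pow]
    refine Finset.sum_congr rfl fun Q _ => ?_
    rw [Finset.card_map, relk_sdiff, relk_ef]
    have h3 : ∑ i, a none i * ∏ j ∈ Q.map Function.Embedding.some, a j i = P.pe (xs Q u) w := by
      unfold PS.pe
      refine Finset.sum_congr rfl fun i _ => ?_
      rw [relk_prod, relk_mon, ha0]
      simp only [ha1]
      ring
    rw [h3]
    rfl
  rw [← e2]
  refine Finset.sum_congr rfl fun R hR => ?_
  rw [e3 R hR, Finset.mul_sum, Finset.mul_sum]
  refine Finset.sum_congr rfl fun Q _ => ?_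
  rw [Algebra.smul_def]
  simp only [map_mul, map_pow, map_neg, map_one, map_natCast]
  ring

end T2

end Pool.Agent.Lib.MP_a688ad_al
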