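import Pool.Agent.Lib.MP_a688ad_al.T2.Defs

/-!
# MP_a688ad_al, stable range: statements of all parts, with their proofs on paper

THEOREM.  `n > m ≥ 3`, `λ` a partition of `nm` with at least three parts and `λ_1 ≥ n (m - 1)`.  Then
`[s_λ] h_m[h_1 h_{n-1}] ≤ [s_λ] h_n[h_1 h_{m-1}]`.

IDEA.  `V = ℂ^{s+1}` with basis `0, 1, ..., s`, `W = ℂ^s` (the letters `Fin s`; `w : Fin s` is the basis
vector `w.succ` of `V`).  `Gl (s+1) k n` is `Sym^n(V ⊗ Sym^k V)`.  A highest weight vector of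
`Sym^m(V ⊗ Sym^{n-1} V)` is mapped by the full polarization `Θ = Th` to a symmetric function of `m`
centred particles with marks; this is injective (TTStmt).  All such functions are sums of products of
power sums `P.p M` and marked power sums `P.pe M v` (Or1Stmt).  Let `A'` (`P.Am`) be generated by
`p M`, `2 ≤ |M| ≤ m`, `pe M v`, `|M| ≤ m - 2` and the antisymmetric parts of `pe M v`, `|M| = m - 1`.
Every product with at least two marks is in `A'` (K2Stmt, MuStmt).  Modulo `A'` a product with one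
mark depends only on its shape and on the multiset of its letters (SwStmt), so a highest weight vector
whose weight has two nonzero entries is in `A'` (EndStmt).  On the other side the algebra map
`Φ = P.Ph : Sym(V ⊗ Sym^{m-1} V) → T` maps invariants of the translations `x_v ↦ x_v + t x_0` onto `A'`
(LiftStmt), in degree `n` up to weight `|μ| ≤ n`, and the projection by the Casimir operator gives
highest weight vectors (CasStmt).  So the image of `Θ` is contained in the image under `Φ` of the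
highest weight vectors of `Sym^n(V ⊗ Sym^{m-1} V)`.
-/

set_option autoImplicit false

open MvPolynomial Finset

namespace Pool.Agent.Lib.MP_a688ad_al

namespace T2

/-! ## K: relations -/

/-- K1 (module `Key`, theorem `kE2`).  For a particle `i` let `Ei S` be the sum over the embeddings
`f : S ↪ Fin m` with `f j ≠ i` for all `j`.
(1) `Ef a S = Ei S + ∑_{j ∈ S} a j i * Ei (S - j)`: an embedding avoids `i` or has exactly one `j` with
`f j = i`; remove `j`.
(2) `Ei S = ∑_{R ⊆ S} (-1)^|R| |R|! (∏_{j ∈ R} a j i) Ef a (S - R)`, by strong induction on `|S|`: by (1)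
`Ei S = Ef a S - ∑_j a j i ∑_{R ⊆ S - j} (-1)^|R| |R|! a_R Ef (S - j - R)`; a nonempty set `R' = R + j`
occurs `|R'|` times, with the total coefficient `(-1)^|R'| |R'|!`.
(3) `Ef a (insert j0 S) = ∑_i a j0 i * Ei S`: `i = f j0`. -/
def E2Stmt : Prop := ∀ (m : ℕ) (T L : Type) [CommRing T] [DecidableEq L] (a : L → Fin m → T) (j0 : L)
  (S : Finset L), j0 ∉ S → Ef a (insert j0 S) = ∑ R ∈ S.powerset,
    ((-1) ^ R.card * (R.card.factorial : T)) * (∑ i, a j0 i * ∏ j ∈ R, a j i) * Ef a (S \ R)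

/-- K2 (module `Key`, theorem `kCH`).  (2) of E2Stmt; if `|S| = m` there is no embedding of `S` in
`Fin m` which avoids `i`, `Ei S = 0`. -/
def CHStmt : Prop := ∀ (m : ℕ) (T L : Type) [CommRing T] [DecidableEq L] (a : L → Fin m → T)
  (i : Fin m) (S : Finset L), S.card = m → ∑ R ∈ S.powerset,
    ((-1) ^ R.card * (R.card.factorial : T)) * (∏ j ∈ R, a j i) * Ef a (S \ R) = 0

/-- K3 (module `Rel`, `kRelP`).  CHStmt with `a ω i = P.x i (u ω)`, `S = I`; multiply by
`P.mon (xs (B \ I) u) i` and sum over `i`. -/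
def RelPStmt : Prop := ∀ (m s : ℕ) (T : Type) [CommRing T] [Algebra ℂ T] (P : PS m s T)
  (B I : Finset ℕ) (u : ℕ → Fin s), I ⊆ B → I.card = m → ∑ R ∈ I.powerset,
    ((-1 : ℂ) ^ R.card * (R.card.factorial : ℂ)) • (P.e (I \ R) u * P.p (xs ((B \ I) ∪ R) u)) = 0

/-- K4 (module `Rel`, `kRelM`).  The same with `P.mon (xs (B \ I) u) i * P.y i v`. -/
def RelMStmt : Prop := ∀ (m s : ℕ) (T : Type) [CommRing T] [Algebra ℂ T] (P : PS m s T)
  (B I : Finset ℕ) (u : ℕ → Fin s) (v : Fin s), I ⊆ B → I.card = m → ∑ R ∈ I.powerset,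
    ((-1 : ℂ) ^ R.card * (R.card.factorial : ℂ)) • (P.e (I \ R) u * P.pe (xs ((B \ I) ∪ R) u) v) = 0

/-- K5 (module `Rel`, `kRelE`).  E2Stmt with `a ω i = P.x i (u ω)`. -/
def RelEStmt : Prop := ∀ (m s : ℕ) (T : Type) [CommRing T] [Algebra ℂ T] (P : PS m s T)
  (S : Finset ℕ) (j0 : ℕ) (u : ℕ → Fin s), j0 ∉ S → P.e (insert j0 S) u = ∑ R ∈ S.powerset,
    ((-1 : ℂ) ^ R.card * (R.card.factorial : ℂ)) • (P.p (xs (insert j0 R) u) * P.e (S \ R) u)

/-- K6 (module `Rel`, `kRelK`).  Letters `L = Option ℕ`, `a none i = P.y i w`,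
`a (some ω) i = P.x i (u ω)`.  CHStmt for `S = insert none (D.map some)` (`m` letters), multiplied by
`P.mon (xs N u) i * P.y i v`, summed over `i`.  The terms with `none ∈ R` contain `y i v * y i w = 0`.
For `R = R'.map some` the factor `Ef a (insert none ((D \ R').map some))` is expanded by E2Stmt with
`j0 = none`: it is `∑_{T ⊆ D \ R'} (-1)^|T| |T|! pe (xs T u) w * e (D \ R' \ T) u`. -/
def RelKStmt : Prop := ∀ (m s : ℕ) (T : Type) [CommRing T] [Algebra ℂ T] (P : PS m s T)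
  (D N : Finset ℕ) (u : ℕ → Fin s) (v w : Fin s), Disjoint D N → D.card + 1 = m →
  ∑ R ∈ D.powerset, ∑ Q ∈ (D \ R).powerset,
    ((-1 : ℂ) ^ (R.card + Q.card) * (R.card.factorial : ℂ) * (Q.card.factorial : ℂ)) •
      (P.e ((D \ R) \ Q) u * (P.pe (xs (N ∪ R) u) v * P.pe (xs Q u) w)) = 0

/-! ## C: combinatorics -/

/-- C1 (module `Kn`, `kKn`): a Kneser graph lemma.  Compose with a real linear functional of `V`
(they separate points), so `F` is real.  Sum the hypothesis over `b ∈ W \ C` (`m` elements; a set `C'`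
is counted `k` times) and divide by `k` (`m * choose (m-1) (k-1) = k * choose m k`):
`choose m k * F C + ∑_{C' ⊆ W \ C, |C'| = k} F C' = 0`.  Multiply by `F C` and sum over `C`: each `C` has
`choose m k` disjoint `C'`, so `(1/2) ∑_{(C, C') disjoint} (F C + F C')² = 0` and `F C' = - F C` for all
disjoint `C`, `C'` (of size `k`, in `W`).  If `C'' = (C - a) + b` then `|C ∪ C''| = k + 1` and
`|W| - (k + 1) = m - 1 ≥ k`: there is `C'` disjoint from both, so `F C'' = F C`.  Any two `k`-subsets are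
connected by such exchanges, so `F` is constant on `k`-subsets; since `|W| ≥ 2 k` there are two disjoint
ones and the constant is `0`. -/
def KnStmt : Prop := ∀ (V : Type) [AddCommGroup V] [Module ℂ V] (m k : ℕ) (W : Finset ℕ)
  (F : Finset ℕ → V), 1 ≤ k → k < m → W.card = m + k →
  (∀ C ⊆ W, C.card = k → ∀ b ∈ W \ C, (((m - 1).choose (k - 1) : ℕ) : ℂ) • F C
    + ∑ C' ∈ ((W \ C).powersetCard k).filter (fun C' => b ∈ C'), F C' = 0) →
  ∀ C ⊆ W, C.card = k → F C = 0

/-- C2 (module `In`, `kIn`): injectivity of the inclusion matrix.  Compose with a real linear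
functional, so `f` is real; subtract a constant from `f` such that the sums are `0` (each `I` has
`choose m k > 0` subsets), so suppose `∑_{S ⊆ I, |S| = k} f S = 0` for all `I`.  Then
`0 = ∑_I (∑_{S ⊆ I} f S)² = ∑_{S, S'} f S f S' * #{I | S ∪ S' ⊆ I ⊆ W, |I| = m}`, and with
`t = |S ∩ S'|`, `|S ∪ S'| = 2 k - t`, the number is
`choose (m + k - (2k - t)) (m - (2k - t)) = choose (m - k + t) k = ∑_j choose t j * choose (m - k) (k - j)`
(Vandermonde; the number is `0` on both sides if `m < 2k - t`).  Since `choose t j` is the number of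
`J ⊆ S ∩ S'`, `|J| = j`, we get `0 = ∑_j choose (m - k) (k - j) ∑_{|J| = j} (∑_{S ⊇ J} f S)²`, and the
term `j = k` is `∑_S (f S)²`.  So `f = 0`. -/
def InStmt : Prop := ∀ (V : Type) [AddCommGroup V] [Module ℂ V] (m k : ℕ) (W : Finset ℕ)
  (f : Finset ℕ → V), 1 ≤ k → k ≤ m → W.card = m + k →
  (∀ I ⊆ W, I.card = m → ∀ I' ⊆ W, I'.card = m →
    ∑ S ∈ I.powersetCard k, f S = ∑ S ∈ I'.powersetCard k, f S) →
  ∀ S ⊆ W, S.card = k → ∀ S' ⊆ W, S'.card = k → f S = f S'

/-! ## A: the algebra `A'` -/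

/-- A1 (module `AmP`, `kAmP`).  Uses RelPStmt, RelEStmt.  `p M = 0` for `|M| = 1` (`P.xsum`), `p M` is a
generator for `2 ≤ |M| ≤ m`.  Then `e S ∈ Am 0` for `|S| ≤ m` by strong induction on `|S|` (RelEStmt: the
power sums have `1 ≤ |R| + 1 ≤ m` letters), and `e S = 0` for `|S| > m` (`P.e_zero`).  For `|M| > m`:
strong induction on `|M|`; write `M = xs B u` (`exists_xs`), choose `I ⊆ B`, `|I| = m`; in RelPStmt the
term `R = I` is `(-1)^m m! • p (xs B u)` (`P.e_empty`), in the other terms `e (I \ R) ∈ Am 0` and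
`p (xs ((B \ I) ∪ R) u)` has fewer letters, at least one.  Weights: `wtM_xs`, `wtS_union`. -/
def AmPStmt : Prop := ∀ (m s : ℕ) (T : Type) [CommRing T] [Algebra ℂ T] (P : PS m s T), 3 ≤ m →
  (∀ M, M ≠ 0 → P.p M ∈ P.Am 0 (wtM M)) ∧ ∀ S u, P.e S u ∈ P.Am 0 (wtS S u)

/-- A2 (module `K2`, `kK2`): products of two marked power sums.
Uses RelMStmt, RelKStmt, AmPStmt, KnStmt.  Fix disjoint position sets and `u : ℕ → Fin s` giving the
letters, all congruences are modulo `Am 2` of the total weight.  For `c ∈ C` write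
`pe(C, c) = P.pe (xs (C.erase c) u) (u c)`, the marked power sum of size `|C|`.
Facts: (i) if `|C| < m` then `pe(C, c) ∈ Am 1` (`Am_pe`).  (ii) if `|C| = m` and `c, c' ∈ C` then
`pe(C, c) - pe(C, c') ∈ Am 1` (`Am_an`, `m ≥ 2`).  (iii) if `|C| > m`: RelMStmt with `I ⊆ C.erase c`,
`|I| = m`: the term `R = I` is `(-1)^m m! • pe(C, c)`, the others are `e (I \ R) * pe(C', c)` with
`c ∈ C' ⊊ C` and `e (I \ R) ∈ Am 0`.  So (strong induction on `|B|`) if `pe(C, c) * pe(B, b) ∈ Am 2` for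
all `B` with `|B| ≤ m` (disjoint from `C`), then for all `B`.
Claim `K(k)`, `1 ≤ k ≤ m`: for all disjoint `C`, `B`, `|C| = k`, `B` arbitrary, `c ∈ C`, `b ∈ B`:
`pe(C, c) * pe(B, b) ∈ Am 2`.  Induction on `k`.  By (iii) suppose `|B| ≤ m`; if `|B| < m` and `k < m` use
(i); if `|B| < m` and `k = m` use `K(|B|)` (commutativity).  So `|B| = m`.
RelKStmt with `D = B.erase b`, `N = C.erase c`, `v = u c`, `w = u b`.  The term `(R, Q)` contains
`pe(C ∪ R, c) * pe(Q ∪ {b}, b)`, of sizes `k + |R|`, `|Q| + 1`, `|R| + |Q| ≤ m - 1`.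
Case `k < m`.  Terms in `Am 2`: both sizes `< m`; or `k + |R| ≥ m` and `|Q| + 1 < k` (by `K(|Q| + 1)`).
The other terms: `R = ∅`, `Q = D`, with the coefficient `(-1)^(m-1) (m-1)!`; and `|Q| = k - 1`,
`|R| = m - k`, `R = D \ Q`, with the coefficient `(-1)^(m-1) (m-k)! (k-1)!`.  Divide:
`choose (m-1) (k-1) • pe(C, c) pe(B, b) + ∑_{Q ⊆ B.erase b, |Q| = k-1} pe(Q ∪ {b}, b) pe(W \ (Q ∪ {b}), c)
 ≡ 0`, where `W = B ∪ C`, `|W| = m + k`.   (*)
By (i), (ii) a product `pe(C, c) pe(B, b)` with `|C| = k`, `|B| = m` does not depend on `b` modulo `Am 2`.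
By (*) it does not depend on `c` either (the sum in (*) does not depend on `c`, again by (ii)).  So it is
a function `F C` of `C ⊆ W`, `|C| = k`, in `T ⧸ Am 2`, and (*) is the hypothesis of KnStmt
(`C' = Q ∪ {b}`).  So `F C = 0`.
Case `k = m`: the term `R = ∅`, `Q = D` is `± (m-1)! • pe(C, c) pe(B, b)`, all others have
`|Q| + 1 < m` and are in `Am 2` by `K(|Q| + 1)`.
Finally, arbitrary sizes: reduce the first factor by (iii) as well.  Every pair of multisets with marks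
is realized by disjoint position sets (`exists_xs` twice, e.g. in `range a` and `Ico a b`). -/
def K2Stmt : Prop := ∀ (m s : ℕ) (T : Type) [CommRing T] [Algebra ℂ T] (P : PS m s T), 3 ≤ m →
  ∀ M v M' v', P.pe M v * P.pe M' v' ∈ P.Am 2 (wtM M + sg v + (wtM M' + sg v'))

/-- A3 (module `Sw`, `kSw`): exchange of letters in a product with one mark.
Uses RelMStmt, RelEStmt, AmPStmt, InStmt.  Strong induction on `|B|`; `H` is `base` or `mul`.  All
congruences are modulo `Am 1` of the weight of the letters of the position set, which is not changed by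
the exchange.  For `c ∈ C` let `pe(C, c) = P.pe (xs (C.erase c) u) (u c)`.  Note
`e S (u ∘ τ) = e (τ S) u`, `pe(C, c)(u ∘ τ) = pe(τ C, τ c)(u)`, `τ = Equiv.swap a b`.
(α) `H = e S * H'`, `H' = e S2 * H2` on `S ∪ (S2 ∪ B2)`, `S, S2 ≠ ∅`.  If `a, b ∈ S2 ∪ B2`: `e S` is not
changed, `H'` is treated by induction and `e S ∈ Am 0`.  If `a, b ∈ S ∪ B2`: the same with
`H = e S2 * (e S * H2)`.  If `a ∈ S`, `b ∈ S2`: choose `d ∈ B2` (nonempty) and use
`swap a b = swap a d * swap b d * swap a d`.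
(β) `H = e S * pe(B', c)`, `S ≠ ∅`, `|B'| < m`: `H u ∈ Am 1`.  (γ) `H = e S * pe(B', c)`, `S ≠ ∅`,
`|B'| > m`: RelMStmt with `I ⊆ B'.erase c`, `|I| = m` writes `pe(B', c)` as a combination of the
`e (I \ R) * pe(B' \ (I \ R), c)`, `R ⊊ I`, so `H` is a combination of functions as in (α), on the same
positions.  (δ) `H = pe(B, c)` with `|B| < m`: `H u ∈ Am 1`; with `|B| = m`: `Am_an` (if `c ∉ {a, b}`
nothing changes).
There remain: `H = pe(B, c)` with `|B| = m + k`, and `H = e S * pe(B', c)` with `|B'| = m`, `|S| = k`,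
`B = S ∪ B'`, `k ≥ 1`.  Fix `u`.  For `I ⊆ B`, `|I| = m`, `c ∈ B \ I`, RelMStmt (with `S = I \ R`) is
`∑_{S ⊆ I} (-1)^(m-|S|) (m-|S|)! e S * pe(B \ S, c) = 0`.   (*)
`S = ∅`: `± m! P_c`, `P_c = pe(B, c)`.  `|S| > k`: in `Am 1`, since `|B \ S| < m`.  `1 ≤ |S| < k`: by
(γ) the class of `e S * pe(B \ S, c)` depends only on `|S|` (it is invariant under all exchanges in `B`, and
any pair `(S, c)`, `c ∉ S`, is mapped to any other pair with the same `|S|` by exchanges).  `|S| = k`: by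
`Am_an` the class `f S` of `e S * pe(B \ S, c)` does not depend on `c`.
`k = 1`: `e S = p (single letter) = 0` for `|S| = 1`, so (*) gives `P_c ≡ 0`, and `H = 0` in the second
case.
`k ≥ 2`: for `c, c'` take `I ⊆ B \ {c, c'}` and subtract: `P_c ≡ P_{c'}`.  So (*) says that
`∑_{S ⊆ I, |S| = k} f S` does not depend on `I`.  If `k ≤ m`, InStmt (with `V = T ⧸ Am 1 _`, `W = B`) gives
that `f` is constant on `k`-subsets of `B`; if `k > m` then `f S = 0` (`P.e_zero`).  Both cases follow: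
`H (u ∘ τ)` is `P_{τ c}`, resp. `f (τ S)`. -/
def SwStmt : Prop := ∀ (m s : ℕ) (T : Type) [CommRing T] [Algebra ℂ T] (P : PS m s T), 3 ≤ m →
  ∀ B H, P.HH B H → ∀ (u : ℕ → Fin s) (a b : ℕ), a ∈ B → b ∈ B →
    H (fun ω => u (Equiv.swap a b ω)) - H u ∈ P.Am 1 (wtS B u)

/-- A4 (module `Mu`, `kMu`).  Uses K2Stmt.  By linearity `z` satisfies `P.Mn (q + 1) ν z`; induction on
`Mn`: for `p` use the induction hypothesis, for `pe` and `an` write the product as
`(pe M v * g) * z'` with the marked generator `g` and `z' ∈ Am q`, and use K2Stmt for `pe M v * g`. -/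
def MuStmt : Prop := ∀ (m s : ℕ) (T : Type) [CommRing T] [Algebra ℂ T] (P : PS m s T), 3 ≤ m →
  ∀ q ν z M v, z ∈ P.Am (q + 1) ν → P.pe M v * z ∈ P.Am (q + 2) (wtM M + sg v + ν)

/-- A5 (module `PR`, `kPR`).  Uses RelEStmt.  `pe M v ∈ R1`: `HH.base` with `exists_xs`.  `p M * z`:
`p 0 = m`.  For `M ≠ 0` induction on `|M|`, for all `z`: choose `z = H u`, `HH B H`, and `M = xs (insert j0 S) u`
at positions outside `B` (change `u` outside `B`: `HH_congr`, `exists_xs`).  RelEStmt: the term `R = S` is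
`(-1)^|S| |S|! • p M * e ∅`, so `p M * z` is a combination of `e (insert j0 S) u * z` (`HH.mul`) and of
`p (xs (insert j0 R) u) * (e (S \ R) u * z)`, `R ⊊ S`, where `e (S \ R) u * z ∈ R1` (`HH.mul`), by
induction. -/
def PRStmt : Prop := ∀ (m s : ℕ) (T : Type) [CommRing T] [Algebra ℂ T] (P : PS m s T),
  (∀ M v, P.pe M v ∈ P.R1 (wtM M + sg v)) ∧
    ∀ M ν z, z ∈ P.R1 ν → P.p M * z ∈ P.R1 (wtM M + ν)

/-- A6 (module `Or1`, `kOr1`).  Uses E2Stmt.  `orb a = Ef (fun t i => P.am (a t) i) univ` (embeddings of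
`univ : Finset (Fin m)` in `Fin m` are the permutations).  Show by strong induction on `|S|` that
`Ef (fun t i => P.am (a t) i) S ∈ ⨆ q, Pr q (∑_{t ∈ S} wtA (a t))`: `Ef a ∅ = 1`; for `insert j0 S` use
E2Stmt: `∑_i am (a j0) i * ∏_{j ∈ R} am (a j) i` is `0` if two of the letters `j0, R` are marked
(`P.yy`), `pe (sum of the multisets) v` if exactly one is marked (by `v`), `p (sum)` if none is marked;
`Pr_mul` (extended to the supremum). -/
def Or1Stmt : Prop := ∀ (m s : ℕ) (T : Type) [CommRing T] [Algebra ℂ T] (P : PS m s T) (ν : Fin s → ℤ),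
  P.Orb ν ≤ ⨆ q, P.Pr q ν

/-- A7 (module `Or2`, `kOr2`).  Uses AmPStmt, K2Stmt, MuStmt, PRStmt.  Induction on `Pm`.
`q = 0`: only power sums (`p 0 = m`), AmPStmt, `Am_mul`.  `q = 1`: PRStmt and the case `q = 0` applied to
`z` if the first factor is `pe M v`: there `z` is a product of power sums, and
`pe M v * z = z * pe M v ∈ R1` (prove first: `z ∈ Pr 0 ν`, `z' ∈ R1 ν'` give `z * z' ∈ R1 (ν + ν')`).
`q ≥ 2`: if the first factor is `p M`: AmPStmt (or `p 0 = m`) and `Am_mul`.  If it is `pe M v` and the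
rest `z` has `q - 1 ≥ 2` marks: `z ∈ Am (q - 1)`, MuStmt.  If the rest `z` has exactly one mark:
`z` is a product of power sums and one `pe M' v'`; K2Stmt.  (So prove for `Pm 1 ν z`:
`pe M v * z ∈ Am 2 (wtM M + sg v + ν)`, by induction on `Pm`.) -/
def Or2Stmt : Prop := ∀ (m s : ℕ) (T : Type) [CommRing T] [Algebra ℂ T] (P : PS m s T), 3 ≤ m →
  ∀ ν : Fin s → ℤ, P.Pr 0 ν ≤ P.Am 0 ν ∧ P.Pr 1 ν ≤ P.R1 ν ∧ ∀ q, P.Pr (q + 2) ν ≤ P.Am (q + 2) ν

/-- A8 (module `DAm`, `kDAm`).  `D i j (mon M k) = count j M • mon (i ::ₘ M.erase j) k`, so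
`D i j (p M) = count j M • p (i ::ₘ M.erase j)` and
`D i j (pe M v) = count j M • pe (i ::ₘ M.erase j) v + (if v = j then pe M i else 0)`; the sizes do not
change.  `D i j (pe (u ::ₘ M) v - pe (v ::ₘ M) u)` is the sum of `count j M •` the same expression with
`i ::ₘ M.erase j`, of `(if u = j)` the expression with `(i, v)` and of `(if v = j)` the expression with
`(u, i)`.  Leibniz rule along `Mn`. -/
def DAmStmt : Prop := ∀ (m s : ℕ) (T : Type) [CommRing T] [Algebra ℂ T] (P : PS m s T) (G : P.GD)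
  (q : ℕ) (ν : Fin s → ℤ) (i j : Fin s) (z : T), z ∈ P.Am q ν → G.D i j z ∈ P.Am q (ν + sg i - sg j)

/-- A9 (module `DH`, `kDH`).  Induction on `HH`; `e S u` and `pe (xs B u) (u c)` are multilinear in the
letters: `D i j (e S u) = ∑_{ω ∈ S} if u ω = j then e S (update u ω i) else 0` (Leibniz rule for a
product over `S`), and the same for `pe (xs B u) (u c)` with `ω ∈ insert c B`.  A factor does not depend on
the letters outside its position set (`e_congr`, `HH_congr`). -/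
def DHStmt : Prop := ∀ (m s : ℕ) (T : Type) [CommRing T] [Algebra ℂ T] (P : PS m s T) (G : P.GD)
  (B : Finset ℕ) (H : (ℕ → Fin s) → T), P.HH B H → ∀ (u : ℕ → Fin s) (i j : Fin s),
    G.D i j (H u) = ∑ ω ∈ B, if u ω = j then H (Function.update u ω i) else 0

/-- A10 (module `End`, `kEnd`): highest weight vectors are in `A'`.
Uses Or1Stmt, Or2Stmt, SwStmt, DAmStmt, DHStmt.  By Or1Stmt, Or2Stmt `F = a + g`, `a ∈ AmAll ν`,
`g ∈ R1 ν`.  Let `D₀₁ = D i0 i1`, `D₁₀ = D i1 i0`.  For `HH B H`, `wtS B u = ν`: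
`D₁₀ D₀₁ (H u) - ν i1 (ν i0 + 1) • H u ∈ Am 1 ν`: by DHStmt twice
`D₁₀ D₀₁ (H u) = ∑_{ω : u ω = i1} ∑_{ω' : (update u ω i0) ω' = i0} H (update (update u ω i0) ω' i1)`;
`ω' = ω` gives `H u`, and `ω' ≠ ω`, `u ω' = i0` gives `H (u ∘ swap ω ω')` (the functions agree), which is
`≡ H u` by SwStmt; `#{ω ∈ B | u ω = i1} = ν i1`, `#{ω' ∈ B | u ω' = i0} = ν i0` (`wtS`, `sg`).  So
`ν i1 (ν i0 + 1) • g ≡ D₁₀ D₀₁ g = - D₁₀ D₀₁ a ∈ AmAll ν` (`D₀₁ F = 0`, DAmStmt twice).  If `g ≠ 0` some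
`H u` exists in `R1 ν`, so `ν i0 ≥ 0` and the factor is not `0`. -/
def EndStmt : Prop := ∀ (m s : ℕ) (T : Type) [CommRing T] [Algebra ℂ T] (P : PS m s T) (G : P.GD),
  3 ≤ m → ∀ (i0 i1 : Fin s) (ν : Fin s → ℤ) (F : T), i0 ≠ i1 → 1 ≤ ν i1 → F ∈ P.Orb ν →
    G.D i0 i1 F = 0 → F ∈ P.AmAll ν

/-! ## V: highest weight vectors -/

/-- V1 (module `Ch`, `kCh`).  Generalization of `Chr.lean` (`schurCoeff_HW` there is the case `k = 2`,
with `Sym2` instead of `Sym (Fin r) 2`); here the index sets of `pleth r a (k+1)` and of `Gl r k a` are the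
same, `Ib r k = Fin r × Sym (Fin r) k`.  `Chr.lean` must not be imported (it imports another `Act`);
its lemmas `prod_monomial`, `mw`, `mono_eq`, `pleth_eq`, `coeff_pleth`, `weight_toFinsupp` are to be copied
(in the namespace `T2`). -/
def ChStmt : Prop := ∀ (r k a : ℕ) (lam : Fin r → ℕ), Antitone lam → ∑ i, lam i = (k + 1) * a →
  schurCoeff (pleth r a (k + 1)) lam
    = (Module.finrank ℂ ((Gl r k a).HW (fun i => (lam i : ℤ))) : ℤ)

/-- V2 (module `Pol`, `kPol`): polarization.  `∏_t (∑_{i ∈ A} z (a t) i) = ∑_{f : Fin m → A} ∏_t z (a t) (f t)`;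
the coefficient of the function `f : Fin m → Fin m` is `∑_{A ⊇ range f} (-1)^(m - |A|)`, which is `1` if `f` is
surjective and `0` otherwise (`Finset.sum_powerset_neg_one_pow_card` or an involution).  Surjective functions
`Fin m → Fin m` are the permutations. -/
def PolStmt : Prop := ∀ (m : ℕ) (T I : Type) [CommRing T] [Algebra ℂ T] (z : I → Fin m → T)
  (a : Fin m → I), ∑ A : Finset (Fin m), ((-1 : ℂ) ^ (m - A.card)) • ∏ t, ∑ i ∈ A, z (a t) i
    = ∑ σ : Equiv.Perm (Fin m), ∏ t, z (a t) (σ t)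

/-- V3 (module `ThO`, `kThO`).  Uses PolStmt.  `F` is a combination of monomials `∏_{t : Fin m} X (a t)` with
`∑_t wt (a t) = ν`.  `Th (∏ X (a t)) = ∑_σ ∏_t ab x y (a t) (σ t)`.  Let `t' ` be the multiset of the nonzero
letters of `a.2` (as elements of `Fin s`): `ab (0, t) i = am (t', none) i` and
`ab (w.succ, t) i = am (w ::ₘ t', none) i + am (t', some w) i`.  Expand the product over `t`: a sum of orbit
sums of weight `fun w => ν w.succ`. -/
def ThOStmt : Prop := ∀ (m s l : ℕ) (T : Type) [CommRing T] [Algebra ℂ T] (P : PS m s T)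
  (ν : Fin (s + 1) → ℤ) (F : MvPolynomial (Ib (s + 1) l) ℂ), F ∈ (Gl (s + 1) l m).G ν →
    Th P.x P.y l F ∈ P.Orb (fun w => ν w.succ)

/-- V4 (module `ThE`, `kThE`).  `Th` is a combination of algebra maps `g_A`, and
`D i j (g_A F) = g_A (DE i.succ j.succ F)`: both sides are derivations along `g_A`, so compare on the
variables; by linearity compare `D i j (ab x y a k)` with the value on `DE i.succ j.succ (X a)`; use tuples:
`ab x y (τ 0, sy (τ ∘ succ)) k = (Fin.cons 1 (x k + y k)) (τ 0) * ∏_a (Fin.cons 1 (x k)) (τ a.succ)` and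
`DE_Xt`. -/
def ThEStmt : Prop := ∀ (m s l : ℕ) (T : Type) [CommRing T] [Algebra ℂ T] (P : PS m s T) (G : P.GD)
  (i j : Fin s) (F : MvPolynomial (Ib (s + 1) l) ℂ),
    G.D i j (Th P.x P.y l F) = Th P.x P.y l (DE i.succ j.succ F)

/-! ## B: injectivity of `Θ`; `BB m s` is the polynomial ring in `x i w` (`inl`) and `y i w` (`inr`) -/

/-- the polynomial ring of the coordinates and the marks -/
abbrev BB (m s : ℕ) := MvPolynomial (Fin m × Fin s ⊕ Fin m × Fin s) ℂ

/-- the coordinates -/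
noncomputable def bx {m s : ℕ} (i : Fin m) (w : Fin s) : BB m s := X (Sum.inl (i, w))

/-- the marks -/
noncomputable def by' {m s : ℕ} (i : Fin m) (w : Fin s) : BB m s := X (Sum.inr (i, w))

/-- the ideal of the products of two marks of the same particle -/
noncomputable def JI (m s : ℕ) : Ideal (BB m s) :=
  Ideal.span {z | ∃ (i : Fin m) (u v : Fin s), z = by' i u * by' i v}

/-- B1 (module `Inj`, `kInj`).  Uses PolStmt.  Compose with the algebra endomorphism
`by' i w ↦ by' i w - bx i w`, `bx ↦ bx`: then `ab` becomes a monomial `mo a i` (`a.1 = w.succ` gives the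
variable `by' i w`, the letters `w.succ` of `a.2` give `bx i w`, the letters `0` give `1`), and
`(a_i)_{i : Fin m} ↦ ∏_i mo (a_i) i` is injective on `Fin m → Ib (s+1) l` (the number `l` of letters is
fixed).  For `F = ∑_d c_d X^d` of degree `m`, the coefficient of `∏_i mo (b i) i` is `c_d * ∏_a (d a)!`,
where `d` is the multiset of the `b i` (PolStmt: number of permutations `σ` with `a ∘ σ⁻¹ = b`).  So all
`c_d = 0`. -/
def InjStmt : Prop := ∀ (m s l : ℕ) (ν : Fin (s + 1) → ℤ) (F : MvPolynomial (Ib (s + 1) l) ℂ),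
  F ∈ (Gl (s + 1) l m).G ν → Th (bx (m := m) (s := s)) by' l F = 0 → F = 0

/-- B2 (module `Sq`, `kSq`).  Uses PolStmt.  `F` is a combination of `∏_t X (a t)`, and
`Th (∏_t X (a t)) = ∑_σ ∏_i ab (a (σ⁻¹ i)) i`, where `ab a i` is a combination of monomials in the variables
of the particle `i` with at most one mark.  So every monomial in the support of `Th F` contains at most one
mark of each particle, and a monomial in the support of an element of `JI` is divisible by some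
`by' i u * by' i v` (`MvPolynomial.mem_ideal_span_monomial_image`).  So `Th F = 0`. -/
def SqStmt : Prop := ∀ (m s l : ℕ) (ν : Fin (s + 1) → ℤ) (F : MvPolynomial (Ib (s + 1) l) ℂ),
  F ∈ (Gl (s + 1) l m).G ν → Th (bx (m := m) (s := s)) by' l F ∈ JI m s →
    Th (bx (m := m) (s := s)) by' l F = 0

/-- B3 (module `Tra`, `kTra`).  As ThEStmt: `∑_i pderiv (inl (i, v))` is a derivation of `BB` which maps
`Fin.cons 1 (bx i) (w.succ)` to `if w = v then Fin.cons 1 (bx i) 0 else 0`, and the same for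
`Fin.cons 1 (bx i + by' i)`. -/
def TraStmt : Prop := ∀ (m s l : ℕ) (v : Fin s) (F : MvPolynomial (Ib (s + 1) l) ℂ),
  ∑ i, pderiv (Sum.inl (i, v)) (Th (bx (m := m) (s := s)) by' l F)
    = Th (bx (m := m) (s := s)) by' l (DE 0 v.succ F)

/-- the centering map -/
noncomputable def cen (m s : ℕ) : BB m s →ₐ[ℂ] BB m s :=
  aeval (Sum.elim (fun p => bx p.1 p.2 - C (1 / (m : ℂ)) * ∑ j, bx j p.2) (fun p => by' p.1 p.2))

/-- B4 (module `Inv`, `kInv`).  Let `κ : BB →ₐ Polynomial BB`, `bx i w ↦ C (bx i w) - X * C (b_w)`,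
`b_w = (1/m) ∑_j bx j w`, `by' ↦ C by'`.  Then `derivative (κ G) = - ∑_w C (b_w) * κ (∑_i pderiv (inl (i, w)) G)`
(both sides are derivations along `κ`, compare on variables, by `MvPolynomial.induction_on`).  So if all
`∑_i pderiv (inl (i, w)) G = 0` then `κ G` is constant (characteristic `0`, no zero divisors), its value at
`1` is `cen G`, at `0` it is `G`. -/
def InvStmt : Prop := ∀ (m s : ℕ) (G : BB m s), (∀ v : Fin s, ∑ i, pderiv (Sum.inl (i, v)) G = 0) →
  cen m s G = G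

/-- B5 (module `TT`, `kTT`): the particle system.  Uses InjStmt, SqStmt, TraStmt, InvStmt.
`T = BB m s ⧸ JI m s`, `x i w` = class of `cen (bx i w)`, `y i w` = class of `by' i w`;
`∑_i x i w = 0` since `m ≥ 1`.  `D i j` is induced by the derivation `D'` of `BB`,
`D' (bx k w) = if w = j then bx k i else 0`, the same for `by'`; `D' (JI) ⊆ JI` (check on the generators,
Leibniz rule), and `D'` commutes with `cen` on the `bx k w`.  If `Th x y l F = 0`: `Th x y l F` is the class of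
`cen (Th bx by' l F)` (`Th` commutes with algebra maps), by TraStmt and InvStmt this is the class of
`Th bx by' l F`, so `Th bx by' l F ∈ JI`, `= 0` by SqStmt, and `F = 0` by InjStmt. -/
def TTStmt : Prop := ∀ m s l : ℕ, 1 ≤ m → ∃ (T : Type) (_ : CommRing T) (_ : Algebra ℂ T)
  (P : PS m s T) (_ : P.GD), ∀ (ν : Fin (s + 1) → ℤ) (F : MvPolynomial (Ib (s + 1) l) ℂ),
    F ∈ (Gl (s + 1) l m).G ν → (∀ v : Fin s, DE 0 v.succ F = 0) → Th P.x P.y l F = 0 → F = 0

/-! ## F: the map `Φ` -/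

/-- F1 (module `PhE`, `kPhE`).  Both sides are derivations along `Ph`, compare on the variables
`Xt τ`, `τ = (v, t)`, with `DE_Xt` and `D i j (xx k (a)) = if a = j.succ then xx k i.succ else 0`.
`(0, t)`: if all letters of `t` are `0`, both sides are `0`; otherwise the letter `j.succ` is replaced by
`i.succ`, not all letters are `0`, and `ph = ∑_i ∏ xx`.  `(w.succ, t)` with `0 ∈ t`: the `0` remains.
`0 ∉ t`: all three terms of `ph` are natural: `D i j (Sm M) = ∑_{c ∈ M, c = j.succ} Sm (M with c replaced by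
i.succ)`; write `Sm` and the products as sums over positions. -/
def PhEStmt : Prop := ∀ (s k : ℕ) (T : Type) [CommRing T] [Algebra ℂ T] (P : PS (k + 1) s T)
  (G : P.GD) (i j : Fin s) (F : MvPolynomial (Ib (s + 1) k) ℂ),
    G.D i j (P.Ph k F) = P.Ph k (DE i.succ j.succ F)

/-- F2 (module `LG`, `kLG`): invariants of the translations.  Let `z v = Xt (v.succ at the position 1, 0
elsewhere)` (first letter `0`, `k ≥ 1`), `u₀ = Xt 0`, `supp = {a | τ a ≠ 0}`, `d = |supp|`, and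
`U' = ∑_{S ⊆ supp} (∏_{a ∈ S} - z (τ a)) u₀^(d - |S|) Xt (τ with the letters in S replaced by 0)`.
`DE 0 v.succ (u₀) = 0`, `DE 0 v.succ (z w) = if w = v then u₀ else 0`,
`DE 0 v.succ (Xt σ) = ∑_{a, σ a = v.succ} Xt (update σ a 0)`.  So `DE 0 v.succ U' = 0`: for `a ∈ supp`,
`τ a = v.succ`, `a ∉ S` the term of `S` in which `Xt` is differentiated at `a` cancels with the term of
`S + a` in which `z (τ a)` is differentiated.  The term `S = supp` contains `Xt 0 = u₀`, the others contain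
`u₀^(d - |S|)`, `d - |S| ≥ 1`: `U' = u₀ * U` for an explicit `U`; `DE 0 v.succ U = 0` since the polynomial ring is a domain.
`U'` is weighted homogeneous of weight `((k+1)(d+1) - d, wt τ)` and degree `d + 1`, so `U` of weight
`((k+1) d - d, wt τ)`, degree `d` (directly from the explicit form).  `Ph (u₀) = 1`, `Ph (z v) = ∑_i x i v = 0`
(`k ≥ 1`), so `Ph U = Ph U' = Ph (Xt τ)` (only `S = ∅` remains). -/
def LGStmt : Prop := ∀ (s k : ℕ) (T : Type) [CommRing T] [Algebra ℂ T] (P : PS (k + 1) s T)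
  (τ : Fin (k + 1) → Fin (s + 1)) (d : ℕ), 1 ≤ k → d = (univ.filter fun a => τ a ≠ 0).card → 1 ≤ d →
  ∃ U : MvPolynomial (Ib (s + 1) k) ℂ,
    IsWeightedHomogeneous WT U ((Fin.cons (((k : ℤ) + 1) * d - d)
      (fun w : Fin s => ∑ a, sg (τ a) w.succ) : Fin (s + 1) → ℤ), (d : ℤ)) ∧
    (∀ v : Fin s, DE 0 v.succ U = 0) ∧ P.Ph k U = P.Ph k (Xt τ)

/-- F3 (module `Li`, `kLi`).  Uses LGStmt.
(1) Every generator is a combination of `Ph (Xt τ)` with `W`-letters of the same weight: `p M`,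
`2 ≤ |M| ≤ k`: `τ = (0, M, 0, ..)`.  `pe M v`, `|M| + 2 ≤ k + 1`: `τ = (v, M, 0, ..)` (it contains a `0`).
`pe (u ::ₘ M) v - pe (v ::ₘ M) u`, `|M| + 2 = k + 1`: difference of `τ = (v, u, M)` and `τ = (u, v, M)`
(same `Sm`, same last sum).  `p M`, `|M| = k + 1`: the average over `c ∈ M` of `Ph (Xt (c, M - c))`, since
`∑_{c ∈ M} pe (M - c) c = Sm M`.
(2) By LGStmt each generator of weight `ν` is `Ph U` with `U` of weight `((k+1) d - d, ν)`, degree
`d = ∑ ν`, killed by all `DE 0 v.succ`; products: the same for every `z` with `P.Mn q ν z`.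
(3) Multiply by `u₀^(n - d)`, `u₀ = Xt 0`, of weight `(k+1, 0)`, degree `1`, `Ph u₀ = 1`,
`DE 0 v.succ u₀ = 0`.  (4) Linear combinations, and the supremum over `q`. -/
def LiStmt : Prop := ∀ (s k : ℕ) (T : Type) [CommRing T] [Algebra ℂ T] (P : PS (k + 1) s T) (n : ℕ)
  (ν : Fin s → ℤ) (F : T), 2 ≤ k → F ∈ P.AmAll ν → ∑ w, ν w ≤ n →
  ∃ X₀ ∈ (Gl (s + 1) k n).G (Fin.cons (((k : ℤ) + 1) * n - ∑ w, ν w) ν),
    (∀ v : Fin s, DE 0 v.succ X₀ = 0) ∧ P.Ph k X₀ = F

/-! ## C: the Casimir operator -/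

/-- the part of the eigenvalue which belongs to the index `0` -/
def c0 {s : ℕ} (ν : Fin (s + 1) → ℤ) : ℤ := ν 0 ^ 2 + ∑ v : Fin s, (ν 0 - ν v.succ)

/-- G1 (module `CW`, `kCW`).  `Cas X = ∑_{i,j} E i j (E j i X)`; the terms with `i, j ≥ 1` are kept,
`i = j = 0` gives `(ν 0)² X`, `(v, 0)` gives `E v 0 (E 0 v X) = 0`, `(0, v)` gives
`E 0 v (E v 0 X) = E v 0 (E 0 v X) + E 0 0 X - E v v X = (ν 0 - ν v) X`. -/
def CWStmt : Prop := ∀ (s : ℕ) (V : Type) [AddCommGroup V] [Module ℂ V] (S : GlFam (s + 1) V)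
  (ν : Fin (s + 1) → ℤ) (X₀ : V), X₀ ∈ S.G ν → (∀ v : Fin s, S.E 0 v.succ X₀ = 0) →
  S.Cas X₀ = (∑ i : Fin s, ∑ j : Fin s, S.E i.succ j.succ (S.E j.succ i.succ X₀)) + (c0 ν : ℂ) • X₀

/-- G2 (module `Cs`, `kCs`).  Uses CWStmt, PhEStmt.  Let `S = Gl (s+1) k n` and
`N = {X ∈ S.G ν | E 0 v.succ X = 0 for all v}`, a finite dimensional space, stable under `f = S.Cas`
(`Cas_mem`, `Cas_comm`).  With `g z = ∑_{i,j} D i j (D j i z) + c0 ν • z` we have
`Ph (f X) = g (Ph X)` on `N` (CWStmt, PhEStmt), and `g (Ph X₀) = cval ν • Ph X₀`.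
Linear algebra: `f : N → N`, `φ : N → T` linear, `φ ∘ f = g ∘ φ`, `(g - c) (φ X₀) = 0`; then there is
`X ∈ N` in the generalized eigenspace of `f` for `c` with `φ X = φ X₀`.  Proof: Fitting:
`N = N₀ ⊕ N₁` with `f - c` nilpotent on `N₀` (`(f - c)^K = 0`) and bijective on `N₁`; `X₀ = X + Z`.
`(g - c)^K (φ Z) = (g - c)^K (φ X₀) - φ ((f - c)^K X) = 0` (`K ≥ 1`).  `N₁ ∩ ker φ` is stable under
`h = (f - c)^K`, which is injective on it, so bijective on it; `φ (h Z) = 0`, so `h Z = h Z'` with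
`Z' ∈ N₁ ∩ ker φ`, so `Z = Z'`, `φ Z = 0`.
Then `X ∈ S.G ν ⊓ maxGenEigenspace S.Cas (cval ν)`, which is `S.HW ν` by `HW_eq`. -/
def CsStmt : Prop := ∀ (s k : ℕ) (T : Type) [CommRing T] [Algebra ℂ T] (P : PS (k + 1) s T)
  (G : P.GD) (n : ℕ) (ν : Fin (s + 1) → ℤ) (X₀ : MvPolynomial (Ib (s + 1) k) ℂ), Antitone ν →
  ∑ i, ν i = ((k + 1) * n : ℕ) → X₀ ∈ (Gl (s + 1) k n).G ν → (∀ v : Fin s, DE 0 v.succ X₀ = 0) →
  ∑ i, ∑ j, G.D i j (G.D j i (P.Ph k X₀)) = ((GlFam.cval ν - c0 ν : ℤ) : ℂ) • P.Ph k X₀ →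
  ∃ X ∈ (Gl (s + 1) k n).HW ν, P.Ph k X = P.Ph k X₀

/-- **T2** (module `Main`, `kT2`).  Uses ChStmt, TTStmt, ThOStmt, ThEStmt, EndStmt, LiStmt, CWStmt, CsStmt.
`r = s + 1`, `s ≥ 2` (three nonzero parts), `m = k + 1`, `n = l + 1`, `ν = lam` as integers,
`μ w = ν w.succ`, `d = ∑ μ = n m - lam 0 ≤ n`, `μ 1 ≥ 1` (the index `1 : Fin s`: the third part is not
zero).  By ChStmt both sides are dimensions of spaces of highest weight vectors: `R` = HW of `Gl (s+1) l m`,
`L` = HW of `Gl (s+1) k n`.  Take `T, P, G` from TTStmt.  For `X ∈ R` let `F = Th X`.  `F ∈ Orb μ` (ThOStmt),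
`D 0 1 F = Th (DE 1 2 X) = 0` (ThEStmt), so `F ∈ AmAll μ` (EndStmt), so `F = Ph X₀` with `X₀` as in LiStmt
(`Fin.cons (m n - d) μ = ν`).  By ThEStmt and CWStmt and `Cas_hw`
`∑ D i j (D j i F) = Th (∑ DE (DE X)) = (cval ν - c0 ν) • F`.  CsStmt gives `X' ∈ L`, `Ph X' = F`.  So
`Th R ⊆ Ph L`, `Th` is injective on `R` (TTStmt), so `dim R ≤ dim L` (`L` is finite dimensional). -/
def T2Stmt : Prop := ∀ m n : ℕ, 3 ≤ m → m < n → ∀ (s : ℕ) (lam : Fin (s + 1) → ℕ), Antitone lam →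
  ∑ i, lam i = n * m → 3 ≤ (univ.filter (fun i => lam i ≠ 0)).card → n * (m - 1) ≤ lam 0 →
  schurCoeff (pleth (s + 1) m n) lam ≤ schurCoeff (pleth (s + 1) n m) lam

end T2

end Pool.Agent.Lib.MP_a688ad_al
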