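import Pool.Agent.Lib.MP_a688ad_al.T2.Spec

/-!
# B2: the monomial ideal of the squares of marks
-/

set_option autoImplicit false

open MvPolynomial Finset

namespace Pool.Agent.Lib.MP_a688ad_al

namespace T2

/-- every monomial of `H` contains at most `c i` marks of the particle `i` -/
private def sqBd {m s : ℕ} (c : Fin m → ℕ) (H : BB m s) : Prop :=
  ∀ d ∈ H.support, ∀ i, ∑ w : Fin s, d (Sum.inr (i, w)) ≤ c i

private theorem sqBd_mono {m s : ℕ} {c c' : Fin m → ℕ} {H : BB m s} (h : sqBd c H)
    (hc : ∀ i, c i ≤ c' i) : sqBd c' H := fun d hd i => (h d hd i).trans (hc i)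

private theorem sqBd_zero {m s : ℕ} (c : Fin m → ℕ) : sqBd c (0 : BB m s) := by
  intro d hd
  rw [MvPolynomial.support_zero] at hd
  exact absurd hd (Finset.notMem_empty d)

private theorem sqBd_add {m s : ℕ} {c : Fin m → ℕ} {H H' : BB m s} (h : sqBd c H)
    (h' : sqBd c H') : sqBd c (H + H') := by
  intro d hd
  rcases Finset.mem_union.1 (MvPolynomial.support_add hd) with h1 | h1
  · exact h d h1
  · exact h' d h1

private theorem sqBd_sum {m s : ℕ} {c : Fin m → ℕ} {ι : Type} (S : Finset ι) (f : ι → BB m s)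
    (h : ∀ j ∈ S, sqBd c (f j)) : sqBd c (∑ j ∈ S, f j) := by
  classical
  induction S using Finset.induction_on with
  | empty =>
    rw [Finset.sum_empty]
    exact sqBd_zero c
  | insert a S ha ih =>
    rw [Finset.sum_insert ha]
    exact sqBd_add (h a (Finset.mem_insert_self a S))
      (ih fun j hj => h j (Finset.mem_insert_of_mem hj))

private theorem sqBd_smul {m s : ℕ} {c : Fin m → ℕ} {H : BB m s} (a : ℂ) (h : sqBd c H) :
    sqBd c (a • H) := fun d hd => h d (MvPolynomial.support_smul hd)

private theorem sqBd_mul {m s : ℕ} {c c' : Fin m → ℕ} {H H' : BB m s} (h : sqBd c H)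
    (h' : sqBd c' H') : sqBd (fun i => c i + c' i) (H * H') := by
  classical
  intro d hd i
  obtain ⟨a, ha, b, hb, rfl⟩ := Finset.mem_add.1 (MvPolynomial.support_mul H H' hd)
  have h1 : ∑ w : Fin s, (a + b) (Sum.inr (i, w))
      = ∑ w : Fin s, a (Sum.inr (i, w)) + ∑ w : Fin s, b (Sum.inr (i, w)) := by
    rw [← Finset.sum_add_distrib]
    rfl
  rw [h1]
  exact add_le_add (h a ha i) (h' b hb i)

private theorem sqBd_one {m s : ℕ} : sqBd (fun _ => 0) (1 : BB m s) := by
  intro d hd i
  rw [MvPolynomial.support_one, Finset.mem_singleton] at hd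
  subst hd
  simp

private theorem sqBd_bx {m s : ℕ} (k : Fin m) (v : Fin s) :
    sqBd (fun _ => 0) (bx k v : BB m s) := by
  intro d hd i
  unfold bx at hd
  rw [MvPolynomial.support_X, Finset.mem_singleton] at hd
  subst hd
  apply le_of_eq
  apply Finset.sum_eq_zero
  intro w _
  rw [Finsupp.single_apply, if_neg Sum.inl_ne_inr]

private theorem sqBd_by {m s : ℕ} (k : Fin m) (v : Fin s) :
    sqBd (fun i => if i = k then 1 else 0) (by' k v : BB m s) := by
  intro d hd i
  unfold by' at hd
  rw [MvPolynomial.support_X, Finset.mem_singleton] at hd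
  subst hd
  show ∑ w : Fin s, (Finsupp.single (Sum.inr (k, v)) 1 : (Fin m × Fin s ⊕ Fin m × Fin s) →₀ ℕ)
    (Sum.inr (i, w)) ≤ if i = k then 1 else 0
  by_cases h : i = k
  · rw [if_pos h]
    subst h
    rw [Finset.sum_eq_single v]
    · rw [Finsupp.single_eq_same]
    · intro w _ hw
      rw [Finsupp.single_apply, if_neg]
      intro h2
      exact hw (Prod.ext_iff.1 (Sum.inr_injective h2)).2.symm
    · intro h2
      exact absurd (Finset.mem_univ v) h2
  · rw [if_neg h]
    apply le_of_eq
    apply Finset.sum_eq_zero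
    intro w _
    rw [Finsupp.single_apply, if_neg]
    intro h2
    exact h (Prod.ext_iff.1 (Sum.inr_injective h2)).1.symm

private theorem sqBd_prod {m s : ℕ} {ι : Type} (S : Finset ι) (f : ι → BB m s)
    (c : ι → Fin m → ℕ) (h : ∀ j ∈ S, sqBd (c j) (f j)) :
    sqBd (fun i => ∑ j ∈ S, c j i) (∏ j ∈ S, f j) := by
  classical
  induction S using Finset.induction_on with
  | empty =>
    rw [Finset.prod_empty]
    exact sqBd_mono sqBd_one fun i => Nat.zero_le _
  | insert a S ha ih =>
    rw [Finset.prod_insert ha]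
    refine sqBd_mono (sqBd_mul (h a (Finset.mem_insert_self a S))
      (ih fun j hj => h j (Finset.mem_insert_of_mem hj))) fun i => ?_
    rw [Finset.sum_insert ha]

private theorem sqBd_ab {m s l : ℕ} (a : Ib (s + 1) l) (k : Fin m) :
    sqBd (fun i => if i = k then 1 else 0) (ab (bx (m := m) (s := s)) by' a k) := by
  unfold ab
  have h1 : sqBd (fun i => if i = k then 1 else 0)
      ((Fin.cons 1 (fun w => bx k w + by' k w) : Fin (s + 1) → BB m s) a.1) := by
    refine Fin.cases ?_ (fun w => ?_) a.1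
    · rw [Fin.cons_zero]
      exact sqBd_mono sqBd_one fun i => Nat.zero_le _
    · rw [Fin.cons_succ]
      exact sqBd_add (sqBd_mono (sqBd_bx k w) fun i => Nat.zero_le _) (sqBd_by k w)
  have h2 : ∀ M : Multiset (Fin (s + 1)), sqBd (fun _ => 0)
      (M.map (Fin.cons 1 (bx k) : Fin (s + 1) → BB m s)).prod := by
    intro M
    induction M using Multiset.induction_on with
    | empty =>
      rw [Multiset.map_zero, Multiset.prod_zero]
      exact sqBd_one
    | cons c M ih =>
      rw [Multiset.map_cons, Multiset.prod_cons]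
      have h3 : sqBd (fun _ => 0) ((Fin.cons 1 (bx k) : Fin (s + 1) → BB m s) c) := by
        refine Fin.cases ?_ (fun w => ?_) c
        · rw [Fin.cons_zero]
          exact sqBd_one
        · rw [Fin.cons_succ]
          exact sqBd_bx k w
      exact sqBd_mono (sqBd_mul h3 ih) fun i => le_rfl
  exact sqBd_mono (sqBd_mul h1 (h2 a.2.1)) fun i => le_of_eq (Nat.add_zero _)

/-- a monomial of degree `m` is a product of `m` variables -/
private theorem sq_mon {I : Type} (m : ℕ) : ∀ d : I →₀ ℕ, d.degree = m →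
    ∃ a : Fin m → I, (monomial d 1 : MvPolynomial I ℂ) = ∏ t, X (a t) := by
  classical
  induction m with
  | zero =>
    intro d hd
    have h1 : d = 0 := (Finsupp.degree_eq_zero_iff d).1 hd
    subst h1
    refine ⟨Fin.elim0, ?_⟩
    rw [Finset.univ_eq_empty, Finset.prod_empty]
    rfl
  | succ m ih =>
    intro d hd
    have h0 : d ≠ 0 := by
      rintro rfl
      rw [map_zero] at hd
      omega
    obtain ⟨p, hp⟩ := Finsupp.ne_iff.1 h0
    have hp' : d p ≠ 0 := hp
    have h1 : d - Finsupp.single p 1 + Finsupp.single p 1 = d :=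
      Finsupp.sub_add_single_one_cancel hp'
    have h2 : (d - Finsupp.single p 1).degree = m := by
      have h3 := congrArg Finsupp.degree h1
      rw [map_add, Finsupp.degree_single] at h3
      omega
    obtain ⟨a, ha⟩ := ih _ h2
    refine ⟨Fin.cons p a, ?_⟩
    rw [Fin.prod_univ_succ, Fin.cons_zero]
    simp only [Fin.cons_succ]
    rw [← ha, X, monomial_mul, one_mul, add_comm, h1]

private theorem sq_th {m s l : ℕ} (hP : PolStmt) (a : Fin m → Ib (s + 1) l) :
    Th (bx (m := m) (s := s)) by' l (∏ t, X (a t))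
      = ∑ σ : Equiv.Perm (Fin m), ∏ t, ab (bx (m := m) (s := s)) by' (a t) (σ t) := by
  rw [← hP m (BB m s) (Ib (s + 1) l) (ab (bx (m := m) (s := s)) by') a]
  unfold Th
  rw [LinearMap.sum_apply]
  refine Finset.sum_congr rfl fun A _ => ?_
  rw [LinearMap.smul_apply, AlgHom.toLinearMap_apply, map_prod]
  congr 1
  refine Finset.prod_congr rfl fun t _ => ?_
  rw [aeval_X]

theorem kSq (h : PolStmt) : SqStmt := by
  intro m s l ν F hF hJ
  -- every monomial has at most one mark of each particle
  have hgood : sqBd (fun _ => 1) (Th (bx (m := m) (s := s)) by' l F) := by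
    rw [← support_sum_monomial_coeff F, map_sum]
    apply sqBd_sum
    intro d hd
    have h1 : Finsupp.weight WT d = (ν, (m : ℤ)) := hF (mem_support_iff.1 hd)
    have h2 : d.degree = m := by
      have h3 := weight_snd d
      rw [h1] at h3
      have h4 : (m : ℤ) = d.degree := h3
      omega
    obtain ⟨a, ha⟩ := sq_mon m d h2
    have h3 : (monomial d (coeff d F) : MvPolynomial (Ib (s + 1) l) ℂ)
        = coeff d F • monomial d 1 := by
      rw [smul_monomial, smul_eq_mul, mul_one]
    rw [h3, map_smul, ha, sq_th h]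
    apply sqBd_smul
    apply sqBd_sum
    intro σ _
    refine sqBd_mono (sqBd_prod univ _ (fun t i => if i = σ t then 1 else 0)
      fun t _ => sqBd_ab (a t) (σ t)) fun i => ?_
    have h4 : ∀ t, (if i = σ t then 1 else 0 : ℕ) = if t = σ.symm i then 1 else 0 := by
      intro t
      by_cases h5 : i = σ t
      · rw [if_pos h5, if_pos (by rw [h5, Equiv.symm_apply_apply])]
      · rw [if_neg h5, if_neg]
        intro h6
        exact h5 (by rw [h6, Equiv.apply_symm_apply])
    rw [Finset.sum_congr rfl fun t _ => h4 t, Finset.sum_ite_eq' univ (σ.symm i),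
      if_pos (Finset.mem_univ _)]
  -- every monomial of an element of the ideal has two marks of a particle
  have hJ' : JI m s = Ideal.span ((fun d : (Fin m × Fin s ⊕ Fin m × Fin s) →₀ ℕ =>
      (monomial d 1 : BB m s)) '' {d | ∃ (i : Fin m) (u v : Fin s),
        d = Finsupp.single (Sum.inr (i, u)) 1 + Finsupp.single (Sum.inr (i, v)) 1}) := by
    unfold JI
    congr 1
    ext z
    constructor
    · rintro ⟨i, u, v, rfl⟩
      refine ⟨_, ⟨i, u, v, rfl⟩, ?_⟩
      unfold by'
      rw [X, X, monomial_mul, one_mul]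
    · rintro ⟨d, ⟨i, u, v, rfl⟩, rfl⟩
      refine ⟨i, u, v, ?_⟩
      unfold by'
      rw [X, X, monomial_mul, one_mul]
  rw [hJ', MvPolynomial.mem_ideal_span_monomial_image] at hJ
  by_contra h0
  obtain ⟨d, hd⟩ := MvPolynomial.ne_zero_iff.1 h0
  have hd' := mem_support_iff.2 hd
  obtain ⟨_, ⟨i, u, v, rfl⟩, hle⟩ := hJ d hd'
  have h1 : ∑ w : Fin s, d (Sum.inr (i, w)) ≤ 1 := hgood d hd' i
  have h2 : ∑ w : Fin s, (Finsupp.single (Sum.inr (i, u)) 1 + Finsupp.single (Sum.inr (i, v)) 1 :
      (Fin m × Fin s ⊕ Fin m × Fin s) →₀ ℕ) (Sum.inr (i, w)) = 2 := by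
    have h3 : ∀ u' : Fin s, ∑ w : Fin s, (Finsupp.single (Sum.inr (i, u')) 1 :
        (Fin m × Fin s ⊕ Fin m × Fin s) →₀ ℕ) (Sum.inr (i, w)) = 1 := by
      intro u'
      rw [Finset.sum_eq_single u']
      · rw [Finsupp.single_eq_same]
      · intro w _ hw
        rw [Finsupp.single_apply, if_neg]
        intro h4
        exact hw (Prod.ext_iff.1 (Sum.inr_injective h4)).2.symm
      · intro h4
        exact absurd (Finset.mem_univ u') h4
    simp only [Finsupp.add_apply]
    rw [Finset.sum_add_distrib, h3, h3]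
  have h3 : ∑ w : Fin s, (Finsupp.single (Sum.inr (i, u)) 1 + Finsupp.single (Sum.inr (i, v)) 1 :
      (Fin m × Fin s ⊕ Fin m × Fin s) →₀ ℕ) (Sum.inr (i, w)) ≤ ∑ w : Fin s, d (Sum.inr (i, w)) :=
    Finset.sum_le_sum fun w _ => hle _
  omega

end T2

end Pool.Agent.Lib.MP_a688ad_al
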