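import Pool.Agent.Lib.MP_a688ad_al.T2.Spec

/-!
# MP_a688ad_al, stable range, module Sw: exchange of letters in a product with one mark
-/

set_option autoImplicit false

open MvPolynomial Finset

namespace Pool.Agent.Lib.MP_a688ad_al

namespace T2

variable {m s : ℕ} {T : Type} [CommRing T] [Algebra ℂ T]

/-- The marked power sum of the letters of `C`, the letter at `c` is the mark. -/
private def swq (P : PS m s T) (u : ℕ → Fin s) (C : Finset ℕ) (c : ℕ) : T :=
  P.pe (xs (C.erase c) u) (u c)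

private theorem sw_wt (u : ℕ → Fin s) {C : Finset ℕ} {c : ℕ} (hc : c ∈ C) :
    wtM (xs (C.erase c) u) + sg (u c) = wtS C u := by
  rw [wtM_xs, add_comm, ← wtS_insert (Finset.notMem_erase c C), Finset.insert_erase hc]

private theorem sw_i (P : PS m s T) (u : ℕ → Fin s) {C : Finset ℕ} {c : ℕ} (hc : c ∈ C)
    (h : C.card < m) : swq P u C c ∈ P.Am 1 (wtS C u) := by
  rw [← sw_wt u hc]
  apply P.Am_pe
  rw [card_xs, Finset.card_erase_of_mem hc]
  have := Finset.card_pos.2 ⟨c, hc⟩
  omega

private theorem sw_ii (P : PS m s T) (u : ℕ → Fin s) {C : Finset ℕ} {c c' : ℕ} (hc : c ∈ C)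
    (hc' : c' ∈ C) (h : C.card = m) : swq P u C c - swq P u C c' ∈ P.Am 1 (wtS C u) := by
  by_cases hcc : c = c'
  · subst hcc
    rw [sub_self]
    exact Submodule.zero_mem _
  have hm1 : c' ∈ C.erase c := Finset.mem_erase.2 ⟨Ne.symm hcc, hc'⟩
  have h1 : C.erase c = insert c' ((C.erase c).erase c') := (Finset.insert_erase hm1).symm
  have h2 : C.erase c' = insert c ((C.erase c).erase c') := by
    rw [Finset.erase_right_comm]
    exact (Finset.insert_erase (Finset.mem_erase.2 ⟨hcc, hc⟩)).symm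
  have h3 : c' ∉ (C.erase c).erase c' := Finset.notMem_erase _ _
  have h4 : c ∉ (C.erase c).erase c' := fun h =>
    Finset.notMem_erase c C (Finset.mem_of_mem_erase h)
  have h5 : wtS C u = wtM (xs ((C.erase c).erase c') u) + sg (u c') + sg (u c) := by
    rw [← sw_wt u hc, h1, xs_insert h3, wtM_cons]
    rw [← h1]
    abel
  unfold swq
  rw [h5, h2, xs_insert h4]
  have h6 : xs (C.erase c) u = u c' ::ₘ xs ((C.erase c).erase c') u := by
    rw [← xs_insert h3, ← h1]
  rw [h6]
  apply P.Am_an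
  rw [card_xs, Finset.card_erase_of_mem hm1, Finset.card_erase_of_mem hc]
  have := Finset.card_pos.2 ⟨c', hm1⟩
  rw [Finset.card_erase_of_mem hc] at this
  omega

private theorem sw_e (P : PS m s T) (u : ℕ → Fin s) (S : Finset ℕ) (τ : Equiv.Perm ℕ) :
    P.e S (fun ω => u (τ ω)) = P.e (S.image τ) u := by
  have hh : ∀ a, a ∈ S ↔ τ a ∈ S.image τ := by
    intro a
    constructor
    · exact fun h => Finset.mem_image_of_mem _ h
    · intro h
      obtain ⟨b, hb, hb'⟩ := Finset.mem_image.1 h
      exact (τ.injective hb') ▸ hb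
  let E : {a // a ∈ S} ≃ {b // b ∈ S.image τ} := Equiv.subtypeEquiv τ hh
  unfold PS.e Ef
  refine Fintype.sum_equiv (Equiv.embeddingCongr E (Equiv.refl (Fin m))) _ _ ?_
  intro f
  refine Fintype.prod_equiv E _ _ ?_
  intro j
  have e1 : (Equiv.embeddingCongr E (Equiv.refl (Fin m)) f) (E j) = f j := by
    show f (E.symm (E j)) = f j
    rw [Equiv.symm_apply_apply]
  rw [e1]
  rfl

private theorem sw_q (P : PS m s T) (u : ℕ → Fin s) (C : Finset ℕ) (c : ℕ) (τ : Equiv.Perm ℕ) :
    swq P (fun ω => u (τ ω)) C c = swq P u (C.image τ) (τ c) := by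
  unfold swq
  rw [← Finset.image_erase τ.injective]
  congr 1
  unfold xs
  rw [Finset.image_val_of_injOn τ.injective.injOn, Multiset.map_map]
  rfl

private theorem sw_img {B : Finset ℕ} {a b : ℕ} (ha : a ∈ B) (hb : b ∈ B) :
    B.image (Equiv.swap a b) = B := by
  have hsub : B.image (Equiv.swap a b) ⊆ B := by
    intro x hx
    obtain ⟨y, hy, rfl⟩ := Finset.mem_image.1 hx
    rw [Equiv.swap_apply_def]
    split_ifs
    · exact hb
    · exact ha
    · exact hy
  exact Finset.eq_of_subset_of_card_le hsub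
    (by rw [Finset.card_image_of_injective _ (Equiv.injective _)])

private theorem sw_wtS (u : ℕ → Fin s) {B : Finset ℕ} {a b : ℕ} (ha : a ∈ B) (hb : b ∈ B) :
    wtS B (fun ω => u (Equiv.swap a b ω)) = wtS B u := by
  unfold wtS
  conv_rhs => rw [← sw_img ha hb]
  rw [Finset.sum_image (fun x _ y _ h => Equiv.injective _ h)]

private theorem sw_img_sdiff {B S : Finset ℕ} {a b : ℕ} (ha : a ∈ B) (hb : b ∈ B) :
    (B \ S).image (Equiv.swap a b) = B \ S.image (Equiv.swap a b) := by
  rw [Finset.image_sdiff _ _ (Equiv.injective _), sw_img ha hb]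

/-- Invariance under the exchanges of the letters at the positions in `B`, modulo `A'`. -/
private def SwI (P : PS m s T) (B : Finset ℕ) (H : (ℕ → Fin s) → T) : Prop :=
  ∀ (u : ℕ → Fin s) (a b : ℕ), a ∈ B → b ∈ B →
    H (fun ω => u (Equiv.swap a b ω)) - H u ∈ P.Am 1 (wtS B u)

/-- One exchange inside of `B`. -/
private theorem sw_mul (h3 : AmPStmt) (P : PS m s T) (hm : 3 ≤ m) {S B : Finset ℕ}
    {H : (ℕ → Fin s) → T} (hd : Disjoint S B) (hI : SwI P B H) (u : ℕ → Fin s) {a b : ℕ}
    (ha : a ∈ B) (hb : b ∈ B) :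
    P.e S (fun ω => u (Equiv.swap a b ω)) * H (fun ω => u (Equiv.swap a b ω)) - P.e S u * H u
      ∈ P.Am 1 (wtS (S ∪ B) u) := by
  have h1 : P.e S (fun ω => u (Equiv.swap a b ω)) = P.e S u := by
    apply P.e_congr
    intro ω hω
    rw [Equiv.swap_apply_of_ne_of_ne]
    · rintro rfl
      exact Finset.disjoint_left.1 hd hω ha
    · rintro rfl
      exact Finset.disjoint_left.1 hd hω hb
  rw [h1, ← mul_sub, wtS_union hd]
  have h5 := P.Am_mul ((h3 m s T P hm).2 S u) (hI u a b ha hb)
  rw [Nat.zero_add] at h5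
  exact h5

/-- Products with two elementary functions. -/
private theorem sw_alpha (h3 : AmPStmt) (P : PS m s T) (hm : 3 ≤ m) {S S2 B2 : Finset ℕ}
    {H2 : (ℕ → Fin s) → T} (hd : Disjoint S (S2 ∪ B2)) (hd2 : Disjoint S2 B2)
    (hB2 : B2.Nonempty) (i1 : SwI P (S2 ∪ B2) (fun u => P.e S2 u * H2 u))
    (i2 : SwI P (S ∪ B2) (fun u => P.e S u * H2 u)) :
    SwI P (S ∪ (S2 ∪ B2)) (fun u => P.e S u * (P.e S2 u * H2 u)) := by
  have hd3 : Disjoint S S2 := Finset.disjoint_of_subset_right Finset.subset_union_left hd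
  have hd4 : Disjoint S B2 := Finset.disjoint_of_subset_right Finset.subset_union_right hd
  have hd5 : Disjoint S2 (S ∪ B2) := by
    rw [Finset.disjoint_union_right]
    exact ⟨hd3.symm, hd2⟩
  have hset : S ∪ (S2 ∪ B2) = S2 ∪ (S ∪ B2) := by
    rw [← Finset.union_assoc, Finset.union_comm S S2, Finset.union_assoc]
  have g1 : ∀ a b, a ∈ S2 ∪ B2 → b ∈ S2 ∪ B2 → ∀ u : ℕ → Fin s,
      (fun u : ℕ → Fin s => P.e S u * (P.e S2 u * H2 u)) (fun ω => u (Equiv.swap a b ω))
        - (fun u : ℕ → Fin s => P.e S u * (P.e S2 u * H2 u)) u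
        ∈ P.Am 1 (wtS (S ∪ (S2 ∪ B2)) u) := by
    intro a b ha hb u
    exact sw_mul h3 P hm hd i1 u ha hb
  have g2 : ∀ a b, a ∈ S ∪ B2 → b ∈ S ∪ B2 → ∀ u : ℕ → Fin s,
      (fun u : ℕ → Fin s => P.e S u * (P.e S2 u * H2 u)) (fun ω => u (Equiv.swap a b ω))
        - (fun u : ℕ → Fin s => P.e S u * (P.e S2 u * H2 u)) u
        ∈ P.Am 1 (wtS (S ∪ (S2 ∪ B2)) u) := by
    intro a b ha hb u
    have h5 := sw_mul h3 P hm hd5 i2 u ha hb
    rw [hset]
    have e1 : ∀ u : ℕ → Fin s, P.e S u * (P.e S2 u * H2 u) = P.e S2 u * (P.e S u * H2 u) := by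
      intro u
      ring
    show P.e S (fun ω => u (Equiv.swap a b ω)) * (P.e S2 (fun ω => u (Equiv.swap a b ω))
      * H2 (fun ω => u (Equiv.swap a b ω))) - P.e S u * (P.e S2 u * H2 u) ∈ _
    rw [e1, e1]
    exact h5
  have g3 : ∀ a b d, a ∈ S ∪ (S2 ∪ B2) → b ∈ S ∪ (S2 ∪ B2) → d ∈ S ∪ (S2 ∪ B2) → b ≠ d → b ≠ a →
      (∀ u : ℕ → Fin s,
      (fun u : ℕ → Fin s => P.e S u * (P.e S2 u * H2 u)) (fun ω => u (Equiv.swap d a ω))
        - (fun u : ℕ → Fin s => P.e S u * (P.e S2 u * H2 u)) u
        ∈ P.Am 1 (wtS (S ∪ (S2 ∪ B2)) u)) →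
      (∀ u : ℕ → Fin s,
      (fun u : ℕ → Fin s => P.e S u * (P.e S2 u * H2 u)) (fun ω => u (Equiv.swap b d ω))
        - (fun u : ℕ → Fin s => P.e S u * (P.e S2 u * H2 u)) u
        ∈ P.Am 1 (wtS (S ∪ (S2 ∪ B2)) u)) →
      ∀ u : ℕ → Fin s,
      (fun u : ℕ → Fin s => P.e S u * (P.e S2 u * H2 u)) (fun ω => u (Equiv.swap a b ω))
        - (fun u : ℕ → Fin s => P.e S u * (P.e S2 u * H2 u)) u
        ∈ P.Am 1 (wtS (S ∪ (S2 ∪ B2)) u) := by
    intro a b d ha hb hd' hbd hba q1 q2 u
    generalize (fun u : ℕ → Fin s => P.e S u * (P.e S2 u * H2 u)) = H at q1 q2 ⊢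
    have r1 := q1 u
    have r2 := q2 (fun ω => u (Equiv.swap d a ω))
    have r3 := q1 (fun ω => u (Equiv.swap d a (Equiv.swap b d ω)))
    have w1 := sw_wtS u hd' ha
    have w2 := sw_wtS (fun ω => u (Equiv.swap d a ω)) hb hd'
    rw [w1] at r2
    rw [w1] at w2
    have w3 : wtS (S ∪ (S2 ∪ B2)) (fun ω => u (Equiv.swap d a (Equiv.swap b d ω)))
        = wtS (S ∪ (S2 ∪ B2)) u := w2
    rw [w3] at r3
    have e3 : (fun ω => u (Equiv.swap d a (Equiv.swap b d (Equiv.swap d a ω))))
        = fun ω => u (Equiv.swap a b ω) := by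
      funext ω
      have := Equiv.swap_mul_swap_mul_swap (x := b) (y := d) (z := a) hbd hba
      rw [← this]
      rfl
    have r3' : H (fun ω => u (Equiv.swap d a (Equiv.swap b d (Equiv.swap d a ω))))
        - H (fun ω => u (Equiv.swap d a (Equiv.swap b d ω))) ∈ P.Am 1 (wtS (S ∪ (S2 ∪ B2)) u) := r3
    rw [e3] at r3'
    have r4 := Submodule.add_mem _ (Submodule.add_mem _ r3' r2) r1
    have e4 : H (fun ω => u (Equiv.swap a b ω))
        - H (fun ω => u (Equiv.swap d a (Equiv.swap b d ω)))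
        + (H (fun ω => u (Equiv.swap d a (Equiv.swap b d ω))) - H (fun ω => u (Equiv.swap d a ω)))
        + (H (fun ω => u (Equiv.swap d a ω)) - H u) = H (fun ω => u (Equiv.swap a b ω)) - H u := by
      abel
    rw [← e4]
    exact r4
  obtain ⟨d, hdB⟩ := hB2
  intro u a b ha hb
  have hdm : d ∈ S ∪ (S2 ∪ B2) := Finset.mem_union_right _ (Finset.mem_union_right _ hdB)
  by_cases haS : a ∈ S
  · by_cases hbS : b ∈ S ∪ B2
    · exact g2 a b (Finset.mem_union_left _ haS) hbS u
    · have hbS2 : b ∈ S2 := by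
        rcases Finset.mem_union.1 hb with h | h
        · exact absurd (Finset.mem_union_left _ h) hbS
        · rcases Finset.mem_union.1 h with h | h
          · exact h
          · exact absurd (Finset.mem_union_right _ h) hbS
      refine g3 a b d ha hb hdm ?_ ?_
        (g2 d a (Finset.mem_union_right _ hdB) (Finset.mem_union_left _ haS))
        (g1 b d (Finset.mem_union_left _ hbS2) (Finset.mem_union_right _ hdB)) u
      · rintro rfl
        exact Finset.disjoint_left.1 hd2 hbS2 hdB
      · rintro rfl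
        exact Finset.disjoint_left.1 hd3 haS hbS2
  · have haSB : a ∈ S2 ∪ B2 := by
      rcases Finset.mem_union.1 ha with h | h
      · exact absurd h haS
      · exact h
    by_cases hbS : b ∈ S
    · by_cases haB : a ∈ B2
      · exact g2 a b (Finset.mem_union_right _ haB) (Finset.mem_union_left _ hbS) u
      · have haS2 : a ∈ S2 := by
          rcases Finset.mem_union.1 haSB with h | h
          · exact h
          · exact absurd h haB
        refine g3 a b d ha hb hdm ?_ ?_
          (g1 d a (Finset.mem_union_right _ hdB) (Finset.mem_union_left _ haS2))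
          (g2 b d (Finset.mem_union_left _ hbS) (Finset.mem_union_right _ hdB)) u
        · rintro rfl
          exact Finset.disjoint_left.1 hd4 hbS hdB
        · rintro rfl
          exact haS hbS
    · have hbSB : b ∈ S2 ∪ B2 := by
        rcases Finset.mem_union.1 hb with h | h
        · exact absurd h hbS
        · exact h
      exact g1 a b haSB hbSB u

/-- Linear combinations. -/
private theorem sw_comb (P : PS m s T) {B : Finset ℕ} {ι : Type} (t : Finset ι) (κ : ι → ℂ)
    {κ0 : ℂ} (hκ : κ0 ≠ 0) (H : (ℕ → Fin s) → T) (Hi : ι → (ℕ → Fin s) → T)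
    (h : ∀ u, κ0 • H u = ∑ i ∈ t, κ i • Hi i u) (hi : ∀ i ∈ t, SwI P B (Hi i)) : SwI P B H := by
  intro u a b ha hb
  refine (Submodule.smul_mem_iff _ hκ).1 ?_
  rw [smul_sub, h, h, ← Finset.sum_sub_distrib]
  apply Submodule.sum_mem
  intro i hi'
  rw [← smul_sub]
  exact Submodule.smul_mem _ _ (hi i hi' u a b ha hb)

/-- The coefficients. -/
private noncomputable def swk (m j : ℕ) : ℂ := (-1 : ℂ) ^ (m - j) * ((m - j).factorial : ℂ)

private theorem swk_ne (m j : ℕ) : swk m j ≠ 0 :=
  mul_ne_zero (pow_ne_zero _ (by norm_num)) (Nat.cast_ne_zero.2 (Nat.factorial_ne_zero _))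

/-- RelMStmt as a sum over `S = I \ R`. -/
private theorem sw_rel (h1 : RelMStmt) (P : PS m s T) (u : ℕ → Fin s) {C I : Finset ℕ} {c : ℕ}
    (hI : I ⊆ C.erase c) (hIm : I.card = m) :
    ∑ S ∈ I.powerset, swk m S.card • (P.e S u * swq P u (C \ S) c) = 0 := by
  have hrel := h1 m s T P (C.erase c) I u (u c) hI hIm
  have hcI : c ∉ I := fun hh => Finset.notMem_erase c C (hI hh)
  have hIC : I ⊆ C := fun x hx => Finset.mem_of_mem_erase (hI hx)
  rw [← hrel]
  refine Finset.sum_nbij' (fun S => I \ S) (fun R => I \ R) ?_ ?_ ?_ ?_ ?_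
  · intro S _
    exact Finset.mem_powerset.2 Finset.sdiff_subset
  · intro S _
    exact Finset.mem_powerset.2 Finset.sdiff_subset
  · intro S hS
    exact Finset.sdiff_sdiff_eq_self (Finset.mem_powerset.1 hS)
  · intro S hS
    exact Finset.sdiff_sdiff_eq_self (Finset.mem_powerset.1 hS)
  · intro S hS
    have hSI := Finset.mem_powerset.1 hS
    have hset : (C.erase c \ I) ∪ (I \ S) = (C \ S).erase c := by
      ext x
      simp only [Finset.mem_union, Finset.mem_sdiff, Finset.mem_erase]
      constructor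
      · rintro (⟨⟨hx1, hx2⟩, hx3⟩ | ⟨hx, hx'⟩)
        · exact ⟨hx1, hx2, fun hh => hx3 (hSI hh)⟩
        · exact ⟨fun hh => hcI (hh ▸ hx), hIC hx, hx'⟩
      · rintro ⟨hx1, hx2, hx3⟩
        by_cases hxI : x ∈ I
        · right
          exact ⟨hxI, hx3⟩
        · left
          exact ⟨⟨hx1, hx2⟩, hxI⟩
    show swk m S.card • (P.e S u * swq P u (C \ S) c)
      = ((-1 : ℂ) ^ (I \ S).card * ((I \ S).card.factorial : ℂ)) •
        (P.e (I \ (I \ S)) u * P.pe (xs ((C.erase c \ I) ∪ (I \ S)) u) (u c))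
    rw [Finset.sdiff_sdiff_eq_self hSI, hset, Finset.card_sdiff_of_subset hSI, hIm]
    rfl

private theorem sw_base (P : PS m s T) {C : Finset ℕ} {c : ℕ} (hc : c ∈ C) :
    P.HH C (fun u => swq P u C c) := by
  have h := PS.HH.base (P := P) (C.erase c) c (Finset.notMem_erase c C)
  rw [Finset.insert_erase hc] at h
  exact h

/-- One elementary function and a long marked power sum. -/
private theorem sw_gamma (h1 : RelMStmt) (h3 : AmPStmt) (P : PS m s T) (hm : 3 ≤ m)
    {S C : Finset ℕ} {c : ℕ} (hc : c ∈ C) (hd : Disjoint S C) (hS : S.Nonempty)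
    (hCm : m < C.card)
    (ih : ∀ (B' : Finset ℕ) (H' : (ℕ → Fin s) → T), P.HH B' H' → B'.card < (S ∪ C).card →
      SwI P B' H') :
    SwI P (S ∪ C) (fun u => P.e S u * swq P u C c) := by
  obtain ⟨I, hI1, hI2⟩ : ∃ I ⊆ C.erase c, I.card = m :=
    Finset.exists_subset_card_eq (by rw [Finset.card_erase_of_mem hc]; omega)
  have hcI : c ∉ I := fun hh => Finset.notMem_erase c C (hI1 hh)
  have hIC : I ⊆ C := fun x hx => Finset.mem_of_mem_erase (hI1 hx)
  have hSpos := Finset.card_pos.2 hS
  have hcard : (S ∪ C).card = S.card + C.card := Finset.card_union_of_disjoint hd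
  refine sw_comb P (I.powerset.erase ∅) (fun S' => - swk m S'.card) (swk_ne m 0) _
    (fun S' u => P.e S u * (P.e S' u * swq P u (C \ S') c)) ?_ ?_
  · intro u
    have hrel := sw_rel h1 P u hI1 hI2
    rw [← Finset.add_sum_erase _ _ (Finset.empty_mem_powerset I), Finset.card_empty,
      P.e_empty, one_mul, Finset.sdiff_empty] at hrel
    have hrel2 := congrArg (fun z => P.e S u * z) hrel
    simp only [mul_zero, mul_add] at hrel2
    rw [mul_smul_comm, Finset.mul_sum] at hrel2
    have h6 : ∑ S' ∈ I.powerset.erase ∅,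
        (- swk m S'.card) • (P.e S u * (P.e S' u * swq P u (C \ S') c))
        = - ∑ S' ∈ I.powerset.erase ∅,
          P.e S u * swk m S'.card • (P.e S' u * swq P u (C \ S') c) := by
      rw [← Finset.sum_neg_distrib]
      refine Finset.sum_congr rfl fun S' _ => ?_
      rw [mul_smul_comm, neg_smul]
    show swk m 0 • (P.e S u * swq P u C c) = ∑ S' ∈ I.powerset.erase ∅,
      (- swk m S'.card) • (P.e S u * (P.e S' u * swq P u (C \ S') c))
    rw [h6, eq_neg_iff_add_eq_zero]
    exact hrel2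
  · intro S' hS'
    have hS'I : S' ⊆ I := Finset.mem_powerset.1 (Finset.mem_of_mem_erase hS')
    have hS'ne : S'.Nonempty := Finset.nonempty_iff_ne_empty.2 (Finset.ne_of_mem_erase hS')
    have hS'C : S' ⊆ C := hS'I.trans hIC
    have hcC' : c ∈ C \ S' := Finset.mem_sdiff.2 ⟨hc, fun h => hcI (hS'I h)⟩
    have hun : S' ∪ (C \ S') = C := Finset.union_sdiff_of_subset hS'C
    have hS'pos := Finset.card_pos.2 hS'ne
    have hS'le := Finset.card_le_card hS'C
    have hd' : Disjoint S (C \ S') := Finset.disjoint_of_subset_right Finset.sdiff_subset hd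
    have h5 := sw_alpha h3 P hm (S := S) (S2 := S') (B2 := C \ S')
      (H2 := fun u => swq P u (C \ S') c) (by rw [hun]; exact hd) Finset.disjoint_sdiff
      ⟨c, hcC'⟩
      (ih _ _ (PS.HH.mul S' (C \ S') _ Finset.disjoint_sdiff hS'ne (sw_base P hcC'))
        (by rw [hun, hcard]; omega))
      (ih _ _ (PS.HH.mul S (C \ S') _ hd' hS (sw_base P hcC'))
        (by rw [Finset.card_union_of_disjoint hd', Finset.card_sdiff_of_subset hS'C, hcard]
            omega))
    rw [hun] at h5
    exact h5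

/-- A function on pairs which is invariant under exchanges depends only on the size. -/
private theorem sw_conn {V : Type} (B : Finset ℕ) (G : Finset ℕ → ℕ → V) (j : ℕ)
    (hG : ∀ S ⊆ B, S.card = j → ∀ c ∈ B \ S, ∀ a ∈ B, ∀ b ∈ B,
      G (S.image (Equiv.swap a b)) (Equiv.swap a b c) = G S c) :
    ∀ (N : ℕ) (S : Finset ℕ), S ⊆ B → S.card = j → ∀ S' ⊆ B, S'.card = j → (S \ S').card = N →
      ∀ c ∈ B \ S, ∀ c' ∈ B \ S', G S c = G S' c' := by
  intro N
  induction N with
  | zero =>
    intro S hS hSj S' hS' hS'j hN c hc c' hc'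
    have hsub : S ⊆ S' := by
      rw [Finset.card_eq_zero] at hN
      exact Finset.sdiff_eq_empty_iff_subset.1 hN
    have hSS : S = S' := Finset.eq_of_subset_of_card_le hsub (by omega)
    subst hSS
    obtain ⟨hc1, hc2⟩ := Finset.mem_sdiff.1 hc
    obtain ⟨hc'1, hc'2⟩ := Finset.mem_sdiff.1 hc'
    have h5 := hG S hS hSj c hc c hc1 c' hc'1
    rw [Equiv.swap_apply_left] at h5
    have h6 : S.image (Equiv.swap c c') = S := by
      conv_rhs => rw [← Finset.image_id (s := S)]
      apply Finset.image_congr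
      intro x hx
      show Equiv.swap c c' x = x
      rw [Equiv.swap_apply_of_ne_of_ne]
      · rintro rfl
        exact hc2 hx
      · rintro rfl
        exact hc'2 hx
    rw [h6] at h5
    exact h5.symm
  | succ N ihN =>
    intro S hS hSj S' hS' hS'j hN c hc c' hc'
    obtain ⟨x, hx⟩ : (S \ S').Nonempty := Finset.card_pos.1 (by omega)
    obtain ⟨y, hy⟩ : (S' \ S).Nonempty := by
      apply Finset.card_pos.1
      have h1 := Finset.card_sdiff_add_card_inter S S'
      have h2 := Finset.card_sdiff_add_card_inter S' S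
      rw [Finset.inter_comm] at h2
      omega
    obtain ⟨hx1, hx2⟩ := Finset.mem_sdiff.1 hx
    obtain ⟨hy1, hy2⟩ := Finset.mem_sdiff.1 hy
    obtain ⟨hc1, hc2⟩ := Finset.mem_sdiff.1 hc
    have hxB := hS hx1
    have hyB := hS' hy1
    have h5 := hG S hS hSj c hc x hxB y hyB
    rw [← h5]
    have hsub : S.image (Equiv.swap x y) ⊆ B := by
      rw [← sw_img hxB hyB]
      exact Finset.image_subset_image hS
    have hcard : (S.image (Equiv.swap x y)).card = j := by
      rw [Finset.card_image_of_injective _ (Equiv.injective _), hSj]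
    have hcm : Equiv.swap x y c ∈ B \ S.image (Equiv.swap x y) := by
      rw [← sw_img_sdiff hxB hyB]
      exact Finset.mem_image_of_mem _ hc
    refine ihN _ hsub hcard S' hS' hS'j ?_ _ hcm c' hc'
    have h6 : S.image (Equiv.swap x y) \ S' = (S \ S').erase x := by
      ext z
      simp only [Finset.mem_sdiff, Finset.mem_image, Finset.mem_erase]
      constructor
      · rintro ⟨⟨w, hw, rfl⟩, hz⟩
        by_cases hwx : w = x
        · subst hwx
          rw [Equiv.swap_apply_left] at hz
          exact absurd hy1 hz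
        · have hwy : w ≠ y := fun h => hy2 (h ▸ hw)
          rw [Equiv.swap_apply_of_ne_of_ne hwx hwy] at hz ⊢
          exact ⟨hwx, hw, hz⟩
      · rintro ⟨hz1, hz2, hz3⟩
        refine ⟨⟨z, hz2, ?_⟩, hz3⟩
        exact Equiv.swap_apply_of_ne_of_ne hz1 (fun h => hy2 (h ▸ hz2))
    rw [h6, Finset.card_erase_of_mem hx, hN]
    rfl

/-- The elementary function of one letter. -/
private theorem sw_one (h2 : RelEStmt) (P : PS m s T) (u : ℕ → Fin s) {S : Finset ℕ}
    (hS : S.card = 1) : P.e S u = 0 := by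
  obtain ⟨j0, rfl⟩ := Finset.card_eq_one.1 hS
  have h := h2 m s T P ∅ j0 u (Finset.notMem_empty _)
  rw [Finset.powerset_empty, Finset.sum_singleton] at h
  rw [show ({j0} : Finset ℕ) = insert j0 ∅ from rfl, h]
  have h0 : P.p (xs (insert j0 ∅) u) = 0 := by
    unfold PS.p PS.mon xs
    rw [← P.xsum (u j0)]
    refine Finset.sum_congr rfl fun i _ => ?_
    show (Multiset.map (P.x i) (Multiset.map u (({j0} : Finset ℕ)).val)).prod = _
    rw [Finset.singleton_val, Multiset.map_singleton, Multiset.map_singleton,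
      Multiset.prod_singleton]
  rw [h0, zero_mul, smul_zero]

/-- The remaining cases, for fixed letters. -/
private theorem sw_core (h1 : RelMStmt) (h2 : RelEStmt) (h3 : AmPStmt) (h4 : InStmt)
    (P : PS m s T) (hm : 3 ≤ m) (u : ℕ → Fin s) (k : ℕ) (hk : 1 ≤ k) {B : Finset ℕ}
    (hB : B.card = m + k)
    (hγ : ∀ S ⊆ B, S.Nonempty → S.card < k → ∀ c ∈ B \ S,
      SwI P B (fun u => P.e S u * swq P u (B \ S) c)) :
    (∀ c ∈ B, ∀ c' ∈ B, swq P u B c - swq P u B c' ∈ P.Am 1 (wtS B u)) ∧
    (∀ S ⊆ B, S.card = k → ∀ S' ⊆ B, S'.card = k → ∀ c ∈ B \ S, ∀ c' ∈ B \ S',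
      P.e S u * swq P u (B \ S) c - P.e S' u * swq P u (B \ S') c' ∈ P.Am 1 (wtS B u)) := by
  obtain ⟨G, hG⟩ : ∃ G : Finset ℕ → ℕ → T ⧸ P.Am 1 (wtS B u), ∀ S c,
      G S c = (P.Am 1 (wtS B u)).mkQ (P.e S u * swq P u (B \ S) c) := ⟨_, fun _ _ => rfl⟩
  have hz : ∀ z : T, (P.Am 1 (wtS B u)).mkQ z = 0 ↔ z ∈ P.Am 1 (wtS B u) := by
    intro z
    rw [Submodule.mkQ_apply, Submodule.Quotient.mk_eq_zero]
  have hsdc : ∀ S ⊆ B, (B \ S).card = m + k - S.card := by
    intro S hS
    rw [Finset.card_sdiff_of_subset hS, hB]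
  have hwt : ∀ S ⊆ B, wtS S u + wtS (B \ S) u = wtS B u := by
    intro S hS
    rw [← wtS_union Finset.disjoint_sdiff, Finset.union_sdiff_of_subset hS]
  have hmulmem : ∀ S ⊆ B, ∀ z ∈ P.Am 1 (wtS (B \ S) u), P.e S u * z ∈ P.Am 1 (wtS B u) := by
    intro S hS z hz
    have h5 := P.Am_mul ((h3 m s T P hm).2 S u) hz
    rw [Nat.zero_add, hwt S hS] at h5
    exact h5
  -- sizes between 1 and k - 1
  have hA : ∀ j, 1 ≤ j → j < k → ∀ S ⊆ B, S.card = j → ∀ S' ⊆ B, S'.card = j →
      ∀ c ∈ B \ S, ∀ c' ∈ B \ S', G S c = G S' c' := by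
    intro j hj1 hjk S hS hSj S' hS' hS'j c hc c' hc'
    refine sw_conn B G j ?_ _ S hS hSj S' hS' hS'j rfl c hc c' hc'
    intro S hS hSj c hc a ha b hb
    have h5 := hγ S hS (Finset.card_pos.1 (by omega)) (by omega) c hc u a b ha hb
    have h6 : P.e S (fun ω => u (Equiv.swap a b ω)) * swq P (fun ω => u (Equiv.swap a b ω)) (B \ S) c
        - P.e S u * swq P u (B \ S) c ∈ P.Am 1 (wtS B u) := h5
    rw [sw_e, sw_q, sw_img_sdiff ha hb, ← hz, map_sub, ← hG, ← hG, sub_eq_zero] at h6
    exact h6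
  -- sizes above k
  have hBz : ∀ S ⊆ B, k < S.card → ∀ c ∈ B \ S, G S c = 0 := by
    intro S hS hSk c hc
    rw [hG, hz]
    have hcard := Finset.card_le_card hS
    exact hmulmem S hS _ (sw_i P u hc (by rw [hsdc S hS]; omega))
  -- size k
  have hC : ∀ S ⊆ B, S.card = k → ∀ c ∈ B \ S, ∀ c' ∈ B \ S, G S c = G S c' := by
    intro S hS hSk c hc c' hc'
    rw [← sub_eq_zero, hG, hG, ← map_sub, hz, ← mul_sub]
    exact hmulmem S hS _ (sw_ii P u hc hc' (by rw [hsdc S hS]; omega))
  -- the relation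
  have hR : ∀ c ∈ B, ∀ I ⊆ B.erase c, I.card = m →
      ∑ S ∈ I.powerset, swk m S.card • G S c = 0 := by
    intro c hc I hI hIm
    have h5 := congrArg (P.Am 1 (wtS B u)).mkQ (sw_rel h1 P u hI hIm)
    rw [map_sum, map_zero] at h5
    rw [← h5]
    refine Finset.sum_congr rfl fun S _ => ?_
    rw [map_smul, hG]
  have hmemsd : ∀ c, ∀ I ⊆ B.erase c, c ∈ B → ∀ S ∈ I.powerset, S ⊆ B ∧ c ∈ B \ S := by
    intro c I hI hc S hS
    have hSI := Finset.mem_powerset.1 hS
    refine ⟨fun x hx => Finset.mem_of_mem_erase (hI (hSI hx)), Finset.mem_sdiff.2 ⟨hc, fun h => ?_⟩⟩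
    exact Finset.notMem_erase c B (hI (hSI h))
  -- size 0
  have hD : ∀ c ∈ B, ∀ c' ∈ B, G ∅ c = G ∅ c' := by
    intro c hc c' hc'
    have hle : m ≤ ((B.erase c).erase c').card ∨ k = 1 := by
      by_cases hk2 : k = 1
      · exact Or.inr hk2
      · left
        have h5 := Finset.pred_card_le_card_erase (s := B.erase c) (a := c')
        have h6 := Finset.pred_card_le_card_erase (s := B) (a := c)
        omega
    rcases hle with hle | hk1
    · obtain ⟨I, hI1, hI2⟩ := Finset.exists_subset_card_eq hle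
      have hIc : I ⊆ B.erase c := hI1.trans (Finset.erase_subset _ _)
      have hIc' : I ⊆ B.erase c' := by
        intro x hx
        have h5 := Finset.mem_erase.1 (hI1 hx)
        exact Finset.mem_erase.2 ⟨h5.1, Finset.mem_of_mem_erase h5.2⟩
      have r1 := hR c hc I hIc hI2
      have r2 := hR c' hc' I hIc' hI2
      rw [← Finset.add_sum_erase _ _ (Finset.empty_mem_powerset I)] at r1 r2
      have r3 : ∑ S ∈ I.powerset.erase ∅, swk m S.card • G S c
          = ∑ S ∈ I.powerset.erase ∅, swk m S.card • G S c' := by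
        refine Finset.sum_congr rfl fun S hS => ?_
        have hS1 := Finset.mem_of_mem_erase hS
        have hS0 : 1 ≤ S.card := Finset.card_pos.2
          (Finset.nonempty_iff_ne_empty.2 (Finset.ne_of_mem_erase hS))
        obtain ⟨m1, m2⟩ := hmemsd c I hIc hc S hS1
        obtain ⟨-, m3⟩ := hmemsd c' I hIc' hc' S hS1
        rcases lt_trichotomy S.card k with hlt | heq | hgt
        · rw [hA S.card hS0 hlt S m1 rfl S m1 rfl c m2 c' m3]
        · rw [hC S m1 heq c m2 c' m3]
        · rw [hBz S m1 hgt c m2, hBz S m1 hgt c' m3]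
      rw [r3, ← r2] at r1
      exact (smul_right_injective _ (swk_ne m (∅ : Finset ℕ).card)) (add_right_cancel r1)
    · have hG0 : ∀ c ∈ B, G ∅ c = 0 := by
        intro c hc
        obtain ⟨I, hI1, hI2⟩ : ∃ I ⊆ B.erase c, I.card = m :=
          Finset.exists_subset_card_eq (by rw [Finset.card_erase_of_mem hc]; omega)
        have r1 := hR c hc I hI1 hI2
        rw [← Finset.add_sum_erase _ _ (Finset.empty_mem_powerset I)] at r1
        have r3 : ∑ S ∈ I.powerset.erase ∅, swk m S.card • G S c = 0 := by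
          refine Finset.sum_eq_zero fun S hS => ?_
          have hS1 := Finset.mem_of_mem_erase hS
          have hS0 : 1 ≤ S.card := Finset.card_pos.2
            (Finset.nonempty_iff_ne_empty.2 (Finset.ne_of_mem_erase hS))
          obtain ⟨m1, m2⟩ := hmemsd c I hI1 hc S hS1
          rcases Nat.lt_or_ge 1 S.card with hgt | hle
          · rw [hBz S m1 (by omega) c m2, smul_zero]
          · rw [hG, sw_one h2 P u (by omega), zero_mul, map_zero, smul_zero]
        rw [r3, add_zero] at r1
        exact (smul_eq_zero.1 r1).resolve_left (swk_ne m _)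
      rw [hG0 c hc, hG0 c' hc']
  -- all sizes but k
  have hF : ∀ j, j ≠ k → ∀ S ⊆ B, S.card = j → ∀ S' ⊆ B, S'.card = j →
      ∀ c ∈ B \ S, ∀ c' ∈ B \ S', G S c = G S' c' := by
    intro j hjk S hS hSj S' hS' hS'j c hc c' hc'
    rcases Nat.eq_zero_or_pos j with hj0 | hj0
    · rw [hj0, Finset.card_eq_zero] at hSj hS'j
      subst hSj hS'j
      exact hD c (Finset.mem_sdiff.1 hc).1 c' (Finset.mem_sdiff.1 hc').1
    · rcases lt_trichotomy j k with hlt | heq | hgt
      · exact hA j hj0 hlt S hS hSj S' hS' hS'j c hc c' hc'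
      · exact absurd heq hjk
      · rw [hBz S hS (by omega) c hc, hBz S' hS' (by omega) c' hc']
  have hg : ∀ j, ∃ g : T ⧸ P.Am 1 (wtS B u), j ≠ k → ∀ S ⊆ B, S.card = j → ∀ c ∈ B \ S,
      G S c = g := by
    intro j
    by_cases hex : ∃ S ⊆ B, S.card = j ∧ ∃ c, c ∈ B \ S
    · obtain ⟨S, hS, hSj, c, hc⟩ := hex
      exact ⟨G S c, fun hjk S' hS' hS'j c' hc' => hF j hjk S' hS' hS'j S hS hSj c' hc' c hc⟩
    · refine ⟨0, fun _ S hS hSj c hc => ?_⟩
      exact absurd ⟨S, hS, hSj, c, hc⟩ hex
  choose g hg using hg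
  have hne : ∀ S ⊆ B, S.card = k → (B \ S).Nonempty := by
    intro S hS hSk
    apply Finset.card_pos.1
    rw [hsdc S hS]
    omega
  have hsInf : ∀ S ⊆ B, S.card = k → sInf ((B \ S : Finset ℕ) : Set ℕ) ∈ B \ S := by
    intro S hS hSk
    have h5 : ((B \ S : Finset ℕ) : Set ℕ).Nonempty := hne S hS hSk
    exact Finset.mem_coe.1 (Nat.sInf_mem h5)
  obtain ⟨f, hf⟩ : ∃ f : Finset ℕ → T ⧸ P.Am 1 (wtS B u), ∀ S,
      f S = G S (sInf ((B \ S : Finset ℕ) : Set ℕ)) := ⟨_, fun _ => rfl⟩
  have hGf : ∀ S ⊆ B, S.card = k → ∀ c ∈ B \ S, G S c = f S := by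
    intro S hS hSk c hc
    rw [hf]
    exact hC S hS hSk c hc _ (hsInf S hS hSk)
  have hconst : ∀ S ⊆ B, S.card = k → ∀ S' ⊆ B, S'.card = k → f S = f S' := by
    rcases Nat.lt_or_ge m k with hmk | hkm
    · intro S hS hSk S' hS' hS'k
      rw [hf, hf, hG, hG, P.e_zero (by omega), P.e_zero (by omega), zero_mul, zero_mul]
    · refine h4 (T ⧸ P.Am 1 (wtS B u)) m k B f hk hkm hB ?_
      have key : ∀ I ⊆ B, I.card = m → swk m k • ∑ S ∈ I.powersetCard k, f S
          = - ∑ j ∈ Finset.range (m + 1), m.choose j •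
            (if j = k then (0 : T ⧸ P.Am 1 (wtS B u)) else swk m j • g j) := by
        intro I hI hIm
        obtain ⟨c, hc⟩ : (B \ I).Nonempty := by
          apply Finset.card_pos.1
          rw [hsdc I hI]
          omega
        obtain ⟨hcB, hcI⟩ := Finset.mem_sdiff.1 hc
        have hIe : I ⊆ B.erase c := fun x hx =>
          Finset.mem_erase.2 ⟨fun h => hcI (h ▸ hx), hI hx⟩
        have r1 := hR c hcB I hIe hIm
        have r2 : ∑ S ∈ I.powerset, swk m S.card • G S c
            = ∑ S ∈ I.powerset, ((if S.card = k then swk m k • f S else 0)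
              + (if S.card = k then (0 : T ⧸ P.Am 1 (wtS B u)) else swk m S.card • g S.card)) := by
          refine Finset.sum_congr rfl fun S hS => ?_
          obtain ⟨m1, m2⟩ := hmemsd c I hIe hcB S hS
          by_cases hSk : S.card = k
          · simp only [hSk, if_true, add_zero]
            rw [hGf S m1 hSk c m2]
          · simp only [hSk, if_false, zero_add]
            rw [hg S.card hSk S m1 rfl c m2]
        have r3 : ∑ S ∈ I.powerset,
            (if S.card = k then (0 : T ⧸ P.Am 1 (wtS B u)) else swk m S.card • g S.card)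
            = ∑ j ∈ Finset.range (I.card + 1), I.card.choose j •
              (if j = k then (0 : T ⧸ P.Am 1 (wtS B u)) else swk m j • g j) :=
          Finset.sum_powerset_apply_card
            (fun j => if j = k then (0 : T ⧸ P.Am 1 (wtS B u)) else swk m j • g j)
        rw [r2, Finset.sum_add_distrib, ← Finset.sum_filter, ← Finset.powersetCard_eq_filter,
          r3, hIm, ← Finset.smul_sum] at r1
        exact eq_neg_of_add_eq_zero_left r1
      intro I hI hIm I' hI' hI'm
      have h5 := (key I hI hIm).trans (key I' hI' hI'm).symm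
      exact (smul_right_injective _ (swk_ne m k)) h5
  constructor
  · intro c hc c' hc'
    have h5 := hD c hc c' hc'
    rw [hG, hG, P.e_empty, one_mul, one_mul, Finset.sdiff_empty] at h5
    rw [← hz, map_sub, h5, sub_self]
  · intro S hS hSk S' hS' hS'k c hc c' hc'
    rw [← hz, map_sub, ← hG, ← hG, hGf S hS hSk c hc, hGf S' hS' hS'k c' hc',
      hconst S hS hSk S' hS' hS'k, sub_self]

private theorem sw_all (h1 : RelMStmt) (h2 : RelEStmt) (h3 : AmPStmt) (h4 : InStmt)
    (P : PS m s T) (hm : 3 ≤ m) : ∀ (N : ℕ) (B : Finset ℕ) (H : (ℕ → Fin s) → T), P.HH B H →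
      B.card = N → SwI P B H := by
  intro N
  induction N using Nat.strong_induction_on with
  | _ N ih =>
  intro B H hH hN
  have ih' : ∀ (B' : Finset ℕ) (H' : (ℕ → Fin s) → T), P.HH B' H' → B'.card < N → SwI P B' H' :=
    fun B' H' hH' hlt => ih _ hlt B' H' hH' rfl
  -- the hypothesis of the core lemma
  have hcoreγ : ∀ k, B.card = m + k → ∀ S ⊆ B, S.Nonempty → S.card < k → ∀ c ∈ B \ S,
      SwI P B (fun u => P.e S u * swq P u (B \ S) c) := by
    intro k hBk S hS hSne hSk c hc
    have h5 := sw_gamma h1 h3 P hm (S := S) (C := B \ S) hc Finset.disjoint_sdiff hSne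
      (by rw [Finset.card_sdiff_of_subset hS]; omega)
      (fun B' H' hH' hlt => ih' B' H' hH' (by
        rw [Finset.union_sdiff_of_subset hS] at hlt
        omega))
    rw [Finset.union_sdiff_of_subset hS] at h5
    exact h5
  cases hH with
  | base B0 c hc =>
    have hcB : c ∈ insert c B0 := Finset.mem_insert_self c B0
    have hfun : (fun u : ℕ → Fin s => P.pe (xs B0 u) (u c))
        = fun u => swq P u (insert c B0) c := by
      funext u
      unfold swq
      rw [Finset.erase_insert hc]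
    rw [hfun]
    generalize insert c B0 = C at hcB hN hcoreγ ⊢
    intro u a b ha hb
    show swq P (fun ω => u (Equiv.swap a b ω)) C c - swq P u C c ∈ P.Am 1 (wtS C u)
    rw [sw_q, sw_img ha hb]
    have hcB' : Equiv.swap a b c ∈ C := by
      rw [Equiv.swap_apply_def]
      split_ifs
      · exact hb
      · exact ha
      · exact hcB
    rcases lt_trichotomy C.card m with hlt | heq | hgt
    · exact Submodule.sub_mem _ (sw_i P u hcB' hlt) (sw_i P u hcB hlt)
    · exact sw_ii P u hcB' hcB heq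
    · exact (sw_core h1 h2 h3 h4 P hm u (C.card - m) (by omega) (by omega)
        (hcoreγ (C.card - m) (by omega))).1 _ hcB' _ hcB
  | mul S B' H' hd hS hH' =>
    have hSpos := Finset.card_pos.2 hS
    have hcard : (S ∪ B').card = S.card + B'.card := Finset.card_union_of_disjoint hd
    cases hH' with
    | base B0 c hc =>
      have hcB : c ∈ insert c B0 := Finset.mem_insert_self c B0
      have hfun : (fun u : ℕ → Fin s => P.e S u * (fun u => P.pe (xs B0 u) (u c)) u)
          = fun u => P.e S u * swq P u (insert c B0) c := by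
        funext u
        show P.e S u * P.pe (xs B0 u) (u c) = _
        unfold swq
        rw [Finset.erase_insert hc]
      rw [hfun]
      generalize insert c B0 = C at hd hcB hN hcoreγ hcard ⊢
      rcases lt_trichotomy C.card m with hlt | heq | hgt
      · intro u a b ha hb
        have hall : ∀ u : ℕ → Fin s, P.e S u * swq P u C c ∈ P.Am 1 (wtS (S ∪ C) u) := by
          intro u
          have h5 := P.Am_mul ((h3 m s T P hm).2 S u) (sw_i P u hcB hlt)
          rw [Nat.zero_add, ← wtS_union hd] at h5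
          exact h5
        have h6 := hall (fun ω => u (Equiv.swap a b ω))
        rw [sw_wtS u ha hb] at h6
        exact Submodule.sub_mem _ h6 (hall u)
      · intro u a b ha hb
        have hsd : (S ∪ C) \ S = C := Finset.union_sdiff_cancel_left hd
        have hsub : S ⊆ S ∪ C := Finset.subset_union_left
        have hsub2 : S.image (Equiv.swap a b) ⊆ S ∪ C := by
          rw [← sw_img ha hb]
          exact Finset.image_subset_image hsub
        have hcc : (S.image (Equiv.swap a b)).card = S.card :=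
          Finset.card_image_of_injective _ (Equiv.injective _)
        have himg : C.image (Equiv.swap a b) = (S ∪ C) \ S.image (Equiv.swap a b) := by
          rw [← sw_img_sdiff ha hb, hsd]
        show P.e S (fun ω => u (Equiv.swap a b ω)) * swq P (fun ω => u (Equiv.swap a b ω)) C c
          - P.e S u * swq P u C c ∈ P.Am 1 (wtS (S ∪ C) u)
        rw [sw_e, sw_q, himg]
        have h5 := (sw_core h1 h2 h3 h4 P hm u S.card (by omega) (by omega)
          (hcoreγ S.card (by omega))).2 _ hsub2 hcc S hsub rfl (Equiv.swap a b c)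
          (by rw [← himg]; exact Finset.mem_image_of_mem _ hcB) c (by rw [hsd]; exact hcB)
        rw [hsd] at h5
        exact h5
      · exact sw_gamma h1 h3 P hm hcB hd hS hgt
          (fun B' H' hH' hlt => ih' B' H' hH' (by omega))
    | mul S2 B2 H2 hd2 hS2 hH2 =>
      have hS2pos := Finset.card_pos.2 hS2
      have hcard2 : (S2 ∪ B2).card = S2.card + B2.card := Finset.card_union_of_disjoint hd2
      have hd4 : Disjoint S B2 := Finset.disjoint_of_subset_right Finset.subset_union_right hd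
      have hB2 : B2.Nonempty := by
        cases hH2 with
        | base B c hc => exact ⟨c, Finset.mem_insert_self _ _⟩
        | mul S B H _ hS _ => exact hS.mono Finset.subset_union_left
      exact sw_alpha h3 P hm hd hd2 hB2
        (ih' _ _ (PS.HH.mul S2 B2 H2 hd2 hS2 hH2) (by omega))
        (ih' _ _ (PS.HH.mul S B2 H2 hd4 hS hH2)
          (by rw [Finset.card_union_of_disjoint hd4]; omega))

theorem kSw (h1 : RelMStmt) (h2 : RelEStmt) (h3 : AmPStmt) (h4 : InStmt) : SwStmt := by
  intro m s T _ _ P hm B H hH u a b ha hb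
  exact sw_all h1 h2 h3 h4 P hm B.card B H hH rfl u a b ha hb

end T2

end Pool.Agent.Lib.MP_a688ad_al
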