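import Pool.Agent.Lib.MP_a688ad_al.T2.Spec

/-!
# MP_a688ad_al, B5: the particle system
-/

set_option autoImplicit false

open MvPolynomial Finset

namespace Pool.Agent.Lib.MP_a688ad_al

namespace T2

theorem tt_ab {m s l : ℕ} {T T' : Type} [CommRing T] [Algebra ℂ T] [CommRing T'] [Algebra ℂ T']
    (φ : T →ₐ[ℂ] T') (x y : Fin m → Fin s → T) (a : Ib (s + 1) l) (i : Fin m) :
    φ (ab x y a i) = ab (fun i w => φ (x i w)) (fun i w => φ (y i w)) a i := by
  unfold ab
  rw [map_mul, map_multiset_prod, Multiset.map_map]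
  congr 1
  · refine Fin.cases ?_ (fun w => ?_) a.1
    · simp
    · simp
  · congr 1
    refine Multiset.map_congr rfl fun c _ => ?_
    refine Fin.cases ?_ (fun w => ?_) c
    · simp
    · simp

theorem tt_Th {m s : ℕ} {T T' : Type} [CommRing T] [Algebra ℂ T] [CommRing T'] [Algebra ℂ T']
    (φ : T →ₐ[ℂ] T') (x y : Fin m → Fin s → T) (l : ℕ) (F : MvPolynomial (Ib (s + 1) l) ℂ) :
    φ (Th x y l F) = Th (fun i w => φ (x i w)) (fun i w => φ (y i w)) l F := by
  unfold Th
  simp only [LinearMap.sum_apply, LinearMap.smul_apply, AlgHom.toLinearMap_apply, map_sum,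
    map_smul]
  refine Finset.sum_congr rfl fun A _ => ?_
  congr 1
  have h : (φ.comp (aeval fun a => ∑ i ∈ A, ab x y a i)) =
      (aeval (fun a => ∑ i ∈ A, ab (fun i w => φ (x i w)) (fun i w => φ (y i w)) a i) :
        MvPolynomial (Ib (s + 1) l) ℂ →ₐ[ℂ] T') := by
    apply algHom_ext
    intro a
    rw [AlgHom.comp_apply, aeval_X, aeval_X, map_sum]
    exact Finset.sum_congr rfl fun i _ => tt_ab φ x y a i
  exact congrArg (fun f => f F) h

theorem tt_cen_bx {m s : ℕ} (i : Fin m) (w : Fin s) :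
    cen m s (bx i w) = bx i w - C (1 / (m : ℂ)) * ∑ j, bx j w := by
  unfold cen bx
  rw [aeval_X]
  rfl

theorem tt_cen_by {m s : ℕ} (i : Fin m) (w : Fin s) : cen m s (by' i w) = by' i w := by
  unfold cen by'
  rw [aeval_X]
  rfl

/-- the derivation on the polynomial ring -/
noncomputable def tt_D (m s : ℕ) (i j : Fin s) : Derivation ℂ (BB m s) (BB m s) :=
  mkDerivation ℂ (Sum.elim (fun p => if p.2 = j then bx p.1 i else 0)
    (fun p => if p.2 = j then by' p.1 i else 0))

theorem tt_D_bx {m s : ℕ} (i j : Fin s) (k : Fin m) (w : Fin s) :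
    tt_D m s i j (bx k w) = if w = j then bx k i else 0 := by
  unfold tt_D
  exact mkDerivation_X _ _ _

theorem tt_D_by {m s : ℕ} (i j : Fin s) (k : Fin m) (w : Fin s) :
    tt_D m s i j (by' k w) = if w = j then by' k i else 0 := by
  unfold tt_D
  exact mkDerivation_X _ _ _

theorem tt_JI {m s : ℕ} (i : Fin m) (u v : Fin s) : (by' i u * by' i v : BB m s) ∈ JI m s :=
  Ideal.subset_span ⟨i, u, v, rfl⟩

theorem tt_D_JI {m s : ℕ} (i j : Fin s) (z : BB m s) (hz : z ∈ JI m s) :
    tt_D m s i j z ∈ JI m s := by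
  unfold JI at hz
  induction hz using Submodule.span_induction with
  | mem a ha =>
    obtain ⟨k, u, v, rfl⟩ := ha
    rw [Derivation.leibniz, tt_D_by, tt_D_by, smul_eq_mul, smul_eq_mul]
    refine Ideal.add_mem _ ?_ ?_
    · split_ifs
      · exact tt_JI k u i
      · rw [mul_zero]; exact Ideal.zero_mem _
    · split_ifs
      · exact tt_JI k v i
      · rw [mul_zero]; exact Ideal.zero_mem _
  | zero => rw [map_zero]; exact Ideal.zero_mem _
  | add b c _ _ hb hc => rw [map_add]; exact Ideal.add_mem _ hb hc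
  | smul a b hb' hb =>
    rw [smul_eq_mul, Derivation.leibniz, smul_eq_mul, smul_eq_mul]
    exact Ideal.add_mem _ (Ideal.mul_mem_left _ _ hb) (Ideal.mul_mem_right _ _ hb')

theorem tt_D_cen {m s : ℕ} (i j : Fin s) (k : Fin m) (w : Fin s) :
    tt_D m s i j (cen m s (bx k w)) = if w = j then cen m s (bx k i) else 0 := by
  rw [tt_cen_bx, map_sub, tt_D_bx, Derivation.leibniz, derivation_C, smul_zero, add_zero,
    smul_eq_mul, map_sum]
  by_cases h : w = j
  · simp only [tt_D_bx, if_pos h, tt_cen_bx]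
  · simp only [tt_D_bx, if_neg h, Finset.sum_const_zero, mul_zero, sub_zero]

/-- the projection -/
noncomputable def tt_pi (m s : ℕ) : BB m s →ₐ[ℂ] (BB m s ⧸ JI m s) :=
  Ideal.Quotient.mkₐ ℂ (JI m s)

theorem tt_pi_surj (m s : ℕ) : Function.Surjective (tt_pi m s) :=
  Ideal.Quotient.mkₐ_surjective ℂ (JI m s)

theorem tt_pi_eq_zero {m s : ℕ} {z : BB m s} : tt_pi m s z = 0 ↔ z ∈ JI m s :=
  Ideal.Quotient.eq_zero_iff_mem

/-- the particle system -/
noncomputable def tt_P (m s : ℕ) (hm : 1 ≤ m) : PS m s (BB m s ⧸ JI m s) where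
  x i w := tt_pi m s (cen m s (bx i w))
  y i w := tt_pi m s (by' i w)
  xsum w := by
    rw [← map_sum]
    have e : ∑ i : Fin m, cen m s (bx i w) = 0 := by
      simp only [tt_cen_bx]
      rw [Finset.sum_sub_distrib, Finset.sum_const, Finset.card_univ, Fintype.card_fin,
        nsmul_eq_mul, ← mul_assoc]
      have h1 : ((m : ℕ) : BB m s) * C (1 / (m : ℂ)) = 1 := by
        have h2 : ((m : ℕ) : BB m s) = C (m : ℂ) := by simp
        have hm0 : (m : ℂ) ≠ 0 := by
          exact_mod_cast (by omega : m ≠ 0)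
        rw [h2, ← C_mul, mul_one_div_cancel hm0, C_1]
      rw [h1, one_mul, sub_self]
    rw [e, map_zero]
  yy i u v := by
    rw [← map_mul]
    exact tt_pi_eq_zero.mpr (tt_JI i u v)

/-- the derivations -/
noncomputable def tt_G (m s : ℕ) (hm : 1 ≤ m) : (tt_P m s hm).GD where
  D i j := Derivation.liftOfSurjective (f := tt_pi m s) (tt_pi_surj m s) (d := tt_D m s i j)
    fun z hz => tt_pi_eq_zero.mpr (tt_D_JI i j z (tt_pi_eq_zero.mp hz))
  Dx i j k w := by
    change Derivation.liftOfSurjective (f := tt_pi m s) (tt_pi_surj m s) (d := tt_D m s i j) _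
      (tt_pi m s (cen m s (bx k w))) = if w = j then tt_pi m s (cen m s (bx k i)) else 0
    rw [Derivation.liftOfSurjective_apply, tt_D_cen]
    split_ifs
    · rfl
    · rw [map_zero]
  Dy i j k w := by
    change Derivation.liftOfSurjective (f := tt_pi m s) (tt_pi_surj m s) (d := tt_D m s i j) _
      (tt_pi m s (by' k w)) = if w = j then tt_pi m s (by' k i) else 0
    rw [Derivation.liftOfSurjective_apply, tt_D_by]
    split_ifs
    · rfl
    · rw [map_zero]

theorem kTT (hInj : InjStmt) (hSq : SqStmt) (hTra : TraStmt) (hInv : InvStmt) : TTStmt := by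
  intro m s l hm
  refine ⟨BB m s ⧸ JI m s, inferInstance, inferInstance, tt_P m s hm, tt_G m s hm, ?_⟩
  intro ν F hF hDE hTh
  have h1 : tt_pi m s (cen m s (Th (bx (m := m) (s := s)) by' l F)) =
      Th (tt_P m s hm).x (tt_P m s hm).y l F := by
    have h2 := tt_Th ((tt_pi m s).comp (cen m s)) (bx (m := m) (s := s)) by' l F
    have e1 : (fun (i : Fin m) (w : Fin s) => ((tt_pi m s).comp (cen m s)) (by' i w)) =
        (tt_P m s hm).y := by
      funext i w
      rw [AlgHom.comp_apply, tt_cen_by]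
      rfl
    rw [e1] at h2
    exact h2
  have h2 : cen m s (Th (bx (m := m) (s := s)) by' l F) = Th (bx (m := m) (s := s)) by' l F := by
    refine hInv m s _ fun v => ?_
    rw [hTra, hDE v, map_zero]
  rw [h2, hTh] at h1
  exact hInj m s l ν F hF (hSq m s l ν F hF (tt_pi_eq_zero.mp h1))

end T2

end Pool.Agent.Lib.MP_a688ad_al
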