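import Pool.Agent.Lib.MP_a688ad_al.T2.Spec

/-!
# V4: equivariance of `Θ`
-/

set_option autoImplicit false

open MvPolynomial Finset

namespace Pool.Agent.Lib.MP_a688ad_al

namespace T2

/-- a derivation of a product in which the letters `j'` are replaced by `i'` -/
private theorem thE_prod {s l : ℕ} {T : Type} [CommRing T] [Algebra ℂ T] (D : Derivation ℂ T T)
    (i' j' : Fin s) (V : Fin l → Fin s → T) (hV : ∀ b c, D (V b c) = if c = j' then V b i' else 0)
    (τ : Fin l → Fin s) :
    D (∏ b, V b (τ b)) = ∑ b, if τ b = j' then ∏ c, V c (Function.update τ b i' c) else 0 := by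
  have key : ∀ B : Finset (Fin l), D (∏ b ∈ B, V b (τ b))
      = ∑ b ∈ B, if τ b = j' then ∏ c ∈ B, V c (Function.update τ b i' c) else 0 := by
    intro B
    induction B using Finset.induction_on with
    | empty =>
      rw [Finset.prod_empty, Finset.sum_empty]
      exact D.map_one_eq_zero
    | insert a B ha ih =>
      rw [Finset.prod_insert ha, Derivation.leibniz, ih, hV, Finset.sum_insert ha, smul_eq_mul,
        smul_eq_mul, add_comm]
      congr 1
      · by_cases h : τ a = j'
        · rw [if_pos h, if_pos h, Finset.prod_insert ha, Function.update_self, mul_comm]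
          congr 1
          refine Finset.prod_congr rfl fun c hc => ?_
          have hca : c ≠ a := by
            rintro rfl
            exact ha hc
          rw [Function.update_of_ne hca]
        · rw [if_neg h, if_neg h, mul_zero]
      · rw [Finset.mul_sum]
        refine Finset.sum_congr rfl fun b hb => ?_
        have hab : a ≠ b := by
          rintro rfl
          exact ha hb
        by_cases h : τ b = j'
        · rw [if_pos h, if_pos h, Finset.prod_insert ha, Function.update_of_ne hab]
        · rw [if_neg h, if_neg h, mul_zero]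
  exact key univ

theorem kThE : ThEStmt := by
  intro m s l T _ _ P G i j F
  -- the algebra maps
  have hA : ∀ A : Finset (Fin m), G.D i j ((aeval (fun a => ∑ k ∈ A, ab P.x P.y a k) :
      MvPolynomial (Ib (s + 1) l) ℂ →ₐ[ℂ] T) F) =
      (aeval (fun a => ∑ k ∈ A, ab P.x P.y a k) : MvPolynomial (Ib (s + 1) l) ℂ →ₐ[ℂ] T)
        (DE i.succ j.succ F) := by
    intro A
    set g : MvPolynomial (Ib (s + 1) l) ℂ →ₐ[ℂ] T := aeval (fun a => ∑ k ∈ A, ab P.x P.y a k)
      with hg
    have hXt : ∀ τ : Fin (l + 1) → Fin (s + 1), g (Xt τ) = ∑ k ∈ A, ∏ b : Fin (l + 1),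
        (Fin.cons (Fin.cons 1 (fun w => P.x k w + P.y k w)) (fun _ => Fin.cons 1 (P.x k)) :
          Fin (l + 1) → Fin (s + 1) → T) b (τ b) := by
      intro τ
      unfold Xt
      rw [hg, aeval_X]
      refine Finset.sum_congr rfl fun k _ => ?_
      rw [Fin.prod_univ_succ]
      unfold ab
      rw [sy_val, Multiset.map_map]
      rfl
    have hX : ∀ p : Ib (s + 1) l, G.D i j (g (X p)) = g (DE i.succ j.succ (X p)) := by
      intro p
      obtain ⟨τ, hτ⟩ := Xt_surj p
      rw [← hτ, DE_Xt, hXt, map_sum, map_sum]
      have h1 : ∀ b : Fin (l + 1), g (if τ b = j.succ then Xt (Function.update τ b i.succ) else 0)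
          = if τ b = j.succ then g (Xt (Function.update τ b i.succ)) else 0 := by
        intro b
        split_ifs
        · rfl
        · exact map_zero g
      rw [Finset.sum_congr rfl fun b _ => h1 b]
      simp only [hXt]
      have h2 : ∀ k ∈ A, G.D i j (∏ b : Fin (l + 1),
          (Fin.cons (Fin.cons 1 (fun w => P.x k w + P.y k w)) (fun _ => Fin.cons 1 (P.x k)) :
            Fin (l + 1) → Fin (s + 1) → T) b (τ b)) = ∑ b : Fin (l + 1), if τ b = j.succ then
          ∏ c : Fin (l + 1),
          (Fin.cons (Fin.cons 1 (fun w => P.x k w + P.y k w)) (fun _ => Fin.cons 1 (P.x k)) :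
            Fin (l + 1) → Fin (s + 1) → T) c (Function.update τ b i.succ c) else 0 := by
        intro k _
        apply thE_prod
        intro b c
        refine Fin.cases ?_ (fun b => ?_) b
        · rw [Fin.cons_zero]
          refine Fin.cases ?_ (fun w => ?_) c
          · rw [Fin.cons_zero, if_neg (Fin.succ_ne_zero j).symm]
            exact (G.D i j).map_one_eq_zero
          · rw [Fin.cons_succ, Fin.cons_succ, map_add, G.Dx, G.Dy]
            by_cases h : w = j
            · rw [if_pos h, if_pos h, if_pos (congrArg Fin.succ h)]
            · rw [if_neg h, if_neg h, if_neg (fun h' => h (Fin.succ_injective _ h')), add_zero]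
        · rw [Fin.cons_succ]
          refine Fin.cases ?_ (fun w => ?_) c
          · rw [Fin.cons_zero, if_neg (Fin.succ_ne_zero j).symm]
            exact (G.D i j).map_one_eq_zero
          · rw [Fin.cons_succ, Fin.cons_succ, G.Dx]
            by_cases h : w = j
            · rw [if_pos h, if_pos (congrArg Fin.succ h)]
            · rw [if_neg h, if_neg (fun h' => h (Fin.succ_injective _ h'))]
      rw [Finset.sum_congr rfl h2, Finset.sum_comm]
      refine Finset.sum_congr rfl fun b _ => ?_
      by_cases h : τ b = j.succ
      · simp only [if_pos h]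
      · simp only [if_neg h, Finset.sum_const_zero]
    induction F using MvPolynomial.induction_on with
    | C a =>
      rw [← MvPolynomial.algebraMap_eq, AlgHom.commutes, Derivation.map_algebraMap,
        Derivation.map_algebraMap, map_zero]
    | add p q hp hq => rw [map_add, map_add, hp, hq, map_add, map_add]
    | mul_X p n hp =>
      rw [map_mul, Derivation.leibniz, Derivation.leibniz, map_add, smul_eq_mul, smul_eq_mul,
        smul_eq_mul, smul_eq_mul, map_mul, map_mul, hp, hX]
  unfold Th
  rw [LinearMap.sum_apply, LinearMap.sum_apply, map_sum]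
  refine Finset.sum_congr rfl fun A _ => ?_
  rw [LinearMap.smul_apply, LinearMap.smul_apply, Derivation.map_smul]
  exact congrArg _ (hA A)

end T2

end Pool.Agent.Lib.MP_a688ad_al
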