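import Pool.Agent.Lib.MP_a688ad_al.T2.Spec

/-!
# MP_a688ad_al, stable range, module ThO: the values of `Th` are combinations of orbit sums
-/

set_option autoImplicit false

open MvPolynomial Finset

namespace Pool.Agent.Lib.MP_a688ad_al

namespace T2

/-- A multiset is the image of a tuple. -/
theorem thO_tuple {ι : Type} (M : Multiset ι) (m : ℕ) (h : Multiset.card M = m) :
    ∃ a : Fin m → ι, univ.val.map a = M := by
  induction M using Quot.inductionOn with
  | _ L =>
    have hl : L.length = m := h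
    subst hl
    refine ⟨L.get, ?_⟩
    show univ.val.map L.get = (L : Multiset ι)
    exact Fin.univ_val_map L.get |>.trans (by rw [List.ofFn_get])

theorem thO_prodX {ι : Type} [DecidableEq ι] (M : Multiset ι) :
    (M.map (X : ι → MvPolynomial ι ℂ)).prod = monomial (Multiset.toFinsupp M) 1 := by
  induction M using Multiset.induction_on with
  | empty => simp
  | cons a M ih =>
    rw [Multiset.map_cons, Multiset.prod_cons, ih, ← Multiset.singleton_add, map_add,
      Multiset.toFinsupp_singleton, X, monomial_mul, one_mul]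

theorem thO_weight {ι N : Type} [DecidableEq ι] [AddCommGroup N] (w : ι → N) (M : Multiset ι) :
    Finsupp.weight w (Multiset.toFinsupp M) = (M.map w).sum := by
  induction M using Multiset.induction_on with
  | empty => simp
  | cons a M ih =>
    rw [Multiset.map_cons, Multiset.sum_cons, ← ih, ← Multiset.singleton_add, map_add,
      Multiset.toFinsupp_singleton, map_add]
    congr 1
    rw [Finsupp.weight_apply, Finsupp.sum_single_index (by simp), one_smul]

/-- The nonzero letters. -/
def thO_lt {s : ℕ} (t : Multiset (Fin (s + 1))) : Multiset (Fin s) :=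
  t.filterMap (Fin.cases none some)

theorem thO_lt_zero {s : ℕ} (t : Multiset (Fin (s + 1))) : thO_lt (0 ::ₘ t) = thO_lt t := by
  unfold thO_lt
  rw [Multiset.filterMap_cons_none]
  rfl

theorem thO_lt_succ {s : ℕ} (w : Fin s) (t : Multiset (Fin (s + 1))) :
    thO_lt (w.succ ::ₘ t) = w ::ₘ thO_lt t := by
  unfold thO_lt
  rw [Multiset.filterMap_cons_some _ _ _ (b := w)]
  rfl

theorem thO_sg {s : ℕ} (w v : Fin s) : sg w.succ v.succ = sg w v := by
  unfold sg
  rw [Pi.single_apply, Pi.single_apply]
  simp only [Fin.succ_inj]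

theorem thO_sg0 {s : ℕ} (v : Fin s) : sg (0 : Fin (s + 1)) v.succ = 0 := by
  unfold sg
  rw [Pi.single_apply, if_neg (Fin.succ_ne_zero v)]

theorem thO_lt_prod {s : ℕ} {T : Type} [CommRing T] (z : Fin s → T) (t : Multiset (Fin (s + 1))) :
    (t.map (Fin.cons 1 z : Fin (s + 1) → T)).prod = ((thO_lt t).map z).prod := by
  induction t using Multiset.induction_on with
  | empty => simp [thO_lt]
  | cons c t ih =>
    rw [Multiset.map_cons, Multiset.prod_cons, ih]
    refine Fin.cases ?_ (fun w => ?_) c
    · rw [thO_lt_zero, Fin.cons_zero, one_mul]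
    · rw [thO_lt_succ, Fin.cons_succ, Multiset.map_cons, Multiset.prod_cons]

theorem thO_lt_wt {s : ℕ} (t : Multiset (Fin (s + 1))) (v : Fin s) :
    (t.map sg).sum v.succ = wtM (thO_lt t) v := by
  induction t using Multiset.induction_on with
  | empty => simp [thO_lt, wtM_zero]
  | cons c t ih =>
    rw [Multiset.map_cons, Multiset.sum_cons, Pi.add_apply, ih]
    refine Fin.cases ?_ (fun w => ?_) c
    · rw [thO_lt_zero, thO_sg0, zero_add]
    · rw [thO_lt_succ, wtM_cons, Pi.add_apply, thO_sg]

/-- The letters of `Le s` which occur in a basis vector. -/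
def thO_B {s l : ℕ} (p : Ib (s + 1) l) : Finset (Le s) :=
  Fin.cases {(thO_lt p.2.1, none)} (fun w => {(w ::ₘ thO_lt p.2.1, none), (thO_lt p.2.1, some w)}) p.1

theorem thO_wtB {s l : ℕ} (p : Ib (s + 1) l) (b : Le s) (hb : b ∈ thO_B p) (v : Fin s) :
    wtA b v = wt p v.succ := by
  obtain ⟨c, t⟩ := p
  unfold thO_B at hb
  revert hb
  refine Fin.cases ?_ (fun w => ?_) c
  · intro hb
    rw [Fin.cases_zero, Finset.mem_singleton] at hb
    subst hb
    unfold wtA wt
    simp only [Option.elim_none, Pi.add_apply, Pi.zero_apply]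
    rw [thO_sg0, zero_add, thO_lt_wt, add_zero]
  · intro hb
    rw [Fin.cases_succ, Finset.mem_insert, Finset.mem_singleton] at hb
    rcases hb with rfl | rfl
    · unfold wtA wt
      simp only [Option.elim_none, Pi.add_apply, Pi.zero_apply]
      rw [thO_sg, thO_lt_wt, wtM_cons, Pi.add_apply, add_zero]
    · unfold wtA wt
      simp only [Option.elim_some, Pi.add_apply]
      rw [thO_sg, thO_lt_wt, add_comm]

theorem thO_ab {m s l : ℕ} {T : Type} [CommRing T] [Algebra ℂ T] (P : PS m s T)
    (p : Ib (s + 1) l) (i : Fin m) : ab P.x P.y p i = ∑ b ∈ thO_B p, P.am b i := by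
  obtain ⟨c, t⟩ := p
  unfold ab thO_B
  refine Fin.cases ?_ (fun w => ?_) c
  · simp only [Fin.cases_zero, Fin.cons_zero, one_mul, Finset.sum_singleton]
    rw [thO_lt_prod]
    unfold PS.am PS.mon
    simp
  · simp only [Fin.cases_succ, Fin.cons_succ]
    rw [Finset.sum_pair (by simp), thO_lt_prod]
    unfold PS.am PS.mon
    simp only [Option.elim_none, Option.elim_some, Multiset.map_cons, Multiset.prod_cons, mul_one]
    ring

theorem thO_Th {m s l : ℕ} {T : Type} [CommRing T] [Algebra ℂ T] (h : PolStmt) (P : PS m s T)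
    (a : Fin m → Ib (s + 1) l) :
    Th P.x P.y l (∏ t, X (a t)) = ∑ σ : Equiv.Perm (Fin m), ∏ t, ab P.x P.y (a t) (σ t) := by
  rw [← h m T (Ib (s + 1) l) (ab P.x P.y) a]
  unfold Th
  rw [LinearMap.sum_apply]
  refine Finset.sum_congr rfl fun A _ => ?_
  rw [LinearMap.smul_apply, AlgHom.toLinearMap_apply, map_prod]
  simp only [aeval_X]

theorem thO_mono {m s l : ℕ} {T : Type} [CommRing T] [Algebra ℂ T] (h : PolStmt) (P : PS m s T)
    (ν : Fin (s + 1) → ℤ) (a : Fin m → Ib (s + 1) l) (ha : ∑ t, wt (a t) = ν) :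
    Th P.x P.y l (∏ t, X (a t)) ∈ P.Orb (fun w => ν w.succ) := by
  classical
  have h1 : Th P.x P.y l (∏ t, X (a t)) =
      ∑ β ∈ Fintype.piFinset (fun t => thO_B (a t)), P.orb β := by
    rw [thO_Th h]
    unfold PS.orb
    rw [Finset.sum_comm]
    refine Finset.sum_congr rfl fun σ _ => ?_
    rw [← Finset.prod_univ_sum (fun t => thO_B (a t)) (fun t b => P.am b (σ t))]
    exact Finset.prod_congr rfl fun t _ => thO_ab P (a t) (σ t)
  rw [h1]
  apply Submodule.sum_mem
  intro β hβ
  apply Submodule.subset_span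
  refine ⟨β, ?_, rfl⟩
  rw [Fintype.mem_piFinset] at hβ
  funext v
  rw [← ha, Finset.sum_apply, Finset.sum_apply]
  exact Finset.sum_congr rfl fun t _ => thO_wtB (a t) (β t) (hβ t) v

theorem kThO (h : PolStmt) : ThOStmt := by
  intro m s l T _ _ P ν F hF
  classical
  rw [mem_Gl] at hF
  rw [← support_sum_monomial_coeff F, map_sum]
  apply Submodule.sum_mem
  intro d hd
  have hw : Finsupp.weight WT d = (ν, (m : ℤ)) := hF (mem_support_iff.1 hd)
  let M : Multiset (Ib (s + 1) l) := Finsupp.toMultiset d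
  have hM : Multiset.toFinsupp M = d := by
    change Multiset.toFinsupp (Finsupp.toMultiset d) = d
    rw [Finsupp.toMultiset_toFinsupp]
  have hw2 : (M.map WT).sum = (ν, (m : ℤ)) := by
    rw [← thO_weight, hM, hw]
  have hcard : Multiset.card M = m := by
    have h2 := weight_snd d
    rw [hw] at h2
    have h3 : Multiset.card M = d.degree := by
      change Multiset.card (Finsupp.toMultiset d) = d.degree
      rw [Finsupp.card_toMultiset, Finsupp.degree_apply]
      rfl
    have h4 : (m : ℤ) = (d.degree : ℤ) := h2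
    omega
  obtain ⟨a, ha⟩ := thO_tuple M m hcard
  have h5 : ∏ t, (X (a t) : MvPolynomial (Ib (s + 1) l) ℂ) = monomial d 1 := by
    rw [← hM, ← thO_prodX, ← ha, Multiset.map_map]
    rfl
  have h6 : ∑ t, wt (a t) = ν := by
    have h7 : ∑ t, WT (a t) = (ν, (m : ℤ)) := by
      rw [← hw2, ← ha, Multiset.map_map]
      rfl
    have h8 := congrArg Prod.fst h7
    rw [Prod.fst_sum] at h8
    exact h8
  have h9 : (monomial d (coeff d F) : MvPolynomial (Ib (s + 1) l) ℂ) =
      (coeff d F) • ∏ t, X (a t) := by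
    rw [h5, smul_monomial, smul_eq_mul, mul_one]
  rw [h9, map_smul]
  exact Submodule.smul_mem _ _ (thO_mono h P ν a h6)

end T2

end Pool.Agent.Lib.MP_a688ad_al
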