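import Pool.Agent.Lib.MP_a688ad_al.T2.Spec

/-!
# MP_a688ad_al, stable range: translations (`TraStmt`)
-/

set_option autoImplicit false

open MvPolynomial Finset

namespace Pool.Agent.Lib.MP_a688ad_al

namespace T2

section

variable {R : Type} [CommRing R] [Algebra ℂ R]

private theorem tra_leib (D : Derivation ℂ R R) {ι : Type} [DecidableEq ι] (S : Finset ι)
    (f : ι → R) : D (∏ a ∈ S, f a) = ∑ a ∈ S, (∏ b ∈ S.erase a, f b) * D (f a) := by
  induction S using Finset.induction_on with
  | empty => simp
  | insert a S ha ih =>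
    rw [Finset.prod_insert ha, Derivation.leibniz, ih, Finset.sum_insert ha,
      Finset.erase_insert ha, smul_eq_mul, smul_eq_mul, Finset.mul_sum, add_comm]
    congr 1
    refine Finset.sum_congr rfl fun c hc => ?_
    have hca : c ≠ a := fun h => ha (h ▸ hc)
    rw [Finset.erase_insert_of_ne hca.symm, Finset.prod_insert
      (fun h => ha (Finset.mem_of_mem_erase h)), mul_assoc]

private theorem tra_sum_apply {ι : Type} [Fintype ι] (D : ι → Derivation ℂ R R) (x : R) :
    (∑ i, D i) x = ∑ i, D i x := by
  have h := congrFun (map_sum (Derivation.coeFnAddMonoidHom : Derivation ℂ R R →+ (R → R)) D univ) x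
  rw [Finset.sum_apply] at h
  exact h

/-- `∏ z a (τ a)` for a derivation which maps `z a w₀` to `z a 0` and the others to zero. -/
private theorem tra_prod (D : Derivation ℂ R R) {k r : ℕ} (w₀ : Fin (r + 1))
    (z : Fin k → Fin (r + 1) → R) (hz : ∀ a u, D (z a u) = if u = w₀ then z a 0 else 0)
    (τ : Fin k → Fin (r + 1)) : D (∏ a, z a (τ a)) =
      ∑ a, if τ a = w₀ then ∏ b, z b (Function.update τ a 0 b) else 0 := by
  rw [tra_leib]
  refine Finset.sum_congr rfl fun a _ => ?_
  rw [hz]
  split_ifs with h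
  · rw [← Finset.mul_prod_erase univ _ (Finset.mem_univ a), Function.update_self, mul_comm]
    congr 1
    refine Finset.prod_congr rfl fun b hb => ?_
    rw [Function.update_of_ne (Finset.ne_of_mem_erase hb)]
  · rw [mul_zero]

end

variable {m s l : ℕ}

/-- the translation -/
private noncomputable def traD (m : ℕ) {s : ℕ} (v : Fin s) : Derivation ℂ (BB m s) (BB m s) :=
  ∑ i, pderiv (Sum.inl (i, v))

private theorem traD_bx (v : Fin s) (j : Fin m) (w : Fin s) :
    traD m v (bx j w) = if w = v then 1 else 0 := by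
  unfold traD bx
  rw [tra_sum_apply]
  simp only [pderiv_X, Pi.single_apply, Sum.inl.injEq, Prod.mk.injEq]
  split_ifs with h
  · subst h
    simp
  · refine Finset.sum_eq_zero fun i _ => ?_
    rw [if_neg fun h' => h h'.2]

private theorem traD_by (v : Fin s) (j : Fin m) (w : Fin s) :
    traD m v (by' j w) = 0 := by
  unfold traD by'
  rw [tra_sum_apply]
  refine Finset.sum_eq_zero fun i _ => ?_
  rw [pderiv_X, Pi.single_apply, if_neg (by simp)]

/-- the factors -/
private noncomputable def traz (j : Fin m) : Fin (l + 1) → Fin (s + 1) → BB m s :=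
  Fin.cons (Fin.cons 1 fun w => bx j w + by' j w) fun _ => Fin.cons 1 (bx j)

private theorem traD_z (v : Fin s) (j : Fin m) (a : Fin (l + 1)) (u : Fin (s + 1)) :
    traD m v (traz j a u) = if u = v.succ then traz j a 0 else 0 := by
  unfold traz
  refine Fin.cases ?_ (fun a => ?_) a
  · rw [Fin.cons_zero, Fin.cons_zero]
    refine Fin.cases ?_ (fun w => ?_) u
    · rw [Fin.cons_zero, Derivation.map_one_eq_zero, if_neg (Fin.succ_ne_zero v).symm]
    · rw [Fin.cons_succ, map_add, traD_bx, traD_by, add_zero]
      simp only [Fin.succ_inj]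
  · rw [Fin.cons_succ, Fin.cons_zero]
    refine Fin.cases ?_ (fun w => ?_) u
    · rw [Fin.cons_zero, Derivation.map_one_eq_zero, if_neg (Fin.succ_ne_zero v).symm]
    · rw [Fin.cons_succ, traD_bx]
      simp only [Fin.succ_inj]

private theorem tra_ab (j : Fin m) (τ : Fin (l + 1) → Fin (s + 1)) :
    ab (bx (m := m) (s := s)) by' ((τ 0, sy fun a => τ a.succ) : Ib (s + 1) l) j =
      ∏ a, traz j a (τ a) := by
  rw [Fin.prod_univ_succ]
  unfold ab traz
  rw [Fin.cons_zero]
  congr 1
  rw [sy_val, Multiset.map_map]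
  rfl

/-- the algebra maps -/
private noncomputable def trag (m s l : ℕ) (A : Finset (Fin m)) :
    MvPolynomial (Ib (s + 1) l) ℂ →ₐ[ℂ] BB m s :=
  aeval (fun a => ∑ i ∈ A, ab bx by' a i)

private theorem trag_Xt (A : Finset (Fin m)) (τ : Fin (l + 1) → Fin (s + 1)) :
    trag m s l A (Xt τ) = ∑ i ∈ A, ∏ a, traz i a (τ a) := by
  unfold trag Xt
  rw [aeval_X]
  exact Finset.sum_congr rfl fun i _ => tra_ab i τ

private theorem tra_X (v : Fin s) (A : Finset (Fin m)) (p : Ib (s + 1) l) :
    traD m v (trag m s l A (X p)) = trag m s l A (DE 0 v.succ (X p)) := by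
  obtain ⟨τ, hτ⟩ := Xt_surj p
  rw [← hτ, DE_Xt, trag_Xt, map_sum, map_sum]
  have h : ∀ i ∈ A, traD m v (∏ a, traz i a (τ a)) =
      ∑ a : Fin (l + 1), if τ a = v.succ then ∏ b, traz i b (Function.update τ a 0 b) else 0 :=
    fun i _ => tra_prod _ v.succ _ (fun a u => traD_z v i a u) τ
  rw [Finset.sum_congr rfl h, Finset.sum_comm]
  refine Finset.sum_congr rfl fun a _ => ?_
  split_ifs with h1
  · rw [trag_Xt]
  · rw [Finset.sum_const_zero, map_zero]

private theorem tra_g (v : Fin s) (A : Finset (Fin m)) (F : MvPolynomial (Ib (s + 1) l) ℂ) :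
    traD m v (trag m s l A F) = trag m s l A (DE 0 v.succ F) := by
  induction F using MvPolynomial.induction_on with
  | C a =>
    rw [← algebraMap_eq, Derivation.map_algebraMap, map_zero, AlgHom.commutes,
      Derivation.map_algebraMap]
  | add p q hp hq => rw [map_add, map_add, map_add, map_add, hp, hq]
  | mul_X p a hp =>
    rw [map_mul, Derivation.leibniz, Derivation.leibniz, hp, tra_X, map_add]
    simp only [smul_eq_mul, map_mul]

theorem kTra : TraStmt := by
  intro m s l v F
  rw [← tra_sum_apply]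
  change traD m v (Th bx by' l F) = _
  unfold Th
  rw [LinearMap.sum_apply, LinearMap.sum_apply, map_sum]
  refine Finset.sum_congr rfl fun A _ => ?_
  rw [LinearMap.smul_apply, LinearMap.smul_apply, Derivation.map_smul]
  congr 1
  exact tra_g v A F

end T2

end Pool.Agent.Lib.MP_a688ad_al
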