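import Pool.Agent.Lib.MP_a688ad_al.T2.Act
import Pool.Agent.Lib.MP_a688ad_al.T2.AmP
import Pool.Agent.Lib.MP_a688ad_al.T2.CW
import Pool.Agent.Lib.MP_a688ad_al.T2.Ch
import Pool.Agent.Lib.MP_a688ad_al.T2.Cs
import Pool.Agent.Lib.MP_a688ad_al.T2.DAm
import Pool.Agent.Lib.MP_a688ad_al.T2.DH
import Pool.Agent.Lib.MP_a688ad_al.T2.Defs
import Pool.Agent.Lib.MP_a688ad_al.T2.End
import Pool.Agent.Lib.MP_a688ad_al.T2.In
import Pool.Agent.Lib.MP_a688ad_al.T2.Inj
import Pool.Agent.Lib.MP_a688ad_al.T2.Inv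
import Pool.Agent.Lib.MP_a688ad_al.T2.K2
import Pool.Agent.Lib.MP_a688ad_al.T2.Key
import Pool.Agent.Lib.MP_a688ad_al.T2.Kn
import Pool.Agent.Lib.MP_a688ad_al.T2.LG
import Pool.Agent.Lib.MP_a688ad_al.T2.Li
import Pool.Agent.Lib.MP_a688ad_al.T2.Main
import Pool.Agent.Lib.MP_a688ad_al.T2.Mu
import Pool.Agent.Lib.MP_a688ad_al.T2.Or1
import Pool.Agent.Lib.MP_a688ad_al.T2.Or2
import Pool.Agent.Lib.MP_a688ad_al.T2.PR
import Pool.Agent.Lib.MP_a688ad_al.T2.PhE
import Pool.Agent.Lib.MP_a688ad_al.T2.Pol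
import Pool.Agent.Lib.MP_a688ad_al.T2.Rel
import Pool.Agent.Lib.MP_a688ad_al.T2.RelK
import Pool.Agent.Lib.MP_a688ad_al.T2.Spec
import Pool.Agent.Lib.MP_a688ad_al.T2.Sq
import Pool.Agent.Lib.MP_a688ad_al.T2.Sw
import Pool.Agent.Lib.MP_a688ad_al.T2.TT
import Pool.Agent.Lib.MP_a688ad_al.T2.ThE
import Pool.Agent.Lib.MP_a688ad_al.T2.ThO
import Pool.Agent.Lib.MP_a688ad_al.T2.Tra

/-!
# The stable range: the theorem
-/

set_option autoImplicit false

open Finset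

namespace Pool.Agent.Lib.MP_a688ad_al

namespace T2

/-- For all `n > m ≥ 3` and every partition `lam` of `n m` with at least three nonzero parts and
first part `≥ n (m - 1)`, the coefficient of `s_lam` in `h_n[h_1 h_{m-1}]` is at least the coefficient
of `s_lam` in `h_m[h_1 h_{n-1}]`. -/
theorem kAll : T2Stmt := by
  have relP := kRelP kCH
  have relM := kRelM kCH
  have relE := kRelE kE2
  have relK := kRelK kE2 kCH
  have amP := kAmP relP relE
  have hK2 := kK2 relM relK amP kKn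
  have hSw := kSw relM relE amP kIn
  have hMu := kMu hK2
  have hPR := kPR relE
  have hOr2 := kOr2 amP hK2 hMu hPR
  have hEnd := kEnd (kOr1 kE2) hOr2 hSw kDAm kDH
  have hTT := kTT (kInj kPol) (kSq kPol) kTra kInv
  exact kT2 kCh hTT (kThO kPol) kThE hEnd (kLi kLG) kCW (kCs kCW kPhE)

end T2

end Pool.Agent.Lib.MP_a688ad_al
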