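import Pool.Agent.Lib.MP_a688ad_al.T2.Spec

/-!
# B4: translation invariant polynomials
-/

set_option autoImplicit false

open MvPolynomial Finset

namespace Pool.Agent.Lib.MP_a688ad_al

namespace T2

/-- the centre of mass -/
private noncomputable def invB {m s : ℕ} (w : Fin s) : BB m s := C (1 / (m : ℂ)) * ∑ j, bx j w

/-- the translation by a multiple of the centre of mass -/
private noncomputable def invK (m s : ℕ) : BB m s →ₐ[ℂ] Polynomial (BB m s) :=
  aeval (Sum.elim (fun p => Polynomial.C (bx p.1 p.2) - Polynomial.X * Polynomial.C (invB p.2))
    (fun p => Polynomial.C (by' p.1 p.2)))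

private noncomputable def invD {m s : ℕ} (w : Fin s) (G : BB m s) : BB m s :=
  ∑ i, pderiv (Sum.inl (i, w)) G

private theorem invD_C {m s : ℕ} (w : Fin s) (a : ℂ) : invD w (C a : BB m s) = 0 := by
  unfold invD
  exact Finset.sum_eq_zero fun i _ => pderiv_C

private theorem invD_add {m s : ℕ} (w : Fin s) (p q : BB m s) :
    invD w (p + q) = invD w p + invD w q := by
  unfold invD
  rw [← Finset.sum_add_distrib]
  exact Finset.sum_congr rfl fun i _ => map_add _ _ _

private theorem invD_mul {m s : ℕ} (w : Fin s) (p q : BB m s) :
    invD w (p * q) = invD w p * q + p * invD w q := by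
  unfold invD
  rw [Finset.sum_mul, Finset.mul_sum, ← Finset.sum_add_distrib]
  refine Finset.sum_congr rfl fun i _ => ?_
  rw [Derivation.leibniz, smul_eq_mul, smul_eq_mul]
  ring

private theorem invD_inl {m s : ℕ} (w v : Fin s) (j : Fin m) :
    invD w (X (Sum.inl (j, v)) : BB m s) = if w = v then 1 else 0 := by
  unfold invD
  have h : ∀ i : Fin m, pderiv (Sum.inl (i, w)) (X (Sum.inl (j, v)) : BB m s)
      = if i = j then (if w = v then 1 else 0) else 0 := by
    intro i
    rw [pderiv_X]
    by_cases h1 : i = j
    · by_cases h2 : w = v
      · subst h1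
        subst h2
        rw [if_pos rfl, if_pos rfl, Pi.single_eq_same]
      · rw [if_pos h1, if_neg h2]
        apply Pi.single_eq_of_ne
        intro h3
        exact h2 (Prod.ext_iff.1 (Sum.inl_injective h3)).2.symm
    · rw [if_neg h1]
      apply Pi.single_eq_of_ne
      intro h3
      exact h1 (Prod.ext_iff.1 (Sum.inl_injective h3)).1.symm
  rw [Finset.sum_congr rfl fun i _ => h i, Finset.sum_ite_eq' univ j, if_pos (Finset.mem_univ j)]

private theorem invD_inr {m s : ℕ} (w : Fin s) (p : Fin m × Fin s) :
    invD w (X (Sum.inr p) : BB m s) = 0 := by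
  unfold invD
  refine Finset.sum_eq_zero fun i _ => ?_
  rw [pderiv_X]
  apply Pi.single_eq_of_ne
  exact Sum.inr_ne_inl

private theorem inv_key {m s : ℕ} (G : BB m s) : Polynomial.derivative (invK m s G)
    = -∑ w, Polynomial.C (invB w) * invK m s (invD w G) := by
  induction G using MvPolynomial.induction_on with
  | C a =>
    have h1 : invK m s (C a) = Polynomial.C (C a) := by
      rw [← MvPolynomial.algebraMap_eq, AlgHom.commutes]
      rfl
    rw [h1, Polynomial.derivative_C]
    simp only [invD_C, map_zero, mul_zero, Finset.sum_const_zero, neg_zero]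
  | add p q hp hq =>
    rw [map_add, Polynomial.derivative_add, hp, hq, ← neg_add, ← Finset.sum_add_distrib]
    congr 1
    refine Finset.sum_congr rfl fun w _ => ?_
    rw [invD_add, map_add, mul_add]
  | mul_X p n hp =>
    have hX : Polynomial.derivative (invK m s (X n))
        = -∑ w, Polynomial.C (invB w) * invK m s (invD w (X n)) := by
      rcases n with ⟨j, v⟩ | n
      · have h1 : invK m s (X (Sum.inl (j, v)))
            = Polynomial.C (bx j v) - Polynomial.X * Polynomial.C (invB v) := by
          unfold invK
          rw [aeval_X]
          rfl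
        rw [h1, Polynomial.derivative_sub, Polynomial.derivative_C, Polynomial.derivative_mul,
          Polynomial.derivative_X, Polynomial.derivative_C, mul_zero, add_zero, one_mul, zero_sub]
        congr 1
        have h2 : ∀ w, Polynomial.C (invB w) * invK m s (invD w (X (Sum.inl (j, v))))
            = if w = v then Polynomial.C (invB w) else 0 := by
          intro w
          rw [invD_inl]
          split_ifs
          · rw [map_one, mul_one]
          · rw [map_zero, mul_zero]
        rw [Finset.sum_congr rfl fun w _ => h2 w, Finset.sum_ite_eq' univ v,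
          if_pos (Finset.mem_univ v)]
      · have h1 : invK m s (X (Sum.inr n)) = Polynomial.C (by' n.1 n.2) := by
          unfold invK
          rw [aeval_X]
          rfl
        rw [h1, Polynomial.derivative_C]
        simp only [invD_inr, map_zero, mul_zero, Finset.sum_const_zero, neg_zero]
    rw [map_mul, Polynomial.derivative_mul, hp, hX]
    have h3 : ∀ w, Polynomial.C (invB w) * invK m s (invD w (p * X n))
        = (Polynomial.C (invB w) * invK m s (invD w p)) * invK m s (X n)
          + invK m s p * (Polynomial.C (invB w) * invK m s (invD w (X n))) := by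
      intro w
      rw [invD_mul, map_add, map_mul, map_mul]
      ring
    rw [Finset.sum_congr rfl fun w _ => h3 w, Finset.sum_add_distrib, ← Finset.sum_mul,
      ← Finset.mul_sum]
    ring

theorem kInv : InvStmt := by
  intro m s G hG
  have h1 : Polynomial.derivative (invK m s G) = 0 := by
    rw [inv_key]
    have h2 : ∀ w, Polynomial.C (invB w) * invK m s (invD w G) = 0 := by
      intro w
      have h3 : invD w G = 0 := hG w
      rw [h3, map_zero, mul_zero]
    rw [Finset.sum_congr rfl fun w _ => h2 w, Finset.sum_const_zero, neg_zero]
  have h2 := Polynomial.derivative_eq_zero.1 h1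
  have h3 := Polynomial.eq_C_of_natDegree_eq_zero h2
  have e1 : Polynomial.eval 1 (invK m s G) = cen m s G := by
    have h4 : ((Polynomial.evalRingHom (1 : BB m s)).comp (invK m s : BB m s →+* Polynomial (BB m s)))
        = (cen m s : BB m s →+* BB m s) := by
      apply MvPolynomial.ringHom_ext
      · intro a
        show Polynomial.eval 1 (invK m s (C a)) = cen m s (C a)
        rw [← MvPolynomial.algebraMap_eq, AlgHom.commutes, AlgHom.commutes]
        exact Polynomial.eval_C
      · intro n
        show Polynomial.eval 1 (invK m s (X n)) = cen m s (X n)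
        unfold invK cen
        rw [aeval_X, aeval_X]
        rcases n with n | n
        · show Polynomial.eval 1 (Polynomial.C (bx n.1 n.2) - Polynomial.X * Polynomial.C (invB n.2))
            = bx n.1 n.2 - C (1 / (m : ℂ)) * ∑ j, bx j n.2
          rw [Polynomial.eval_sub, Polynomial.eval_C, Polynomial.eval_mul, Polynomial.eval_X,
            Polynomial.eval_C, one_mul]
          rfl
        · show Polynomial.eval 1 (Polynomial.C (by' n.1 n.2)) = by' n.1 n.2
          rw [Polynomial.eval_C]
    exact congrArg (fun φ : BB m s →+* BB m s => φ G) h4
  have e0 : Polynomial.eval 0 (invK m s G) = G := by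
    have h4 : ((Polynomial.evalRingHom (0 : BB m s)).comp (invK m s : BB m s →+* Polynomial (BB m s)))
        = RingHom.id (BB m s) := by
      apply MvPolynomial.ringHom_ext
      · intro a
        show Polynomial.eval 0 (invK m s (C a)) = C a
        rw [← MvPolynomial.algebraMap_eq, AlgHom.commutes]
        exact Polynomial.eval_C
      · intro n
        show Polynomial.eval 0 (invK m s (X n)) = X n
        unfold invK
        rw [aeval_X]
        rcases n with n | n
        · show Polynomial.eval 0 (Polynomial.C (bx n.1 n.2) - Polynomial.X * Polynomial.C (invB n.2))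
            = bx n.1 n.2
          rw [Polynomial.eval_sub, Polynomial.eval_C, Polynomial.eval_mul, Polynomial.eval_X,
            zero_mul, sub_zero]
        · show Polynomial.eval 0 (Polynomial.C (by' n.1 n.2)) = by' n.1 n.2
          rw [Polynomial.eval_C]
    exact congrArg (fun φ : BB m s →+* BB m s => φ G) h4
  rw [← e1, h3, Polynomial.eval_C]
  rw [h3, Polynomial.eval_C] at e0
  exact e0

end T2

end Pool.Agent.Lib.MP_a688ad_al
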