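import Pool.Agent.Lib.MP_a688ad_al.T2.Spec

/-!
# V2: polarization
-/

set_option autoImplicit false

open MvPolynomial Finset

namespace Pool.Agent.Lib.MP_a688ad_al

namespace T2

private theorem pol_coef {m : ℕ} (R : Finset (Fin m)) :
    ∑ A : Finset (Fin m), (if R ⊆ A then ((-1 : ℂ) ^ (m - A.card)) else 0)
      = if R = univ then 1 else 0 := by
  rw [← Finset.sum_filter]
  have h1 : ∑ A ∈ (univ : Finset (Finset (Fin m))).filter (fun A => R ⊆ A),
      ((-1 : ℂ) ^ (m - A.card)) = ∑ B ∈ Rᶜ.powerset, (-1 : ℂ) ^ B.card := by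
    refine Finset.sum_bij' (fun A _ => Aᶜ) (fun B _ => Bᶜ) ?_ ?_ ?_ ?_ ?_
    · intro A hA
      rw [Finset.mem_filter] at hA
      rw [Finset.mem_powerset]
      exact Finset.compl_subset_compl.2 hA.2
    · intro B hB
      rw [Finset.mem_powerset] at hB
      rw [Finset.mem_filter]
      exact ⟨Finset.mem_univ _, Finset.subset_compl_comm.1 hB⟩
    · intro A _
      exact compl_compl A
    · intro B _
      exact compl_compl B
    · intro A _
      rw [Finset.card_compl, Fintype.card_fin]
  rw [h1]
  have h2 := Finset.sum_powerset_neg_one_pow_card (x := Rᶜ)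
  have h3 : ∑ B ∈ Rᶜ.powerset, (-1 : ℂ) ^ B.card
      = ((∑ B ∈ Rᶜ.powerset, (-1 : ℤ) ^ B.card : ℤ) : ℂ) := by
    push_cast
    rfl
  rw [h3, h2]
  have h4 : Rᶜ = ∅ ↔ R = univ := Finset.compl_eq_empty_iff R
  by_cases h : R = univ
  · rw [if_pos h, if_pos (h4.2 h), Int.cast_one]
  · rw [if_neg h, if_neg (fun h' => h (h4.1 h')), Int.cast_zero]

theorem kPol : PolStmt := by
  intro m T I _ _ z a
  have h1 : ∀ A : Finset (Fin m), ((-1 : ℂ) ^ (m - A.card)) • ∏ t, ∑ i ∈ A, z (a t) i
      = ∑ f : Fin m → Fin m, (if (univ.image f) ⊆ A then ((-1 : ℂ) ^ (m - A.card)) else 0) •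
        ∏ t, z (a t) (f t) := by
    intro A
    rw [Finset.prod_univ_sum, Finset.smul_sum]
    rw [← Finset.sum_filter_add_sum_filter_not univ (fun f : Fin m → Fin m => univ.image f ⊆ A)]
    have h2 : Fintype.piFinset (fun _ : Fin m => A)
        = univ.filter (fun f : Fin m → Fin m => univ.image f ⊆ A) := by
      ext f
      rw [Fintype.mem_piFinset, Finset.mem_filter]
      constructor
      · intro h
        refine ⟨Finset.mem_univ _, fun i hi => ?_⟩
        obtain ⟨j, _, rfl⟩ := Finset.mem_image.1 hi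
        exact h j
      · intro h t
        exact h.2 (Finset.mem_image_of_mem f (Finset.mem_univ t))
    rw [h2]
    have h3 : ∑ f ∈ univ.filter (fun f : Fin m → Fin m => ¬ univ.image f ⊆ A),
        (if (univ.image f) ⊆ A then ((-1 : ℂ) ^ (m - A.card)) else 0) • ∏ t, z (a t) (f t) = 0 := by
      apply Finset.sum_eq_zero
      intro f hf
      rw [Finset.mem_filter] at hf
      rw [if_neg hf.2, zero_smul]
    rw [h3, add_zero]
    refine Finset.sum_congr rfl fun f hf => ?_
    rw [Finset.mem_filter] at hf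
    rw [if_pos hf.2]
  rw [Finset.sum_congr rfl fun A _ => h1 A, Finset.sum_comm]
  have h4 : ∀ f : Fin m → Fin m,
      ∑ A : Finset (Fin m), (if (univ.image f) ⊆ A then ((-1 : ℂ) ^ (m - A.card)) else 0) •
        ∏ t, z (a t) (f t) = if Function.Bijective f then ∏ t, z (a t) (f t) else 0 := by
    intro f
    rw [← Finset.sum_smul, pol_coef]
    have h5 : univ.image f = univ ↔ Function.Bijective f := by
      constructor
      · intro h
        rw [← Finite.surjective_iff_bijective]
        intro y
        have hy : y ∈ univ.image f := by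
          rw [h]
          exact Finset.mem_univ y
        obtain ⟨x, _, hx⟩ := Finset.mem_image.1 hy
        exact ⟨x, hx⟩
      · intro h
        apply Finset.eq_univ_of_forall
        intro y
        obtain ⟨x, hx⟩ := h.2 y
        exact Finset.mem_image.2 ⟨x, Finset.mem_univ x, hx⟩
    by_cases h : Function.Bijective f
    · rw [if_pos h, if_pos (h5.2 h), one_smul]
    · rw [if_neg h, if_neg (fun h' => h (h5.1 h')), zero_smul]
  rw [Finset.sum_congr rfl fun f _ => h4 f, ← Finset.sum_filter]
  symm
  refine Finset.sum_bij (fun σ _ => (σ : Fin m → Fin m)) ?_ ?_ ?_ ?_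
  · intro σ _
    rw [Finset.mem_filter]
    exact ⟨Finset.mem_univ _, σ.bijective⟩
  · intro σ _ τ _ h
    exact Equiv.coe_fn_injective h
  · intro f hf
    rw [Finset.mem_filter] at hf
    exact ⟨Equiv.ofBijective f hf.2, Finset.mem_univ _, rfl⟩
  · intro σ _
    rfl

end T2

end Pool.Agent.Lib.MP_a688ad_al
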